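import Pool.Agent.H22.CZ.Defs

/-!
# Row Al: identities for the roots of the cubic

PROOF. Put `a2 = b2/N, a1 = b1/N, a0 = b0/N` (in `ℂ`), `ρ = c.rt i`. From `he1, he2, he3` (divide by
`N ≠ 0`): `z + zb + r = -a2`, `z zb + (z + zb) r = a1`, `z zb r = -a0`; hence each root satisfies
`ρ^3 + a2 ρ^2 + a1 ρ + a0 = 0` (`ρ^3 - e1 ρ^2 + e2 ρ - e3 = (ρ - z)(ρ - zb)(ρ - r)`).
* `rt_ne`: `z.im > 0`, `zb.im < 0`, `r` is real.
* `cc_sum`: `∑_j cc j x y^j = x^2 + x y + y^2 + a2 (x + y) + a1 =: F(x, y)`; `(x - y) F(x,y) = f x - f y`,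
  so `F = 0` for two different roots, and `F(x, x) = fp x`. (Expand `Fin.sum_univ_three`.)
* `hh_sum`, `l = 0`: the sum is `N (a1 + x y + a2 (x + y) + x^2 + y^2) = N F(x,y)`;
  `l = 1`: it is `N (-a0 + a2 x y + x y^2 + x^2 y) = N x F(x,y)` (use `f x = 0`). (Expand
  `Fin.sum_univ_six`, `simp [CData.hh, nu]`, `push_cast`, `field_simp`, `linear_combination`.)
* `fp_eq`: `fp z = (z - zb)(z - r)` etc., from `F(x,x)` or from the elementary symmetric functions.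
* `be_r`: casts. `conj`: `map_*` lemmas, `Complex.conj_ofReal`, the coefficients are real.
-/

set_option autoImplicit false

namespace CZ

open Complex

variable (c : CData)

lemma N_ne : (c.N : ℂ) ≠ 0 := by exact_mod_cast c.hN.ne'

lemma sum_rt : c.z + c.zb + c.r = -(c.b2 / c.N) := by
  have h := c.he1
  have hN := N_ne c
  rw [CData.zb]
  field_simp
  linear_combination h

lemma sum2_rt : c.z * c.zb + (c.z + c.zb) * c.r = c.b1 / c.N := by
  have h := c.he2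
  have hN := N_ne c
  rw [CData.zb]
  field_simp
  linear_combination h

lemma prod_rt : c.z * c.zb * c.r = -(c.b0 / c.N) := by
  have h := c.he3
  have hN := N_ne c
  rw [CData.zb]
  field_simp
  linear_combination h

lemma rt_root (i : Fin 3) :
    c.rt i ^ 3 + (c.b2 / c.N) * c.rt i ^ 2 + (c.b1 / c.N) * c.rt i + c.b0 / c.N = 0 := by
  have h1 : (c.b2 / c.N : ℂ) = -(c.z + c.zb + c.r) := by linear_combination (sum_rt c)
  have h2 : (c.b1 / c.N : ℂ) = c.z * c.zb + (c.z + c.zb) * c.r := (sum2_rt c).symm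
  have h3 : (c.b0 / c.N : ℂ) = -(c.z * c.zb * c.r) := by linear_combination (prod_rt c)
  rw [h1, h2, h3]
  fin_cases i
  · show c.z ^ 3 + -(c.z + c.zb + c.r) * c.z ^ 2 + (c.z * c.zb + (c.z + c.zb) * c.r) * c.z +
      -(c.z * c.zb * c.r) = 0
    ring
  · show c.zb ^ 3 + -(c.z + c.zb + c.r) * c.zb ^ 2 + (c.z * c.zb + (c.z + c.zb) * c.r) * c.zb +
      -(c.z * c.zb * c.r) = 0
    ring
  · show (c.r : ℂ) ^ 3 + -(c.z + c.zb + c.r) * (c.r : ℂ) ^ 2 +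
      (c.z * c.zb + (c.z + c.zb) * c.r) * (c.r : ℂ) + -(c.z * c.zb * c.r) = 0
    ring

lemma zb_im : c.zb.im = -c.z.im := by simp [CData.zb]

lemma z_ne_zb : c.z ≠ c.zb := by
  intro h
  have h1 := congrArg Complex.im h
  rw [zb_im] at h1
  have := c.hz
  linarith

lemma z_ne_r : c.z ≠ (c.r : ℂ) := by
  intro h
  have h1 := congrArg Complex.im h
  rw [Complex.ofReal_im] at h1
  have := c.hz
  linarith

lemma zb_ne_r : c.zb ≠ (c.r : ℂ) := by
  intro h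
  have h1 := congrArg Complex.im h
  rw [Complex.ofReal_im, zb_im] at h1
  have := c.hz
  linarith

lemma rt_ne {i i' : Fin 3} (h : i ≠ i') : c.rt i ≠ c.rt i' := by
  have h1 := z_ne_zb c
  have h2 := z_ne_r c
  have h3 := zb_ne_r c
  fin_cases i <;> fin_cases i' <;> first
    | exact absurd rfl h
    | exact h1
    | exact h2
    | exact h3
    | exact h1.symm
    | exact h2.symm
    | exact h3.symm

/-- `(f x - f y) / (x - y)`. -/
lemma F_eq_zero {i i' : Fin 3} (h : i ≠ i') :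
    c.rt i ^ 2 + c.rt i * c.rt i' + c.rt i' ^ 2 + (c.b2 / c.N) * (c.rt i + c.rt i') +
      c.b1 / c.N = 0 := by
  have h1 := rt_root c i
  have h2 := rt_root c i'
  have h3 : c.rt i - c.rt i' ≠ 0 := sub_ne_zero.mpr (rt_ne c h)
  apply mul_left_cancel₀ h3
  linear_combination h1 - h2

lemma cc_sum (i i' : Fin 3) :
    ∑ j : Fin 3, c.cc j (c.rt i) * c.rt i' ^ (j : ℕ) = if i = i' then c.fp (c.rt i) else 0 := by
  have key : ∑ j : Fin 3, c.cc j (c.rt i) * c.rt i' ^ (j : ℕ) =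
      c.rt i ^ 2 + c.rt i * c.rt i' + c.rt i' ^ 2 + (c.b2 / c.N) * (c.rt i + c.rt i') +
      c.b1 / c.N := by
    rw [Fin.sum_univ_three]
    show (c.rt i ^ 2 + (c.b2 / c.N) * c.rt i + c.b1 / c.N) * c.rt i' ^ 0 +
      (c.rt i + c.b2 / c.N) * c.rt i' ^ 1 + 1 * c.rt i' ^ 2 = _
    ring
  rw [key]
  split_ifs with h
  · subst h
    rw [CData.fp]
    ring
  · exact F_eq_zero c h

lemma hh_sum (l : Fin 2) (i i' : Fin 3) :
    ∑ j : Fin 6, (c.hh l j : ℂ) * nu j (c.rt i) * nu j (c.rt i') =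
      if i = i' then c.be l (c.rt i) else 0 := by
  have hN := N_ne c
  have hb2 : (c.b2 : ℂ) = c.N * (c.b2 / c.N) := by field_simp
  have hb1 : (c.b1 : ℂ) = c.N * (c.b1 / c.N) := by field_simp
  have hb0 : (c.b0 : ℂ) = c.N * (c.b0 / c.N) := by field_simp
  have key : ∑ j : Fin 6, (c.hh l j : ℂ) * nu j (c.rt i) * nu j (c.rt i') =
      c.N * c.rt i ^ (l : ℕ) * (c.rt i ^ 2 + c.rt i * c.rt i' + c.rt i' ^ 2 +
      (c.b2 / c.N) * (c.rt i + c.rt i') + c.b1 / c.N) := by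
    rw [Fin.sum_univ_six]
    have hr := rt_root c i
    fin_cases l
    · show ((c.b1 - c.b2 - c.N : ℤ) : ℂ) * 1 * 1 + ((c.N - c.b2 : ℤ) : ℂ) * c.rt i * c.rt i' +
        ((-c.N : ℤ) : ℂ) * c.rt i ^ 2 * c.rt i' ^ 2 + ((c.b2 : ℤ) : ℂ) * (1 + c.rt i) *
        (1 + c.rt i') + ((c.N : ℤ) : ℂ) * (1 + c.rt i ^ 2) * (1 + c.rt i' ^ 2) +
        ((0 : ℤ) : ℂ) * (c.rt i + c.rt i ^ 2) * (c.rt i' + c.rt i' ^ 2) =
        c.N * c.rt i ^ 0 * (c.rt i ^ 2 + c.rt i * c.rt i' + c.rt i' ^ 2 +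
        (c.b2 / c.N) * (c.rt i + c.rt i') + c.b1 / c.N)
      push_cast
      linear_combination hb1 + (c.rt i + c.rt i') * hb2
    · show ((-c.b0 : ℤ) : ℂ) * 1 * 1 + ((c.b2 - c.N : ℤ) : ℂ) * c.rt i * c.rt i' +
        ((-c.N : ℤ) : ℂ) * c.rt i ^ 2 * c.rt i' ^ 2 + ((0 : ℤ) : ℂ) * (1 + c.rt i) *
        (1 + c.rt i') + ((0 : ℤ) : ℂ) * (1 + c.rt i ^ 2) * (1 + c.rt i' ^ 2) +
        ((c.N : ℤ) : ℂ) * (c.rt i + c.rt i ^ 2) * (c.rt i' + c.rt i' ^ 2) =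
        c.N * c.rt i ^ 1 * (c.rt i ^ 2 + c.rt i * c.rt i' + c.rt i' ^ 2 +
        (c.b2 / c.N) * (c.rt i + c.rt i') + c.b1 / c.N)
      push_cast
      linear_combination -hb0 + (c.rt i * c.rt i') * hb2 - c.N * hr
  rw [key]
  split_ifs with h
  · subst h
    rw [CData.be, CData.fp]
    ring
  · rw [F_eq_zero c h, mul_zero]

lemma fp_ne (i : Fin 3) : c.fp (c.rt i) ≠ 0 := by
  have h1 : (c.b2 / c.N : ℂ) = -(c.z + c.zb + c.r) := by linear_combination (sum_rt c)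
  have h2 : (c.b1 / c.N : ℂ) = c.z * c.zb + (c.z + c.zb) * c.r := (sum2_rt c).symm
  rw [CData.fp, h1, h2]
  have e1 := sub_ne_zero.mpr (z_ne_zb c)
  have e2 := sub_ne_zero.mpr (z_ne_r c)
  have e3 := sub_ne_zero.mpr (zb_ne_r c)
  fin_cases i
  · show 3 * c.z ^ 2 + 2 * -(c.z + c.zb + c.r) * c.z + (c.z * c.zb + (c.z + c.zb) * c.r) ≠ 0
    have : 3 * c.z ^ 2 + 2 * -(c.z + c.zb + c.r) * c.z + (c.z * c.zb + (c.z + c.zb) * c.r) =
      (c.z - c.zb) * (c.z - c.r) := by ring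
    rw [this]
    exact mul_ne_zero e1 e2
  · show 3 * c.zb ^ 2 + 2 * -(c.z + c.zb + c.r) * c.zb + (c.z * c.zb + (c.z + c.zb) * c.r) ≠ 0
    have : 3 * c.zb ^ 2 + 2 * -(c.z + c.zb + c.r) * c.zb + (c.z * c.zb + (c.z + c.zb) * c.r) =
      -((c.z - c.zb) * (c.zb - c.r)) := by ring
    rw [this]
    exact neg_ne_zero.mpr (mul_ne_zero e1 e3)
  · show 3 * (c.r : ℂ) ^ 2 + 2 * -(c.z + c.zb + c.r) * (c.r : ℂ) +
      (c.z * c.zb + (c.z + c.zb) * c.r) ≠ 0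
    have : 3 * (c.r : ℂ) ^ 2 + 2 * -(c.z + c.zb + c.r) * (c.r : ℂ) +
      (c.z * c.zb + (c.z + c.zb) * c.r) = (c.z - c.r) * (c.zb - c.r) := by ring
    rw [this]
    exact mul_ne_zero e2 e3

lemma be_r (l : Fin 2) : c.be l c.r = (c.ber l : ℂ) := by
  rw [CData.be, CData.ber, CData.fp]
  push_cast
  ring

lemma fp_zb : c.fp c.zb = (starRingEnd ℂ) (c.fp c.z) := by
  simp only [CData.fp, CData.zb, map_add, map_mul, map_pow, map_div₀, map_intCast, map_natCast, map_ofNat]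

lemma be_zb (l : Fin 2) : c.be l c.zb = (starRingEnd ℂ) (c.be l c.z) := by
  rw [CData.be, CData.be, fp_zb]
  simp [CData.zb]

lemma nu_conj (j : Fin 6) (x : ℂ) : nu j ((starRingEnd ℂ) x) = (starRingEnd ℂ) (nu j x) := by
  fin_cases j <;> simp [nu]

lemma nu_i3 (j : Fin 3) (x : ℂ) : nu (i3 j) x = x ^ (j : ℕ) := by
  fin_cases j <;> simp [nu, i3]

lemma hp_sub_hm (l : Fin 2) (j : Fin 6) : ((c.hp l j : ℕ) : ℤ) - (c.hm l j : ℕ) = c.hh l j := by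
  rw [CData.hp, CData.hm]
  omega

/-- `A1 = 2 i Im z`. -/
lemma A1_eq : c.A1 = 2 * I * (c.z.im : ℂ) := by
  rw [CData.A1, CData.zb]
  apply Complex.ext <;> simp
  ring

lemma A1_ne : c.A1 ≠ 0 := sub_ne_zero.mpr (z_ne_zb c)

lemma A2_ne : c.A2 ≠ 0 := sub_ne_zero.mpr (z_ne_r c)

lemma ber_ne (l : Fin 2) : c.ber l ≠ 0 := by
  intro h
  have h1 := be_r c l
  rw [h, Complex.ofReal_zero, CData.be] at h1
  have hr : (c.r : ℂ) ≠ 0 := by
    intro h0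
    have h2 := c.hirr 0 1 0 (by
      have : c.r = 0 := by exact_mod_cast h0
      rw [this]; simp)
    exact one_ne_zero h2.2.1
  have h3 : c.fp (c.r : ℂ) ≠ 0 := fp_ne c 2
  exact mul_ne_zero (mul_ne_zero (N_ne c) h3) (pow_ne_zero _ hr) h1

end CZ
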