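import Pool.Agent.H22.CZ.JtB

/-!
# Row S2: the Schwarz lemma on a polydisc with small jets

PROOF. Fix `w, t` with `‖w‖ ≤ ρ/e`, `‖t‖ ≤ ε/e` (`e = exp 1`). `f x = F (x * (e w), x * (e t))` is entire,
`f (1/e) = F (w, t)`, and `‖f x‖ ≤ B` for `‖x‖ ≤ 1`. Taylor series
(`Complex.hasSum_taylorSeries_of_entire` or `taylorSeries_eq_of_entire`):
`f (1/e) = ∑_s (iteratedDeriv s f 0 / s!) e^(-s)`.
For `s < S`: `‖iteratedDeriv s f 0‖ ≤ (s+1)^2 2^s η (ρ + ε)^s` by `jet_bound`, so these terms contribute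
`≤ η ∑_{s<S} (s+1)^2 (2(ρ+ε))^s/s! e^(-s) ≤ η S^2 exp(2(ρ+ε))` (`(s+1)^2 ≤ S^2`, `e^(-s) ≤ 1`,
`Real.sum_le_exp_of_nonneg`/`Real.exp` series).
For `s ≥ S`: Cauchy on `|x| = 1`: `‖iteratedDeriv s f 0‖ ≤ s! B`, contributing
`≤ B ∑_{s ≥ S} e^(-s) = B e^(-S)/(1 - 1/e) ≤ 2 e^(-S) B`.
-/

set_option autoImplicit false

namespace CZ

open Complex Finset

theorem schwarz_poly {F : ℂ × ℂ → ℂ} (hF : Differentiable ℂ F) {S : ℕ} {η ρ ε B : ℝ} (hη : 0 ≤ η)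
    (hρ : 0 ≤ ρ) (hε : 0 ≤ ε) (hJ : ∀ s m : ℕ, m ≤ s → s < S → ‖J s m F‖ ≤ η)
    (hB : ∀ w t : ℂ, ‖w‖ ≤ ρ → ‖t‖ ≤ ε → ‖F (w, t)‖ ≤ B) (w t : ℂ)
    (hw : ‖w‖ ≤ ρ * Real.exp (-1)) (ht : ‖t‖ ≤ ε * Real.exp (-1)) :
    ‖F (w, t)‖ ≤ 2 * Real.exp (-S) * B + η * (S ^ 2 * Real.exp (2 * (ρ + ε))) := by
  have hB0 : 0 ≤ B := (norm_nonneg _).trans (hB 0 0 (by simpa using hρ) (by simpa using hε))
  obtain ⟨r, hr⟩ : ∃ r : ℝ, r = Real.exp (-1) := ⟨_, rfl⟩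
  have hr0 : 0 < r := by rw [hr]; exact Real.exp_pos _
  have hr2 : r ≤ 1 / 2 := by rw [hr]; linarith [Real.exp_neg_one_lt_d9]
  have hr1 : r < 1 := by linarith
  rw [← hr] at hw ht
  have hrc : (r : ℂ) ≠ 0 := by exact_mod_cast hr0.ne'
  have hrinv : ‖((r : ℂ))⁻¹‖ = r⁻¹ := by
    rw [norm_inv, Complex.norm_real, Real.norm_of_nonneg hr0.le]
  obtain ⟨f, hf⟩ : ∃ f : ℂ → ℂ, f = fun x => F (x * ((r : ℂ)⁻¹ * w), x * ((r : ℂ)⁻¹ * t)) := ⟨_, rfl⟩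
  have hw' : ‖(r : ℂ)⁻¹ * w‖ ≤ ρ := by
    rw [norm_mul, hrinv, inv_mul_le_iff₀ hr0]
    linarith
  have ht' : ‖(r : ℂ)⁻¹ * t‖ ≤ ε := by
    rw [norm_mul, hrinv, inv_mul_le_iff₀ hr0]
    linarith
  have hfd : Differentiable ℂ f := by
    rw [hf]
    exact hF.comp (by fun_prop)
  have hf1 : f r = F (w, t) := by
    rw [hf]
    simp only
    rw [mul_inv_cancel_left₀ hrc, mul_inv_cancel_left₀ hrc]
  have hfB : ∀ x : ℂ, ‖x‖ ≤ 1 → ‖f x‖ ≤ B := by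
    intro x hx
    rw [hf]
    refine hB _ _ ?_ ?_
    · rw [norm_mul]
      calc ‖x‖ * ‖(r : ℂ)⁻¹ * w‖ ≤ 1 * ρ := mul_le_mul hx hw' (norm_nonneg _) (by norm_num)
        _ = ρ := one_mul _
    · rw [norm_mul]
      calc ‖x‖ * ‖(r : ℂ)⁻¹ * t‖ ≤ 1 * ε := mul_le_mul hx ht' (norm_nonneg _) (by norm_num)
        _ = ε := one_mul _
  have hd1 : ∀ s : ℕ, ‖iteratedDeriv s f 0‖ ≤ (s.factorial : ℝ) * B := by
    intro s
    have h := Complex.norm_iteratedDeriv_le_of_forall_mem_sphere_norm_le (c := 0) (R := 1) (C := B) (f := f) s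
      one_pos hfd.diffContOnCl (fun z hz => hfB z (by
        rw [mem_sphere_zero_iff_norm] at hz
        exact hz.le))
    simpa using h
  have hd2 : ∀ s : ℕ, s < S → ‖iteratedDeriv s f 0‖ ≤ ((s : ℝ) + 1) ^ 2 * 2 ^ s * η * (ρ + ε) ^ s := by
    intro s hs
    have h := jet_bound hF (s := s) (η := η) (fun m hm => hJ s m hm hs) ((r : ℂ)⁻¹ * w) ((r : ℂ)⁻¹ * t)
    rw [← hf] at h
    refine h.trans ?_
    refine mul_le_mul_of_nonneg_left ?_ (by positivity)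
    refine pow_le_pow_left₀ (le_max_of_le_left (norm_nonneg _)) ?_ s
    exact max_le (by linarith) (by linarith)
  have hsum := Complex.hasSum_taylorSeries_of_entire hfd 0 (r : ℂ)
  rw [hf1] at hsum
  -- the two majorants
  have hg1 : HasSum (fun s : ℕ => η * (S : ℝ) ^ 2 * ((2 * (ρ + ε)) ^ s / (s.factorial : ℝ)))
      (η * (S : ℝ) ^ 2 * Real.exp (2 * (ρ + ε))) := by
    refine HasSum.mul_left _ ?_
    rw [Real.exp_eq_exp_ℝ]
    exact NormedSpace.expSeries_div_hasSum_exp _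
  have hg2 : HasSum (fun s : ℕ => if s < S then 0 else B * r ^ s) (B * r ^ S * (1 - r)⁻¹) := by
    rw [← hasSum_nat_add_iff' S]
    have h0 : ∑ i ∈ range S, (if i < S then 0 else B * r ^ i) = 0 := by
      refine Finset.sum_eq_zero fun i hi => ?_
      rw [if_pos (mem_range.1 hi)]
    rw [h0, sub_zero]
    have h1 : (fun n : ℕ => if n + S < S then 0 else B * r ^ (n + S)) = fun n => B * r ^ S * r ^ n := by
      funext n
      rw [if_neg (by omega), pow_add]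
      ring
    rw [h1]
    exact (hasSum_geometric_of_lt_one hr0.le hr1).mul_left _
  have hle := hsum.norm_le_of_bounded (hg1.add hg2) (fun s => by
    rw [smul_eq_mul, smul_eq_mul, sub_zero, norm_mul, norm_mul, norm_inv, norm_pow, Complex.norm_real,
      Real.norm_of_nonneg hr0.le, Complex.norm_natCast]
    have hfac : (0 : ℝ) < (s.factorial : ℝ) := by exact_mod_cast s.factorial_pos
    by_cases hs : s < S
    · rw [if_pos hs, add_zero]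
      have h1 := hd2 s hs
      have h2 : r ^ s ≤ 1 := pow_le_one₀ hr0.le hr1.le
      have h3 : r ^ s * ‖iteratedDeriv s f 0‖ ≤ 1 * (((s : ℝ) + 1) ^ 2 * 2 ^ s * η * (ρ + ε) ^ s) :=
        mul_le_mul h2 h1 (norm_nonneg _) (by norm_num)
      have h4 : ((s : ℝ) + 1) ^ 2 ≤ (S : ℝ) ^ 2 := by
        refine pow_le_pow_left₀ (by positivity) ?_ 2
        exact_mod_cast hs
      have h5 : 1 * (((s : ℝ) + 1) ^ 2 * 2 ^ s * η * (ρ + ε) ^ s) ≤ (S : ℝ) ^ 2 * 2 ^ s * η * (ρ + ε) ^ s := by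
        rw [one_mul]
        have : 0 ≤ 2 ^ s * η * (ρ + ε) ^ s := by positivity
        nlinarith [mul_le_mul_of_nonneg_right h4 this]
      calc (s.factorial : ℝ)⁻¹ * (r ^ s * ‖iteratedDeriv s f 0‖)
          ≤ (s.factorial : ℝ)⁻¹ * ((S : ℝ) ^ 2 * 2 ^ s * η * (ρ + ε) ^ s) :=
            mul_le_mul_of_nonneg_left (h3.trans h5) (by positivity)
        _ = η * (S : ℝ) ^ 2 * ((2 * (ρ + ε)) ^ s / (s.factorial : ℝ)) := by
            rw [mul_pow]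
            field_simp
    · rw [if_neg hs]
      have h1 : (s.factorial : ℝ)⁻¹ * (r ^ s * ‖iteratedDeriv s f 0‖) ≤ (s.factorial : ℝ)⁻¹ * (r ^ s * ((s.factorial : ℝ) * B)) := by
        refine mul_le_mul_of_nonneg_left (mul_le_mul_of_nonneg_left (hd1 s) (by positivity)) (by positivity)
      have h2 : (s.factorial : ℝ)⁻¹ * (r ^ s * ((s.factorial : ℝ) * B)) = B * r ^ s := by
        field_simp
      have h3 : 0 ≤ η * (S : ℝ) ^ 2 * ((2 * (ρ + ε)) ^ s / (s.factorial : ℝ)) := by positivity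
      linarith)
  refine hle.trans ?_
  have hrS : r ^ S = Real.exp (-S) := by
    rw [hr, ← Real.exp_nat_mul]
    congr 1
    ring
  have h1 : (1 - r)⁻¹ ≤ 2 := by
    rw [inv_le_comm₀ (by linarith) (by norm_num)]
    linarith
  have h2 : B * r ^ S * (1 - r)⁻¹ ≤ B * r ^ S * 2 := mul_le_mul_of_nonneg_left h1 (by positivity)
  rw [hrS] at h2 ⊢
  nlinarith [h2]

end CZ
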