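import Pool.Agent.H22.CZ.S1
import Pool.Agent.H22.CZ.S2

/-!
# Row S3: the Schwarz lemma for functions with many approximate zeros

PROOF. `e = exp 1`, `c1 = 32 C0`, `ρ = sqrt (S/(c1 D))`, `ε = 2 C0 e^3/ρ^2 = 2 C0 e^3 c1 D/S`. `K` is large in
terms of `C0` only (conditions below). `N = sup {Nf q C' D F w t : |t.im| ≤ ε}` (finite by `hF.gr`;
nonnegative), `a = ε/(2 e)`.
STEP 1. For `|t.im| ≤ a`: `Nf w t ≤ (1/2) e^(-S/2) N + T`, `T = η e^(7 S)`. Choose `g ∈ G` with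
`‖w - g.1‖ ≤ ρ/e`, `|t.re - g.2| ≤ C0 e^2/ρ^2` (`hG (ρ/e)`); `x = (w - g.1, t - g.2)` has `‖x.1‖ ≤ ρ/e`,
`‖x.2‖ ≤ C0 e^2/ρ^2 + ε/(2e) ≤ ε/e`. By `hF.inv` (at `x`): `‖F (w,t)‖ e^(-D q w t) = ‖F x‖ e^(-D q x) ≤ ‖F x‖`.
By `schwarz_poly` with `B = e^(D C0 (ρ^2 + ε^2)) N` (on the polydisc `‖F‖ ≤ e^(D q) e^(-D q)‖F‖ ≤ e^(D q) Nf`,
`q ≤ C0(ρ^2 + ε^2)`, `Nf ≤ N`; `Nf ≥ ‖F‖ e^(-Dq)` since `D C' t.im^2 ≥ 0`):
`‖F x‖ ≤ 2 e^(-S) B + η S^2 e^(2(ρ+ε))`. Multiply by `e^(D C' a^2) ≤ e^(D C0 ε^2)`. Conditions on `K`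
(`S ≥ K D`, `S ≥ K`): `ε ≤ 1`; `D C0 (ρ^2 + 2 ε^2) ≤ S/16` (`C0 ρ^2 D = S/32`, `2 C0 D ≤ S/32`), `ρ ≤ S`,
`C0 D ≤ S`; `2 e^(-S + S/16) ≤ (1/2) e^(-S/2)`; `e^(C0 D) S^2 e^(2 (ρ + 1)) ≤ e^(7 S)`.
STEP 2. If `T ≥ (1/2) e^(-S/2) N`, then for `|t.im| ≤ a`: `‖F‖e^(-Dq) ≤ Nf ≤ 2 T ≤ η e^(8 S)`. Done
(`D/(K S) ≤ a = C0 e^2 c1 D/S`).
STEP 3. Otherwise `N > 0` and `Nf ≤ e^(-S/2) N = exp(A1)` for `|t.im| ≤ a`, `A1 = n - S/2`, `n = log N`. Put
`κ = 1/(8 C0 e^3 c1)`, `c3 = κ/(4 C0)`, `R = c3 S^2/D^2`, `A2 = A + 2 C0 D R^2`; for `|t.im| = R`: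
`Nf ≤ exp(A + C0 D R^2 + D C' R^2) ≤ exp A2`. `R ≥ 2 ε` by the choice of `K`
(`c3 S^2/D^2 ≥ 4 C0 e^3 c1 D/S` iff `S^3 ≥ (4 C0 e^3 c1/c3) D^3`). `three_lines` with `a, R`:
for `a ≤ |t.im| ≤ ε`: `Nf ≤ exp(((R - |t.im|) A1 + (|t.im| - a) A2)/(R - a))`.
 If `A2 < A1`: this is `≤ exp A1`, so `N ≤ exp A1 = e^(-S/2) N`, impossible (`N > 0`).
 If `A1 ≤ A2`: it is `≤ exp((1 - θ) A1 + θ A2)`, `θ = (ε - a)/(R - a)`; also for `|t.im| ≤ a`. So
 `n ≤ (1-θ)(n - S/2) + θ A2`, i.e. `n ≤ A2 - ((1-θ)/θ) S/2`, `(1-θ)/θ = (R - ε)/(ε - a) ≥ R/(2 ε)`, so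
 `n ≤ A + 2 C0 D R^2 - R S/(4 ε) = A + 2 C0 c3^2 S^4/D^3 - c3 κ S^4/D^3 = A - (c3 κ/2) S^4/D^3`.
 Hence `‖F‖ e^(-D q) ≤ Nf ≤ N ≤ exp(A - S^4/(K D^3))` for `|t.im| ≤ ε` if `K ≥ 2/(c3 κ)`.
-/

set_option autoImplicit false

namespace CZ

open Complex

theorem sch_one {q : ℂ → ℂ → ℝ} {C0 C' : ℝ} {G : Set (ℂ × ℝ)} (hq : QData q C0 C')
    (hG : Cov C0 G) {D A η : ℝ} {S : ℕ} {F : ℂ × ℂ → ℂ} (hD : 1 ≤ D)
    (hS : 10 ^ 9 * C0 ^ 5 * D ≤ S) (hη : 0 ≤ η) (hF : FData q C0 G D A F)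
    (hJ : ∀ s m : ℕ, m ≤ s → s < S → ‖J s m F‖ ≤ η) {N : ℝ} (hN0 : 0 ≤ N)
    (hN : ∀ w t : ℂ, |t.im| ≤ 64 * C0 ^ 2 * Real.exp 1 ^ 3 * D / S → Nf q C' D F w t ≤ N)
    (w t : ℂ) (ht : |t.im| ≤ 32 * C0 ^ 2 * Real.exp 1 ^ 2 * D / S) :
    Nf q C' D F w t ≤ Real.exp (-((S : ℝ) / 2)) / 2 * N + η * Real.exp (7 * S) := by
  have hC := hq.one_le
  have hC0 : 0 < C0 := by linarith
  have hD0 : 0 < D := by linarith
  have hC5 : (1 : ℝ) ≤ C0 ^ 5 := one_le_pow₀ hC
  have hCD : (1 : ℝ) ≤ C0 ^ 5 * D := by nlinarith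
  have hSbig : (10 : ℝ) ^ 9 ≤ S := by nlinarith
  have hS0 : (0 : ℝ) < S := by linarith
  have hC2 : (1 : ℝ) ≤ C0 ^ 2 := one_le_pow₀ hC
  have hC25 : C0 ^ 2 ≤ C0 ^ 5 := pow_le_pow_right₀ hC (by norm_num)
  have hC15 : C0 ≤ C0 ^ 5 := by
    calc C0 = C0 ^ 1 := (pow_one C0).symm
      _ ≤ C0 ^ 5 := pow_le_pow_right₀ hC (by norm_num)
  have hC2D : C0 ^ 2 * D ≤ S / 10 ^ 9 := by
    have h1 : C0 ^ 2 * D ≤ C0 ^ 5 * D := mul_le_mul_of_nonneg_right hC25 hD0.le
    linarith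
  have hC1D : C0 * D ≤ S / 10 ^ 9 := by
    have h1 : C0 * D ≤ C0 ^ 5 * D := mul_le_mul_of_nonneg_right hC15 hD0.le
    linarith
  have hE1 : (2.7 : ℝ) ≤ Real.exp 1 := by
    have := Real.exp_one_gt_d9
    linarith
  have hE2 : Real.exp 1 ≤ 2.72 := by
    have := Real.exp_one_lt_d9
    linarith
  set E : ℝ := Real.exp 1 with hE
  have hE0 : 0 < E := by linarith
  have hE3 : E ^ 3 ≤ 21 := by
    calc E ^ 3 ≤ 2.72 ^ 3 := pow_le_pow_left₀ hE0.le hE2 3
      _ ≤ 21 := by norm_num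
  have hEm : Real.exp (-1) = E⁻¹ := by rw [hE, Real.exp_neg]
  set ρ : ℝ := Real.sqrt (S / (32 * C0 * D)) with hρ
  have hρ2 : ρ ^ 2 = S / (32 * C0 * D) := Real.sq_sqrt (by positivity)
  have hρ0 : 0 < ρ := Real.sqrt_pos.mpr (by positivity)
  set ε : ℝ := 64 * C0 ^ 2 * E ^ 3 * D / S with hε
  have hε0 : 0 < ε := by positivity
  have hε1 : ε ≤ 1 := by
    rw [hε, div_le_one hS0]
    have h1 : 64 * C0 ^ 2 * E ^ 3 * D = 64 * E ^ 3 * (C0 ^ 2 * D) := by ring
    rw [h1]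
    have h2 : 64 * E ^ 3 * (C0 ^ 2 * D) ≤ 64 * 21 * (S / 10 ^ 9) := by
      apply mul_le_mul _ hC2D (by positivity) (by norm_num)
      linarith
    linarith
  have haε : 32 * C0 ^ 2 * E ^ 2 * D / S = ε * E⁻¹ / 2 := by
    rw [hε]
    field_simp
    ring
  have haε2 : 32 * C0 ^ 2 * E ^ 2 * D / S ≤ ε := by
    rw [haε]
    have h1 : E⁻¹ ≤ 1 := by
      apply inv_le_one_of_one_le₀
      linarith
    nlinarith
  obtain ⟨g, hg, h1, h2⟩ := hG (ρ * Real.exp (-1)) (by positivity) w t.re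
  have h3 : C0 / (ρ * Real.exp (-1)) ^ 2 = 32 * C0 ^ 2 * E ^ 2 * D / S := by
    rw [mul_pow, hρ2, hEm]
    field_simp
  rw [h3] at h2
  have h4 : ‖t - (g.2 : ℂ)‖ ≤ ε * Real.exp (-1) := by
    have h5 := Complex.norm_le_abs_re_add_abs_im (t - (g.2 : ℂ))
    rw [Complex.sub_re, Complex.sub_im, Complex.ofReal_re, Complex.ofReal_im, sub_zero] at h5
    rw [hEm]
    rw [haε] at h2 ht
    linarith
  have hinv := hF.inv g hg (w - g.1) (t - (g.2 : ℂ))
  rw [sub_add_cancel, sub_add_cancel] at hinv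
  have hexp0 : ∀ x : ℝ, 0 < Real.exp x := Real.exp_pos
  -- bound on the polydisc
  have hB : ∀ w' t' : ℂ, ‖w'‖ ≤ ρ → ‖t'‖ ≤ ε →
      ‖F (w', t')‖ ≤ Real.exp (D * (C0 * (ρ ^ 2 + ε ^ 2))) * N := by
    intro w' t' hw' ht'
    have him : |t'.im| ≤ ε := (Complex.abs_im_le_norm t').trans ht'
    have h5 := hN w' t' him
    have h6 : ‖F (w', t')‖ * Real.exp (-(D * q w' t')) ≤ Nf q C' D F w' t' := by
      unfold Nf
      have h7 : 1 ≤ Real.exp (D * C' * t'.im ^ 2) := by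
        apply Real.one_le_exp
        have := hq.C'_nonneg
        positivity
      have h8 : 0 ≤ ‖F (w', t')‖ * Real.exp (-(D * q w' t')) := by positivity
      nlinarith
    have h7 : q w' t' ≤ C0 * (ρ ^ 2 + ε ^ 2) := by
      refine (hq.le w' t').trans ?_
      apply mul_le_mul_of_nonneg_left _ hC0.le
      have := pow_le_pow_left₀ (norm_nonneg w') hw' 2
      have := pow_le_pow_left₀ (norm_nonneg t') ht' 2
      linarith
    have h8 : ‖F (w', t')‖ = Real.exp (D * q w' t') *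
        (‖F (w', t')‖ * Real.exp (-(D * q w' t'))) := by
      rw [mul_left_comm, ← Real.exp_add, add_neg_cancel, Real.exp_zero, mul_one]
    rw [h8]
    apply mul_le_mul _ (h6.trans h5) (by positivity) (hexp0 _).le
    apply Real.exp_le_exp.mpr
    exact mul_le_mul_of_nonneg_left h7 hD0.le
  have hsp := schwarz_poly hF.diff hη hρ0.le hε0.le hJ hB (w - g.1) (t - (g.2 : ℂ)) h1 h4
  -- final estimate
  have hx1 : ‖F (w, t)‖ * Real.exp (-(D * q w t)) ≤ ‖F (w - g.1, t - (g.2 : ℂ))‖ := by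
    rw [hinv]
    have h5 : Real.exp (-(D * q (w - g.1) (t - (g.2 : ℂ)))) ≤ 1 := by
      apply Real.exp_le_one_iff.mpr
      have := hq.nonneg (w - g.1) (t - (g.2 : ℂ))
      have : 0 ≤ D * q (w - g.1) (t - (g.2 : ℂ)) := by positivity
      linarith
    exact mul_le_of_le_one_right (norm_nonneg _) h5
  have hx2 : Real.exp (D * C' * t.im ^ 2) ≤ Real.exp (D * C0 * ε ^ 2) := by
    apply Real.exp_le_exp.mpr
    have h5 : t.im ^ 2 ≤ ε ^ 2 := by
      rw [← sq_abs t.im]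
      exact pow_le_pow_left₀ (abs_nonneg _) (ht.trans haε2) 2
    have h6 : D * C' ≤ D * C0 := mul_le_mul_of_nonneg_left hq.C'_le hD0.le
    apply mul_le_mul h6 h5 (sq_nonneg _) (by positivity)
  have hε2 : ε ^ 2 ≤ 1 := by nlinarith
  have hDC : D * C0 * ε ^ 2 ≤ S / 10 ^ 9 := by
    have h5 : 0 ≤ D * C0 := by positivity
    nlinarith
  have hDCρ : D * C0 * ρ ^ 2 = S / 32 := by
    rw [hρ2]
    field_simp
  have hρS : ρ ≤ S := by
    have h5 : ρ ^ 2 ≤ (S : ℝ) ^ 2 := by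
      rw [hρ2]
      have h6 : (S : ℝ) / (32 * C0 * D) ≤ S := by
        apply div_le_self hS0.le
        nlinarith
      nlinarith
    exact (pow_le_pow_iff_left₀ hρ0.le hS0.le (by norm_num)).mp h5
  calc Nf q C' D F w t
      = (‖F (w, t)‖ * Real.exp (-(D * q w t))) * Real.exp (D * C' * t.im ^ 2) := rfl
    _ ≤ (2 * Real.exp (-S) * (Real.exp (D * (C0 * (ρ ^ 2 + ε ^ 2))) * N) +
          η * (S ^ 2 * Real.exp (2 * (ρ + ε)))) * Real.exp (D * C0 * ε ^ 2) :=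
        mul_le_mul (hx1.trans hsp) hx2 (hexp0 _).le (by positivity)
    _ = (2 * Real.exp (-S + D * (C0 * (ρ ^ 2 + ε ^ 2)) + D * C0 * ε ^ 2)) * N +
          η * ((S : ℝ) ^ 2 * Real.exp (2 * (ρ + ε) + D * C0 * ε ^ 2)) := by
        rw [Real.exp_add, Real.exp_add, Real.exp_add]
        ring
    _ ≤ Real.exp (-((S : ℝ) / 2)) / 2 * N + η * Real.exp (7 * S) := by
        apply add_le_add
        · apply mul_le_mul_of_nonneg_right _ hN0
          have h5 : -(S : ℝ) + D * (C0 * (ρ ^ 2 + ε ^ 2)) + D * C0 * ε ^ 2 ≤ -(S / 2) - 4 := by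
            have h6 : D * (C0 * (ρ ^ 2 + ε ^ 2)) = D * C0 * ρ ^ 2 + D * C0 * ε ^ 2 := by ring
            rw [h6, hDCρ]
            linarith
          have h7 : (5 : ℝ) ≤ Real.exp 4 := by
            have := Real.add_one_le_exp (4 : ℝ)
            linarith
          have h8 : Real.exp (-((S : ℝ) / 2) - 4) * Real.exp 4 = Real.exp (-((S : ℝ) / 2)) := by
            rw [← Real.exp_add, sub_add_cancel]
          have h9 := Real.exp_le_exp.mpr h5
          have h10 := hexp0 (-((S : ℝ) / 2) - 4)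
          nlinarith
        · apply mul_le_mul_of_nonneg_left _ hη
          have h5 : (S : ℝ) ≤ Real.exp S := by
            have := Real.add_one_le_exp (S : ℝ)
            linarith
          have h6 : (S : ℝ) ^ 2 ≤ Real.exp (2 * S) := by
            calc (S : ℝ) ^ 2 ≤ Real.exp S ^ 2 := pow_le_pow_left₀ hS0.le h5 2
              _ = Real.exp (2 * S) := by
                rw [← Real.exp_nat_mul]
                norm_num
          calc (S : ℝ) ^ 2 * Real.exp (2 * (ρ + ε) + D * C0 * ε ^ 2)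
              ≤ Real.exp (2 * S) * Real.exp (5 * S) := by
                apply mul_le_mul h6 _ (hexp0 _).le (hexp0 _).le
                apply Real.exp_le_exp.mpr
                linarith
            _ = Real.exp (7 * S) := by
                rw [← Real.exp_add]
                congr 1
                ring

theorem sch {q : ℂ → ℂ → ℝ} {C0 C' : ℝ} {G : Set (ℂ × ℝ)} (hq : QData q C0 C') (hG : Cov C0 G) :
    ∃ K : ℝ, 1 ≤ K ∧ ∀ (D A η : ℝ) (S : ℕ) (F : ℂ × ℂ → ℂ), 1 ≤ D → K * D ≤ S → 0 ≤ A → 0 ≤ η →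
      FData q C0 G D A F → (∀ s m : ℕ, m ≤ s → s < S → ‖J s m F‖ ≤ η) →
      ∀ w t : ℂ, |t.im| ≤ D / (K * S) →
        ‖F (w, t)‖ * Real.exp (-(D * q w t)) ≤
          Real.exp (A - (S : ℝ) ^ 4 / (K * D ^ 3)) + η * Real.exp (K * S) := by
  refine ⟨10 ^ 9 * C0 ^ 5, ?_, ?_⟩
  · have := one_le_pow₀ (n := 5) hq.one_le
    linarith
  intro D A η S F hD hS hA hη hF hJ w t ht
  have hC := hq.one_le
  have hC0 : 0 < C0 := by linarith
  have hD0 : 0 < D := by linarith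
  have hC5 : (1 : ℝ) ≤ C0 ^ 5 := one_le_pow₀ hC
  have hCD : (1 : ℝ) ≤ C0 ^ 5 * D := by nlinarith
  have hSbig : (10 : ℝ) ^ 9 ≤ S := by nlinarith
  have hS0 : (0 : ℝ) < S := by linarith
  have hexp0 : ∀ x : ℝ, 0 < Real.exp x := Real.exp_pos
  have hE1 : (2.7 : ℝ) ≤ Real.exp 1 := by
    have := Real.exp_one_gt_d9
    linarith
  have hE2 : Real.exp 1 ≤ 2.72 := by
    have := Real.exp_one_lt_d9
    linarith
  have hone := @sch_one q C0 C' G hq hG D A η S F hD hS hη hF hJ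
  set E : ℝ := Real.exp 1 with hE
  have hE0 : 0 < E := by linarith
  set ε : ℝ := 64 * C0 ^ 2 * E ^ 3 * D / S with hε
  have hε0 : 0 < ε := by positivity
  set a : ℝ := 32 * C0 ^ 2 * E ^ 2 * D / S with ha
  have ha0 : 0 < a := by positivity
  have haε : a < ε := by
    rw [ha, hε]
    apply div_lt_div_of_pos_right _ hS0
    have h1 : 0 < 32 * C0 ^ 2 * E ^ 2 * D := by positivity
    nlinarith
  -- the supremum
  have hNf0 : ∀ w t : ℂ, 0 ≤ Nf q C' D F w t := by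
    intro w t
    unfold Nf
    positivity
  have hNfb : ∀ w t : ℂ, Nf q C' D F w t ≤ Real.exp (A + 2 * C0 * D * t.im ^ 2) := by
    intro w t
    unfold Nf
    have h1 := hF.gr w t
    have h2 : Real.exp (D * C' * t.im ^ 2) ≤ Real.exp (C0 * D * t.im ^ 2) := by
      apply Real.exp_le_exp.mpr
      apply mul_le_mul_of_nonneg_right _ (sq_nonneg _)
      rw [mul_comm D C']
      exact mul_le_mul_of_nonneg_right hq.C'_le hD0.le
    calc _ ≤ Real.exp (A + C0 * D * t.im ^ 2) * Real.exp (C0 * D * t.im ^ 2) :=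
          mul_le_mul h1 h2 (hexp0 _).le (hexp0 _).le
      _ = _ := by
          rw [← Real.exp_add]
          congr 1
          ring
  have hsub : ‖F (w, t)‖ * Real.exp (-(D * q w t)) ≤ Nf q C' D F w t := by
    unfold Nf
    have h7 : 1 ≤ Real.exp (D * C' * t.im ^ 2) := by
      apply Real.one_le_exp
      have := hq.C'_nonneg
      positivity
    exact le_mul_of_one_le_right (by positivity) h7
  set X : Set ℝ := {x | ∃ w t : ℂ, |t.im| ≤ ε ∧ x = Nf q C' D F w t} with hX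
  have hXne : X.Nonempty := ⟨Nf q C' D F 0 0, 0, 0, by simpa using hε0.le, rfl⟩
  have hXb : BddAbove X := by
    refine ⟨Real.exp (A + 2 * C0 * D * ε ^ 2), ?_⟩
    rintro x ⟨w', t', h1, rfl⟩
    refine (hNfb w' t').trans (Real.exp_le_exp.mpr ?_)
    have h2 : t'.im ^ 2 ≤ ε ^ 2 := by
      rw [← sq_abs t'.im]
      exact pow_le_pow_left₀ (abs_nonneg _) h1 2
    have h3 : 0 ≤ 2 * C0 * D := by positivity
    nlinarith
  set N : ℝ := sSup X with hNdef
  have hN : ∀ w t : ℂ, |t.im| ≤ ε → Nf q C' D F w t ≤ N := fun w t h =>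
    le_csSup hXb ⟨w, t, h, rfl⟩
  have hNle : ∀ b : ℝ, (∀ w t : ℂ, |t.im| ≤ ε → Nf q C' D F w t ≤ b) → N ≤ b := by
    intro b hb
    apply csSup_le hXne
    rintro x ⟨w', t', h1, rfl⟩
    exact hb w' t' h1
  have hN0 : 0 ≤ N := (hNf0 0 0).trans (hN 0 0 (by simpa using hε0.le))
  have hst1 := @hone N hN0 hN
  have hta : |t.im| ≤ a := by
    refine ht.trans ?_
    rw [ha]
    have h1 : D / (10 ^ 9 * C0 ^ 5 * S) ≤ D / S := by
      apply div_le_div_of_nonneg_left hD0.le hS0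
      nlinarith
    refine h1.trans ?_
    apply div_le_div_of_nonneg_right _ hS0.le
    have h2 : (1 : ℝ) ≤ 32 * C0 ^ 2 * E ^ 2 := by
      have h3 : (1 : ℝ) ≤ C0 ^ 2 := one_le_pow₀ hC
      have h4 : (1 : ℝ) ≤ E ^ 2 := one_le_pow₀ (by linarith)
      nlinarith
    nlinarith
  by_cases hcase : Real.exp (-((S : ℝ) / 2)) / 2 * N ≤ η * Real.exp (7 * S)
  · -- small supremum
    have h1 := hst1 w t hta
    have h2 : Real.exp (-((S : ℝ) / 2)) / 2 * N + η * Real.exp (7 * S) ≤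
        η * Real.exp (10 ^ 9 * C0 ^ 5 * S) := by
      have h3 : (2 : ℝ) ≤ Real.exp S := by
        have := Real.add_one_le_exp (S : ℝ)
        linarith
      have h4 : 2 * Real.exp (7 * S) ≤ Real.exp (10 ^ 9 * C0 ^ 5 * S) := by
        calc 2 * Real.exp (7 * S) ≤ Real.exp S * Real.exp (7 * S) :=
              mul_le_mul_of_nonneg_right h3 (hexp0 _).le
          _ = Real.exp (8 * S) := by
              rw [← Real.exp_add]
              congr 1
              ring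
          _ ≤ _ := by
              apply Real.exp_le_exp.mpr
              apply mul_le_mul_of_nonneg_right _ hS0.le
              linarith
      have h5 := mul_le_mul_of_nonneg_left h4 hη
      calc Real.exp (-((S : ℝ) / 2)) / 2 * N + η * Real.exp (7 * S)
          ≤ η * Real.exp (7 * S) + η * Real.exp (7 * S) := add_le_add hcase le_rfl
        _ = η * (2 * Real.exp (7 * S)) := by ring
        _ ≤ _ := h5
    have h3 := hexp0 (A - (S : ℝ) ^ 4 / (10 ^ 9 * C0 ^ 5 * D ^ 3))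
    exact hsub.trans (h1.trans (h2.trans (le_add_of_nonneg_left h3.le)))
  · have hcase := not_le.mp hcase
    have hNpos : 0 < N := by
      by_contra h
      have h1 : N = 0 := le_antisymm (not_lt.mp h) hN0
      rw [h1, mul_zero] at hcase
      have h2 : 0 ≤ η * Real.exp (7 * S) := by positivity
      linarith
    set n : ℝ := Real.log N with hn
    have hNn : Real.exp n = N := Real.exp_log hNpos
    have hA1 : ∀ w t : ℂ, |t.im| ≤ a → Nf q C' D F w t ≤ Real.exp (n - S / 2) := by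
      intro w t h
      have h1 := hst1 w t h
      have h2 : Real.exp (n - S / 2) = Real.exp (-((S : ℝ) / 2)) * N := by
        rw [sub_eq_add_neg, Real.exp_add, hNn, mul_comm]
      rw [h2]
      linarith
    set R : ℝ := S ^ 2 / (1024 * C0 ^ 3 * E ^ 3 * D ^ 2) with hR
    have hR0 : 0 < R := by positivity
    have hE6 : E ^ 6 ≤ 405 := by
      calc E ^ 6 ≤ 2.72 ^ 6 := pow_le_pow_left₀ hE0.le hE2 6
        _ ≤ 405 := by norm_num
    have hRε : 2 * ε ≤ R := by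
      rw [hε, hR, le_div_iff₀ (by positivity)]
      have h1 : 2 * (64 * C0 ^ 2 * E ^ 3 * D / S) * (1024 * C0 ^ 3 * E ^ 3 * D ^ 2) =
          131072 * (E ^ 6 * (C0 ^ 5 * D ^ 3)) / S := by
        field_simp
        ring
      rw [h1, div_le_iff₀ hS0]
      have h2 : (10 ^ 9 * C0 ^ 5 * D) ^ 3 ≤ (S : ℝ) ^ 3 := pow_le_pow_left₀ (by positivity) hS 3
      have h3 : C0 ^ 5 ≤ C0 ^ 15 := pow_le_pow_right₀ hC (by norm_num)
      have h4 : (10 ^ 9 * C0 ^ 5 * D) ^ 3 = 10 ^ 27 * (C0 ^ 15 * D ^ 3) := by ring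
      have h5 : C0 ^ 5 * D ^ 3 ≤ C0 ^ 15 * D ^ 3 := mul_le_mul_of_nonneg_right h3 (by positivity)
      have h6 : E ^ 6 * (C0 ^ 5 * D ^ 3) ≤ 405 * (C0 ^ 15 * D ^ 3) :=
        mul_le_mul hE6 h5 (by positivity) (by norm_num)
      have h7 : 0 ≤ C0 ^ 15 * D ^ 3 := by positivity
      have h8 : (S : ℝ) ^ 2 * S = S ^ 3 := by ring
      rw [h8]
      rw [h4] at h2
      linarith
    have haR : a < R := by linarith
    have hA2 : ∀ w t : ℂ, |t.im| = R → Nf q C' D F w t ≤ Real.exp (A + 2 * C0 * D * R ^ 2) := by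
      intro w t h
      have h1 := hNfb w t
      rwa [← sq_abs t.im, h] at h1
    have h3l := fun w t h1 h2 => three_lines hq hF hD0.le ha0.le haR
      (fun w t h => hA1 w t h.le) hA2 w t h1 h2
    set A1 : ℝ := n - S / 2 with hA1def
    set A2 : ℝ := A + 2 * C0 * D * R ^ 2 with hA2def
    have hRa : 0 < R - a := by linarith
    -- the supremum is small
    have hnle : n ≤ A - (S : ℝ) ^ 4 / (10 ^ 9 * C0 ^ 5 * D ^ 3) := by
      by_cases hAA : A2 < A1
      · exfalso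
        have h1 : N ≤ Real.exp A1 := by
          apply hNle
          intro w' t' h
          by_cases h2 : |t'.im| ≤ a
          · exact hA1 w' t' h2
          · have h2 := not_le.mp h2
            refine (h3l w' t' h2.le (by linarith)).trans (Real.exp_le_exp.mpr ?_)
            rw [div_le_iff₀ hRa]
            nlinarith
        rw [← hNn] at h1
        have h2 := Real.exp_le_exp.mp h1
        linarith
      · have hAA := not_lt.mp hAA
        have h1 : N ≤ Real.exp (((R - ε) * A1 + (ε - a) * A2) / (R - a)) := by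
          apply hNle
          intro w' t' h
          by_cases h2 : |t'.im| ≤ a
          · refine (hA1 w' t' h2).trans (Real.exp_le_exp.mpr ?_)
            rw [le_div_iff₀ hRa]
            nlinarith
          · have h2 := not_le.mp h2
            refine (h3l w' t' h2.le (by linarith)).trans (Real.exp_le_exp.mpr ?_)
            apply div_le_div_of_nonneg_right _ hRa.le
            nlinarith
        rw [← hNn] at h1
        have h2 := Real.exp_le_exp.mp h1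
        rw [le_div_iff₀ hRa] at h2
        have h3 : n * (ε - a) ≤ (ε - a) * A2 - (R - ε) * (S / 2) := by
          rw [hA1def] at h2
          nlinarith
        have h4 : R * S / (4 * ε) * (ε - a) ≤ (R - ε) * (S / 2) := by
          have h5 : R * S / (4 * ε) * (ε - a) ≤ R * S / (4 * ε) * ε :=
            mul_le_mul_of_nonneg_left (by linarith) (by positivity)
          have h6 : R * S / (4 * ε) * ε = R * S / 4 := by
            field_simp
          rw [h6] at h5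
          nlinarith
        have h5 : n * (ε - a) ≤ (A2 - R * S / (4 * ε)) * (ε - a) := by
          nlinarith
        have h6 : n ≤ A2 - R * S / (4 * ε) := le_of_mul_le_mul_right h5 (by linarith)
        have h7 : R * S / (4 * ε) = S ^ 4 / (262144 * C0 ^ 5 * E ^ 6 * D ^ 3) := by
          rw [hR, hε]
          field_simp
          ring
        have h8 : 2 * C0 * D * R ^ 2 = S ^ 4 / (524288 * C0 ^ 5 * E ^ 6 * D ^ 3) := by
          rw [hR]
          field_simp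
          ring
        have h9 : (S : ℝ) ^ 4 / (262144 * C0 ^ 5 * E ^ 6 * D ^ 3) =
            2 * (S ^ 4 / (524288 * C0 ^ 5 * E ^ 6 * D ^ 3)) := by
          field_simp
          ring
        have h10 : (S : ℝ) ^ 4 / (10 ^ 9 * C0 ^ 5 * D ^ 3) ≤
            S ^ 4 / (524288 * C0 ^ 5 * E ^ 6 * D ^ 3) := by
          apply div_le_div_of_nonneg_left (by positivity) (by positivity)
          have h11 : 0 < C0 ^ 5 * D ^ 3 := by positivity
          nlinarith
        rw [h7, h9, hA2def, h8] at h6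
        linarith
    have h1 := hN w t (hta.trans haε.le)
    rw [← hNn] at h1
    have h2 := Real.exp_le_exp.mpr hnle
    have h3 : 0 ≤ η * Real.exp (10 ^ 9 * C0 ^ 5 * S) := by positivity
    exact hsub.trans (h1.trans (h2.trans (le_add_of_nonneg_right h3)))

end CZ
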