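import Pool.Agent.H22.CZ.Bl7
import Pool.Agent.H22.CZ.S3

/-!
# Row Z2: combinations vanishing to order `M^1400/2` have tiny jets

PROOF. `C` = the maximum of the constants of `cov_data, q_data, FF_data`; `K1` from `sch`. `D = M^400`,
`S = M^1400 / 2` (natural division), so `s < S` implies `2 s < M^1400` and `(S : ℝ) ≥ M^1400/4` (`M ≥ 2`).
`sch` with `η = 0`, `A = C D`: for `|t.im| ≤ D/(K1 S)`:
`‖F (w,t)‖ ≤ e^(D q w t) exp(C D - S^4/(K1 D^3)) ≤ e^(D q) exp(C M^400 - M^4400/(256 K1))`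
(`S^4 ≥ M^5600/256`, `D^3 = M^1200`).
Let `m ≤ s < M^1408`, `ρ = 1/(K1 S (m+1))`. For `‖x‖ = ρ`: `‖x‖ ≤ 1`, `‖m x‖ ≤ 1/(K1 S) ≤ min(1, D/(K1 S))`, so
`q x (m x) ≤ 2 C` (`QData.le`) and `‖F (x, m x)‖ ≤ B := exp(3 C M^400 - M^4400/(256 K1))`. `jet_cauchy`:
`‖J s m F‖ ≤ s! B/ρ^s`. `s! ≤ s^s ≤ exp(M^1408 * 1408 log M)`, `ρ^(-s) ≤ (K1 M^1400 (M^1408 + 1))^s ≤
exp(M^1408 (log K1 + 2809 log M))`, so both are `≤ exp(M^1409 * 3)`... with `log M ≤ M/3000`-type bounds for `M`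
large (`Real.add_one_le_exp`, or `isLittleO_log_id_atTop`; an explicit bound: `log M ≤ 2 sqrt M`), or simply
`log M ≤ M` and `≤ exp(3000 M^1409 + ..)`. All these are `≤ M^1411` and `M^4400/(256 K1) ≥ 2 M^4399 + ...` for `M`
large. (Same ADVICE as in Z1: small lemma `c * M^a ≤ M^b`.)
-/

set_option autoImplicit false

namespace CZ

open Complex

theorem Z2_pow {c x : ℝ} {a b : ℕ} (hx : 1 ≤ x) (hc : c ≤ x) (hab : a < b) : c * x ^ a ≤ x ^ b := by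
  have h0 : 0 ≤ x ^ a := by positivity
  calc c * x ^ a ≤ x * x ^ a := mul_le_mul_of_nonneg_right hc h0
    _ = x ^ (a + 1) := by ring
    _ ≤ x ^ b := pow_le_pow_right₀ hx hab

theorem Z2_num {K1 C : ℝ} (hK : 1 ≤ K1) (hC : 1 ≤ C) {M : ℕ} (hM : 4217 + 768 * K1 + 3 * C ≤ (M : ℝ))
    {S s m : ℕ} (hS : (M : ℝ) ^ 1400 / 4 ≤ S) (hS2 : (S : ℝ) ≤ (M : ℝ) ^ 1400) (hms : m ≤ s) (hs : s < M ^ 1408) :
    (s.factorial : ℝ) * Real.exp (3 * C * (M : ℝ) ^ 400 - (S : ℝ) ^ 4 / (K1 * ((M : ℝ) ^ 400) ^ 3)) /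
      (1 / (K1 * S * (m + 1))) ^ s ≤ Real.exp (-(M : ℝ) ^ 4399) := by
  have hs1 : (s : ℝ) ≤ (M : ℝ) ^ 1408 := by exact_mod_cast hs.le
  have hm1 : (m : ℝ) + 1 ≤ (M : ℝ) ^ 1408 := by
    have : m + 1 ≤ M ^ 1408 := by omega
    exact_mod_cast this
  have hfac : (s.factorial : ℝ) ≤ (s : ℝ) ^ s := by exact_mod_cast Nat.factorial_le_pow s
  generalize (M : ℝ) = X at *
  have hX1 : 1 ≤ X := by linarith
  have hX0 : 0 < X := by linarith
  have hSpos : (0 : ℝ) < S := lt_of_lt_of_le (by positivity) hS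
  have hm0 : (0 : ℝ) < (m : ℝ) + 1 := by positivity
  have hKS : 0 < K1 * S * (m + 1) := by positivity
  have h1 : K1 * S * (m + 1) ≤ X ^ 2809 := by
    calc K1 * S * (m + 1) ≤ X * X ^ 1400 * X ^ 1408 := by
          apply mul_le_mul _ hm1 hm0.le (by positivity)
          apply mul_le_mul (by linarith) hS2 hSpos.le hX0.le
      _ = X ^ 2809 := by ring
  have h2 : (s.factorial : ℝ) * (K1 * S * (m + 1)) ^ s ≤ Real.exp (X ^ 1410) := by
    calc (s.factorial : ℝ) * (K1 * S * (m + 1)) ^ s ≤ (X ^ 1408) ^ s * (X ^ 2809) ^ s := by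
          apply mul_le_mul
          · exact hfac.trans (pow_le_pow_left₀ (by positivity) hs1 s)
          · exact pow_le_pow_left₀ hKS.le h1 s
          · positivity
          · positivity
      _ = (X ^ s) ^ 4217 := by
          rw [← mul_pow, ← pow_mul, ← pow_add, mul_comm]
          ring
      _ ≤ ((Real.exp X) ^ s) ^ 4217 := by
          apply pow_le_pow_left₀ (by positivity)
          apply pow_le_pow_left₀ hX0.le
          linarith [Real.add_one_le_exp X]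
      _ = Real.exp (4217 * (s * X)) := by
          rw [← Real.exp_nat_mul, ← Real.exp_nat_mul]
          norm_num
      _ ≤ Real.exp (X ^ 1410) := by
          apply Real.exp_le_exp.2
          calc 4217 * (s * X) ≤ 4217 * (X ^ 1408 * X) := by
                apply mul_le_mul_of_nonneg_left _ (by norm_num)
                exact mul_le_mul_of_nonneg_right hs1 hX0.le
            _ = 4217 * X ^ 1409 := by ring
            _ ≤ X ^ 1410 := Z2_pow hX1 (by linarith) (by norm_num)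
  have h3 : 3 * X ^ 4399 ≤ (S : ℝ) ^ 4 / (K1 * (X ^ 400) ^ 3) := by
    rw [le_div_iff₀ (by positivity)]
    have h4 : (X ^ 1400 / 4) ^ 4 ≤ (S : ℝ) ^ 4 := pow_le_pow_left₀ (by positivity) hS 4
    have h5 : (768 * K1) * X ^ 5599 ≤ X ^ 5600 := Z2_pow hX1 (by linarith) (by norm_num)
    have h6 : (X ^ 1400 / 4) ^ 4 = X ^ 5600 / 256 := by ring
    have h7 : 3 * X ^ 4399 * (K1 * (X ^ 400) ^ 3) = (768 * K1) * X ^ 5599 / 256 := by ring
    rw [h6] at h4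
    rw [h7]
    linarith
  have h8 : 3 * C * X ^ 400 ≤ X ^ 4399 := Z2_pow hX1 (by linarith) (by norm_num)
  have h9 : X ^ 1410 ≤ X ^ 4399 := pow_le_pow_right₀ hX1 (by norm_num)
  have h10 : (s.factorial : ℝ) * Real.exp (3 * C * X ^ 400 - (S : ℝ) ^ 4 / (K1 * (X ^ 400) ^ 3)) /
      (1 / (K1 * S * (m + 1))) ^ s = ((s.factorial : ℝ) * (K1 * S * (m + 1)) ^ s) *
        Real.exp (3 * C * X ^ 400 - (S : ℝ) ^ 4 / (K1 * (X ^ 400) ^ 3)) := by
    rw [one_div, inv_pow, div_inv_eq_mul]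
    ring
  rw [h10]
  calc ((s.factorial : ℝ) * (K1 * S * (m + 1)) ^ s) *
        Real.exp (3 * C * X ^ 400 - (S : ℝ) ^ 4 / (K1 * (X ^ 400) ^ 3))
      ≤ Real.exp (X ^ 1410) * Real.exp (3 * C * X ^ 400 - (S : ℝ) ^ 4 / (K1 * (X ^ 400) ^ 3)) :=
        mul_le_mul_of_nonneg_right h2 (Real.exp_pos _).le
    _ = Real.exp (X ^ 1410 + (3 * C * X ^ 400 - (S : ℝ) ^ 4 / (K1 * (X ^ 400) ^ 3))) := by
        rw [← Real.exp_add]
    _ ≤ Real.exp (-X ^ 4399) := by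
        apply Real.exp_le_exp.2
        linarith

variable (c : CData) (b : BaseFn c.z)

theorem su : ∃ M0 : ℕ, ∀ M : ℕ, M0 ≤ M → ∀ k : (Fin 7 → Fin (M ^ 400 + 1)) → ℂ,
    (∀ l, ‖k l‖ ≤ 1) →
      (∀ s m : ℕ, m ≤ s → 2 * s < M ^ 1400 → J s m (FF c b (M ^ 400) k) = 0) →
      ∀ s m : ℕ, m ≤ s → s < M ^ 1408 →
        ‖J s m (FF c b (M ^ 400) k)‖ ≤ Real.exp (-(M : ℝ) ^ 4399) := by
  obtain ⟨Ca, hCa, hcov⟩ := cov_data c
  obtain ⟨Cb, C', hCb, hqd⟩ := q_data c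
  obtain ⟨Cc, hCc, hff⟩ := FF_data c b
  obtain ⟨C, hC⟩ : ∃ C : ℝ, C = max Ca (max Cb Cc) := ⟨_, rfl⟩
  have ha : Ca ≤ C := by rw [hC]; exact le_max_left _ _
  have hb : Cb ≤ C := by rw [hC]; exact (le_max_left _ _).trans (le_max_right _ _)
  have hc : Cc ≤ C := by rw [hC]; exact (le_max_right _ _).trans (le_max_right _ _)
  have hC1 : 1 ≤ C := hCa.trans ha
  have hq := hqd C hb
  obtain ⟨K1, hK1, hsch⟩ := sch hq (hcov C ha)
  obtain ⟨M0, hM0⟩ := exists_nat_ge (4217 + 768 * K1 + 3 * C)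
  refine ⟨M0, fun M hM k hk hzero s m hms hs => ?_⟩
  have hMr : 4217 + 768 * K1 + 3 * C ≤ (M : ℝ) := hM0.trans (by exact_mod_cast hM)
  have hM1 : (1 : ℝ) ≤ (M : ℝ) := by linarith
  have hM1' : 1 ≤ M := by exact_mod_cast hM1
  have hDn : 1 ≤ M ^ 400 := Nat.one_le_pow _ _ hM1'
  have hFD := hff C hc (M ^ 400) k hDn hk
  have hDr : (1 : ℝ) ≤ ((M ^ 400 : ℕ) : ℝ) := by exact_mod_cast hDn
  obtain ⟨S, hSdef⟩ : ∃ S : ℕ, S = M ^ 1400 / 2 := ⟨_, rfl⟩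
  have hS2 : 2 * S ≤ M ^ 1400 := by rw [hSdef]; exact Nat.mul_div_le _ _
  have hS3 : M ^ 1400 ≤ 2 * S + 1 := by rw [hSdef]; omega
  have hS2r : 2 * (S : ℝ) ≤ (M : ℝ) ^ 1400 := by exact_mod_cast hS2
  have hS3r : (M : ℝ) ^ 1400 ≤ 2 * S + 1 := by exact_mod_cast hS3
  have hM1400 : (M : ℝ) ≤ (M : ℝ) ^ 1400 := le_self_pow₀ hM1 (by norm_num)
  have hSlow : (M : ℝ) ^ 1400 / 4 ≤ S := by linarith
  have hSup : (S : ℝ) ≤ (M : ℝ) ^ 1400 := by
    have : (0 : ℝ) ≤ S := Nat.cast_nonneg _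
    linarith
  have hSpos : (1 : ℝ) ≤ S := by linarith
  have hKD : K1 * ((M ^ 400 : ℕ) : ℝ) ≤ S := by
    have h1 : (4 * K1) * (M : ℝ) ^ 400 ≤ (M : ℝ) ^ 1400 := Z2_pow hM1 (by linarith) (by norm_num)
    push_cast
    linarith
  have hmain := hsch ((M ^ 400 : ℕ) : ℝ) (C * ((M ^ 400 : ℕ) : ℝ)) 0 S (FF c b (M ^ 400) k) hDr hKD
    (by positivity) le_rfl hFD
    (fun s' m' hms' hs' => by
      have : 2 * s' < M ^ 1400 := by omega
      rw [hzero s' m' hms' this]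
      simp)
  have hK0 : 0 < K1 := by linarith
  have hS0 : (0 : ℝ) < S := by linarith
  have hm0 : (0 : ℝ) < (m : ℝ) + 1 := by positivity
  have hρ : 0 < 1 / (K1 * S * ((m : ℝ) + 1)) := by positivity
  have hbd : ∀ x : ℂ, ‖x‖ = 1 / (K1 * S * ((m : ℝ) + 1)) →
      ‖FF c b (M ^ 400) k (x, m * x)‖ ≤
        Real.exp (3 * C * (M : ℝ) ^ 400 - (S : ℝ) ^ 4 / (K1 * ((M : ℝ) ^ 400) ^ 3)) := by
    intro x hx
    have hKS1 : 1 ≤ K1 * S := by nlinarith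
    have hx1 : ‖x‖ ≤ 1 := by
      rw [hx, div_le_one (by positivity)]
      have : (0 : ℝ) ≤ m := Nat.cast_nonneg _
      nlinarith
    have hmx0 : ‖(m : ℂ) * x‖ ≤ 1 / (K1 * S) := by
      rw [norm_mul, Complex.norm_natCast, hx, mul_one_div, div_le_div_iff₀ (by positivity) (by positivity)]
      nlinarith
    have hmx1 : ‖(m : ℂ) * x‖ ≤ 1 := hmx0.trans (by rw [div_le_one (by positivity)]; exact hKS1)
    have him : |((m : ℂ) * x).im| ≤ ((M ^ 400 : ℕ) : ℝ) / (K1 * S) := by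
      refine ((Complex.abs_im_le_norm _).trans hmx0).trans ?_
      exact div_le_div_of_nonneg_right hDr (by positivity)
    have h1 := hmain x (m * x) him
    rw [zero_mul, add_zero] at h1
    have hqle : c.q x (m * x) ≤ 2 * C := by
      refine (hq.le x (m * x)).trans ?_
      have e1 : ‖x‖ ^ 2 ≤ 1 := pow_le_one₀ (norm_nonneg _) hx1
      have e2 : ‖(m : ℂ) * x‖ ^ 2 ≤ 1 := pow_le_one₀ (norm_nonneg _) hmx1
      nlinarith
    have h2 : ‖FF c b (M ^ 400) k (x, m * x)‖ =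
        (‖FF c b (M ^ 400) k (x, m * x)‖ * Real.exp (-(((M ^ 400 : ℕ) : ℝ) * c.q x (m * x)))) *
          Real.exp (((M ^ 400 : ℕ) : ℝ) * c.q x (m * x)) := by
      rw [mul_assoc, ← Real.exp_add, neg_add_cancel, Real.exp_zero, mul_one]
    rw [h2]
    have h3 : Real.exp (((M ^ 400 : ℕ) : ℝ) * c.q x (m * x)) ≤ Real.exp (((M ^ 400 : ℕ) : ℝ) * (2 * C)) :=
      Real.exp_le_exp.2 (mul_le_mul_of_nonneg_left hqle (by linarith))
    refine (mul_le_mul h1 h3 (Real.exp_pos _).le (Real.exp_pos _).le).trans (le_of_eq ?_)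
    rw [← Real.exp_add]
    congr 1
    push_cast
    ring
  exact (jet_cauchy hFD.diff hρ hbd).trans (Z2_num hK1 hC1 hMr hSlow hSup hms hs)

end CZ
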