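import Pool.Agent.H22.CZ.Z1
import Pool.Agent.H22.CZ.Z2

/-!
# The analytic theorem
-/

set_option autoImplicit false

namespace CZ

theorem analysis (c : CData) (b : BaseFn c.z) : ∃ M0 : ℕ, ∀ M : ℕ, M0 ≤ M →
    (∀ k : (Fin 7 → Fin (M ^ 400 + 1)) → ℂ, (∀ l, ‖k l‖ ≤ 1) → (∃ l, ‖k l‖ = 1) →
      ∃ s m : ℕ, m ≤ s ∧ s < M ^ 1408 ∧
        Real.exp (-(M : ℝ) ^ 4429) ≤ ‖J s m (FF c b (M ^ 400) k)‖) ∧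
    (∀ k : (Fin 7 → Fin (M ^ 400 + 1)) → ℂ, (∀ l, ‖k l‖ ≤ 1) →
      (∀ s m : ℕ, m ≤ s → 2 * s < M ^ 1400 → J s m (FF c b (M ^ 400) k) = 0) →
      ∀ s m : ℕ, m ≤ s → s < M ^ 1408 →
        ‖J s m (FF c b (M ^ 400) k)‖ ≤ Real.exp (-(M : ℝ) ^ 4399)) := by
  obtain ⟨M1, h1⟩ := ze c b
  obtain ⟨M2, h2⟩ := su c b
  exact ⟨max M1 M2, fun M hM ↦ ⟨h1 M (le_trans (le_max_left _ _) hM),
    h2 M (le_trans (le_max_right _ _) hM)⟩⟩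

end CZ
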