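import Pool.Agent.H22.CZ.Defs

/-!
# Row Ba1: translates of the base functions

Here `b : BaseFn z` for any `z : ℂ`.
PROOF.
* `A_int, dA_int, B_int` : induction on the integer `m` (`Int.induction_on`) from `A1`, `B1`; for the
  derivative: `deriv (fun s ↦ A (s + m)) = deriv A (· + m)` (`deriv_comp_add_const`).
* `A_z`: for integers `n`: `A (s + n z) = (-1)^n exp(-π i n^2 z - 2 π i n s) A s`. Induction on `n`
  (`Int.induction_on`): `A (s + (n+1) z) = A ((s + n z) + z) = -exp(-π i z - 2 π i (s + n z)) A(s + n z)`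
  and `-π i z - 2 π i n z - π i n^2 z = -π i (n+1)^2 z`; downwards replace `s` by `s - z`.
  We only need even `n = 2 k`: state it as `A (s + 2 k z) = exp(-π i (2k)^2 z - 2 π i (2k) s) A s`,
  by induction on `k : ℤ` with steps `s ↦ s + 2 z`:
  `A (s + 2 z) = exp(-4 π i z - 4 π i s) A s` (two applications of `Az`).
* `dA_z`: differentiate `A_z` in `s` (`HasDerivAt.comp_add_const`, product rule):
  `A'(s + 2kz) = exp(..)(A' s - 2 π i (2k) A s)`.
* `B_z`: the same with the factor squared.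
* combine with `A_int`: for integers `k, m`: replace `s` by `s + 2kz - m`... (`A_zm, dA_zm, B_zm`):
  `A (s + 2 k z - m) = A (s + 2 k z)` by `A_int` at `s + 2kz - m`.
-/

set_option autoImplicit false

namespace CZ

open Complex

variable {z : ℂ} (b : BaseFn z)

lemma A_int (m : ℤ) (s : ℂ) : b.A (s + m) = b.A s := by
  have h : Function.Periodic b.A 1 := b.A1
  have h1 := h.int_mul m s
  rwa [mul_one] at h1

lemma dA_int (m : ℤ) (s : ℂ) : deriv b.A (s + m) = deriv b.A s := by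
  have h : (fun x : ℂ => b.A (x + m)) = b.A := funext fun x => A_int b m x
  rw [← deriv_comp_add_const b.A (m : ℂ) s, h]

lemma B_int (m : ℤ) (s : ℂ) : b.B (s + m) = b.B s := by
  have h : Function.Periodic b.B 1 := b.B1
  have h1 := h.int_mul m s
  rwa [mul_one] at h1

/-- The automorphy factor for the translation by `2 k z`. -/
noncomputable def fac (z : ℂ) (k : ℤ) (s : ℂ) : ℂ :=
  exp (-(Real.pi * I * (2 * k) ^ 2 * z) - 2 * Real.pi * I * (2 * k) * s)

lemma fac_ne (z : ℂ) (k : ℤ) (s : ℂ) : fac z k s ≠ 0 := exp_ne_zero _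

/-- `‖fac‖ = exp((π / Y) (Im (s + 2 k z)^2 - (Im s)^2))`. PROOF: `‖exp w‖ = exp (re w)`;
the real part is `π (2k)^2 Y + 2 π (2k) Im s` and `Im (s + 2 k z) = Im s + 2 k Y`. -/
lemma norm_fac (hz : 0 < z.im) (k : ℤ) (s : ℂ) :
    ‖fac z k s‖ = Real.exp (Real.pi / z.im * (s + 2 * k * z).im ^ 2 -
      Real.pi / z.im * s.im ^ 2) := by
  have e1 : (-(Real.pi * I * (2 * (k : ℂ)) ^ 2 * z) - 2 * Real.pi * I * (2 * k) * s).re =
      4 * Real.pi * k * s.im + 4 * Real.pi * k ^ 2 * z.im := by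
    have h2 : (-(Real.pi * I * (2 * (k : ℂ)) ^ 2 * z) - 2 * Real.pi * I * (2 * k) * s) =
        ((-(4 * Real.pi * k ^ 2) : ℝ) : ℂ) * (I * z) + ((-(4 * Real.pi * k) : ℝ) : ℂ) * (I * s) := by
      push_cast
      ring
    rw [h2, add_re, re_ofReal_mul, re_ofReal_mul, I_mul_re, I_mul_re]
    ring
  have e2 : (s + 2 * k * z).im = s.im + 2 * k * z.im := by
    have h2 : s + 2 * (k : ℂ) * z = s + ((2 * k : ℝ) : ℂ) * z := by
      push_cast
      ring
    rw [h2, add_im, im_ofReal_mul]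
  rw [fac, Complex.norm_exp, e1, e2]
  congr 1
  have := hz.ne'
  field_simp
  ring

lemma fac_add (z : ℂ) (k l : ℤ) (s : ℂ) :
    fac z (k + l) s = fac z k (s + 2 * l * z) * fac z l s := by
  rw [fac, fac, fac, ← exp_add]
  congr 1
  push_cast
  ring

lemma fac_zero (z : ℂ) (s : ℂ) : fac z 0 s = 1 := by
  simp [fac]

lemma fac_gen (f : ℂ → ℂ) (e : ℕ) (h : ∀ s, f (s + 2 * z) = fac z 1 s ^ e * f s) (k : ℤ) :
    ∀ s : ℂ, f (s + 2 * k * z) = fac z k s ^ e * f s := by
  induction k using Int.induction_on with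
  | zero =>
    intro s
    rw [fac_zero]
    simp
  | succ k ih =>
    intro s
    have h1 : s + 2 * (((k : ℤ) + 1 : ℤ) : ℂ) * z = (s + 2 * ((k : ℤ) : ℂ) * z) + 2 * z := by
      push_cast
      ring
    rw [h1, h, ih s, add_comm (k : ℤ) 1, fac_add, mul_pow]
    ring
  | pred k ih =>
    intro s
    have h1 : (s + 2 * ((-(k : ℤ) - 1 : ℤ) : ℂ) * z) + 2 * z = s + 2 * ((-(k : ℤ) : ℤ) : ℂ) * z := by
      push_cast
      ring
    have h2 := h (s + 2 * ((-(k : ℤ) - 1 : ℤ) : ℂ) * z)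
    rw [h1, ih s] at h2
    have h3 : fac z (-(k : ℤ)) s = fac z 1 (s + 2 * ((-(k : ℤ) - 1 : ℤ) : ℂ) * z) *
        fac z (-(k : ℤ) - 1) s := by
      rw [← fac_add]
      congr 1
      ring
    rw [h3, mul_pow, mul_assoc] at h2
    exact (mul_left_cancel₀ (pow_ne_zero _ (fac_ne _ _ _)) h2).symm

lemma A_2z (s : ℂ) : b.A (s + 2 * z) = fac z 1 s ^ 1 * b.A s := by
  have h1 : s + 2 * z = (s + z) + z := by ring
  rw [h1, b.Az, b.Az, pow_one, fac]
  have h2 : exp (-(Real.pi * I * (2 * ((1 : ℤ) : ℂ)) ^ 2 * z) - 2 * Real.pi * I * (2 * ((1 : ℤ) : ℂ)) * s) =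
      exp (-(Real.pi * I * z) - 2 * Real.pi * I * (s + z)) *
        exp (-(Real.pi * I * z) - 2 * Real.pi * I * s) := by
    rw [← exp_add]
    congr 1
    push_cast
    ring
  rw [h2]
  ring

lemma B_2z (s : ℂ) : b.B (s + 2 * z) = fac z 1 s ^ 2 * b.B s := by
  have h1 : s + 2 * z = (s + z) + z := by ring
  rw [h1, b.Bz, b.Bz, fac]
  have h2 : exp (-(Real.pi * I * (2 * ((1 : ℤ) : ℂ)) ^ 2 * z) -
      2 * Real.pi * I * (2 * ((1 : ℤ) : ℂ)) * s) ^ 2 =
      exp (2 * (-(Real.pi * I * z) - 2 * Real.pi * I * (s + z))) *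
        exp (2 * (-(Real.pi * I * z) - 2 * Real.pi * I * s)) := by
    rw [← exp_add, ← exp_nat_mul]
    congr 1
    push_cast
    ring
  rw [h2]
  ring

lemma A_zm (k m : ℤ) (s : ℂ) : b.A (s + (2 * k * z - m)) = fac z k s * b.A s := by
  have h1 := A_int b m (s + (2 * k * z - m))
  have h2 : s + (2 * k * z - m) + m = s + 2 * k * z := by ring
  rw [← h1, h2, fac_gen b.A 1 (A_2z b) k s, pow_one]

lemma dA_zm (k m : ℤ) (s : ℂ) : deriv b.A (s + (2 * k * z - m)) =
    fac z k s * (deriv b.A s - 2 * Real.pi * I * (2 * k) * b.A s) := by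
  have h : (fun x : ℂ => b.A (x + (2 * k * z - m))) = fun x => fac z k x * b.A x :=
    funext fun x => A_zm b k m x
  rw [← deriv_comp_add_const b.A (2 * k * z - m) s, h]
  have h1 : HasDerivAt (fac z k) (fac z k s * (-(2 * Real.pi * I * (2 * k)))) s := by
    have h2 : HasDerivAt (fun x : ℂ => -(Real.pi * I * (2 * k) ^ 2 * z) -
        2 * Real.pi * I * (2 * k) * x) (-(2 * Real.pi * I * (2 * k))) s := by
      have h3 := ((hasDerivAt_id s).const_mul (2 * Real.pi * I * (2 * (k : ℂ)))).const_sub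
        (-(Real.pi * I * (2 * k) ^ 2 * z))
      simpa using h3
    exact h2.cexp
  have h4 := (h1.mul (b.dA s).hasDerivAt).deriv
  have h5 : deriv (fun x => fac z k x * b.A x) s =
      fac z k s * (-(2 * Real.pi * I * (2 * k))) * b.A s + fac z k s * deriv b.A s := h4
  rw [h5]
  ring

lemma B_zm (k m : ℤ) (s : ℂ) : b.B (s + (2 * k * z - m)) = fac z k s ^ 2 * b.B s := by
  have h1 := B_int b m (s + (2 * k * z - m))
  have h2 : s + (2 * k * z - m) + m = s + 2 * k * z := by ring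
  rw [← h1, h2, fac_gen b.B 2 (B_2z b) k s]

end CZ
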