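import Pool.Agent.H22.CZ.Ba1

/-!
# Row Ba2: growth of the base functions

PROOF. Let `Y = z.im > 0`. Each of the three continuous functions
`g1 s = ‖A s‖ exp(-π (Im s)^2/Y)`, `g2 s = ‖A' s + 2 π i (Im s/Y) A s‖ exp(-π (Im s)^2/Y)`,
`g3 s = ‖B s‖ exp(-2 π (Im s)^2/Y)` is invariant under `s ↦ s + m` (`m : ℤ`) and under
`s ↦ s + 2 k z`: use `A_zm, dA_zm, B_zm` (with `m = 0`) and `norm_fac`; for `g2`:
`A'(s + 2kz) + 2 π i ((Im s + 2kY)/Y) A(s + 2kz) = fac (A' s - 2 π i 2k A s + 2 π i (Im s/Y) A s + 2 π i 2k A s)`.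
Every `s` is equivalent to a point of the compact set `K = {x + y z : 0 ≤ x ≤ 1, 0 ≤ y ≤ 2}`
(`y = Im s / Y`, `k = ⌊y/2⌋`, then `x` mod 1), the continuous functions are bounded on `K`
(`IsCompact.exists_bound_of_continuousOn`), so they are bounded everywhere by the same constant.
`growth'`: `‖A' s‖ ≤ ‖A' s + 2 π i (Im s/Y) A s‖ + (2π |Im s|/Y) ‖A s‖`.
`growth_small`: for `|Im s| ≤ R`: monotonicity of `exp`.
`near0`: `A 0 = 1` and continuity.
-/

set_option autoImplicit false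

namespace CZ

open Complex

variable {z : ℂ} (b : BaseFn z)

theorem ba2_rep (hz : 0 < z.im) (s : ℂ) : ∃ (k m : ℤ) (x y : ℝ), 0 ≤ x ∧ x ≤ 1 ∧ 0 ≤ y ∧ y ≤ 2 ∧
    s = ((x : ℂ) + y * z) + (2 * k * z - m) := by
  obtain ⟨y, hy⟩ : ∃ y : ℝ, y = s.im / z.im := ⟨_, rfl⟩
  obtain ⟨k, hk⟩ : ∃ k : ℤ, k = ⌊y / 2⌋ := ⟨_, rfl⟩
  obtain ⟨x, hx⟩ : ∃ x : ℝ, x = s.re - y * z.re := ⟨_, rfl⟩
  have h1 := Int.floor_le (y / 2)
  have h2 := Int.lt_floor_add_one (y / 2)
  have h3 := Int.floor_le x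
  have h4 := Int.lt_floor_add_one x
  rw [← hk] at h1 h2
  obtain ⟨n, hn⟩ : ∃ n : ℤ, n = ⌊x⌋ := ⟨_, rfl⟩
  rw [← hn] at h3 h4
  refine ⟨k, -n, x - n, y - 2 * k, by linarith, by linarith, by linarith, by linarith, ?_⟩
  have hyz : y * z.im = s.im := by
    rw [hy]
    field_simp
  apply Complex.ext
  · simp
    rw [hx]
    ring
  · simp
    rw [← hyz]
    ring

theorem ba2_bound {F : ℂ → ℂ} (hF : Continuous F) (z : ℂ) : ∃ C : ℝ, 0 ≤ C ∧
    ∀ x y : ℝ, 0 ≤ x → x ≤ 1 → 0 ≤ y → y ≤ 2 → ‖F (x + y * z)‖ ≤ C := by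
  have hK : IsCompact (Set.Icc (0 : ℝ) 1 ×ˢ Set.Icc (0 : ℝ) 2) := isCompact_Icc.prod isCompact_Icc
  have hG : Continuous fun p : ℝ × ℝ => F (p.1 + p.2 * z) := by
    refine hF.comp ?_
    fun_prop
  obtain ⟨C, hC⟩ := hK.exists_bound_of_continuousOn hG.continuousOn
  refine ⟨max C 0, le_max_right _ _, fun x y hx hx1 hy hy1 => (hC (x, y) ⟨⟨hx, hx1⟩, ⟨hy, hy1⟩⟩).trans
    (le_max_left _ _)⟩

theorem growth (hz : 0 < z.im) : ∃ C : ℝ, 1 ≤ C ∧ ∀ s : ℂ,
    ‖b.A s‖ ≤ C * Real.exp (Real.pi / z.im * s.im ^ 2) ∧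
    ‖deriv b.A s + 2 * Real.pi * I * (s.im / z.im) * b.A s‖ ≤
      C * Real.exp (Real.pi / z.im * s.im ^ 2) ∧
    ‖b.B s‖ ≤ C * Real.exp (2 * (Real.pi / z.im * s.im ^ 2)) := by
  have hdA : Continuous (deriv b.A) := (b.dA.contDiff (n := 1)).continuous_deriv le_rfl
  obtain ⟨C1, hC1, h1⟩ := ba2_bound b.dA.continuous z
  obtain ⟨C2, hC2, h2⟩ := ba2_bound
    (F := fun s => deriv b.A s + 2 * Real.pi * I * (s.im / z.im) * b.A s)
    (hdA.add (by have := b.dA.continuous; fun_prop)) z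
  obtain ⟨C3, hC3, h3⟩ := ba2_bound b.dB.continuous z
  refine ⟨1 + C1 + C2 + C3, by linarith, fun s => ?_⟩
  obtain ⟨k, m, x, y, hx0, hx1, hy0, hy1, hs⟩ := ba2_rep hz s
  obtain ⟨s0, hs0⟩ : ∃ s0 : ℂ, s0 = (x : ℂ) + y * z := ⟨_, rfl⟩
  have e1 := h1 x y hx0 hx1 hy0 hy1
  have e2 := h2 x y hx0 hx1 hy0 hy1
  have e3 := h3 x y hx0 hx1 hy0 hy1
  rw [← hs0] at e1 e2 e3 hs
  have him : s.im = (s0 + 2 * k * z).im := by
    rw [hs]
    simp
  have him2 : s.im = s0.im + 2 * k * z.im := by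
    rw [him]
    simp
  have hp : 0 < Real.pi / z.im := div_pos Real.pi_pos hz
  have hf : ‖fac z k s0‖ ≤ Real.exp (Real.pi / z.im * s.im ^ 2) := by
    rw [norm_fac hz, him, Real.exp_le_exp]
    have : 0 ≤ Real.pi / z.im * s0.im ^ 2 := by positivity
    linarith
  have hE : 0 < Real.exp (Real.pi / z.im * s.im ^ 2) := Real.exp_pos _
  refine ⟨?_, ?_, ?_⟩
  · rw [show b.A s = fac z k s0 * b.A s0 by rw [hs, A_zm], norm_mul, mul_comm]
    exact mul_le_mul (by linarith) hf (norm_nonneg _) (by linarith)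
  · have e4 : deriv b.A s + 2 * Real.pi * I * (s.im / z.im) * b.A s =
        fac z k s0 * (deriv b.A s0 + 2 * Real.pi * I * (s0.im / z.im) * b.A s0) := by
      have hzc : (z.im : ℂ) ≠ 0 := by exact_mod_cast hz.ne'
      have e5 : ((s.im : ℝ) : ℂ) = s0.im + 2 * k * z.im := by
        rw [him2]
        push_cast
        ring
      rw [e5, show deriv b.A s = fac z k s0 * (deriv b.A s0 - 2 * Real.pi * I * (2 * k) * b.A s0) by
        rw [hs, dA_zm], show b.A s = fac z k s0 * b.A s0 by rw [hs, A_zm]]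
      field_simp
      ring
    rw [e4, norm_mul, mul_comm]
    exact mul_le_mul (by linarith) hf (norm_nonneg _) (by linarith)
  · rw [show b.B s = fac z k s0 ^ 2 * b.B s0 by rw [hs, B_zm], norm_mul, mul_comm, norm_pow]
    refine mul_le_mul (by linarith) ?_ (by positivity) (by linarith)
    rw [two_mul (Real.pi / z.im * s.im ^ 2), Real.exp_add, ← sq]
    exact pow_le_pow_left₀ (norm_nonneg _) hf 2

theorem growth' (hz : 0 < z.im) : ∃ C : ℝ, 1 ≤ C ∧ ∀ s : ℂ,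
    ‖b.A s‖ ≤ Real.exp (C * (1 + s.im ^ 2)) ∧ ‖deriv b.A s‖ ≤ Real.exp (C * (1 + s.im ^ 2)) ∧
    ‖b.B s‖ ≤ Real.exp (C * (1 + s.im ^ 2)) := by
  obtain ⟨C, hC, h⟩ := growth b hz
  have hpi := Real.pi_pos
  obtain ⟨c, hc⟩ : ∃ c : ℝ, c = Real.pi / z.im := ⟨_, rfl⟩
  have hc0 : 0 < c := by
    rw [hc]
    positivity
  obtain ⟨D, hD⟩ : ∃ D : ℝ, D = C * (1 + 2 * c) := ⟨_, rfl⟩
  have hD1 : 1 ≤ D := by
    rw [hD]
    nlinarith
  have hCD : C ≤ D := by
    rw [hD]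
    nlinarith
  have hlog : 0 ≤ Real.log D := Real.log_nonneg hD1
  have key : ∀ q a : ℝ, 0 ≤ q → a ≤ (1 + 2 * c) * q → D * Real.exp a ≤
      Real.exp ((Real.log D + 1 + 2 * c) * (1 + q)) := by
    intro q a hq ha
    have h1 : D * Real.exp a = Real.exp (Real.log D + a) := by
      rw [Real.exp_add, Real.exp_log (by linarith)]
    rw [h1, Real.exp_le_exp]
    nlinarith [mul_nonneg hlog hq]
  refine ⟨Real.log D + 1 + 2 * c, by linarith, fun s => ?_⟩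
  obtain ⟨h1, h2, h3⟩ := h s
  rw [← hc] at h1 h2 h3
  have hq : 0 ≤ s.im ^ 2 := sq_nonneg _
  have hE := Real.exp_pos (c * s.im ^ 2)
  refine ⟨?_, ?_, ?_⟩
  · refine h1.trans ((mul_le_mul_of_nonneg_right hCD hE.le).trans (key _ _ hq ?_))
    nlinarith [mul_nonneg hc0.le hq]
  · have h4 : ‖deriv b.A s‖ ≤ ‖deriv b.A s + 2 * Real.pi * I * (s.im / z.im) * b.A s‖ +
        ‖2 * Real.pi * I * (s.im / z.im) * b.A s‖ := by
      have := norm_sub_le (deriv b.A s + 2 * Real.pi * I * (s.im / z.im) * b.A s)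
        (2 * Real.pi * I * (s.im / z.im) * b.A s)
      rwa [add_sub_cancel_right] at this
    have h5 : ‖2 * Real.pi * I * (s.im / z.im) * b.A s‖ = 2 * c * |s.im| * ‖b.A s‖ := by
      rw [norm_mul, norm_mul, norm_mul, norm_mul, norm_div, Complex.norm_I, Complex.norm_ofNat,
        Complex.norm_real, Complex.norm_real, Complex.norm_real, Real.norm_eq_abs, Real.norm_eq_abs,
        Real.norm_eq_abs, abs_of_pos hpi, abs_of_pos hz, hc]
      ring
    have h6 : |s.im| ≤ 1 + s.im ^ 2 := by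
      rw [abs_le]
      constructor <;> nlinarith [sq_nonneg (s.im + 1), sq_nonneg (s.im - 1)]
    have h7 : ‖deriv b.A s‖ ≤ D * (Real.exp (s.im ^ 2) * Real.exp (c * s.im ^ 2)) := by
      have h8 : 1 + s.im ^ 2 ≤ Real.exp (s.im ^ 2) := by
        have := Real.add_one_le_exp (s.im ^ 2)
        linarith
      have h9 : 2 * c * |s.im| * ‖b.A s‖ ≤ 2 * c * (1 + s.im ^ 2) * (C * Real.exp (c * s.im ^ 2)) :=
        mul_le_mul (mul_le_mul_of_nonneg_left h6 (by positivity)) h1 (norm_nonneg _) (by positivity)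
      calc ‖deriv b.A s‖ ≤ C * Real.exp (c * s.im ^ 2) +
            2 * c * (1 + s.im ^ 2) * (C * Real.exp (c * s.im ^ 2)) := by
              rw [h5] at h4
              linarith
        _ ≤ (1 + s.im ^ 2) * (C * Real.exp (c * s.im ^ 2)) +
            2 * c * (1 + s.im ^ 2) * (C * Real.exp (c * s.im ^ 2)) := by
              have : 0 ≤ s.im ^ 2 * (C * Real.exp (c * s.im ^ 2)) := by positivity
              nlinarith
        _ = D * ((1 + s.im ^ 2) * Real.exp (c * s.im ^ 2)) := by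
              rw [hD]
              ring
        _ ≤ D * (Real.exp (s.im ^ 2) * Real.exp (c * s.im ^ 2)) := by
              refine mul_le_mul_of_nonneg_left ?_ (by linarith)
              exact mul_le_mul_of_nonneg_right h8 hE.le
    rw [← Real.exp_add] at h7
    refine h7.trans (key _ _ hq ?_)
    nlinarith [mul_nonneg hc0.le hq]
  · refine h3.trans ((mul_le_mul_of_nonneg_right hCD (Real.exp_pos _).le).trans (key _ _ hq ?_))
    nlinarith [mul_nonneg hc0.le hq]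

theorem near0 : ∃ δ : ℝ, 0 < δ ∧ ∀ s : ℂ, ‖s‖ ≤ δ → 1 / 2 ≤ ‖b.A s‖ := by
  have h1 : ContinuousAt b.A 0 := b.dA.continuous.continuousAt
  rw [Metric.continuousAt_iff] at h1
  obtain ⟨δ, hδ, h⟩ := h1 (1 / 2) (by norm_num)
  refine ⟨δ / 2, by linarith, fun s hs => ?_⟩
  have h2 := h (x := s) (by rw [dist_zero_right]; linarith)
  rw [b.A0, dist_eq_norm] at h2
  have h3 : ‖(1 : ℂ)‖ ≤ ‖b.A s‖ + ‖b.A s - 1‖ := by
    have := norm_sub_le (b.A s) (b.A s - 1)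
    rwa [sub_sub_cancel] at this
  rw [norm_one] at h3
  linarith

end CZ
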