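import Pool.Agent.H22.CZ.Al

/-!
# Row La2: elementary facts on the lattice and the norm lower bound

PROOF.
* `lat_zb`: `map_add, map_mul, ...` (integers and naturals are real). `lat_r`: casts.
* `lat_add`, `lat_zsmul`: `simp; ring`.
* `lat_mulz`: with `g = N ρ`, `ρ` a root: `g^3 = -b2 g^2 - N b1 g - N^2 b0` (multiply `rt_root` by
  `N^3`), and `g (x0 + x1 g + x2 g^2) = x0 g + x1 g^2 + x2 g^3`.
* `norm_ge`: put `g_i = N rt i`, `e1 = g_0+g_1+g_2 = -b2`, `e2 = g_0 g_1 + ... = N b1`,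
  `e3 = g_0 g_1 g_2 = -N^2 b0`: integers. With `l_i = x0 + x1 g_i + x2 g_i^2`:
  `l_0 l_1 l_2 = x0^3 + x0^2 x1 e1 + x0^2 x2 (e1^2 - 2 e2) + x0 x1^2 e2 + x0 x1 x2 (e1 e2 - 3 e3)
   + x0 x2^2 (e2^2 - 2 e1 e3) + x1^3 e3 + x1^2 x2 e1 e3 + x1 x2^2 e2 e3 + x2^3 e3^2` (`ring` after
  substituting `e1, e2, e3` by their expressions), an integer `n`. `l_1 = conj l_0`, so
  `‖l_0‖^2 * l_2 = n`. If `x ≠ 0` then `l_0 ≠ 0` by `hirz` (applied to `x0, x1 N, x2 N^2`), `l_2 ≠ 0`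
  by `hirr`, so `|n| ≥ 1`. Finally `‖lat z x‖ = 2 N^5 ‖l_0‖`, `|latr x| = 2 N^5 |l_2|`,
  `(2 N^5)^3 ≥ 1`. So `c0 = 1` works.
* `slope_gap`: for integers `(n0, n1) ≠ (0,0)`, `|n0|, |n1| ≤ T`, `T ≥ 1`: consider
  `n0 + n1 r`, `n0 + n1 z`. `N^3 (n0 + n1 z)(n0 + n1 zb)(n0 + n1 r)` is an integer
  (`= N^3 n0^3 + N^3 n0^2 n1 s1 + N^3 n0 n1^2 s2 + N^3 n1^3 s3` with `N s1 = -b2, N s2 = b1,
  N s3 = -b0`), nonzero by `hirr`, `hirz`; so `|n0 + n1 r| ≥ 1 / (N^3 ‖n0 + n1 z‖^2) ≥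
  1 / (N^3 (1 + ‖z‖)^2 T^2)`. Multiply by `|N f'(r)| > 0` (`ber_ne c 0`; note `ber 1 = ber 0 * r`).
-/

set_option autoImplicit false

namespace CZ

open Complex

variable (c : CData)

lemma lat_r (x : Fin 3 → ℤ) : c.lat c.r x = (c.latr x : ℂ) := by
  unfold CData.lat CData.latr
  push_cast
  ring

lemma lat_zb (x : Fin 3 → ℤ) : c.lat c.zb x = (starRingEnd ℂ) (c.lat c.z x) := by
  unfold CData.lat CData.zb
  simp only [map_mul, map_add, map_pow, map_natCast, map_intCast, map_ofNat]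

lemma lat_add (ρ : ℂ) (x y : Fin 3 → ℤ) : c.lat ρ (x + y) = c.lat ρ x + c.lat ρ y := by
  unfold CData.lat
  simp only [Pi.add_apply]
  push_cast
  ring

lemma lat_zsmul (ρ : ℂ) (n : ℤ) (x : Fin 3 → ℤ) : c.lat ρ (n • x) = n * c.lat ρ x := by
  unfold CData.lat
  simp only [Pi.smul_apply, smul_eq_mul]
  push_cast
  ring

lemma lat_mulz (i : Fin 3) (x : Fin 3 → ℤ) :
    c.lat (c.rt i) (c.mulz x) = c.N * c.rt i * c.lat (c.rt i) x := by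
  have h := rt_root c i
  have hN := N_ne c
  have h1 : (c.N : ℂ) * c.rt i ^ 3 + c.b2 * c.rt i ^ 2 + c.b1 * c.rt i + c.b0 = 0 := by
    field_simp at h
    linear_combination h
  have e0 : c.mulz x 0 = -(c.N ^ 2 * c.b0 * x 2) := rfl
  have e1 : c.mulz x 1 = x 0 - c.N * c.b1 * x 2 := rfl
  have e2 : c.mulz x 2 = x 1 - c.b2 * x 2 := rfl
  unfold CData.lat
  rw [e0, e1, e2]
  push_cast
  linear_combination (-(2 * (c.N : ℂ) ^ 7 * x 2)) * h1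

theorem norm_ge {x : Fin 3 → ℤ} (hx : x ≠ 0) : 1 ≤ ‖c.lat c.z x‖ ^ 2 * |c.latr x| := by
  have hN1 : (1 : ℝ) ≤ c.N := by exact_mod_cast c.hN
  have hN0 : (c.N : ℤ) ≠ 0 := by exact_mod_cast c.hN.ne'
  set l0 : ℂ := x 0 + x 1 * (c.N * c.z) + x 2 * (c.N * c.z) ^ 2 with hl0
  set l2 : ℝ := x 0 + x 1 * (c.N * c.r) + x 2 * (c.N * c.r) ^ 2 with hl2
  set e1 : ℤ := -c.b2 with he1
  set e2 : ℤ := c.N * c.b1 with he2
  set e3 : ℤ := -(c.N ^ 2 * c.b0) with he3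
  have E1 : (c.N : ℂ) * c.z + c.N * (starRingEnd ℂ) c.z + c.N * c.r = e1 := by
    rw [he1]
    push_cast
    linear_combination c.he1
  have E2 : (c.N : ℂ) * c.z * (c.N * (starRingEnd ℂ) c.z) + c.N * c.z * (c.N * c.r) +
      c.N * (starRingEnd ℂ) c.z * (c.N * c.r) = e2 := by
    rw [he2]
    push_cast
    linear_combination (c.N : ℂ) * c.he2
  have E3 : (c.N : ℂ) * c.z * (c.N * (starRingEnd ℂ) c.z) * (c.N * c.r) = e3 := by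
    rw [he3]
    push_cast
    linear_combination (c.N : ℂ) ^ 2 * c.he3
  set n : ℤ := x 0 ^ 3 + x 0 ^ 2 * x 1 * e1 + x 0 ^ 2 * x 2 * (e1 ^ 2 - 2 * e2) +
    x 0 * x 1 ^ 2 * e2 + x 0 * x 1 * x 2 * (e1 * e2 - 3 * e3) +
    x 0 * x 2 ^ 2 * (e2 ^ 2 - 2 * e1 * e3) + x 1 ^ 3 * e3 + x 1 ^ 2 * x 2 * e1 * e3 +
    x 1 * x 2 ^ 2 * e2 * e3 + x 2 ^ 3 * e3 ^ 2 with hn
  have hprod : l0 * (starRingEnd ℂ) l0 * (l2 : ℂ) = (n : ℂ) := by
    rw [hn, hl0, hl2]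
    push_cast
    rw [← E1, ← E2, ← E3]
    simp only [map_mul, map_add, map_pow, map_natCast, map_intCast]
    ring
  have hreal : ‖l0‖ ^ 2 * l2 = (n : ℝ) := by
    have h1 : ((‖l0‖ ^ 2 * l2 : ℝ) : ℂ) = ((n : ℝ) : ℂ) := by
      push_cast
      rw [← hprod, Complex.mul_conj, Complex.normSq_eq_norm_sq]
      push_cast
      ring
    exact_mod_cast h1
  have hl0ne : l0 ≠ 0 := by
    intro h
    have h2 := c.hirz (x 0) (x 1 * c.N) (x 2 * c.N ^ 2) (by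
      rw [hl0] at h
      push_cast
      linear_combination h)
    apply hx
    have h3 : x 1 = 0 := (mul_eq_zero.1 h2.2.1).resolve_right hN0
    have h4 : x 2 = 0 := (mul_eq_zero.1 h2.2.2).resolve_right (pow_ne_zero _ hN0)
    ext i
    fin_cases i
    · exact h2.1
    · exact h3
    · exact h4
  have hl2ne : l2 ≠ 0 := by
    intro h
    have h2 := c.hirr (x 0) (x 1 * c.N) (x 2 * c.N ^ 2) (by
      rw [hl2] at h
      push_cast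
      linear_combination h)
    apply hx
    have h3 : x 1 = 0 := (mul_eq_zero.1 h2.2.1).resolve_right hN0
    have h4 : x 2 = 0 := (mul_eq_zero.1 h2.2.2).resolve_right (pow_ne_zero _ hN0)
    ext i
    fin_cases i
    · exact h2.1
    · exact h3
    · exact h4
  have hn0 : n ≠ 0 := by
    intro h
    rw [h, Int.cast_zero] at hreal
    rcases mul_eq_zero.1 hreal with h5 | h5
    · exact hl0ne (norm_eq_zero.1 (pow_eq_zero_iff (two_ne_zero) |>.1 h5))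
    · exact hl2ne h5
  have hn1 : (1 : ℝ) ≤ |(n : ℝ)| := by
    have := Int.one_le_abs hn0
    exact_mod_cast this
  have h6 : ‖c.lat c.z x‖ = 2 * c.N ^ 5 * ‖l0‖ := by
    unfold CData.lat
    rw [← hl0, norm_mul, norm_mul, norm_pow, Complex.norm_natCast]
    simp
  have h7 : |c.latr x| = 2 * c.N ^ 5 * |l2| := by
    unfold CData.latr
    rw [← hl2, abs_mul, abs_of_pos (by positivity)]
  rw [h6, h7]
  have h8 : ‖l0‖ ^ 2 * |l2| = |(n : ℝ)| := by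
    rw [← hreal, abs_mul, abs_of_nonneg (sq_nonneg ‖l0‖)]
  have h9 : (2 * (c.N : ℝ) ^ 5 * ‖l0‖) ^ 2 * (2 * c.N ^ 5 * |l2|) =
      (2 * (c.N : ℝ) ^ 5) ^ 3 * (‖l0‖ ^ 2 * |l2|) := by ring
  rw [h9, h8]
  have h10 : (1 : ℝ) ≤ (2 * (c.N : ℝ) ^ 5) ^ 3 := by
    have h11 : (1 : ℝ) ≤ (c.N : ℝ) ^ 5 := one_le_pow₀ hN1
    exact one_le_pow₀ (by linarith)
  nlinarith

theorem slope_gap : ∃ g : ℝ, 0 < g ∧ ∀ (T : ℝ) (n0 n1 : ℤ), 1 ≤ T → (n0 ≠ 0 ∨ n1 ≠ 0) →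
    |(n0 : ℝ)| ≤ T → |(n1 : ℝ)| ≤ T → g / T ^ 2 ≤ |n0 * c.ber 0 + n1 * c.ber 1| := by
  have hN1 : (1 : ℝ) ≤ c.N := by exact_mod_cast c.hN
  have hN0 : (c.N : ℤ) ≠ 0 := by exact_mod_cast c.hN.ne'
  have hNr : (0 : ℝ) < c.N := by linarith
  have hb := ber_ne c 0
  have hK : (0 : ℝ) < (c.N : ℝ) ^ 3 * (1 + ‖c.z‖) ^ 2 := by positivity
  refine ⟨|c.ber 0| / ((c.N : ℝ) ^ 3 * (1 + ‖c.z‖) ^ 2), div_pos (abs_pos.2 hb) hK, ?_⟩
  intro T n0 n1 hT hne h0 h1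
  have hb1 : c.ber 1 = c.ber 0 * c.r := by
    unfold CData.ber
    simp
  have hfac : (n0 : ℝ) * c.ber 0 + n1 * c.ber 1 = c.ber 0 * (n0 + n1 * c.r) := by
    rw [hb1]
    ring
  rw [hfac, abs_mul]
  set m : ℤ := c.N ^ 3 * n0 ^ 3 - c.N ^ 2 * c.b2 * n0 ^ 2 * n1 + c.N ^ 2 * c.b1 * n0 * n1 ^ 2 -
    c.N ^ 2 * c.b0 * n1 ^ 3 with hm
  set w : ℂ := n0 + n1 * c.z with hw
  set v : ℝ := n0 + n1 * c.r with hv
  have hprod : (c.N : ℂ) ^ 3 * (w * (starRingEnd ℂ) w * (v : ℂ)) = (m : ℂ) := by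
    rw [hm, hw, hv]
    push_cast
    simp only [map_mul, map_add, map_intCast]
    linear_combination ((c.N : ℂ) ^ 2 * n0 ^ 2 * n1) * c.he1 +
      ((c.N : ℂ) ^ 2 * n0 * n1 ^ 2) * c.he2 + ((c.N : ℂ) ^ 2 * n1 ^ 3) * c.he3
  have hreal : (c.N : ℝ) ^ 3 * (‖w‖ ^ 2 * v) = (m : ℝ) := by
    have h2 : (((c.N : ℝ) ^ 3 * (‖w‖ ^ 2 * v) : ℝ) : ℂ) = ((m : ℝ) : ℂ) := by
      push_cast
      rw [← hprod, Complex.mul_conj, Complex.normSq_eq_norm_sq]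
      push_cast
      ring
    exact_mod_cast h2
  have hwne : w ≠ 0 := by
    intro h
    have h2 := c.hirz n0 n1 0 (by
      rw [hw] at h
      push_cast
      linear_combination h)
    rcases hne with h3 | h3
    · exact h3 h2.1
    · exact h3 h2.2.1
  have hvne : v ≠ 0 := by
    intro h
    have h2 := c.hirr n0 n1 0 (by
      rw [hv] at h
      push_cast
      linear_combination h)
    rcases hne with h3 | h3
    · exact h3 h2.1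
    · exact h3 h2.2.1
  have hm0 : m ≠ 0 := by
    intro h
    rw [h, Int.cast_zero] at hreal
    rcases mul_eq_zero.1 hreal with h5 | h5
    · exact (pow_pos hNr 3).ne' h5
    · rcases mul_eq_zero.1 h5 with h6 | h6
      · exact hwne (norm_eq_zero.1 (pow_eq_zero_iff (two_ne_zero) |>.1 h6))
      · exact hvne h6
  have hm1 : (1 : ℝ) ≤ |(m : ℝ)| := by
    have := Int.one_le_abs hm0
    exact_mod_cast this
  have habs : (c.N : ℝ) ^ 3 * (‖w‖ ^ 2 * |v|) = |(m : ℝ)| := by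
    rw [← hreal, abs_mul, abs_mul, abs_of_pos (pow_pos hNr 3), abs_of_nonneg (sq_nonneg ‖w‖)]
  have hwle : ‖w‖ ≤ T * (1 + ‖c.z‖) := by
    rw [hw]
    refine (norm_add_le _ _).trans ?_
    rw [norm_mul, Complex.norm_intCast, Complex.norm_intCast]
    have h8 : |(n1 : ℝ)| * ‖c.z‖ ≤ T * ‖c.z‖ := mul_le_mul_of_nonneg_right h1 (norm_nonneg _)
    linarith
  have hT0 : (0 : ℝ) < T := by linarith
  have hkey : 1 ≤ (c.N : ℝ) ^ 3 * ((T * (1 + ‖c.z‖)) ^ 2 * |v|) := by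
    calc (1 : ℝ) ≤ |(m : ℝ)| := hm1
      _ = (c.N : ℝ) ^ 3 * (‖w‖ ^ 2 * |v|) := habs.symm
      _ ≤ (c.N : ℝ) ^ 3 * ((T * (1 + ‖c.z‖)) ^ 2 * |v|) := by
          gcongr
  have hv1 : 1 / ((c.N : ℝ) ^ 3 * (1 + ‖c.z‖) ^ 2 * T ^ 2) ≤ |v| := by
    rw [div_le_iff₀ (by positivity)]
    calc (1 : ℝ) ≤ (c.N : ℝ) ^ 3 * ((T * (1 + ‖c.z‖)) ^ 2 * |v|) := hkey
      _ = |v| * ((c.N : ℝ) ^ 3 * (1 + ‖c.z‖) ^ 2 * T ^ 2) := by ring
  calc |c.ber 0| / ((c.N : ℝ) ^ 3 * (1 + ‖c.z‖) ^ 2) / T ^ 2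
      = |c.ber 0| * (1 / ((c.N : ℝ) ^ 3 * (1 + ‖c.z‖) ^ 2 * T ^ 2)) := by
        rw [div_div]
        ring
    _ ≤ |c.ber 0| * |v| := mul_le_mul_of_nonneg_left hv1 (abs_nonneg _)

end CZ
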