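import Pool.Agent.H22.CZ.La1
import Pool.Agent.H22.CZ.La2
import Pool.Agent.H22.CZ.Ba1

/-!
# Row Bl1: translates of the linear forms and of the blocks 0, 1, 2, W, T

PROOF.
* `shift`: `k j, m j` from `trace_even`: `∑_i nu j ρ_i b_i = 2 k_j`, `∑_i ρ_i nu j ρ_i b_i = 2 m'_j`
  (`b_i = lat ρ_i x`); take `m j = 2 m'_j`. `u j` is linear, and
  `A1 nu_j(zb) b_1 + A2 nu_j(r) b_2 = z ∑_i nu_j(ρ_i) b_i - ∑_i ρ_i nu_j(ρ_i) b_i` because
  `A1 = z - zb`, `A2 = z - r` (the `i = 0` terms cancel) (`Fin.sum_univ_three`, `ring`).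
* `uA, udA, uB`: `shift` + `A_zm, dA_zm, B_zm`.
* `WW_shift`, `TT_shift`: `Finset.prod_congr`, `Finset.prod_mul_distrib`, `mul_pow`.
-/

set_option autoImplicit false

namespace CZ

open Complex

variable (c : CData) (b : BaseFn c.z)

/-- `k, m` are the translation data of the lattice element `x`. -/
structure Shift (x : Fin 3 → ℤ) (k m : Fin 6 → ℤ) : Prop where
  tr : ∀ j, ∑ i : Fin 3, nu j (c.rt i) * c.lat (c.rt i) x = 2 * (k j : ℂ)
  u : ∀ j w t, c.u j (w + c.lat c.zb x) (t + c.lat c.r x) 0 =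
    c.u j w t 0 + (2 * k j * c.z - m j)

theorem exists_shift (x : Fin 3 → ℤ) : ∃ k m : Fin 6 → ℤ, Shift c x k m := by
  choose k hk using fun j => (trace_even c j x).1
  choose m' hm using fun j => (trace_even c j x).2
  refine ⟨k, fun j => 2 * m' j, ⟨hk, fun j w t => ?_⟩⟩
  have h1 := hk j
  have h2 := hm j
  rw [Fin.sum_univ_three] at h1 h2
  have e0 : c.rt 0 = c.z := rfl
  have e1 : c.rt 1 = c.zb := rfl
  have e2 : c.rt 2 = (c.r : ℂ) := rfl
  rw [e0, e1, e2] at h1 h2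
  unfold CData.u CData.A1 CData.A2
  push_cast
  linear_combination c.z * h1 - h2

variable {c} {x : Fin 3 → ℤ} {k m : Fin 6 → ℤ} (h : Shift c x k m)

include h

lemma uA (j : Fin 6) (w t : ℂ) : b.A (c.u j (w + c.lat c.zb x) (t + c.lat c.r x) 0) =
    fac c.z (k j) (c.u j w t 0) * b.A (c.u j w t 0) := by
  rw [h.u j w t]
  exact A_zm b (k j) (m j) _

lemma udA (j : Fin 6) (w t : ℂ) : deriv b.A (c.u j (w + c.lat c.zb x) (t + c.lat c.r x) 0) =
    fac c.z (k j) (c.u j w t 0) *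
      (deriv b.A (c.u j w t 0) - 2 * Real.pi * I * (2 * k j) * b.A (c.u j w t 0)) := by
  rw [h.u j w t]
  exact dA_zm b (k j) (m j) _

lemma uB (j : Fin 6) (w t : ℂ) : b.B (c.u j (w + c.lat c.zb x) (t + c.lat c.r x) 0) =
    fac c.z (k j) (c.u j w t 0) ^ 2 * b.B (c.u j w t 0) := by
  rw [h.u j w t]
  exact B_zm b (k j) (m j) _

lemma WW_shift (w t : ℂ) : WW c b (w + c.lat c.zb x) (t + c.lat c.r x) 0 =
    (∏ j : Fin 3, fac c.z (k (i3 j)) (c.u (i3 j) w t 0)) * WW c b w t 0 := by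
  unfold WW
  rw [← Finset.prod_mul_distrib]
  exact Finset.prod_congr rfl fun j _ => uA b h (i3 j) w t

lemma TT_shift (l : Fin 2) (w t : ℂ) : TT c b l (w + c.lat c.zb x) (t + c.lat c.r x) 0 =
    (∏ j : Fin 6, fac c.z (k j) (c.u j w t 0) ^ c.hm l j) * TT c b l w t 0 := by
  unfold TT
  rw [← Finset.prod_mul_distrib]
  refine Finset.prod_congr rfl fun j _ => ?_
  rw [uA b h j w t, mul_pow]

end CZ
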