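import Pool.Agent.H22.CZ.Bl1

/-!
# Row Bl2: translates of the additive functions

PROOF of `ZZ_shift`. Let `ρ = c.rt i0` (`i0 = 1`: `ρ = zb`, or `i0 = 2`: `ρ = r`),
`f_j = fac z (k (i3 j)) (u_j)`, `e_i = lat ρ_i x`. By `uA, udA, WW_shift`:
`ZZ ρ (v + e) (w + ..) (t + ..) 0 / mu = (∏ f_j) [∑_j cc j ρ (A'(u_j) - 2πi 2k_j A(u_j)) ∏_{i≠j} A(u_i)
 + 2 π i fp(ρ)(v + e) W]` (for the product over `erase j`: `f_j ∏_{i ≠ j} f_i = ∏ f`,
`Finset.mul_prod_erase`), and `A(u_j) ∏_{i≠j} A(u_i) = W`, so it is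
`(∏ f_j) [ZZ/mu + 2 π i W (fp(ρ) e - ∑_j cc j ρ * 2 k_j)]`. By `h.tr (i3 j)` and `nu_i3`:
`2 k_j = ∑_i ρ_i^j e_i`, so by `cc_sum c i0`: `∑_j cc j ρ * 2 k_j = ∑_i e_i ∑_j cc j ρ ρ_i^j = fp(ρ) e_{i0}`.
The bracket is `ZZ/mu`.
-/

set_option autoImplicit false

namespace CZ

open Complex

variable {c : CData} (b : BaseFn c.z)
variable {x : Fin 3 → ℤ} {k m : Fin 6 → ℤ} (h : Shift c x k m)

include h

theorem Bl2_sum (i : Fin 3) : ∑ j : Fin 3, c.cc j (c.rt i) * (2 * (k (i3 j) : ℂ)) =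
    c.fp (c.rt i) * c.lat (c.rt i) x := by
  have h1 : ∀ j : Fin 3, c.cc j (c.rt i) * (2 * (k (i3 j) : ℂ)) =
      ∑ i' : Fin 3, c.lat (c.rt i') x * (c.cc j (c.rt i) * c.rt i' ^ (j : ℕ)) := by
    intro j
    rw [← h.tr (i3 j), Finset.mul_sum]
    refine Finset.sum_congr rfl fun i' _ => ?_
    rw [nu_i3]
    ring
  rw [Finset.sum_congr rfl fun j _ => h1 j, Finset.sum_comm]
  have h2 : ∀ i' : Fin 3, ∑ j : Fin 3, c.lat (c.rt i') x * (c.cc j (c.rt i) * c.rt i' ^ (j : ℕ)) =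
      if i = i' then c.fp (c.rt i) * c.lat (c.rt i) x else 0 := by
    intro i'
    rw [← Finset.mul_sum, cc_sum]
    by_cases hi : i = i'
    · rw [if_pos hi, if_pos hi, hi, mul_comm]
    · rw [if_neg hi, if_neg hi, mul_zero]
  rw [Finset.sum_congr rfl fun i' _ => h2 i']
  simp

theorem ZZ_shift (i : Fin 3) (v w t : ℂ) :
    ZZ c b (c.rt i) (v + c.lat (c.rt i) x) (w + c.lat c.zb x) (t + c.lat c.r x) 0 =
      (∏ j : Fin 3, fac c.z (k (i3 j)) (c.u (i3 j) w t 0)) * ZZ c b (c.rt i) v w t 0 := by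
  obtain ⟨P, hP⟩ : ∃ P : ℂ, P = ∏ j : Fin 3, fac c.z (k (i3 j)) (c.u (i3 j) w t 0) := ⟨_, rfl⟩
  have h1 : ∀ j : Fin 3, c.cc j (c.rt i) *
      (deriv b.A (c.u (i3 j) (w + c.lat c.zb x) (t + c.lat c.r x) 0) *
        ∏ i' ∈ Finset.univ.erase j, b.A (c.u (i3 i') (w + c.lat c.zb x) (t + c.lat c.r x) 0)) =
      P * (c.cc j (c.rt i) * (deriv b.A (c.u (i3 j) w t 0) *
        ∏ i' ∈ Finset.univ.erase j, b.A (c.u (i3 i') w t 0))) -
        P * (2 * Real.pi * I * WW c b w t 0) * (c.cc j (c.rt i) * (2 * (k (i3 j) : ℂ))) := by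
    intro j
    have h2 : ∏ i' ∈ Finset.univ.erase j, b.A (c.u (i3 i') (w + c.lat c.zb x) (t + c.lat c.r x) 0) =
        (∏ i' ∈ Finset.univ.erase j, fac c.z (k (i3 i')) (c.u (i3 i') w t 0)) *
          ∏ i' ∈ Finset.univ.erase j, b.A (c.u (i3 i') w t 0) := by
      rw [← Finset.prod_mul_distrib]
      exact Finset.prod_congr rfl fun i' _ => uA b h (i3 i') w t
    have h3 : P = fac c.z (k (i3 j)) (c.u (i3 j) w t 0) *
        ∏ i' ∈ Finset.univ.erase j, fac c.z (k (i3 i')) (c.u (i3 i') w t 0) := by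
      rw [hP]
      exact (Finset.mul_prod_erase Finset.univ (fun i' => fac c.z (k (i3 i')) (c.u (i3 i') w t 0))
        (Finset.mem_univ j)).symm
    have h4 : WW c b w t 0 = b.A (c.u (i3 j) w t 0) *
        ∏ i' ∈ Finset.univ.erase j, b.A (c.u (i3 i') w t 0) :=
      (Finset.mul_prod_erase Finset.univ (fun i' => b.A (c.u (i3 i') w t 0)) (Finset.mem_univ j)).symm
    rw [h2, udA b h (i3 j) w t, h3, h4]
    ring
  unfold ZZ
  rw [Finset.sum_congr rfl fun j _ => h1 j, Finset.sum_sub_distrib, ← Finset.mul_sum, ← Finset.mul_sum,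
    Bl2_sum h i, WW_shift b h, ← hP]
  ring

end CZ
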