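import Pool.Agent.H22.CZ.Bl1

/-!
# Row Bl3: translates of the theta quotients

PROOF of `EE_shift`. Write `u_j = u j w t 0`, `f_j = fac z (k j) u_j = exp X_j`,
`X_j = -(π i (2 k_j)^2 z) - 2 π i (2 k_j) u_j`, `e_i = lat (rt i) x` (so `e_1 = lat zb x`,
`e_2 = lat r x`). By `uA` and `mul_pow`:
`EE l (w + e_1) (t + e_2) 0 = ∏ f_j^(hp) ∏ A(u_j)^(hp) exp(π i [be_1 A1 (w + e_1)^2 + be_2 A2 (t + e_2)^2])`
(`be_i = be l (rt i)`). So it suffices that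
(*) `∏ f_j^(hp l j) * exp(π i [be_1 A1 (2 w e_1 + e_1^2) + be_2 A2 (2 t e_2 + e_2^2)]) = ∏ f_j^(hm l j)`.
As `∏ f_j^(hp) = exp(∑ hp X_j)` (`Complex.exp_sum`, `exp_nat_mul`), (*) says
`exp(∑ hp X_j - ∑ hm X_j + π i [...]) = 1`, and `hp - hm = hh` (`hp_sub_hm`). Compute with `2 k_j = ∑_i nu_j(ρ_i) e_i`
(`h.tr`) and `hh_sum`:
`∑_j hh (2 k_j)^2 = ∑_{i,i'} e_i e_i' ∑_j hh nu_j(ρ_i) nu_j(ρ_i') = ∑_i be_i e_i^2`,
`∑_j hh (2 k_j) u_j = ∑_i e_i ∑_j hh nu_j(ρ_i)(A1 nu_j(ρ_1) w + A2 nu_j(ρ_2) t) = A1 be_1 e_1 w + A2 be_2 e_2 t`.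
The exponent is `π i [-z ∑ be_i e_i^2 - 2 A1 be_1 e_1 w - 2 A2 be_2 e_2 t + be_1 A1 (2 w e_1 + e_1^2) +
be_2 A2 (2 t e_2 + e_2^2)] = -π i ∑_i ρ_i be_i e_i^2` (`z - A1 = ρ_1`, `z - A2 = ρ_2`, `z = ρ_0`)
`= -2 π i m'` with an integer `m'` by `trace_be`; `exp` of it is `1` (`Complex.exp_int_mul_two_pi_mul_I`).
-/

set_option autoImplicit false

namespace CZ

open Complex

variable {c : CData} (b : BaseFn c.z)
variable {x : Fin 3 → ℤ} {k m : Fin 6 → ℤ} (h : Shift c x k m)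

include h

variable (c) in
omit h in
theorem Bl3_bilin (l : Fin 2) (a d : Fin 3 → ℂ) :
    ∑ j : Fin 6, (c.hh l j : ℂ) * (∑ i : Fin 3, nu j (c.rt i) * a i) *
        (∑ i : Fin 3, nu j (c.rt i) * d i) =
      ∑ i : Fin 3, c.be l (c.rt i) * a i * d i := by
  have h1 : ∀ j : Fin 6, (c.hh l j : ℂ) * (∑ i : Fin 3, nu j (c.rt i) * a i) *
        (∑ i : Fin 3, nu j (c.rt i) * d i) =
      ∑ i : Fin 3, ∑ i' : Fin 3,
        (a i * d i') * ((c.hh l j : ℂ) * nu j (c.rt i) * nu j (c.rt i')) := by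
    intro j
    rw [mul_assoc, Finset.sum_mul_sum, Finset.mul_sum]
    refine Finset.sum_congr rfl fun i _ => ?_
    rw [Finset.mul_sum]
    refine Finset.sum_congr rfl fun i' _ => ?_
    ring
  simp_rw [h1]
  rw [Finset.sum_comm]
  refine Finset.sum_congr rfl fun i _ => ?_
  rw [Finset.sum_comm]
  have h2 : ∀ i' : Fin 3, ∑ j : Fin 6,
      (a i * d i') * ((c.hh l j : ℂ) * nu j (c.rt i) * nu j (c.rt i')) =
      if i = i' then (a i * d i') * c.be l (c.rt i) else 0 := by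
    intro i'
    rw [← Finset.mul_sum, hh_sum c l i i']
    split_ifs <;> simp
  simp_rw [h2]
  rw [Finset.sum_ite_eq]
  simp only [Finset.mem_univ, if_true]
  ring

variable (c) in
omit h in
theorem Bl3_u (j : Fin 6) (w t : ℂ) :
    c.u j w t 0 = ∑ i : Fin 3, nu j (c.rt i) * (![0, c.A1 * w, c.A2 * t] : Fin 3 → ℂ) i := by
  rw [Fin.sum_univ_three]
  simp only [CData.u, CData.rt, Matrix.cons_val_zero, Matrix.cons_val_one, Matrix.cons_val]
  ring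

theorem EE_shift (l : Fin 2) (w t : ℂ) :
    EE c b l (w + c.lat c.zb x) (t + c.lat c.r x) 0 =
      (∏ j : Fin 6, fac c.z (k j) (c.u j w t 0) ^ c.hm l j) * EE c b l w t 0 := by
  have h1 : ∏ j : Fin 6, b.A (c.u j (w + c.lat c.zb x) (t + c.lat c.r x) 0) ^ c.hp l j =
      (∏ j : Fin 6, fac c.z (k j) (c.u j w t 0) ^ c.hp l j) *
        ∏ j : Fin 6, b.A (c.u j w t 0) ^ c.hp l j := by
    rw [← Finset.prod_mul_distrib]
    refine Finset.prod_congr rfl fun j _ => ?_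
    rw [uA b h j w t, mul_pow]
  have hX : ∀ n : Fin 6 → ℕ, ∏ j : Fin 6, fac c.z (k j) (c.u j w t 0) ^ n j =
      exp (∑ j : Fin 6, (n j : ℂ) * (-(Real.pi * I * (2 * k j) ^ 2 * c.z) -
        2 * Real.pi * I * (2 * k j) * c.u j w t 0)) := by
    intro n
    rw [Complex.exp_sum]
    refine Finset.prod_congr rfl fun j _ => ?_
    rw [Complex.exp_nat_mul]
    rfl
  obtain ⟨m', hm'⟩ := trace_be c l x
  have hS1 : ∑ j : Fin 6, (c.hh l j : ℂ) * (2 * (k j : ℂ)) * (2 * (k j : ℂ)) =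
      ∑ i : Fin 3, c.be l (c.rt i) * c.lat (c.rt i) x * c.lat (c.rt i) x := by
    rw [← Bl3_bilin c l (fun i => c.lat (c.rt i) x) (fun i => c.lat (c.rt i) x)]
    refine Finset.sum_congr rfl fun j _ => ?_
    rw [h.tr j]
  have hS2 : ∑ j : Fin 6, (c.hh l j : ℂ) * (2 * (k j : ℂ)) * c.u j w t 0 =
      ∑ i : Fin 3, c.be l (c.rt i) * c.lat (c.rt i) x *
        (![0, c.A1 * w, c.A2 * t] : Fin 3 → ℂ) i := by
    rw [← Bl3_bilin c l (fun i => c.lat (c.rt i) x) (![0, c.A1 * w, c.A2 * t] : Fin 3 → ℂ)]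
    refine Finset.sum_congr rfl fun j _ => ?_
    rw [h.tr j, ← Bl3_u]
  have hsum : ∑ j : Fin 6, (c.hp l j : ℂ) * (-(Real.pi * I * (2 * k j) ^ 2 * c.z) -
        2 * Real.pi * I * (2 * k j) * c.u j w t 0) -
      ∑ j : Fin 6, (c.hm l j : ℂ) * (-(Real.pi * I * (2 * k j) ^ 2 * c.z) -
        2 * Real.pi * I * (2 * k j) * c.u j w t 0) =
      -(Real.pi * I * c.z) * ∑ j : Fin 6, (c.hh l j : ℂ) * (2 * (k j : ℂ)) * (2 * (k j : ℂ)) -
      2 * Real.pi * I * ∑ j : Fin 6, (c.hh l j : ℂ) * (2 * (k j : ℂ)) * c.u j w t 0 := by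
    rw [← Finset.sum_sub_distrib, Finset.mul_sum, Finset.mul_sum, ← Finset.sum_sub_distrib]
    refine Finset.sum_congr rfl fun j _ => ?_
    have e : ((c.hp l j : ℕ) : ℂ) - ((c.hm l j : ℕ) : ℂ) = (c.hh l j : ℂ) := by
      have := hp_sub_hm c l j
      exact_mod_cast this
    rw [← e]
    ring
  have hexp : exp (∑ j : Fin 6, (c.hp l j : ℂ) * (-(Real.pi * I * (2 * k j) ^ 2 * c.z) -
        2 * Real.pi * I * (2 * k j) * c.u j w t 0)) *
      exp (Real.pi * I * (c.be l c.zb * c.A1 * (w + c.lat c.zb x) ^ 2 +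
        c.be l c.r * c.A2 * (t + c.lat c.r x) ^ 2)) =
      exp (∑ j : Fin 6, (c.hm l j : ℂ) * (-(Real.pi * I * (2 * k j) ^ 2 * c.z) -
        2 * Real.pi * I * (2 * k j) * c.u j w t 0)) *
      exp (Real.pi * I * (c.be l c.zb * c.A1 * w ^ 2 + c.be l c.r * c.A2 * t ^ 2)) := by
    rw [← Complex.exp_add, ← Complex.exp_add, Complex.exp_eq_exp_iff_exists_int]
    refine ⟨-m', ?_⟩
    rw [hS1, hS2, Fin.sum_univ_three, Fin.sum_univ_three] at hsum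
    rw [Fin.sum_univ_three] at hm'
    simp only [CData.rt, Matrix.cons_val_zero, Matrix.cons_val_one, Matrix.cons_val] at hsum hm'
    push_cast
    have e1 : c.A1 = c.z - c.zb := rfl
    have e2 : c.A2 = c.z - c.r := rfl
    rw [e1, e2] at hsum ⊢
    linear_combination hsum - (Real.pi * I) * hm'
  unfold EE
  rw [h1, hX, hX]
  linear_combination (∏ j : Fin 6, b.A (c.u j w t 0) ^ c.hp l j) * hexp

end CZ
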