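import Pool.Agent.H22.CZ.Bl2
import Pool.Agent.H22.CZ.Bl3

/-!
# Row Bl4: the common automorphy factor of `NX a, DX a`

PROOF. Take `k, m` from `exists_shift`, `f_j = fac z (k j) (u j w t 0)`, `μ = ∏ j, f_j ^ qc a j`.
`fin_cases a` (`simp [NX, DX, CData.qc]`, products over `Fin 6` with `Fin.prod_univ_six`):
`a = 0,1,2`: `uB`, `uA` (`A^2`); `a = 3, 4`: `ZZ_shift b h 1, 2` (`rt 1 = zb`, `rt 2 = r`) and
`WW_shift`; `a = 5, 6`: `EE_shift`, `TT_shift`. `μ ≠ 0` by `fac_ne`.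
`‖μ‖ = ∏ ‖f_j‖^(qc a j) = exp(∑ qc a j (π/Y (Im u_j')^2 - π/Y (Im u_j)^2))` by `norm_fac`, where
`u_j' = u_j + 2 k_j z - m_j` has the same imaginary part as `u_j + 2 k_j z`.
-/

set_option autoImplicit false

namespace CZ

open Complex

variable (c : CData) (b : BaseFn c.z)

theorem auto_key {x : Fin 3 → ℤ} {k m : Fin 6 → ℤ} (h : Shift c x k m) (w t : ℂ) (a : Fin 7) :
    NX c b a (w + c.lat c.zb x) (t + c.lat c.r x) 0 =
      (∏ j : Fin 6, fac c.z (k j) (c.u j w t 0) ^ c.qc a j) * NX c b a w t 0 ∧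
    DX c b a (w + c.lat c.zb x) (t + c.lat c.r x) 0 =
      (∏ j : Fin 6, fac c.z (k j) (c.u j w t 0) ^ c.qc a j) * DX c b a w t 0 := by
  have hone : ∀ f : Fin 6 → ℂ, ∀ i : Fin 6,
      ∏ j : Fin 6, f j ^ (if j = i then 2 else 0) = f i ^ 2 := by
    intro f i
    rw [Finset.prod_eq_single i]
    · rw [if_pos rfl]
    · intro j _ hj
      rw [if_neg hj, pow_zero]
    · intro hi
      exact absurd (Finset.mem_univ i) hi
  have hthree : ∀ f : Fin 6 → ℂ,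
      ∏ j : Fin 6, f j ^ (if (j : ℕ) < 3 then 1 else 0) = ∏ j : Fin 3, f (i3 j) := by
    intro f
    rw [Fin.prod_univ_six, Fin.prod_univ_three]
    have e0 : (i3 0 : Fin 6) = 0 := rfl
    have e1 : (i3 1 : Fin 6) = 1 := rfl
    have e2 : (i3 2 : Fin 6) = 2 := rfl
    rw [e0, e1, e2]
    norm_num
  have hu : ∀ i : Fin 6, b.B (c.u i (w + c.lat c.zb x) (t + c.lat c.r x) 0) =
      (∏ j : Fin 6, fac c.z (k j) (c.u j w t 0) ^ (if j = i then 2 else 0)) *
        b.B (c.u i w t 0) ∧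
      b.A (c.u i (w + c.lat c.zb x) (t + c.lat c.r x) 0) ^ 2 =
      (∏ j : Fin 6, fac c.z (k j) (c.u j w t 0) ^ (if j = i then 2 else 0)) *
        b.A (c.u i w t 0) ^ 2 := by
    intro i
    rw [hone (fun j => fac c.z (k j) (c.u j w t 0)) i]
    refine ⟨uB b h i w t, ?_⟩
    rw [uA b h i w t, mul_pow]
  have hW := WW_shift b h w t
  have hthree' := hthree (fun j => fac c.z (k j) (c.u j w t 0))
  fin_cases a
  · exact hu 0
  · exact hu 1
  · exact hu 2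
  · have h1 := ZZ_shift b h 1 w w t
    rw [← hthree'] at h1 hW
    exact ⟨h1, hW⟩
  · have h1 := ZZ_shift b h 2 t w t
    rw [← hthree'] at h1 hW
    exact ⟨h1, hW⟩
  · exact ⟨EE_shift b h 0 w t, TT_shift b h 0 w t⟩
  · exact ⟨EE_shift b h 1 w t, TT_shift b h 1 w t⟩

theorem auto (x : Fin 3 → ℤ) (w t : ℂ) (a : Fin 7) : ∃ μ : ℂ, μ ≠ 0 ∧
    NX c b a (w + c.lat c.zb x) (t + c.lat c.r x) 0 = μ * NX c b a w t 0 ∧
    DX c b a (w + c.lat c.zb x) (t + c.lat c.r x) 0 = μ * DX c b a w t 0 ∧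
    ‖μ‖ = Real.exp (c.qa a (w + c.lat c.zb x) (t + c.lat c.r x) - c.qa a w t) := by
  obtain ⟨k, m, h⟩ := exists_shift c x
  obtain ⟨h1, h2⟩ := auto_key c b h w t a
  refine ⟨∏ j : Fin 6, fac c.z (k j) (c.u j w t 0) ^ c.qc a j, ?_, h1, h2, ?_⟩
  · rw [Finset.prod_ne_zero_iff]
    intro j _
    exact pow_ne_zero _ (fac_ne _ _ _)
  · have hj : ∀ j ∈ (Finset.univ : Finset (Fin 6)),
        ‖fac c.z (k j) (c.u j w t 0) ^ c.qc a j‖ =
        Real.exp ((c.qc a j : ℝ) * (Real.pi / c.z.im *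
            (c.u j (w + c.lat c.zb x) (t + c.lat c.r x) 0).im ^ 2) -
          (c.qc a j : ℝ) * (Real.pi / c.z.im * (c.u j w t 0).im ^ 2)) := by
      intro j _
      have him : (c.u j (w + c.lat c.zb x) (t + c.lat c.r x) 0).im =
          (c.u j w t 0 + 2 * k j * c.z).im := by
        rw [h.u j w t, ← add_sub_assoc, Complex.sub_im, Complex.intCast_im, sub_zero]
      rw [norm_pow, norm_fac c.hz, ← Real.exp_nat_mul, him]
      congr 1
      ring
    rw [norm_prod, Finset.prod_congr rfl hj, ← Real.exp_sum, Finset.sum_sub_distrib]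
    rfl

end CZ
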