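import Pool.Agent.H22.CZ.Al

/-!
# Row Bl5: three identities for the growth

Write `u_j = u j w t 0 = A1 nu_j(zb) w + A2 nu_j(r) t`, `Y = z.im`, `2 i Im u_j = u_j - conj u_j`,
`conj u_j = conj A1 nu_j(z) conj w + conj A2 nu_j(r) conj t` (`nu_conj`; `conj zb = z`, `r` real).
PROOF of `id1`: `2 i ∑_j cc j zb Im u_j = ∑_j cc j zb (A1 zb^j w + A2 r^j t - conj A1 z^j conj w - conj A2 r^j conj t)
= A1 fp(zb) w` by `cc_sum` (`nu_i3`; only the terms with second argument `zb` survive), and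
`A1 = 2 i Y` (`A1_eq`).
`id2`: `2 i ∑_j cc j r Im u_j = fp(r)(A2 t - conj A2 conj t) = fp(r) 2 i Im(A2 t)`. With
`A2 = (z.re - r) + i Y`: `Im(A2 t) = (z.re - r) t.im + Y t.re`, so
`t - Im(A2 t)/Y = t.im (i - (z.re - r)/Y)`.
`id3`: `-4 ∑_j hh (Im u_j)^2 = ∑_j hh (u_j - conj u_j)^2`; expand with `hh_sum`: the mixed terms between
different roots vanish:
`= be(zb) A1^2 w^2 + be(z) (conj A1)^2 (conj w)^2 + be(r) (A2 t - conj A2 conj t)^2`
`= 2 Re(be(zb) A1^2 w^2) - 4 ber (Im(A2 t))^2` (`be_zb`, `be_r`). As `A1^2 = -4 Y^2`: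
`∑_j hh (Im u_j)^2 = 2 Y^2 Re(be(zb) w^2) + ber (Im (A2 t))^2`.
Also `Im(be(zb) A1 w^2) = 2 Y Re(be(zb) w^2)`. So
`(π/Y) ∑ hh (Im u_j)^2 - π Im(be(zb) A1 w^2 + be(r) A2 t^2) = π ber [ (Im(A2 t))^2/Y - Im(A2 t^2) ]`, and with
`P = z.re - r`, `t = x + i y`: `(P y + Y x)^2/Y - (2 P x y + Y (x^2 - y^2)) = (P^2 + Y^2) y^2 / Y`.
-/

set_option autoImplicit false

namespace CZ

open Complex

variable (c : CData)

/-- The imaginary part of a linear form. -/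
lemma Bl5_imu (j : Fin 6) (w t : ℂ) : (((c.u j w t 0).im : ℝ) : ℂ) =
    c.z.im * (w * nu j c.zb + (starRingEnd ℂ) w * nu j c.z) +
      ((c.A2 * t).im : ℝ) * nu j c.r := by
  have hz : (starRingEnd ℂ) c.zb = c.z := by simp [CData.zb]
  have h1 : (starRingEnd ℂ) (nu j c.zb) = nu j c.z := by rw [← nu_conj, hz]
  have h2 : (starRingEnd ℂ) (nu j c.r) = nu j c.r := by rw [← nu_conj, Complex.conj_ofReal]
  have h3 : (starRingEnd ℂ) c.A1 = - c.A1 := by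
    rw [A1_eq]
    simp only [map_mul, Complex.conj_I, Complex.conj_ofReal, map_ofNat]
    ring
  have h4 : (c.z.im : ℂ) = c.A1 / (2 * I) := by
    rw [A1_eq]
    have hI : (I : ℂ) ≠ 0 := Complex.I_ne_zero
    field_simp
  rw [Complex.im_eq_sub_conj, Complex.im_eq_sub_conj (c.A2 * t), h4, CData.u]
  simp only [map_add, map_mul, h1, h2, h3, map_zero]
  ring

lemma Bl5_sum (i : Fin 3) (w t : ℂ) :
    ∑ j : Fin 3, c.cc j (c.rt i) * ((c.u (i3 j) w t 0).im : ℂ) =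
    c.z.im * w * (if i = 1 then c.fp (c.rt i) else 0) +
    c.z.im * (starRingEnd ℂ) w * (if i = 0 then c.fp (c.rt i) else 0) +
    ((c.A2 * t).im : ℝ) * (if i = 2 then c.fp (c.rt i) else 0) := by
  have e0 : c.rt 0 = c.z := rfl
  have e1 : c.rt 1 = c.zb := rfl
  have e2 : c.rt 2 = c.r := rfl
  rw [← cc_sum c i 0, ← cc_sum c i 1, ← cc_sum c i 2, e0, e1, e2, Finset.mul_sum, Finset.mul_sum,
    Finset.mul_sum, ← Finset.sum_add_distrib, ← Finset.sum_add_distrib]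
  refine Finset.sum_congr rfl fun j _ ↦ ?_
  rw [Bl5_imu, nu_i3, nu_i3, nu_i3]
  ring

theorem id1 (w t : ℂ) : ∑ j : Fin 3, c.cc j c.zb * ((c.u (i3 j) w t 0).im : ℂ) =
    c.z.im * (c.fp c.zb * w) := by
  have h := Bl5_sum c 1 w t
  have e1 : c.rt 1 = c.zb := rfl
  rw [e1, if_pos rfl, if_neg (by decide), if_neg (by decide)] at h
  rw [h]
  ring

theorem id2 (w t : ℂ) : c.z.im * (c.fp c.r * t) -
    ∑ j : Fin 3, c.cc j c.r * ((c.u (i3 j) w t 0).im : ℂ) =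
    c.fp c.r * (t.im * (c.z.im * I - (c.z.re - c.r))) := by
  have h := Bl5_sum c 2 w t
  have e2 : c.rt 2 = c.r := rfl
  rw [e2, if_pos rfl, if_neg (by decide), if_neg (by decide)] at h
  rw [h]
  have h1 : (c.A2 * t).im = (c.z.re - c.r) * t.im + c.z.im * t.re := by
    rw [Complex.mul_im, CData.A2]
    simp
  have h2 : (c.z.im : ℂ) * t - ((c.A2 * t).im : ℝ) =
      t.im * (c.z.im * I - (c.z.re - c.r)) := by
    rw [h1]
    apply Complex.ext
    · simp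
      ring
    · simp
      ring
  linear_combination c.fp c.r * h2

lemma Bl5_hh (l : Fin 2) (w t : ℂ) :
    ∑ j : Fin 6, (c.hh l j : ℂ) * ((c.u j w t 0).im : ℂ) ^ 2 =
    (c.z.im : ℂ) ^ 2 * (w ^ 2 * c.be l c.zb + (starRingEnd ℂ) w ^ 2 * c.be l c.z) +
    ((c.A2 * t).im : ℝ) ^ 2 * c.be l c.r := by
  have e0 : c.rt 0 = c.z := rfl
  have e1 : c.rt 1 = c.zb := rfl
  have e2 : c.rt 2 = c.r := rfl
  have h00 := hh_sum c l 0 0
  have h11 := hh_sum c l 1 1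
  have h22 := hh_sum c l 2 2
  have h10 := hh_sum c l 1 0
  have h12 := hh_sum c l 1 2
  have h02 := hh_sum c l 0 2
  rw [if_pos rfl] at h00 h11 h22
  rw [if_neg (by decide)] at h10 h12 h02
  rw [e0] at h00
  rw [e1] at h11
  rw [e2] at h22
  rw [e1, e0] at h10
  rw [e1, e2] at h12
  rw [e0, e2] at h02
  have key : ∑ j : Fin 6, (c.hh l j : ℂ) * ((c.u j w t 0).im : ℂ) ^ 2 =
      (c.z.im : ℂ) ^ 2 * w ^ 2 * (∑ j : Fin 6, (c.hh l j : ℂ) * nu j c.zb * nu j c.zb) +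
      (c.z.im : ℂ) ^ 2 * (starRingEnd ℂ) w ^ 2 *
        (∑ j : Fin 6, (c.hh l j : ℂ) * nu j c.z * nu j c.z) +
      ((c.A2 * t).im : ℝ) ^ 2 * (∑ j : Fin 6, (c.hh l j : ℂ) * nu j c.r * nu j c.r) +
      2 * (c.z.im : ℂ) ^ 2 * w * (starRingEnd ℂ) w *
        (∑ j : Fin 6, (c.hh l j : ℂ) * nu j c.zb * nu j c.z) +
      2 * (c.z.im : ℂ) * ((c.A2 * t).im : ℝ) * w *
        (∑ j : Fin 6, (c.hh l j : ℂ) * nu j c.zb * nu j c.r) +
      2 * (c.z.im : ℂ) * ((c.A2 * t).im : ℝ) * (starRingEnd ℂ) w *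
        (∑ j : Fin 6, (c.hh l j : ℂ) * nu j c.z * nu j c.r) := by
    simp only [Finset.mul_sum]
    rw [← Finset.sum_add_distrib, ← Finset.sum_add_distrib, ← Finset.sum_add_distrib,
      ← Finset.sum_add_distrib, ← Finset.sum_add_distrib]
    refine Finset.sum_congr rfl fun j _ ↦ ?_
    rw [Bl5_imu]
    ring
  rw [key, h00, h11, h22, h10, h12, h02]
  ring

theorem id3 (l : Fin 2) (w t : ℂ) :
    ∑ j : Fin 6, (c.hh l j : ℝ) * (Real.pi / c.z.im * (c.u j w t 0).im ^ 2) -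
      Real.pi * (c.be l c.zb * c.A1 * w ^ 2 + c.be l c.r * c.A2 * t ^ 2).im =
    Real.pi * c.ber l * Complex.normSq c.A2 / c.z.im * t.im ^ 2 := by
  have hY : c.z.im ≠ 0 := c.hz.ne'
  have h1 : (c.A2 * t).im = (c.z.re - c.r) * t.im + c.z.im * t.re := by
    rw [Complex.mul_im, CData.A2]
    simp
  have h2 : ∑ j : Fin 6, (c.hh l j : ℝ) * (c.u j w t 0).im ^ 2 =
      2 * c.z.im ^ 2 * (c.be l c.zb * w ^ 2).re + (c.A2 * t).im ^ 2 * c.ber l := by
    have h := congrArg Complex.re (Bl5_hh c l w t)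
    have e1 : (∑ j : Fin 6, (c.hh l j : ℂ) * ((c.u j w t 0).im : ℂ) ^ 2).re =
        ∑ j : Fin 6, (c.hh l j : ℝ) * (c.u j w t 0).im ^ 2 := by
      rw [Complex.re_sum]
      refine Finset.sum_congr rfl fun j _ ↦ ?_
      have : (c.hh l j : ℂ) * ((c.u j w t 0).im : ℂ) ^ 2 =
          (((c.hh l j : ℝ) * (c.u j w t 0).im ^ 2 : ℝ) : ℂ) := by push_cast; ring
      rw [this, Complex.ofReal_re]
    rw [← e1, h]
    have e2 : w ^ 2 * c.be l c.zb + (starRingEnd ℂ) w ^ 2 * c.be l c.z =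
        ((2 * (c.be l c.zb * w ^ 2).re : ℝ) : ℂ) := by
      rw [← Complex.add_conj]
      have : (starRingEnd ℂ) (c.be l c.zb) = c.be l c.z := by
        rw [be_zb, Complex.conj_conj]
      rw [map_mul, map_pow, this]
      ring
    rw [e2, be_r]
    have e3 : (c.z.im : ℂ) ^ 2 * ((2 * (c.be l c.zb * w ^ 2).re : ℝ) : ℂ) +
        ((c.A2 * t).im : ℝ) ^ 2 * (c.ber l : ℂ) =
        ((c.z.im ^ 2 * (2 * (c.be l c.zb * w ^ 2).re) + (c.A2 * t).im ^ 2 * c.ber l : ℝ) : ℂ) := by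
      push_cast
      ring
    rw [e3, Complex.ofReal_re]
    ring
  have h3 : ∑ j : Fin 6, (c.hh l j : ℝ) * (Real.pi / c.z.im * (c.u j w t 0).im ^ 2) =
      Real.pi / c.z.im * ∑ j : Fin 6, (c.hh l j : ℝ) * (c.u j w t 0).im ^ 2 := by
    rw [Finset.mul_sum]
    refine Finset.sum_congr rfl fun j _ ↦ ?_
    ring
  have h4 : (c.be l c.zb * c.A1 * w ^ 2 + c.be l c.r * c.A2 * t ^ 2).im =
      2 * c.z.im * (c.be l c.zb * w ^ 2).re + c.ber l * (c.A2 * t ^ 2).im := by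
    rw [Complex.add_im]
    congr 1
    · have : c.be l c.zb * c.A1 * w ^ 2 =
          ((2 * c.z.im : ℝ) : ℂ) * (I * (c.be l c.zb * w ^ 2)) := by
        rw [A1_eq]
        push_cast
        ring
      rw [this, Complex.im_ofReal_mul, Complex.I_mul_im]
    · rw [be_r, mul_assoc, Complex.im_ofReal_mul]
  have h5 : (c.A2 * t ^ 2).im = 2 * (c.z.re - c.r) * t.re * t.im +
      c.z.im * (t.re ^ 2 - t.im ^ 2) := by
    rw [Complex.mul_im, CData.A2, pow_two, Complex.mul_im, Complex.mul_re]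
    simp
    ring
  have h6 : Complex.normSq c.A2 = (c.z.re - c.r) ^ 2 + c.z.im ^ 2 := by
    rw [Complex.normSq_apply, CData.A2]
    simp
    ring
  rw [h3, h2, h4, h5, h6, h1]
  field_simp
  ring

end CZ
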