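import Pool.Agent.H22.CZ.Bl5
import Pool.Agent.H22.CZ.Ba2

/-!
# Row Bl6: growth of the seven pairs

PROOF. `C1` = the constant of `growth b c.hz`; write `E_j = exp(π/Y (Im u_j)^2)`, so
`|A(u_j)| ≤ C1 E_j`, `|B(u_j)| ≤ C1 E_j^2`, `|A'(u_j) + 2 π i (Im u_j/Y) A(u_j)| ≤ C1 E_j`.
* `DX a`: product of `qc a j` factors `A(u_j)`, so `≤ C1^(∑ qc a j) ∏ E_j^(qc a j) = C1^n exp(qa a w t)`.
  (`fin_cases a`, for `a = 3, 4`: `WW` is a product over `Fin 3`, `qa` over `Fin 6` has `qc = 0` for `j ≥ 3`.)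
* `NX 0, 1, 2`: `C1 E_j^2 = C1 exp(qa a w t)`.
* `NX 3`: `ZZ zb w / mu = ∑_j cc_j (A'(u_j) + 2 π i (Im u_j/Y) A(u_j)) ∏_{i≠j} A(u_i)
    + 2 π i W [fp(zb) w - ∑_j cc_j Im u_j / Y]` and the bracket is `0` by `id1` (divide by `Y`).
    So `≤ |mu| ∑ |cc_j(zb)| C1^3 E_0 E_1 E_2`.
* `NX 4`: the same with `id2`: the bracket is `fp(r) t.im (i - (z.re - r)/Y)`, so
    `≤ C (1 + |t.im|) E_0E_1E_2 ≤ C exp(1 + t.im^2) exp(qa 4 w t)`.
* `NX 5, 6` (`l = 0, 1`): `|EE l| ≤ ∏ (C1 E_j)^(hp) exp(-π Im(be(zb) A1 w^2 + be(r) A2 t^2))`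
    (`‖exp(π i v)‖ = exp(-π v.im)`), `∑ hp ln E_j = ∑ hm ln E_j + ∑ hh ln E_j` (`hp_sub_hm`), and by `id3`
    `≤ C1^n exp(qa + π ber l normSq(A2)/Y t.im^2) ≤ C1^n exp(qa + C t.im^2)`.
Take one constant `C` for everything (`C1^n ≤ exp(n log C1)` etc., note the claimed forms
`exp(C (1 + t.im^2) + qa)`, `exp(C + qa)`).
-/

set_option autoImplicit false

namespace CZ

open Complex

variable (c : CData) (b : BaseFn c.z)

/-- the exponent of the `j`-th form -/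
noncomputable def Bl6_e (j : Fin 6) (w t : ℂ) : ℝ := Real.pi / c.z.im * (c.u j w t 0).im ^ 2

/-- bounds with the quadratic function `qa a` -/
def Bl6_P (a : Fin 7) (F : ℂ → ℂ → ℂ) : Prop :=
  ∃ C : ℝ, 0 ≤ C ∧ ∀ w t : ℂ, ‖F w t‖ ≤ Real.exp (C * (1 + t.im ^ 2) + c.qa a w t)

theorem Bl6_of {a : Fin 7} {F : ℂ → ℂ → ℂ} {C : ℝ} (hC : 0 ≤ C)
    (h : ∀ w t : ℂ, ‖F w t‖ ≤ Real.exp (C + c.qa a w t)) : Bl6_P c a F := by
  refine ⟨C, hC, fun w t => (h w t).trans (Real.exp_le_exp.2 ?_)⟩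
  have h1 : 0 ≤ C * t.im ^ 2 := mul_nonneg hC (sq_nonneg _)
  linarith [mul_add C 1 (t.im ^ 2)]

theorem Bl6_qa (a : Fin 7) (w t : ℂ) : c.qa a w t = ∑ j : Fin 6, (c.qc a j : ℝ) * Bl6_e c j w t := rfl

theorem Bl6_qa3 (w t : ℂ) : c.qa 3 w t = ∑ j : Fin 3, Bl6_e c (i3 j) w t := by
  rw [Bl6_qa, Fin.sum_univ_six, Fin.sum_univ_three]
  simp [CData.qc, i3]

theorem Bl6_qa4 (w t : ℂ) : c.qa 4 w t = ∑ j : Fin 3, Bl6_e c (i3 j) w t := by
  rw [Bl6_qa, Fin.sum_univ_six, Fin.sum_univ_three]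
  simp [CData.qc, i3]

theorem Bl6_qa0 (w t : ℂ) : c.qa 0 w t = 2 * Bl6_e c 0 w t := by
  rw [Bl6_qa, Fin.sum_univ_six]
  simp [CData.qc]

theorem Bl6_qa1 (w t : ℂ) : c.qa 1 w t = 2 * Bl6_e c 1 w t := by
  rw [Bl6_qa, Fin.sum_univ_six]
  simp [CData.qc]

theorem Bl6_qa2 (w t : ℂ) : c.qa 2 w t = 2 * Bl6_e c 2 w t := by
  rw [Bl6_qa, Fin.sum_univ_six]
  simp [CData.qc]

theorem Bl6_prod {L : ℝ} (hA : ∀ (j : Fin 6) (w t : ℂ), ‖b.A (c.u j w t 0)‖ ≤ Real.exp (L + Bl6_e c j w t))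
    (m : Fin 6 → ℕ) (w t : ℂ) : ‖∏ j : Fin 6, b.A (c.u j w t 0) ^ m j‖ ≤
      Real.exp (L * ∑ j, (m j : ℝ) + ∑ j, (m j : ℝ) * Bl6_e c j w t) := by
  rw [norm_prod]
  have h1 : ∏ j : Fin 6, ‖b.A (c.u j w t 0) ^ m j‖ ≤
      ∏ j : Fin 6, Real.exp ((m j : ℝ) * (L + Bl6_e c j w t)) := by
    refine Finset.prod_le_prod (fun j _ => norm_nonneg _) fun j _ => ?_
    rw [norm_pow, Real.exp_nat_mul]
    exact pow_le_pow_left₀ (norm_nonneg _) (hA j w t) _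
  refine h1.trans (le_of_eq ?_)
  rw [← Real.exp_sum, Finset.mul_sum, ← Finset.sum_add_distrib]
  congr 1
  refine Finset.sum_congr rfl fun j _ => ?_
  ring

/-- the product over three forms with one factor replaced -/
theorem Bl6_three {L : ℝ} (hA : ∀ (j : Fin 6) (w t : ℂ), ‖b.A (c.u j w t 0)‖ ≤ Real.exp (L + Bl6_e c j w t))
    (j : Fin 3) (w t : ℂ) {g : ℂ} (hg : ‖g‖ ≤ Real.exp (L + Bl6_e c (i3 j) w t)) :
    ‖g * ∏ i ∈ Finset.univ.erase j, b.A (c.u (i3 i) w t 0)‖ ≤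
      Real.exp (3 * L + ∑ i : Fin 3, Bl6_e c (i3 i) w t) := by
  rw [norm_mul, norm_prod]
  have h1 : ∏ i ∈ Finset.univ.erase j, ‖b.A (c.u (i3 i) w t 0)‖ ≤
      ∏ i ∈ Finset.univ.erase j, Real.exp (L + Bl6_e c (i3 i) w t) :=
    Finset.prod_le_prod (fun i _ => norm_nonneg _) fun i _ => hA _ w t
  refine (mul_le_mul hg h1 (Finset.prod_nonneg fun i _ => norm_nonneg _) (Real.exp_pos _).le).trans
    (le_of_eq ?_)
  rw [Finset.mul_prod_erase Finset.univ (fun i => Real.exp (L + Bl6_e c (i3 i) w t)) (Finset.mem_univ j),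
    ← Real.exp_sum, Finset.sum_add_distrib]
  congr 1
  simp

theorem Bl6_WW {L : ℝ} (hA : ∀ (j : Fin 6) (w t : ℂ), ‖b.A (c.u j w t 0)‖ ≤ Real.exp (L + Bl6_e c j w t))
    (w t : ℂ) : ‖WW c b w t 0‖ ≤ Real.exp (3 * L + ∑ i : Fin 3, Bl6_e c (i3 i) w t) := by
  have h1 := Bl6_three c b hA 0 w t (hA (i3 0) w t)
  rw [Finset.mul_prod_erase Finset.univ (fun i => b.A (c.u (i3 i) w t 0)) (Finset.mem_univ 0)] at h1
  exact h1

/-- the additive functions -/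
theorem Bl6_ZZ (x v w t : ℂ) : ZZ c b x v w t 0 =
    b.mu * ((∑ j : Fin 3, c.cc j x * ((deriv b.A (c.u (i3 j) w t 0) +
      2 * Real.pi * I * ((c.u (i3 j) w t 0).im / c.z.im) * b.A (c.u (i3 j) w t 0)) *
        ∏ i ∈ Finset.univ.erase j, b.A (c.u (i3 i) w t 0))) +
      2 * Real.pi * I * ((c.z.im * (c.fp x * v) - ∑ j : Fin 3, c.cc j x * ((c.u (i3 j) w t 0).im : ℂ)) /
        c.z.im) * WW c b w t 0) := by
  have hY : (c.z.im : ℂ) ≠ 0 := by exact_mod_cast c.hz.ne'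
  have h1 : ∀ j : Fin 3, c.cc j x * ((deriv b.A (c.u (i3 j) w t 0) +
      2 * Real.pi * I * ((c.u (i3 j) w t 0).im / c.z.im) * b.A (c.u (i3 j) w t 0)) *
        ∏ i ∈ Finset.univ.erase j, b.A (c.u (i3 i) w t 0)) =
      c.cc j x * (deriv b.A (c.u (i3 j) w t 0) * ∏ i ∈ Finset.univ.erase j, b.A (c.u (i3 i) w t 0)) +
        2 * Real.pi * I * WW c b w t 0 / c.z.im * (c.cc j x * ((c.u (i3 j) w t 0).im : ℂ)) := by
    intro j
    have h2 : WW c b w t 0 = b.A (c.u (i3 j) w t 0) * ∏ i ∈ Finset.univ.erase j, b.A (c.u (i3 i) w t 0) :=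
      (Finset.mul_prod_erase Finset.univ (fun i => b.A (c.u (i3 i) w t 0)) (Finset.mem_univ j)).symm
    rw [h2]
    field_simp
  rw [Finset.sum_congr rfl fun j _ => h1 j, Finset.sum_add_distrib, ← Finset.mul_sum]
  unfold ZZ
  field_simp
  ring

theorem Bl6_Z {L : ℝ} (hA : ∀ (j : Fin 6) (w t : ℂ), ‖b.A (c.u j w t 0)‖ ≤ Real.exp (L + Bl6_e c j w t))
    (hD : ∀ (j : Fin 6) (w t : ℂ), ‖deriv b.A (c.u j w t 0) +
      2 * Real.pi * I * ((c.u j w t 0).im / c.z.im) * b.A (c.u j w t 0)‖ ≤ Real.exp (L + Bl6_e c j w t))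
    (x v w t : ℂ) (R : ℝ) (hR : ‖(c.z.im * (c.fp x * v) -
      ∑ j : Fin 3, c.cc j x * ((c.u (i3 j) w t 0).im : ℂ)) / c.z.im‖ ≤ R) :
    ‖ZZ c b x v w t 0‖ ≤ ‖b.mu‖ * (∑ j : Fin 3, ‖c.cc j x‖ + 2 * Real.pi * R) *
      Real.exp (3 * L + ∑ i : Fin 3, Bl6_e c (i3 i) w t) := by
  rw [Bl6_ZZ, norm_mul, mul_assoc ‖b.mu‖]
  refine mul_le_mul_of_nonneg_left ?_ (norm_nonneg _)
  refine (norm_add_le _ _).trans ?_
  rw [add_mul]
  refine add_le_add ?_ ?_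
  · refine (norm_sum_le _ _).trans ?_
    rw [Finset.sum_mul]
    refine Finset.sum_le_sum fun j _ => ?_
    rw [norm_mul]
    exact mul_le_mul_of_nonneg_left (Bl6_three c b hA j w t (hD (i3 j) w t)) (norm_nonneg _)
  · rw [norm_mul, norm_mul]
    have h1 : ‖(2 * Real.pi * I : ℂ)‖ = 2 * Real.pi := by
      rw [norm_mul, norm_mul, Complex.norm_I, mul_one, Complex.norm_real, Real.norm_of_nonneg Real.pi_pos.le]
      simp
    rw [h1]
    refine mul_le_mul ?_ (Bl6_WW c b hA w t) (norm_nonneg _) ?_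
    · exact mul_le_mul_of_nonneg_left hR (by positivity)
    · have h2 := (norm_nonneg _).trans hR
      positivity

theorem Bl6_EE {L : ℝ} (hL : 0 ≤ L)
    (hA : ∀ (j : Fin 6) (w t : ℂ), ‖b.A (c.u j w t 0)‖ ≤ Real.exp (L + Bl6_e c j w t))
    (l : Fin 2) : ∃ C : ℝ, 0 ≤ C ∧ ∀ w t : ℂ, ‖EE c b l w t 0‖ ≤
      Real.exp (C * (1 + t.im ^ 2) + ∑ j, (c.hm l j : ℝ) * Bl6_e c j w t) := by
  refine ⟨L * ∑ j, (c.hp l j : ℝ) + |Real.pi * c.ber l * Complex.normSq c.A2 / c.z.im|, by positivity,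
    fun w t => ?_⟩
  unfold EE
  rw [norm_mul, Complex.norm_exp]
  refine (mul_le_mul_of_nonneg_right (Bl6_prod c b hA (c.hp l) w t) (Real.exp_pos _).le).trans ?_
  rw [← Real.exp_add]
  refine Real.exp_le_exp.2 ?_
  have h1 : (Real.pi * I * (c.be l c.zb * c.A1 * w ^ 2 + c.be l c.r * c.A2 * t ^ 2)).re =
      -(Real.pi * (c.be l c.zb * c.A1 * w ^ 2 + c.be l c.r * c.A2 * t ^ 2).im) := by
    obtain ⟨v, hv⟩ : ∃ v : ℂ, v = c.be l c.zb * c.A1 * w ^ 2 + c.be l c.r * c.A2 * t ^ 2 := ⟨_, rfl⟩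
    rw [← hv]
    simp [Complex.mul_re, Complex.mul_im]
  rw [h1]
  have h2 : ∑ j, (c.hp l j : ℝ) * Bl6_e c j w t = ∑ j, (c.hm l j : ℝ) * Bl6_e c j w t +
      ∑ j : Fin 6, (c.hh l j : ℝ) * (Real.pi / c.z.im * (c.u j w t 0).im ^ 2) := by
    rw [← Finset.sum_add_distrib]
    refine Finset.sum_congr rfl fun j _ => ?_
    have h3 := hp_sub_hm c l j
    have h4 : ((c.hp l j : ℕ) : ℝ) - ((c.hm l j : ℕ) : ℝ) = (c.hh l j : ℝ) := by exact_mod_cast h3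
    have h5 : ((c.hp l j : ℕ) : ℝ) = ((c.hm l j : ℕ) : ℝ) + (c.hh l j : ℝ) := by linarith
    rw [h5]
    unfold Bl6_e
    ring
  have h3 := id3 c l w t
  have h4 : Real.pi * c.ber l * Complex.normSq c.A2 / c.z.im * t.im ^ 2 ≤
      |Real.pi * c.ber l * Complex.normSq c.A2 / c.z.im| * t.im ^ 2 :=
    mul_le_mul_of_nonneg_right (le_abs_self _) (sq_nonneg _)
  have h5 : 0 ≤ |Real.pi * c.ber l * Complex.normSq c.A2 / c.z.im| := abs_nonneg _
  have h6 : 0 ≤ L * ∑ j, (c.hp l j : ℝ) * t.im ^ 2 := by positivity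
  rw [h2]
  rw [← Finset.sum_mul, ← mul_assoc] at h6
  nlinarith

theorem gr7 : ∃ C : ℝ, 1 ≤ C ∧ ∀ (a : Fin 7) (w t : ℂ),
    ‖NX c b a w t 0‖ ≤ Real.exp (C * (1 + t.im ^ 2) + c.qa a w t) ∧
    ‖DX c b a w t 0‖ ≤ Real.exp (C * (1 + t.im ^ 2) + c.qa a w t) := by
  obtain ⟨C1, hC1, hgr⟩ := growth b c.hz
  obtain ⟨L, hL⟩ : ∃ L : ℝ, L = Real.log C1 := ⟨_, rfl⟩
  have hL0 : 0 ≤ L := by rw [hL]; exact Real.log_nonneg hC1
  have hexp : Real.exp L = C1 := by rw [hL]; exact Real.exp_log (by linarith)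
  have hA : ∀ (j : Fin 6) (w t : ℂ), ‖b.A (c.u j w t 0)‖ ≤ Real.exp (L + Bl6_e c j w t) := by
    intro j w t
    rw [Real.exp_add, hexp]
    exact (hgr _).1
  have hD : ∀ (j : Fin 6) (w t : ℂ), ‖deriv b.A (c.u j w t 0) +
      2 * Real.pi * I * ((c.u j w t 0).im / c.z.im) * b.A (c.u j w t 0)‖ ≤ Real.exp (L + Bl6_e c j w t) := by
    intro j w t
    rw [Real.exp_add, hexp]
    exact (hgr _).2.1
  have hB : ∀ (j : Fin 6) (w t : ℂ), ‖b.B (c.u j w t 0)‖ ≤ Real.exp (L + 2 * Bl6_e c j w t) := by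
    intro j w t
    rw [Real.exp_add, hexp]
    exact (hgr _).2.2
  have hA2 : ∀ (j : Fin 6) (w t : ℂ), ‖b.A (c.u j w t 0) ^ 2‖ ≤ Real.exp (2 * L + 2 * Bl6_e c j w t) := by
    intro j w t
    rw [norm_pow, ← mul_add]
    have h1 : Real.exp (2 * (L + Bl6_e c j w t)) = Real.exp (L + Bl6_e c j w t) ^ 2 := by
      rw [← Real.exp_nat_mul]
      norm_num
    rw [h1]
    exact pow_le_pow_left₀ (norm_nonneg _) (hA j w t) 2
  -- denominators
  have hDX : ∀ a : Fin 7, Bl6_P c a (fun w t => DX c b a w t 0) := by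
    intro a
    fin_cases a
    · exact Bl6_of c (by linarith : 0 ≤ 2 * L) fun w t => by
        have := hA2 0 w t
        rw [← Bl6_qa0] at this
        exact this
    · exact Bl6_of c (by linarith : 0 ≤ 2 * L) fun w t => by
        have := hA2 1 w t
        rw [← Bl6_qa1] at this
        exact this
    · exact Bl6_of c (by linarith : 0 ≤ 2 * L) fun w t => by
        have := hA2 2 w t
        rw [← Bl6_qa2] at this
        exact this
    · exact Bl6_of c (by linarith : 0 ≤ 3 * L) fun w t => by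
        have := Bl6_WW c b hA w t
        rw [← Bl6_qa3] at this
        exact this
    · exact Bl6_of c (by linarith : 0 ≤ 3 * L) fun w t => by
        have := Bl6_WW c b hA w t
        rw [← Bl6_qa4] at this
        exact this
    · exact Bl6_of c (by positivity : 0 ≤ L * ∑ j, (c.hm 0 j : ℝ)) fun w t =>
        Bl6_prod c b hA (c.hm 0) w t
    · exact Bl6_of c (by positivity : 0 ≤ L * ∑ j, (c.hm 1 j : ℝ)) fun w t =>
        Bl6_prod c b hA (c.hm 1) w t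
  -- numerators
  have hNX : ∀ a : Fin 7, Bl6_P c a (fun w t => NX c b a w t 0) := by
    intro a
    fin_cases a
    · exact Bl6_of c hL0 fun w t => by
        have := hB 0 w t
        rw [← Bl6_qa0] at this
        exact this
    · exact Bl6_of c hL0 fun w t => by
        have := hB 1 w t
        rw [← Bl6_qa1] at this
        exact this
    · exact Bl6_of c hL0 fun w t => by
        have := hB 2 w t
        rw [← Bl6_qa2] at this
        exact this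
    · obtain ⟨K, hK⟩ : ∃ K : ℝ, K = ‖b.mu‖ * (∑ j : Fin 3, ‖c.cc j c.zb‖) := ⟨_, rfl⟩
      have hK0 : 0 ≤ K := by rw [hK]; positivity
      refine Bl6_of c (by positivity : 0 ≤ K + 3 * L) fun w t => ?_
      have h1 := Bl6_Z c b hA hD c.zb w w t 0 (by
        rw [id1, sub_self, zero_div, norm_zero])
      rw [mul_zero, add_zero, ← hK, ← Bl6_qa3] at h1
      refine h1.trans ?_
      have h2 : K ≤ Real.exp K := by linarith [Real.add_one_le_exp K]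
      rw [add_assoc, Real.exp_add K]
      exact mul_le_mul_of_nonneg_right h2 (Real.exp_pos _).le
    · obtain ⟨K, hK⟩ : ∃ K : ℝ, K = ‖b.mu‖ * (∑ j : Fin 3, ‖c.cc j c.r‖) := ⟨_, rfl⟩
      obtain ⟨K2, hK2⟩ : ∃ K2 : ℝ, K2 = ‖b.mu‖ * (2 * Real.pi * (‖c.fp c.r‖ *
        ‖(c.z.im * I - (c.z.re - c.r) : ℂ)‖ / c.z.im)) := ⟨_, rfl⟩
      have hz := c.hz
      have hK0 : 0 ≤ K := by rw [hK]; positivity
      have hK20 : 0 ≤ K2 := by rw [hK2]; positivity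
      refine ⟨K + K2 + 3 * L, by positivity, fun w t => ?_⟩
      have h1 := Bl6_Z c b hA hD c.r t w t (‖c.fp c.r‖ * ‖(c.z.im * I - (c.z.re - c.r) : ℂ)‖ /
        c.z.im * |t.im|) (by
        rw [id2, norm_div, norm_mul, norm_mul, Complex.norm_real, Complex.norm_real,
          Real.norm_eq_abs, Real.norm_of_nonneg hz.le]
        apply le_of_eq
        ring)
      have e : ‖b.mu‖ * (∑ j : Fin 3, ‖c.cc j c.r‖ + 2 * Real.pi *
          (‖c.fp c.r‖ * ‖(c.z.im * I - (c.z.re - c.r) : ℂ)‖ / c.z.im * |t.im|)) = K + K2 * |t.im| := by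
        rw [hK, hK2]
        ring
      rw [e, ← Bl6_qa4] at h1
      refine h1.trans ?_
      have h2 : |t.im| ≤ 1 + t.im ^ 2 := by
        have h3 := sq_abs t.im
        nlinarith [sq_nonneg (|t.im| - 1), abs_nonneg t.im]
      have h4 : K + K2 * |t.im| ≤ (K + K2) * (1 + t.im ^ 2) := by
        have h5 := mul_le_mul_of_nonneg_left h2 hK20
        nlinarith [mul_nonneg hK0 (sq_nonneg t.im)]
      have h5 : K + K2 * |t.im| ≤ Real.exp ((K + K2) * (1 + t.im ^ 2)) :=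
        h4.trans (by linarith [Real.add_one_le_exp ((K + K2) * (1 + t.im ^ 2))])
      refine (mul_le_mul_of_nonneg_right h5 (Real.exp_pos _).le).trans ?_
      rw [← Real.exp_add]
      refine Real.exp_le_exp.2 ?_
      show (K + K2) * (1 + t.im ^ 2) + (3 * L + c.qa 4 w t) ≤ (K + K2 + 3 * L) * (1 + t.im ^ 2) + c.qa 4 w t
      nlinarith [mul_nonneg hL0 (sq_nonneg t.im)]
    · exact Bl6_EE c b hL0 hA 0
    · exact Bl6_EE c b hL0 hA 1
  choose CD hCD0 hCD using hDX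
  choose CN hCN0 hCN using hNX
  have hsum : ∀ a : Fin 7, CD a ≤ 1 + ∑ a, (CD a + CN a) ∧ CN a ≤ 1 + ∑ a, (CD a + CN a) := by
    intro a
    have h1 := Finset.single_le_sum (f := fun a => CD a + CN a)
      (fun a _ => add_nonneg (hCD0 a) (hCN0 a)) (Finset.mem_univ a)
    have h2 := hCD0 a
    have h3 := hCN0 a
    constructor <;> linarith
  refine ⟨1 + ∑ a, (CD a + CN a), ?_, fun a w t => ⟨?_, ?_⟩⟩
  · have h1 : 0 ≤ ∑ a, (CD a + CN a) := Finset.sum_nonneg fun a _ => add_nonneg (hCD0 a) (hCN0 a)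
    linarith
  · refine (hCN a w t).trans (Real.exp_le_exp.2 ?_)
    have h1 := mul_le_mul_of_nonneg_right (hsum a).2 (by positivity : 0 ≤ 1 + t.im ^ 2)
    linarith
  · refine (hCD a w t).trans (Real.exp_le_exp.2 ?_)
    have h1 := mul_le_mul_of_nonneg_right (hsum a).1 (by positivity : 0 ≤ 1 + t.im ^ 2)
    linarith

end CZ
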