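import Pool.Agent.H22.CZ.La3

/-!
# Row La4: the covering lemma

PROOF. Put `ρ̂_1 = N zb`, `ρ̂_2 = N r`, `H = 1 + |ρ̂_1| + |ρ̂_1|^2 + |ρ̂_2| + |ρ̂_2|^2`. Let `C` be the
constant of `small2`. Given `ρ > 0` apply `small2` with `X = C H / ρ`: `g ≠ 0` with
`‖lat z g‖ ≤ ρ/H`, `|latr g| ≤ C X^2 = C^3 H^2/ρ^2`, and both are nonzero. Write
`g1 = lat zb g = conj (lat z g)` (same norm, nonzero), `g2 = latr g`.
REAL COORDINATES: there are real `a0, a1, a2` with `a0 + a1 ρ̂_1 + a2 ρ̂_1^2 = w/g1` and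
`a0 + a1 ρ̂_2 + a2 ρ̂_2^2 = s/g2`: write the polynomial as `s/g2 + (X - ρ̂_2)(α + β X)`, where
`α + β ρ̂_1 = (w/g1 - s/g2)/(ρ̂_1 - ρ̂_2) =: v`, i.e. `β = v.im / ρ̂_1.im`, `α = v.re - β ρ̂_1.re`
(`ρ̂_1.im = -N z.im ≠ 0`); so `a2 = β`, `a1 = α - β ρ̂_2`, `a0 = s/g2 - ρ̂_2 α`.
Put `n_i = ⌊a_i⌋` and `x = n_0 • g + n_1 • mulz g + n_2 • mulz (mulz g)`. Then
`lat zb x = (n_0 + n_1 ρ̂_1 + n_2 ρ̂_1^2) g1` (`lat_add, lat_zsmul, lat_mulz c 1`), so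
`‖w - lat zb x‖ = ‖∑ (a_i - n_i) ρ̂_1^i‖ ‖g1‖ ≤ H ρ/H = ρ`, and
`|s - latr x| ≤ H |g2| ≤ C^3 H^3/ρ^2` (`lat_mulz c 2` with `lat_r`). So `C0 = C^3 H^3`.
-/

set_option autoImplicit false

namespace CZ

open Complex

variable (c : CData)

theorem cover : ∃ C0 : ℝ, 1 ≤ C0 ∧ ∀ ρ : ℝ, 0 < ρ → ∀ (w : ℂ) (s : ℝ), ∃ x : Fin 3 → ℤ,
    ‖w - c.lat c.zb x‖ ≤ ρ ∧ |s - c.latr x| ≤ C0 / ρ ^ 2 := by
  obtain ⟨C, hC, hsm⟩ := small2 c
  have hNr : (0 : ℝ) < c.N := by exact_mod_cast c.hN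
  set p1 : ℂ := c.N * c.zb with hp1
  set p2 : ℝ := c.N * c.r with hp2
  set H : ℝ := 1 + ‖p1‖ + ‖p1‖ ^ 2 + |p2| + |p2| ^ 2 with hH
  have hH1 : 1 ≤ H := by
    have h1 := norm_nonneg p1
    have h2 := abs_nonneg p2
    have h3 : 0 ≤ ‖p1‖ ^ 2 := by positivity
    have h4 : 0 ≤ |p2| ^ 2 := by positivity
    linarith
  have hH0 : 0 < H := by linarith
  have hC0 : 0 < C := by linarith
  have hp1im : p1.im ≠ 0 := by
    have : p1.im = -(c.N * c.z.im) := by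
      rw [hp1]
      simp [CData.zb]
    rw [this]
    have := mul_pos hNr c.hz
    linarith
  have hp12 : p1 - (p2 : ℂ) ≠ 0 := by
    intro h
    have h1 := congrArg Complex.im h
    simp only [sub_im, ofReal_im, sub_zero, zero_im] at h1
    exact hp1im h1
  refine ⟨C ^ 3 * H ^ 3, ?_, ?_⟩
  · exact one_le_mul_of_one_le_of_one_le (one_le_pow₀ hC) (one_le_pow₀ hH1)
  intro ρ hρ w s
  obtain ⟨g, hg0, hg1, hg2, hg3, hg4⟩ := hsm (C * H / ρ) (by positivity)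
  set g1 : ℂ := c.lat c.zb g with hg1def
  set g2 : ℝ := c.latr g with hg2def
  have hX0 : 0 < C * H / ρ := by positivity
  have hg1n : ‖g1‖ = ‖c.lat c.z g‖ := by
    rw [hg1def, lat_zb, Complex.norm_conj]
  have hg1ne : g1 ≠ 0 := by
    rw [← norm_pos_iff, hg1n]
    exact lt_of_lt_of_le (by positivity) hg3
  have hg2ne : g2 ≠ 0 := by
    rw [← abs_pos]
    exact lt_of_lt_of_le (by positivity) hg4
  have hg1le : ‖g1‖ ≤ ρ / H := by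
    rw [hg1n]
    refine hg1.trans (le_of_eq ?_)
    field_simp
  have hg2le : |g2| ≤ C ^ 3 * H ^ 2 / ρ ^ 2 := by
    refine hg2.trans (le_of_eq ?_)
    field_simp
  set v : ℂ := (w / g1 - ((s / g2 : ℝ) : ℂ)) / (p1 - (p2 : ℂ)) with hv
  set β : ℝ := v.im / p1.im with hβ
  set α : ℝ := v.re - β * p1.re with hα
  have hvab : (α : ℂ) + β * p1 = v := by
    apply Complex.ext
    · simp only [add_re, ofReal_re, mul_re, ofReal_im, zero_mul, sub_zero]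
      rw [hα]
      ring
    · simp only [add_im, ofReal_im, mul_im, ofReal_re, zero_mul, add_zero, zero_add]
      rw [hβ]
      field_simp
  set a2 : ℝ := β with ha2
  set a1 : ℝ := α - β * p2 with ha1
  set a0 : ℝ := s / g2 - p2 * α with ha0
  have hval1 : (a0 : ℂ) + a1 * p1 + a2 * p1 ^ 2 = w / g1 := by
    have h1 : (a0 : ℂ) + a1 * p1 + a2 * p1 ^ 2 =
        ((s / g2 : ℝ) : ℂ) + (p1 - (p2 : ℂ)) * ((α : ℂ) + β * p1) := by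
      rw [ha0, ha1, ha2]
      push_cast
      ring
    rw [h1, hvab, hv, mul_div_cancel₀ _ hp12]
    ring
  have hval2 : a0 + a1 * p2 + a2 * p2 ^ 2 = s / g2 := by
    rw [ha0, ha1, ha2]
    ring
  refine ⟨⌊a0⌋ • g + ⌊a1⌋ • c.mulz g + ⌊a2⌋ • c.mulz (c.mulz g), ?_, ?_⟩
  · have hlat : c.lat c.zb (⌊a0⌋ • g + ⌊a1⌋ • c.mulz g + ⌊a2⌋ • c.mulz (c.mulz g)) =
        ((⌊a0⌋ : ℂ) + ⌊a1⌋ * p1 + ⌊a2⌋ * p1 ^ 2) * g1 := by
      have hm : ∀ y, c.lat c.zb (c.mulz y) = p1 * c.lat c.zb y := fun y => lat_mulz c 1 y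
      rw [lat_add, lat_add, lat_zsmul, lat_zsmul, lat_zsmul, hm, hm, hm, ← hg1def]
      ring
    have hw : w - c.lat c.zb (⌊a0⌋ • g + ⌊a1⌋ • c.mulz g + ⌊a2⌋ • c.mulz (c.mulz g)) =
        (((a0 - ⌊a0⌋ : ℝ) : ℂ) + ((a1 - ⌊a1⌋ : ℝ) : ℂ) * p1 +
          ((a2 - ⌊a2⌋ : ℝ) : ℂ) * p1 ^ 2) * g1 := by
      rw [hlat]
      have h1 : w = ((a0 : ℂ) + a1 * p1 + a2 * p1 ^ 2) * g1 := by
        rw [hval1]
        field_simp
      conv_lhs => rw [h1]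
      push_cast
      ring
    rw [hw, norm_mul]
    have hfr : ∀ a : ℝ, ‖((a - ⌊a⌋ : ℝ) : ℂ)‖ ≤ 1 := by
      intro a
      rw [Complex.norm_real, Real.norm_eq_abs, abs_of_nonneg (sub_nonneg.2 (Int.floor_le a))]
      linarith [Int.lt_floor_add_one a]
    have hn : ‖((a0 - ⌊a0⌋ : ℝ) : ℂ) + ((a1 - ⌊a1⌋ : ℝ) : ℂ) * p1 +
          ((a2 - ⌊a2⌋ : ℝ) : ℂ) * p1 ^ 2‖ ≤ H := by
      refine (norm_add₃_le).trans ?_
      rw [norm_mul _ p1, norm_mul _ (p1 ^ 2), norm_pow]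
      have e0 := hfr a0
      have e1 : ‖((a1 - ⌊a1⌋ : ℝ) : ℂ)‖ * ‖p1‖ ≤ 1 * ‖p1‖ :=
        mul_le_mul_of_nonneg_right (hfr a1) (norm_nonneg _)
      have e2 : ‖((a2 - ⌊a2⌋ : ℝ) : ℂ)‖ * ‖p1‖ ^ 2 ≤ 1 * ‖p1‖ ^ 2 :=
        mul_le_mul_of_nonneg_right (hfr a2) (by positivity)
      have e3 := abs_nonneg p2
      have e4 : 0 ≤ |p2| ^ 2 := by positivity
      rw [hH]
      linarith
    calc _ ≤ H * (ρ / H) := mul_le_mul hn hg1le (norm_nonneg _) hH0.le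
      _ = ρ := by field_simp
  · have hlat : c.latr (⌊a0⌋ • g + ⌊a1⌋ • c.mulz g + ⌊a2⌋ • c.mulz (c.mulz g)) =
        ((⌊a0⌋ : ℝ) + ⌊a1⌋ * p2 + ⌊a2⌋ * p2 ^ 2) * g2 := by
      have hm : ∀ y, c.lat c.r (c.mulz y) = (p2 : ℂ) * c.lat c.r y := by
        intro y
        have := lat_mulz c 2 y
        simp only [CData.rt] at this
        rw [hp2]
        push_cast
        exact this
      have h1 : ((c.latr (⌊a0⌋ • g + ⌊a1⌋ • c.mulz g + ⌊a2⌋ • c.mulz (c.mulz g)) : ℝ) : ℂ) =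
          ((((⌊a0⌋ : ℝ) + ⌊a1⌋ * p2 + ⌊a2⌋ * p2 ^ 2) * g2 : ℝ) : ℂ) := by
        rw [← lat_r, lat_add, lat_add, lat_zsmul, lat_zsmul, lat_zsmul, hm, hm, hm, lat_r,
          ← hg2def]
        push_cast
        ring
      exact_mod_cast h1
    have hs : s - c.latr (⌊a0⌋ • g + ⌊a1⌋ • c.mulz g + ⌊a2⌋ • c.mulz (c.mulz g)) =
        ((a0 - ⌊a0⌋) + (a1 - ⌊a1⌋) * p2 + (a2 - ⌊a2⌋) * p2 ^ 2) * g2 := by
      rw [hlat]
      have h1 : s = (a0 + a1 * p2 + a2 * p2 ^ 2) * g2 := by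
        rw [hval2]
        field_simp
      conv_lhs => rw [h1]
      ring
    rw [hs, abs_mul]
    have hfr : ∀ a : ℝ, |a - ⌊a⌋| ≤ 1 := by
      intro a
      rw [abs_of_nonneg (sub_nonneg.2 (Int.floor_le a))]
      linarith [Int.lt_floor_add_one a]
    have hn : |(a0 - ⌊a0⌋) + (a1 - ⌊a1⌋) * p2 + (a2 - ⌊a2⌋) * p2 ^ 2| ≤ H := by
      refine (abs_add_three _ _ _).trans ?_
      rw [abs_mul _ p2, abs_mul _ (p2 ^ 2), abs_pow]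
      have e0 := hfr a0
      have e1 : |a1 - ⌊a1⌋| * |p2| ≤ 1 * |p2| :=
        mul_le_mul_of_nonneg_right (hfr a1) (abs_nonneg _)
      have e2 : |a2 - ⌊a2⌋| * |p2| ^ 2 ≤ 1 * |p2| ^ 2 :=
        mul_le_mul_of_nonneg_right (hfr a2) (by positivity)
      have e3 := norm_nonneg p1
      have e4 : 0 ≤ ‖p1‖ ^ 2 := by positivity
      rw [hH]
      linarith
    calc _ ≤ H * (C ^ 3 * H ^ 2 / ρ ^ 2) := mul_le_mul hn hg2le (abs_nonneg _) hH0.le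
      _ = C ^ 3 * H ^ 3 / ρ ^ 2 := by ring

end CZ
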