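import Pool.Agent.H22.CZ.Defs

/-!
# Definitions for the abstract Schwarz lemma
-/

set_option autoImplicit false

namespace CZ

open Complex

/-- Hypotheses on the quadratic function. -/
structure QData (q : ℂ → ℂ → ℝ) (C0 C' : ℝ) : Prop where
  one_le : 1 ≤ C0
  nonneg : ∀ w t, 0 ≤ q w t
  le : ∀ w t, q w t ≤ C0 * (‖w‖ ^ 2 + ‖t‖ ^ 2)
  C'_nonneg : 0 ≤ C'
  C'_le : C' ≤ C0
  dec : ∀ w, ∃ α β γ : ℂ, ∀ t, q w t = (α * t ^ 2 + β * t + γ).re + C' * t.im ^ 2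

/-- Hypotheses on the function `F` of degree `D`: entire, `‖F‖ exp(-D q)` invariant under `G`,
growth. -/
structure FData (q : ℂ → ℂ → ℝ) (C0 : ℝ) (G : Set (ℂ × ℝ)) (D A : ℝ) (F : ℂ × ℂ → ℂ) : Prop where
  diff : Differentiable ℂ F
  inv : ∀ g ∈ G, ∀ w t, ‖F (w + g.1, t + (g.2 : ℂ))‖ * Real.exp (-(D * q (w + g.1) (t + (g.2 : ℂ)))) =
    ‖F (w, t)‖ * Real.exp (-(D * q w t))
  gr : ∀ w t, ‖F (w, t)‖ * Real.exp (-(D * q w t)) ≤ Real.exp (A + C0 * D * t.im ^ 2)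

/-- The covering hypothesis. -/
def Cov (C0 : ℝ) (G : Set (ℂ × ℝ)) : Prop :=
  ∀ ρ : ℝ, 0 < ρ → ∀ (w : ℂ) (s : ℝ), ∃ g ∈ G, ‖w - g.1‖ ≤ ρ ∧ |s - g.2| ≤ C0 / ρ ^ 2

/-- The weighted size of `F` with the factor `exp(D C' (Im t)^2)`; for fixed `w` it is the modulus
of an entire function of `t` (times a constant). -/
noncomputable def Nf (q : ℂ → ℂ → ℝ) (C' D : ℝ) (F : ℂ × ℂ → ℂ) (w t : ℂ) : ℝ :=
  ‖F (w, t)‖ * Real.exp (-(D * q w t)) * Real.exp (D * C' * t.im ^ 2)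

end CZ
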