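import Pool.Agent.H22.CZ.Bl4
import Pool.Agent.H22.CZ.Bl6
import Pool.Agent.H22.CZ.Sdef
import Pool.Agent.H22.CZ.La4

/-!
# Row Bl7: the functions `FF` satisfy the hypotheses of the abstract Schwarz lemma

PROOF.
* `cov_data`: `cover` (La4).
* `q_data`: `q w t = ∑_a ∑_j qc a j (π/Y) (Im u_j)^2 = ∑_j κ_j (Im (α_j w + β_j t))^2`, `κ_j ≥ 0`,
  `α_j = A1 nu_j(zb)`, `β_j = A2 nu_j(r)`. Nonnegative; `(Im (α w + β t))^2 ≤ 2 |α|^2|w|^2 + 2|β|^2|t|^2`.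
  Decomposition: for a real `d` and `β, t ∈ ℂ`: `(Im(β t) + d)^2 = Re(α' t^2 + β' t + γ') + |β|^2 (Im t)^2` with
  `α' = (|β|^2 - β^2)/2`: for `v = β t`: `(Im v)^2 = (|v|^2 - Re(v^2))/2`,
  `|β t|^2 = |β|^2 (|t|^2) = |β|^2 (Re(t^2) + 2 (Im t)^2)`. So
  `(Im βt)^2 = Re((|β|^2 - β^2)/2 * t^2) + |β|^2 (Im t)^2`, `2 d Im(β t) = Re(-2 i d β t)`, `d^2 = Re(d^2)`.
  Sum over `j` with weights `κ_j`, `d_j = Im(α_j w)`: `C' = ∑ κ_j |β_j|^2`.
* `FF_diff`: `u` is a polynomial, `A, B` entire, `deriv A` entire (`Differentiable.deriv`?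
  `b.dA.contDiff`/`Differentiable.analyticAt ... deriv`), finite sums and products, `exp`. (`fun_prop` after
  establishing `Differentiable ℂ (deriv b.A)`.)
* `FF_inv`: by `auto` for each `a`: `Phi(x + γ) = (∏_a μ_a)^D Phi x` (`μ^(l a) μ^(D - l a) = μ^D`), so
  `FF(x + γ) = (∏ μ_a)^D FF x`, and `‖∏ μ_a‖ = exp(q(x + γ) - q x)`.
* `FF_gr`: `|Phi| ≤ ∏_a exp(C (1 + t.im^2) + qa)^D = exp(7 D C (1 + t.im^2) + D q)`; the number of terms is
  `(D+1)^7 ≤ exp(7 D)` (`D + 1 ≤ exp D`). (Use `C * D` with `D ≥ 1` to absorb constants.)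
-/

set_option autoImplicit false

namespace CZ

open Complex

variable (c : CData) (b : BaseFn c.z)

/-- The lattice of periods. -/
def CData.G : Set (ℂ × ℝ) := Set.range fun x : Fin 3 → ℤ ↦ (c.lat c.zb x, c.latr x)

theorem cov_data : ∃ C0 : ℝ, 1 ≤ C0 ∧ ∀ C, C0 ≤ C → Cov C c.G := by
  obtain ⟨C0, h1, h2⟩ := cover c
  refine ⟨C0, h1, fun C hC ρ hρ w s => ?_⟩
  obtain ⟨x, hx1, hx2⟩ := h2 ρ hρ w s
  refine ⟨(c.lat c.zb x, c.latr x), ⟨x, rfl⟩, hx1, hx2.trans ?_⟩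
  exact div_le_div_of_nonneg_right hC (by positivity)

/-! ### the quadratic form -/

theorem Bl7_im (α β w t : ℂ) : (α * w + β * t).im ^ 2 =
    (((normSq β : ℂ) - β ^ 2) / 2 * t ^ 2 + (-(2 * I * ((α * w).im : ℂ) * β)) * t +
      (((α * w).im : ℂ)) ^ 2).re + normSq β * t.im ^ 2 := by
  obtain ⟨d, hd⟩ : ∃ d : ℝ, d = (α * w).im := ⟨_, rfl⟩
  rw [add_im, ← hd]
  obtain ⟨p, q⟩ := β
  obtain ⟨x, y⟩ := t
  simp only [normSq_mk, pow_two, add_re, sub_re, mul_re, mul_im, div_ofNat_re, div_ofNat_im,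
    sub_im, ofReal_re, ofReal_im, neg_re, neg_im, I_re, I_im, re_ofNat, im_ofNat]
  ring

theorem Bl7_bd (α β w t : ℂ) : (α * w + β * t).im ^ 2 ≤
    2 * (‖α‖ ^ 2 + ‖β‖ ^ 2) * (‖w‖ ^ 2 + ‖t‖ ^ 2) := by
  have h1 : (α * w + β * t).im ^ 2 ≤ ‖α * w + β * t‖ ^ 2 := by
    rw [← sq_abs]
    exact pow_le_pow_left₀ (abs_nonneg _) (abs_im_le_norm _) 2
  have h2 : ‖α * w + β * t‖ ≤ ‖α‖ * ‖w‖ + ‖β‖ * ‖t‖ := by
    refine (norm_add_le _ _).trans (le_of_eq ?_)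
    rw [norm_mul, norm_mul]
  have h3 : ‖α * w + β * t‖ ^ 2 ≤ (‖α‖ * ‖w‖ + ‖β‖ * ‖t‖) ^ 2 :=
    pow_le_pow_left₀ (norm_nonneg _) h2 2
  have h4 : (‖α‖ * ‖w‖ + ‖β‖ * ‖t‖) ^ 2 ≤ 2 * (‖α‖ ^ 2 + ‖β‖ ^ 2) * (‖w‖ ^ 2 + ‖t‖ ^ 2) := by
    have e1 := sq_nonneg (‖α‖ * ‖w‖ - ‖β‖ * ‖t‖)
    have e2 := sq_nonneg (‖α‖ * ‖t‖)
    have e3 := sq_nonneg (‖β‖ * ‖w‖)
    have e4 := sq_nonneg (‖α‖ * ‖w‖)
    have e5 := sq_nonneg (‖β‖ * ‖t‖)
    nlinarith
  linarith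

theorem Bl7_quad {ι : Type} [Fintype ι] (κ : ι → ℝ) (hκ : ∀ p, 0 ≤ κ p) (α β : ι → ℂ)
    (q : ℂ → ℂ → ℝ) (hq : ∀ w t, q w t = ∑ p, κ p * (α p * w + β p * t).im ^ 2) :
    ∃ C0 C' : ℝ, 1 ≤ C0 ∧ ∀ C, C0 ≤ C → QData q C C' := by
  obtain ⟨K, hK⟩ : ∃ K : ℝ, K = ∑ p, κ p * (2 * (‖α p‖ ^ 2 + ‖β p‖ ^ 2)) := ⟨_, rfl⟩
  have hK0 : 0 ≤ K := by
    rw [hK]
    exact Finset.sum_nonneg fun p _ => mul_nonneg (hκ p) (by positivity)
  have hC'0 : 0 ≤ ∑ p, κ p * normSq (β p) :=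
    Finset.sum_nonneg fun p _ => mul_nonneg (hκ p) (normSq_nonneg _)
  have hC'K : ∑ p, κ p * normSq (β p) ≤ K := by
    rw [hK]
    refine Finset.sum_le_sum fun p _ => mul_le_mul_of_nonneg_left ?_ (hκ p)
    rw [normSq_eq_norm_sq]
    have := sq_nonneg ‖α p‖
    have := sq_nonneg ‖β p‖
    linarith
  refine ⟨1 + K, ∑ p, κ p * normSq (β p), by linarith, fun C hC => ⟨by linarith, ?_, ?_, hC'0,
    by linarith, ?_⟩⟩
  · intro w t
    rw [hq]
    exact Finset.sum_nonneg fun p _ => mul_nonneg (hκ p) (sq_nonneg _)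
  · intro w t
    have h1 : q w t ≤ K * (‖w‖ ^ 2 + ‖t‖ ^ 2) := by
      rw [hq, hK, Finset.sum_mul]
      refine Finset.sum_le_sum fun p _ => ?_
      rw [mul_assoc]
      exact mul_le_mul_of_nonneg_left (Bl7_bd _ _ _ _) (hκ p)
    refine h1.trans (mul_le_mul_of_nonneg_right (by linarith) (by positivity))
  · intro w
    refine ⟨∑ p, (κ p : ℂ) * (((normSq (β p) : ℂ) - β p ^ 2) / 2),
      ∑ p, (κ p : ℂ) * (-(2 * I * ((α p * w).im : ℂ) * β p)),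
      ∑ p, (κ p : ℂ) * (((α p * w).im : ℂ)) ^ 2, fun t => ?_⟩
    rw [hq, Finset.sum_mul, Finset.sum_mul, Finset.sum_mul, ← Finset.sum_add_distrib,
      ← Finset.sum_add_distrib, re_sum, ← Finset.sum_add_distrib]
    refine Finset.sum_congr rfl fun p _ => ?_
    rw [Bl7_im]
    have e : (κ p : ℂ) * (((normSq (β p) : ℂ) - β p ^ 2) / 2) * t ^ 2 +
        (κ p : ℂ) * (-(2 * I * ((α p * w).im : ℂ) * β p)) * t +
        (κ p : ℂ) * (((α p * w).im : ℂ)) ^ 2 =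
        (κ p : ℂ) * (((normSq (β p) : ℂ) - β p ^ 2) / 2 * t ^ 2 +
        (-(2 * I * ((α p * w).im : ℂ) * β p)) * t + (((α p * w).im : ℂ)) ^ 2) := by ring
    rw [e, re_ofReal_mul]
    ring

theorem q_data : ∃ C0 C' : ℝ, 1 ≤ C0 ∧ ∀ C, C0 ≤ C → QData c.q C C' := by
  refine Bl7_quad (ι := Fin 7 × Fin 6) (fun p => (c.qc p.1 p.2 : ℝ) * (Real.pi / c.z.im))
    (fun p => ?_) (fun p => c.A1 * nu p.2 c.zb) (fun p => c.A2 * nu p.2 c.r) c.q (fun w t => ?_)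
  · have := c.hz
    have := Real.pi_pos
    positivity
  · unfold CData.q CData.qa
    rw [Fintype.sum_prod_type]
    refine Finset.sum_congr rfl fun a _ => Finset.sum_congr rfl fun j _ => ?_
    unfold CData.u
    rw [mul_zero, add_zero]
    exact (mul_assoc _ _ _).symm

/-! ### differentiability -/

theorem Bl7_prod {ι : Type} (s : Finset ι) (f : ι → ℂ × ℂ → ℂ)
    (h : ∀ i ∈ s, Differentiable ℂ (f i)) : Differentiable ℂ (fun x => ∏ i ∈ s, f i x) := by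
  classical
  induction s using Finset.induction_on with
  | empty =>
    simp only [Finset.prod_empty]
    exact differentiable_const _
  | insert i s hi ih =>
    simp only [Finset.prod_insert hi]
    exact (h i (Finset.mem_insert_self _ _)).mul
      (ih fun j hj => h j (Finset.mem_insert_of_mem hj))

theorem Bl7_sum {ι : Type} (s : Finset ι) (f : ι → ℂ × ℂ → ℂ)
    (h : ∀ i ∈ s, Differentiable ℂ (f i)) : Differentiable ℂ (fun x => ∑ i ∈ s, f i x) := by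
  classical
  induction s using Finset.induction_on with
  | empty =>
    simp only [Finset.sum_empty]
    exact differentiable_const _
  | insert i s hi ih =>
    simp only [Finset.sum_insert hi]
    exact (h i (Finset.mem_insert_self _ _)).add
      (ih fun j hj => h j (Finset.mem_insert_of_mem hj))

theorem Bl7_u (j : Fin 6) : Differentiable ℂ (fun x : ℂ × ℂ => c.u j x.1 x.2 0) := by
  unfold CData.u
  exact ((differentiable_fst.const_mul _).add (differentiable_snd.const_mul _)).add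
    (differentiable_const _)

theorem Bl7_A (j : Fin 6) : Differentiable ℂ (fun x : ℂ × ℂ => b.A (c.u j x.1 x.2 0)) :=
  b.dA.comp (Bl7_u c j)

theorem Bl7_B (j : Fin 6) : Differentiable ℂ (fun x : ℂ × ℂ => b.B (c.u j x.1 x.2 0)) :=
  b.dB.comp (Bl7_u c j)

theorem Bl7_A' (j : Fin 6) : Differentiable ℂ (fun x : ℂ × ℂ => deriv b.A (c.u j x.1 x.2 0)) := by
  have h : Differentiable ℂ (deriv b.A) := by
    have h1 := (differentiableOn_univ.2 b.dA).deriv isOpen_univ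
    exact differentiableOn_univ.1 h1
  exact h.comp (Bl7_u c j)

theorem Bl7_W : Differentiable ℂ (fun x : ℂ × ℂ => WW c b x.1 x.2 0) := by
  unfold WW
  exact Bl7_prod _ _ fun j _ => Bl7_A c b _

theorem Bl7_Z (x0 : ℂ) (v : ℂ × ℂ → ℂ) (hv : Differentiable ℂ v) :
    Differentiable ℂ (fun x : ℂ × ℂ => ZZ c b x0 (v x) x.1 x.2 0) := by
  unfold ZZ
  refine Differentiable.const_mul (Differentiable.add ?_ ?_) _
  · exact Bl7_sum _ _ fun j _ => ((Bl7_A' c b _).mul (Bl7_prod _ _ fun i _ => Bl7_A c b _)).const_mul _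
  · exact (hv.const_mul _).mul (Bl7_W c b)

theorem Bl7_E (l : Fin 2) : Differentiable ℂ (fun x : ℂ × ℂ => EE c b l x.1 x.2 0) := by
  unfold EE
  refine Differentiable.mul (Bl7_prod _ _ fun j _ => (Bl7_A c b _).pow _) ?_
  exact ((((differentiable_fst.pow 2).const_mul _).add
    ((differentiable_snd.pow 2).const_mul _)).const_mul _).cexp

theorem Bl7_T (l : Fin 2) : Differentiable ℂ (fun x : ℂ × ℂ => TT c b l x.1 x.2 0) := by
  unfold TT
  exact Bl7_prod _ _ fun j _ => (Bl7_A c b _).pow _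

theorem Bl7_NX (a : Fin 7) : Differentiable ℂ (fun x : ℂ × ℂ => NX c b a x.1 x.2 0) := by
  fin_cases a
  · exact Bl7_B c b 0
  · exact Bl7_B c b 1
  · exact Bl7_B c b 2
  · exact Bl7_Z c b c.zb (fun x => x.1) differentiable_fst
  · exact Bl7_Z c b c.r (fun x => x.2) differentiable_snd
  · exact Bl7_E c b 0
  · exact Bl7_E c b 1

theorem Bl7_DX (a : Fin 7) : Differentiable ℂ (fun x : ℂ × ℂ => DX c b a x.1 x.2 0) := by
  fin_cases a
  · exact (Bl7_A c b 0).pow 2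
  · exact (Bl7_A c b 1).pow 2
  · exact (Bl7_A c b 2).pow 2
  · exact Bl7_W c b
  · exact Bl7_W c b
  · exact Bl7_T c b 0
  · exact Bl7_T c b 1

theorem Bl7_FF (D : ℕ) (k : (Fin 7 → Fin (D + 1)) → ℂ) : Differentiable ℂ (FF c b D k) := by
  have h : Differentiable ℂ (fun x : ℂ × ℂ => ∑ l, k l * ∏ a : Fin 7,
      NX c b a x.1 x.2 0 ^ (l a : ℕ) * DX c b a x.1 x.2 0 ^ (D - (l a : ℕ))) :=
    Bl7_sum _ _ fun l _ => (Bl7_prod _ _ fun a _ =>
      ((Bl7_NX c b a).pow _).mul ((Bl7_DX c b a).pow _)).const_mul _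
  exact h

/-! ### invariance -/

theorem Bl7_phi (D : ℕ) (l : Fin 7 → Fin (D + 1)) (x : Fin 3 → ℤ) (w t : ℂ) (μ : Fin 7 → ℂ)
    (h : ∀ a, NX c b a (w + c.lat c.zb x) (t + c.lat c.r x) 0 = μ a * NX c b a w t 0 ∧
      DX c b a (w + c.lat c.zb x) (t + c.lat c.r x) 0 = μ a * DX c b a w t 0) :
    Phi c b D l (w + c.lat c.zb x, t + c.lat c.r x) = (∏ a, μ a ^ D) * Phi c b D l (w, t) := by
  unfold Phi
  rw [← Finset.prod_mul_distrib]
  refine Finset.prod_congr rfl fun a _ => ?_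
  change NX c b a (w + c.lat c.zb x) (t + c.lat c.r x) 0 ^ (l a : ℕ) *
    DX c b a (w + c.lat c.zb x) (t + c.lat c.r x) 0 ^ (D - (l a : ℕ)) =
    μ a ^ D * (NX c b a w t 0 ^ (l a : ℕ) * DX c b a w t 0 ^ (D - (l a : ℕ)))
  rw [(h a).1, (h a).2, mul_pow, mul_pow]
  have h1 : μ a ^ D = μ a ^ (l a : ℕ) * μ a ^ (D - (l a : ℕ)) := by
    rw [← pow_add]
    congr 1
    have := (l a).2
    omega
  rw [h1]
  ring

theorem Bl7_inv (D : ℕ) (k : (Fin 7 → Fin (D + 1)) → ℂ) (x : Fin 3 → ℤ) (w t : ℂ) :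
    ‖FF c b D k (w + c.lat c.zb x, t + c.lat c.r x)‖ =
      Real.exp (D * (c.q (w + c.lat c.zb x) (t + c.lat c.r x) - c.q w t)) * ‖FF c b D k (w, t)‖ := by
  choose μ hμ0 hμN hμD hμn using fun a => auto c b x w t a
  have h1 : FF c b D k (w + c.lat c.zb x, t + c.lat c.r x) =
      (∏ a, μ a ^ D) * FF c b D k (w, t) := by
    unfold FF
    rw [Finset.mul_sum]
    refine Finset.sum_congr rfl fun l _ => ?_
    rw [Bl7_phi c b D l x w t μ fun a => ⟨hμN a, hμD a⟩]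
    ring
  rw [h1, norm_mul, norm_prod]
  congr 1
  have h2 : ∀ a : Fin 7, ‖μ a ^ D‖ = Real.exp (D * (c.qa a (w + c.lat c.zb x) (t + c.lat c.r x) -
      c.qa a w t)) := by
    intro a
    rw [norm_pow, hμn a, ← Real.exp_nat_mul]
  rw [Finset.prod_congr rfl fun a _ => h2 a, ← Real.exp_sum, ← Finset.mul_sum,
    Finset.sum_sub_distrib]
  rfl

/-! ### growth -/

theorem Bl7_gr (C1 : ℝ) (h : ∀ (a : Fin 7) (w t : ℂ),
    ‖NX c b a w t 0‖ ≤ Real.exp (C1 * (1 + t.im ^ 2) + c.qa a w t) ∧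
    ‖DX c b a w t 0‖ ≤ Real.exp (C1 * (1 + t.im ^ 2) + c.qa a w t))
    (D : ℕ) (k : (Fin 7 → Fin (D + 1)) → ℂ) (hk : ∀ l, ‖k l‖ ≤ 1) (w t : ℂ) :
    ‖FF c b D k (w, t)‖ ≤ Real.exp (7 * D) *
      Real.exp (D * (7 * (C1 * (1 + t.im ^ 2)) + c.q w t)) := by
  have h1 : ∀ l : Fin 7 → Fin (D + 1), ‖Phi c b D l (w, t)‖ ≤
      Real.exp (D * (7 * (C1 * (1 + t.im ^ 2)) + c.q w t)) := by
    intro l
    unfold Phi
    rw [norm_prod]
    have h2 : ∀ a : Fin 7, ‖NX c b a w t 0 ^ (l a : ℕ) * DX c b a w t 0 ^ (D - (l a : ℕ))‖ ≤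
        Real.exp (D * (C1 * (1 + t.im ^ 2) + c.qa a w t)) := by
      intro a
      rw [norm_mul, norm_pow, norm_pow, Real.exp_nat_mul]
      have h3 : Real.exp (C1 * (1 + t.im ^ 2) + c.qa a w t) ^ D =
          Real.exp (C1 * (1 + t.im ^ 2) + c.qa a w t) ^ (l a : ℕ) *
          Real.exp (C1 * (1 + t.im ^ 2) + c.qa a w t) ^ (D - (l a : ℕ)) := by
        rw [← pow_add]
        congr 1
        have := (l a).2
        omega
      rw [h3]
      exact mul_le_mul (pow_le_pow_left₀ (norm_nonneg _) (h a w t).1 _)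
        (pow_le_pow_left₀ (norm_nonneg _) (h a w t).2 _) (by positivity) (by positivity)
    refine (Finset.prod_le_prod (fun a _ => norm_nonneg _) fun a _ => h2 a).trans (le_of_eq ?_)
    rw [← Real.exp_sum, ← Finset.mul_sum, Finset.sum_add_distrib, Finset.sum_const,
      Finset.card_univ, Fintype.card_fin, nsmul_eq_mul]
    norm_num
    exact Or.inl rfl
  unfold FF
  refine (norm_sum_le _ _).trans ?_
  have h4 : ∀ l : Fin 7 → Fin (D + 1), ‖k l * Phi c b D l (w, t)‖ ≤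
      Real.exp (D * (7 * (C1 * (1 + t.im ^ 2)) + c.q w t)) := by
    intro l
    rw [norm_mul]
    calc ‖k l‖ * ‖Phi c b D l (w, t)‖ ≤ 1 * Real.exp (D * (7 * (C1 * (1 + t.im ^ 2)) + c.q w t)) :=
          mul_le_mul (hk l) (h1 l) (norm_nonneg _) zero_le_one
      _ = _ := one_mul _
  refine (Finset.sum_le_sum fun l _ => h4 l).trans ?_
  rw [Finset.sum_const, Finset.card_univ, Fintype.card_fun, Fintype.card_fin, Fintype.card_fin,
    nsmul_eq_mul]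
  refine mul_le_mul_of_nonneg_right ?_ (Real.exp_pos _).le
  push_cast
  have h5 : ((D : ℝ) + 1) ^ 7 ≤ Real.exp D ^ 7 :=
    pow_le_pow_left₀ (by positivity) (Real.add_one_le_exp _) 7
  refine h5.trans (le_of_eq ?_)
  rw [← Real.exp_nat_mul]
  norm_num

theorem FF_data : ∃ C0 : ℝ, 1 ≤ C0 ∧ ∀ C, C0 ≤ C → ∀ (D : ℕ) (k : (Fin 7 → Fin (D + 1)) → ℂ),
    1 ≤ D → (∀ l, ‖k l‖ ≤ 1) → FData c.q C c.G D (C * D) (FF c b D k) := by
  obtain ⟨C1, hC1, hgr⟩ := gr7 c b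
  refine ⟨7 + 7 * C1, by linarith, fun C hC D k hD hk => ⟨Bl7_FF c b D k, ?_, ?_⟩⟩
  · rintro g ⟨x, rfl⟩ w t
    have h1 := Bl7_inv c b D k x w t
    rw [lat_r] at h1
    change ‖FF c b D k (w + c.lat c.zb x, t + (c.latr x : ℂ))‖ *
      Real.exp (-(D * c.q (w + c.lat c.zb x) (t + (c.latr x : ℂ)))) = _
    rw [h1]
    have h2 : Real.exp (-(D * c.q w t)) = Real.exp (D * (c.q (w + c.lat c.zb x)
        (t + (c.latr x : ℂ)) - c.q w t)) * Real.exp (-(D * c.q (w + c.lat c.zb x)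
        (t + (c.latr x : ℂ)))) := by
      rw [← Real.exp_add]
      congr 1
      ring
    rw [h2]
    ring
  · intro w t
    have h1 := Bl7_gr c b C1 hgr D k hk w t
    have h2 := mul_le_mul_of_nonneg_right h1 (Real.exp_pos (-(D * c.q w t))).le
    refine h2.trans ?_
    rw [← Real.exp_add, ← Real.exp_add]
    apply Real.exp_le_exp.2
    have hD0 : (0 : ℝ) ≤ D := Nat.cast_nonneg _
    have hs : 0 ≤ t.im ^ 2 := sq_nonneg _
    have h3 : (7 + 7 * C1) * ((D : ℝ) * (1 + t.im ^ 2)) ≤ C * ((D : ℝ) * (1 + t.im ^ 2)) :=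
      mul_le_mul_of_nonneg_right hC (by positivity)
    have h4 : 0 ≤ 7 * ((D : ℝ) * t.im ^ 2) := by positivity
    nlinarith

end CZ
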