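import Mathlib

/-!
# MP_ede373: cubic points. Definitions of the analytic part

`z` in the upper half plane of degree 3 over `ℚ`, with conjugates `conj z` and `r` (real).
All names live in the namespace `CZ`.
-/

set_option autoImplicit false

namespace CZ

open Complex Filter Topology

/-- Cubic data: `f = X^3 + (b2/N) X^2 + (b1/N) X + b0/N` is irreducible over `ℚ`, with roots
`z, conj z` (not real) and `r` (real). -/
structure CData where
  z : ℂ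
  r : ℝ
  N : ℕ
  b2 : ℤ
  b1 : ℤ
  b0 : ℤ
  hz : 0 < z.im
  hN : 0 < N
  he1 : (N : ℂ) * (z + (starRingEnd ℂ) z + r) = -b2
  he2 : (N : ℂ) * (z * (starRingEnd ℂ) z + (z + (starRingEnd ℂ) z) * r) = b1
  he3 : (N : ℂ) * (z * (starRingEnd ℂ) z * r) = -b0
  hirr : ∀ x0 x1 x2 : ℤ, (x0 : ℝ) + x1 * r + x2 * r ^ 2 = 0 → x0 = 0 ∧ x1 = 0 ∧ x2 = 0
  hirz : ∀ x0 x1 x2 : ℤ, (x0 : ℂ) + x1 * z + x2 * z ^ 2 = 0 → x0 = 0 ∧ x1 = 0 ∧ x2 = 0

/-- The base functions: `A` (a theta function, normalised by `A 0 = 1`), `B` (`A ^ 2` times a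
nonconstant elliptic function), for the lattice `ℤ + ℤ z`, and a scaling constant `mu`. -/
structure BaseFn (z : ℂ) where
  A : ℂ → ℂ
  B : ℂ → ℂ
  mu : ℂ
  hmu : mu ≠ 0
  dA : Differentiable ℂ A
  dB : Differentiable ℂ B
  A0 : A 0 = 1
  A1 : ∀ s, A (s + 1) = A s
  Az : ∀ s, A (s + z) = -(exp (-(Real.pi * I * z) - 2 * Real.pi * I * s) * A s)
  B1 : ∀ s, B (s + 1) = B s
  Bz : ∀ s, B (s + z) = exp (2 * (-(Real.pi * I * z) - 2 * Real.pi * I * s)) * B s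
  nc : ¬ ∃ k : ℂ, ∀ᶠ s in 𝓝 (0 : ℂ), B s = k * A s ^ 2

section Alg

variable (c : CData)

/-- The conjugate root. -/
noncomputable def CData.zb : ℂ := (starRingEnd ℂ) c.z

/-- `z - conj z`. -/
noncomputable def CData.A1 : ℂ := c.z - c.zb

/-- `z - r`. -/
noncomputable def CData.A2 : ℂ := c.z - c.r

/-- The derivative `f'`. -/
noncomputable def CData.fp (x : ℂ) : ℂ := 3 * x ^ 2 + 2 * (c.b2 / c.N) * x + c.b1 / c.N

/-- The coefficients of `(f x - f y) / (x - y)` as a polynomial in `y`. -/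
noncomputable def CData.cc (j : Fin 3) (x : ℂ) : ℂ :=
  (![x ^ 2 + (c.b2 / c.N) * x + c.b1 / c.N, x + c.b2 / c.N, 1] : Fin 3 → ℂ) j

/-- The six forms. -/
noncomputable def nu (j : Fin 6) (x : ℂ) : ℂ :=
  (![1, x, x ^ 2, 1 + x, 1 + x ^ 2, x + x ^ 2] : Fin 6 → ℂ) j

/-- The integral combinations of the squares of the six forms. -/
def CData.hh (l : Fin 2) (j : Fin 6) : ℤ :=
  (![![c.b1 - c.b2 - c.N, c.N - c.b2, -c.N, c.b2, c.N, 0],
    ![-c.b0, c.b2 - c.N, -c.N, 0, 0, c.N]] : Fin 2 → Fin 6 → ℤ) l j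

/-- Positive parts. -/
def CData.hp (l : Fin 2) (j : Fin 6) : ℕ := (c.hh l j).toNat

/-- Negative parts. -/
def CData.hm (l : Fin 2) (j : Fin 6) : ℕ := (-c.hh l j).toNat

/-- `beta_0 = N f'`, `beta_1 = N x f'`. -/
noncomputable def CData.be (l : Fin 2) (x : ℂ) : ℂ := c.N * c.fp x * x ^ (l : ℕ)

end Alg

section Fun

variable (c : CData) (b : BaseFn c.z)

/-- The linear forms on `ℂ ^ 3`; the functions of two variables are the restrictions to `y = 0`. -/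
noncomputable def CData.u (j : Fin 6) (w t y : ℂ) : ℂ :=
  c.A1 * nu j c.zb * w + c.A2 * nu j c.r * t + nu j c.z * y

/-- The first three forms. -/
def i3 (j : Fin 3) : Fin 6 := ⟨j, by omega⟩

/-- `θ(u_0) θ(u_1) θ(u_2)`. -/
noncomputable def WW (w t y : ℂ) : ℂ := ∏ j : Fin 3, b.A (c.u (i3 j) w t y)

/-- The (extended) functions `Z_1, Z_2`: `x = conj z, v = w` and `x = r, v = t`. -/
noncomputable def ZZ (x v w t y : ℂ) : ℂ :=
  b.mu * ((∑ j : Fin 3, c.cc j x * (deriv b.A (c.u (i3 j) w t y) *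
    ∏ i ∈ Finset.univ.erase j, b.A (c.u (i3 i) w t y))) +
    2 * Real.pi * I * c.fp x * v * WW c b w t y)

/-- Denominators of the theta quotients. -/
noncomputable def TT (l : Fin 2) (w t y : ℂ) : ℂ := ∏ j : Fin 6, b.A (c.u j w t y) ^ c.hm l j

/-- Numerators of the theta quotients. -/
noncomputable def EE (l : Fin 2) (w t y : ℂ) : ℂ :=
  (∏ j : Fin 6, b.A (c.u j w t y) ^ c.hp l j) *
    exp (Real.pi * I * (c.be l c.zb * c.A1 * w ^ 2 + c.be l c.r * c.A2 * t ^ 2))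

/-- The seven numerators (extended to `ℂ ^ 3`). -/
noncomputable def NX (a : Fin 7) (w t y : ℂ) : ℂ :=
  (![b.B (c.u 0 w t y), b.B (c.u 1 w t y), b.B (c.u 2 w t y),
    ZZ c b c.zb w w t y, ZZ c b c.r t w t y, EE c b 0 w t y, EE c b 1 w t y] : Fin 7 → ℂ) a

/-- The seven denominators (extended to `ℂ ^ 3`). -/
noncomputable def DX (a : Fin 7) (w t y : ℂ) : ℂ :=
  (![b.A (c.u 0 w t y) ^ 2, b.A (c.u 1 w t y) ^ 2, b.A (c.u 2 w t y) ^ 2,
    WW c b w t y, WW c b w t y, TT c b 0 w t y, TT c b 1 w t y] : Fin 7 → ℂ) a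

/-- The functions `Φ_λ` on `ℂ ^ 2`, `λ : Fin 7 → {0, …, D}`. -/
noncomputable def Phi (D : ℕ) (l : Fin 7 → Fin (D + 1)) (x : ℂ × ℂ) : ℂ :=
  ∏ a : Fin 7, NX c b a x.1 x.2 0 ^ (l a : ℕ) * DX c b a x.1 x.2 0 ^ (D - (l a : ℕ))

/-- Linear combinations. -/
noncomputable def FF (D : ℕ) (k : (Fin 7 → Fin (D + 1)) → ℂ) (x : ℂ × ℂ) : ℂ :=
  ∑ l, k l * Phi c b D l x

end Fun

/-- The jet functionals. -/
noncomputable def J (s m : ℕ) (F : ℂ × ℂ → ℂ) : ℂ :=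
  iteratedDeriv s (fun x : ℂ ↦ F (x, (m : ℂ) * x)) 0

/-! ### Further definitions (lattice, quadratic form, extended sums) -/

section More

variable (c : CData)

/-- The three roots `z, conj z, r`. -/
noncomputable def CData.rt (i : Fin 3) : ℂ := (![c.z, c.zb, (c.r : ℂ)] : Fin 3 → ℂ) i

/-- The real number `be l r`. -/
noncomputable def CData.ber (l : Fin 2) : ℝ :=
  c.N * (3 * c.r ^ 2 + 2 * (c.b2 / c.N) * c.r + c.b1 / c.N) * c.r ^ (l : ℕ)

/-- The element `b(x) = 2 N^5 (x_0 + x_1 (N ρ) + x_2 (N ρ)^2)` of the lattice, at the root `ρ`. -/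
noncomputable def CData.lat (ρ : ℂ) (x : Fin 3 → ℤ) : ℂ :=
  2 * c.N ^ 5 * (x 0 + x 1 * (c.N * ρ) + x 2 * (c.N * ρ) ^ 2)

/-- The real embedding of `b(x)`. -/
noncomputable def CData.latr (x : Fin 3 → ℤ) : ℝ :=
  2 * c.N ^ 5 * (x 0 + x 1 * (c.N * c.r) + x 2 * (c.N * c.r) ^ 2)

/-- Multiplication by `N z` on the coordinates of `b(x)`. -/
def CData.mulz (x : Fin 3 → ℤ) : Fin 3 → ℤ :=
  ![-(c.N ^ 2 * c.b0 * x 2), x 0 - c.N * c.b1 * x 2, x 1 - c.b2 * x 2]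

/-- The exponent of `A (u_j)` in the denominator `DX a`. -/
def CData.qc (a : Fin 7) (j : Fin 6) : ℕ :=
  (![if j = 0 then 2 else 0, if j = 1 then 2 else 0, if j = 2 then 2 else 0,
    if (j : ℕ) < 3 then 1 else 0, if (j : ℕ) < 3 then 1 else 0, c.hm 0 j, c.hm 1 j] : Fin 7 → ℕ) a

/-- The quadratic function belonging to the pair `NX a, DX a`. -/
noncomputable def CData.qa (a : Fin 7) (w t : ℂ) : ℝ :=
  ∑ j : Fin 6, (c.qc a j : ℝ) * (Real.pi / c.z.im * (c.u j w t 0).im ^ 2)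

/-- The total quadratic function. -/
noncomputable def CData.q (w t : ℂ) : ℝ := ∑ a : Fin 7, c.qa a w t

end More

section Ext

variable (c : CData) (b : BaseFn c.z)

/-- The index `λ` with given components. -/
def ix (D : ℕ) (l0 l1 l2 l3 l4 : Fin (D + 1)) (n : Fin 2 → Fin (D + 1)) : Fin 7 → Fin (D + 1) :=
  ![l0, l1, l2, l3, l4, n 0, n 1]

/-- The elliptic block: the sum over `λ_0, λ_1, λ_2` for fixed `λ_3, λ_4` and `(λ_5, λ_6) = n`. -/
noncomputable def QX (D : ℕ) (n : Fin 2 → Fin (D + 1)) (k : (Fin 7 → Fin (D + 1)) → ℂ)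
    (l3 l4 : Fin (D + 1)) (w t y : ℂ) : ℂ :=
  ∑ l0, ∑ l1, ∑ l2, k (ix D l0 l1 l2 l3 l4 n) *
    (NX c b 0 w t y ^ (l0 : ℕ) * DX c b 0 w t y ^ (D - (l0 : ℕ))) *
    (NX c b 1 w t y ^ (l1 : ℕ) * DX c b 1 w t y ^ (D - (l1 : ℕ))) *
    (NX c b 2 w t y ^ (l2 : ℕ) * DX c b 2 w t y ^ (D - (l2 : ℕ)))

/-- The theta block. -/
noncomputable def ET (D : ℕ) (n : Fin 2 → Fin (D + 1)) (w t y : ℂ) : ℂ :=
  (NX c b 5 w t y ^ (n 0 : ℕ) * DX c b 5 w t y ^ (D - (n 0 : ℕ))) *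
    (NX c b 6 w t y ^ (n 1 : ℕ) * DX c b 6 w t y ^ (D - (n 1 : ℕ)))

/-- The sums over the `λ` with `(λ_5, λ_6) = n`, extended to `ℂ ^ 3` and with the translation
parameters `k1, k2` of the two additive functions. -/
noncomputable def GX (D : ℕ) (n : Fin 2 → Fin (D + 1)) (k : (Fin 7 → Fin (D + 1)) → ℂ)
    (w t y k1 k2 : ℂ) : ℂ :=
  ∑ l3, ∑ l4, QX c b D n k l3 l4 w t y *
      ((NX c b 3 w t y + k1 * WW c b w t y) ^ (l3 : ℕ) * WW c b w t y ^ (D - (l3 : ℕ))) *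
      ((NX c b 4 w t y + k2 * WW c b w t y) ^ (l4 : ℕ) * WW c b w t y ^ (D - (l4 : ℕ))) *
      ET c b D n w t y

/-- The shift of the two additive functions: `ka1 v = mu 2 π i f'(zb) v / A1` etc. -/
noncomputable def ka1 (v : ℂ) : ℂ := b.mu * (2 * Real.pi * I * c.fp c.zb * v) / c.A1

/-- See `ka1`. -/
noncomputable def ka2 (v : ℂ) : ℂ := b.mu * (2 * Real.pi * I * c.fp c.r * v) / c.A2

end Ext

/-- The family of lattice elements `xb + i1 (N z) g + i2 (N z)^2 g + j g`. -/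
def CData.fam (c : CData) (xb g : Fin 3 → ℤ) (i1 i2 : ℕ) (j : ℤ) : Fin 3 → ℤ :=
  xb + (i1 : ℤ) • c.mulz g + (i2 : ℤ) • c.mulz (c.mulz g) + j • g

/-- The parameter on which the theta block depends exponentially. -/
noncomputable def CData.Tm (c : CData) (e2 : ℝ) (t : ℂ) : ℝ :=
  Real.pi * c.z.im / Complex.normSq c.A2 * e2 ^ 2 - 2 * Real.pi * e2 * t.im

end CZ
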