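import Pool.Agent.H22.CZ.Defs
import Pool.Agent.H32.T3.Ht
import Pool.Agent.H32.T3.Wp3

/-!
# MP_ede373: cubic points. The three interface statements (stubs)

`criterion` and `arith` : helper32.  `analysis` : helper22.
-/

set_option autoImplicit false

namespace CZ

open MvPolynomial
open H32.T3 (nrm)

/-- INTERFACE 1 (number theory). -/
theorem criterion_stub {k : ℕ} (P : Fin k → ℂ)
    (hyp : ∃ M0 : ℕ, ∀ M : ℕ, M0 ≤ M → ∃ (Λ : Type) (_ : Fintype Λ) (R : Type)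
      (W : R → Λ → MvPolynomial (Fin k) ℤ),
      0 < Fintype.card Λ ∧ Real.log (Fintype.card Λ) ≤ M ∧
      (∀ s l, ((W s l).totalDegree : ℝ) ≤ (M : ℝ) ^ 1410 ∧
        nrm (W s l) ≤ Real.exp ((M : ℝ) ^ 1410)) ∧
      (∀ c : Λ → ℂ, (∀ l, ‖c l‖ ≤ 1) → (∃ l, ‖c l‖ = 1) →
        ∃ s, Real.exp (-(M : ℝ) ^ 4430) ≤ ‖∑ l, c l * aeval P (W s l)‖) ∧
      (∃ V : Submodule ℂ (Λ → ℂ), Fintype.card Λ ≤ 2 * Module.finrank ℂ V ∧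
        ∀ c ∈ V, (∀ l, ‖c l‖ ≤ 1) → ∀ s,
          ‖∑ l, c l * aeval P (W s l)‖ ≤ Real.exp (-(M : ℝ) ^ 4398))) :
    ∃ f : Fin 3 → Fin k, AlgebraicIndependent ℚ (fun i ↦ P (f i)) := by
  sorry

/-- INTERFACE 2 (analysis). -/
theorem analysis_stub (c : CData) (b : BaseFn c.z) : ∃ M0 : ℕ, ∀ M : ℕ, M0 ≤ M →
    (∀ k : (Fin 7 → Fin (M ^ 400 + 1)) → ℂ, (∀ l, ‖k l‖ ≤ 1) → (∃ l, ‖k l‖ = 1) →
      ∃ s m : ℕ, m ≤ s ∧ s < M ^ 1408 ∧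
        Real.exp (-(M : ℝ) ^ 4429) ≤ ‖J s m (FF c b (M ^ 400) k)‖) ∧
    (∀ k : (Fin 7 → Fin (M ^ 400 + 1)) → ℂ, (∀ l, ‖k l‖ ≤ 1) →
      (∀ s m : ℕ, m ≤ s → 2 * s < M ^ 1400 → J s m (FF c b (M ^ 400) k) = 0) →
      ∀ s m : ℕ, m ≤ s → s < M ^ 1408 →
        ‖J s m (FF c b (M ^ 400) k)‖ ≤ Real.exp (-(M : ℝ) ^ 4399)) := by
  sorry

/-- INTERFACE 3 (arithmetic). -/
theorem arith_stub (c : CData) (E4 E6 Jf : ℂ → ℂ)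
    (h4 : ∀ τ : ℂ, E4 τ = 1 + 240 * ∑' m : ℕ, ((ArithmeticFunction.sigma 3 (m + 1) : ℕ) : ℂ) *
          Complex.exp (2 * (Real.pi : ℂ) * Complex.I * ((m : ℂ) + 1) * τ))
    (h6 : ∀ τ : ℂ, E6 τ = 1 - 504 * ∑' m : ℕ, ((ArithmeticFunction.sigma 5 (m + 1) : ℕ) : ℂ) *
          Complex.exp (2 * (Real.pi : ℂ) * Complex.I * ((m : ℂ) + 1) * τ))
    (hJ : ∀ τ : ℂ, Jf τ = 1728 * E4 τ ^ 3 / (E4 τ ^ 3 - E6 τ ^ 2)) :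
    ∃ (b : BaseFn c.z) (k : ℕ) (P : Fin k → ℂ) (lam : ℂ) (C : ℝ), lam ≠ 0 ∧ 1 ≤ C ∧
      (∀ i, IsAlgebraic (IntermediateField.adjoin ℚ
        ({Jf c.z, deriv Jf c.z, deriv (deriv Jf) c.z} : Set ℂ)) (P i)) ∧
      (∀ (D s m : ℕ) (l : Fin 7 → Fin (D + 1)), m ≤ s → ∃ W : MvPolynomial (Fin k) ℤ,
        (W.totalDegree : ℝ) ≤ C * (D + s + 1) ∧
        nrm W ≤ Real.exp (C * (D + s + 1) * Real.log (D + s + 2)) ∧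
        J s m (Phi c b D l) = lam ^ s * aeval P W) := by
  sorry

end CZ
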