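import Pool.Agent.H22.CZ.Defs

/-!
# Row JtA: jets of a function of two variables are binary forms

PROOF of `jet_form`. `F` is entire on `ℂ × ℂ` (finite dimensional), hence analytic / `ContDiff ℂ ⊤`
(`Differentiable.contDiff` for a complex space, or `DifferentiableOn.analyticOnNhd` does not cover
several variables: use `hF.contDiff`? if Mathlib only has this for functions of ONE complex variable,
see below). For `x = (w, t)`:
`iteratedDeriv s (fun ζ ↦ F (ζ • x)) 0 = iteratedFDeriv ℂ s F 0 (fun _ ↦ x)`, a continuous multilinear map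
evaluated at `x = w e1 + t e2`; expand by multilinearity (`MultilinearMap.map_add_univ`,
`MultilinearMap.map_smul_univ`): sum over subsets of `Fin s`, the term of a subset of size `s - i` is a
constant times `w^(s-i) t^i`.
ALTERNATIVE without several complex variables (only needs: `F` continuous and separately holomorphic):
`F (ζ w, ζ t)`: for `|w|, |t| ≤ 1`... use the Cauchy integral formula twice:
`F (w, t) = (2 π i)^(-2) ∮∮ F(u, v)/((u - w)(v - t)) du dv` for `|w|, |t| < R`, giving
`F (w, t) = ∑_{i,j} a_{ij} w^i t^j` absolutely convergent with `|a_ij| ≤ M R^(-i-j)`; then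
`F (ζ w, ζ t) = ∑_s ζ^s ∑_{i+j=s} a_ij w^i t^j` is the power series in `ζ`, so
`iteratedDeriv s (..) 0 = s! ∑_{i+j=s} a_ij w^i t^j`.
-/

set_option autoImplicit false

namespace CZ

open Complex Finset

theorem JtA_param (ψ : ℝ → ℂ → ℂ) (hc : Continuous (Function.uncurry ψ))
    (hd : ∀ θ, Differentiable ℂ (ψ θ)) (a b : ℝ) :
    Differentiable ℂ (fun w : ℂ ↦ ∫ θ in a..b, ψ θ w) := by
  intro w0
  obtain ⟨M, hM⟩ := ((isCompact_uIcc (a := a) (b := b)).prod
    (isCompact_closedBall w0 2)).exists_bound_of_continuousOn hc.continuousOn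
  have hbound : ∀ θ ∈ Set.uIcc a b, ∀ w ∈ Metric.ball w0 1, ‖deriv (ψ θ) w‖ ≤ M := by
    intro θ hθ w hw
    have h := norm_deriv_le_of_forall_mem_sphere_norm_le (c := w) (R := 1) (C := M) (f := ψ θ)
      one_pos (hd θ).diffContOnCl (by
        intro z hz
        apply hM (θ, z)
        refine ⟨hθ, ?_⟩
        rw [Metric.mem_sphere] at hz
        rw [Metric.mem_ball] at hw
        rw [Metric.mem_closedBall]
        have := dist_triangle z w w0
        linarith)
    simpa using h
  have hmeas : Measurable (fun p : ℝ × ℂ ↦ deriv (ψ p.1) p.2) := measurable_deriv_with_param hc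
  have h := intervalIntegral.hasDerivAt_integral_of_dominated_loc_of_deriv_le (𝕜 := ℂ)
    (F := fun w θ ↦ ψ θ w) (F' := fun w θ ↦ deriv (ψ θ) w) (x₀ := w0) (s := Metric.ball w0 1)
    (bound := fun _ ↦ M) (a := a) (b := b) (μ := MeasureTheory.volume)
    (Metric.ball_mem_nhds w0 one_pos)
    (Filter.Eventually.of_forall fun w ↦ by
      have : Continuous fun θ ↦ ψ θ w := hc.comp (by fun_prop : Continuous fun θ : ℝ ↦ (θ, w))
      exact this.aestronglyMeasurable)
    ((hc.comp (by fun_prop : Continuous fun θ : ℝ ↦ (θ, w0))).intervalIntegrable a b)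
    ((hmeas.comp (by fun_prop : Measurable fun θ : ℝ ↦ (θ, w0))).aestronglyMeasurable)
    (Filter.Eventually.of_forall fun θ hθ w hw ↦ hbound θ (Set.uIoc_subset_uIcc hθ) w hw)
    (intervalIntegrable_const)
    (Filter.Eventually.of_forall fun θ _ w _ ↦ (hd θ w).hasDerivAt)
  exact h.2.differentiableAt

theorem JtA_poly {h : ℂ → ℂ} (hh : Differentiable ℂ h) {s : ℕ} {C : ℝ} (hC : 0 ≤ C)
    (hb : ∀ w, ‖h w‖ ≤ C * (max 1 ‖w‖) ^ s) :
    ∃ a : ℕ → ℂ, ∀ w, h w = ∑ i ∈ range (s + 1), a i * w ^ i := by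
  have h0 : ∀ n, s < n → iteratedDeriv n h 0 = 0 := by
    intro n hn
    by_contra hne
    have hpos : 0 < ‖iteratedDeriv n h 0‖ := norm_pos_iff.2 hne
    set δ := ‖iteratedDeriv n h 0‖ with hδ
    set R : ℝ := n.factorial * C / δ + 1 with hR
    have hR1 : 1 ≤ R := by
      rw [hR]
      have : 0 ≤ n.factorial * C / δ := by positivity
      linarith
    have hR0 : 0 < R := by linarith
    have h1 := norm_iteratedDeriv_le_of_forall_mem_sphere_norm_le (c := 0) (R := R)
      (C := C * R ^ s) (f := h) n hR0 hh.diffContOnCl (by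
        intro z hz
        have hz' : ‖z‖ = R := by simpa using hz
        have := hb z
        rwa [hz', max_eq_right hR1] at this)
    have h2 : (n.factorial : ℝ) * (C * R ^ s) / R ^ n ≤ n.factorial * C / R := by
      rw [div_le_div_iff₀ (by positivity) hR0]
      have h3 : R ^ s * R ≤ R ^ n := by
        rw [← pow_succ]
        exact pow_le_pow_right₀ hR1 hn
      calc (n.factorial : ℝ) * (C * R ^ s) * R = n.factorial * C * (R ^ s * R) := by ring
        _ ≤ n.factorial * C * R ^ n := mul_le_mul_of_nonneg_left h3 (by positivity)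
    have h4 : n.factorial * C / R < δ := by
      rw [div_lt_iff₀ hR0, hR, mul_add, mul_div_cancel₀ _ hpos.ne', mul_one]
      linarith
    linarith
  refine ⟨fun i ↦ (i.factorial : ℂ)⁻¹ * iteratedDeriv i h 0, fun w ↦ ?_⟩
  have ht := Complex.taylorSeries_eq_of_entire' 0 w hh
  rw [← ht, tsum_eq_sum (s := range (s + 1))]
  · refine Finset.sum_congr rfl fun i _ ↦ ?_
    rw [sub_zero]
  · intro i hi
    rw [h0 i (by rw [Finset.mem_range] at hi; omega), mul_zero, zero_mul]

theorem jet_form {F : ℂ × ℂ → ℂ} (hF : Differentiable ℂ F) (s : ℕ) : ∃ a : ℕ → ℂ, ∀ w t : ℂ,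
    iteratedDeriv s (fun x : ℂ ↦ F (x * w, x * t)) 0 = ∑ i ∈ range (s + 1), a i * w ^ (s - i) * t ^ i := by
  set G : ℂ → ℂ → ℂ := fun w t ↦ iteratedDeriv s (fun x : ℂ ↦ F (x * w, x * t)) 0 with hG
  have hFc : Continuous F := hF.continuous
  have hdx : ∀ w t, Differentiable ℂ (fun x : ℂ ↦ F (x * w, x * t)) := by
    intro w t
    exact hF.comp (by fun_prop : Differentiable ℂ fun x : ℂ ↦ (x * w, x * t))
  have hhom : ∀ c w t, G (c * w) (c * t) = c ^ s * G w t := by
    intro c w t
    have h1 : (fun x : ℂ ↦ F (x * (c * w), x * (c * t)))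
        = fun x ↦ (fun y : ℂ ↦ F (y * w, y * t)) (c * x) := by
      funext x
      simp only
      congr 2 <;> ring
    rw [hG]
    simp only
    rw [h1, iteratedDeriv_comp_const_mul ((hdx w t).contDiff) c]
    simp
  have hint : ∀ w t, G w t = ((2 * Real.pi * I / s.factorial : ℂ))⁻¹ *
      ∫ θ in (0 : ℝ)..2 * Real.pi, deriv (circleMap 0 1) θ • ((1 / (circleMap 0 1 θ - 0) ^ (s + 1)) •
        F (circleMap 0 1 θ * w, circleMap 0 1 θ * t)) := by
    intro w t
    have h1 := (hdx w t).diffContOnCl (s := Metric.ball 0 1)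
      |>.circleIntegral_one_div_sub_center_pow_smul one_pos s
    rw [circleIntegral] at h1
    rw [h1, smul_eq_mul, inv_mul_cancel_left₀]
    apply div_ne_zero two_pi_I_ne_zero
    exact_mod_cast s.factorial_ne_zero
  have hcm : Continuous (circleMap 0 1) := continuous_circleMap 0 1
  have hcm0 : ∀ θ, circleMap 0 1 θ ≠ 0 := fun θ ↦ circleMap_ne_center one_ne_zero
  have hdc : ∀ θ, deriv (circleMap 0 1) θ = circleMap 0 1 θ * I := fun θ ↦ deriv_circleMap 0 1 θ
  have hψ : ∀ (u v : ℂ → ℂ), Continuous u → Continuous v →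
      Continuous (Function.uncurry fun (θ : ℝ) (w : ℂ) ↦ deriv (circleMap 0 1) θ •
        ((1 / (circleMap 0 1 θ - 0) ^ (s + 1)) •
        F (circleMap 0 1 θ * u w, circleMap 0 1 θ * v w))) := by
    intro u v hu hv
    simp only [hdc, sub_zero, smul_eq_mul]
    have h1 : Continuous fun p : ℝ × ℂ ↦ circleMap 0 1 p.1 := hcm.comp continuous_fst
    have h2 : Continuous fun p : ℝ × ℂ ↦ u p.2 := hu.comp continuous_snd
    have h3 : Continuous fun p : ℝ × ℂ ↦ v p.2 := hv.comp continuous_snd
    refine (h1.mul continuous_const).mul (Continuous.mul ?_ ?_)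
    · exact continuous_const.div (h1.pow _) fun p ↦ pow_ne_zero _ (hcm0 p.1)
    · exact hFc.comp ((h1.mul h2).prodMk (h1.mul h3))
  have hdiff : ∀ (u v : ℂ → ℂ), Differentiable ℂ u → Differentiable ℂ v →
      Differentiable ℂ (fun w ↦ G (u w) (v w)) := by
    intro u v hu hv
    have h1 := JtA_param _ (hψ u v hu.continuous hv.continuous) (by
      intro θ
      have h2 : Differentiable ℂ fun w : ℂ ↦ F (circleMap 0 1 θ * u w, circleMap 0 1 θ * v w) :=
        hF.comp ((hu.const_mul _).prodMk (hv.const_mul _))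
      exact (h2.const_mul _).const_mul _) 0 (2 * Real.pi)
    have h3 : (fun w ↦ G (u w) (v w)) = fun w ↦ ((2 * Real.pi * I / s.factorial : ℂ))⁻¹ *
      ∫ θ in (0 : ℝ)..2 * Real.pi, deriv (circleMap 0 1) θ • ((1 / (circleMap 0 1 θ - 0) ^ (s + 1)) •
        F (circleMap 0 1 θ * u w, circleMap 0 1 θ * v w)) := by
      funext w
      exact hint _ _
    rw [h3]
    exact h1.const_mul _
  -- growth
  obtain ⟨M, hM⟩ := ((isCompact_closedBall (0 : ℂ) 1).prod
    (isCompact_closedBall (0 : ℂ) 1)).exists_bound_of_continuousOn hFc.continuousOn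
  have hM0 : 0 ≤ M := (norm_nonneg _).trans (hM (0, 0) (by simp))
  have hgr : ∀ w, ‖G w 1‖ ≤ s.factorial * M * (max 1 ‖w‖) ^ s := by
    intro w
    have hm : 0 < max 1 ‖w‖ := lt_of_lt_of_le one_pos (le_max_left _ _)
    have h1 := norm_iteratedDeriv_le_of_forall_mem_sphere_norm_le (c := 0)
      (R := (max 1 ‖w‖)⁻¹) (C := M) (f := fun x : ℂ ↦ F (x * w, x * 1)) s (by positivity)
      (hdx w 1).diffContOnCl (by
        intro z hz
        have hz' : ‖z‖ = (max 1 ‖w‖)⁻¹ := by simpa using hz
        apply hM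
        constructor
        · simp only [mem_closedBall_zero_iff, norm_mul, hz']
          rw [inv_mul_le_iff₀ hm, mul_one]
          exact le_max_right _ _
        · simp only [mem_closedBall_zero_iff, mul_one, hz']
          exact inv_le_one_of_one_le₀ (le_max_left _ _))
    refine h1.trans (le_of_eq ?_)
    rw [inv_pow, div_inv_eq_mul]
  obtain ⟨c, hc⟩ := JtA_poly (h := fun w ↦ G w 1) (hdiff (fun w ↦ w) (fun _ ↦ 1)
    differentiable_id (differentiable_const _)) (by positivity) hgr
  have hne : ∀ w t, t ≠ 0 → G w t = ∑ i ∈ range (s + 1), c i * w ^ i * t ^ (s - i) := by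
    intro w t ht
    have h1 := hhom t (t⁻¹ * w) 1
    rw [mul_inv_cancel_left₀ ht, mul_one] at h1
    have h2 : G (t⁻¹ * w) 1 = ∑ i ∈ range (s + 1), c i * (t⁻¹ * w) ^ i := hc _
    rw [h1, h2, Finset.mul_sum]
    refine Finset.sum_congr rfl fun i hi ↦ ?_
    have hi' : i ≤ s := by rw [Finset.mem_range] at hi; omega
    have h3 : t ^ s = t ^ (s - i) * t ^ i := by rw [← pow_add, Nat.sub_add_cancel hi']
    rw [h3, mul_pow, inv_pow]
    field_simp
  have hall : ∀ w t, G w t = ∑ i ∈ range (s + 1), c i * w ^ i * t ^ (s - i) := by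
    intro w t
    by_cases ht : t = 0
    swap
    · exact hne w t ht
    subst ht
    have h1 : Filter.Tendsto (fun t ↦ G w t) (nhdsWithin 0 {0}ᶜ) (nhds (G w 0)) :=
      ((hdiff (fun _ ↦ w) (fun t ↦ t) (differentiable_const _)
        differentiable_id).continuous.tendsto 0).mono_left nhdsWithin_le_nhds
    have h2 : Continuous fun t : ℂ ↦ ∑ i ∈ range (s + 1), c i * w ^ i * t ^ (s - i) := by
      fun_prop
    have h3 := (h2.tendsto 0).mono_left (nhdsWithin_le_nhds (s := {0}ᶜ))
    refine tendsto_nhds_unique h1 (h3.congr' ?_)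
    filter_upwards [self_mem_nhdsWithin] with t ht
    exact (hne w t ht).symm
  refine ⟨fun i ↦ c (s - i), fun w t ↦ ?_⟩
  have h1 := hall w t
  rw [← Finset.sum_range_reflect] at h1
  change G w t = _
  rw [h1]
  refine Finset.sum_congr rfl fun i hi ↦ ?_
  have hi' : i ≤ s := by rw [Finset.mem_range] at hi; omega
  have h4 : s + 1 - 1 - i = s - i := by omega
  have h5 : s - (s - i) = i := by omega
  rw [h4, h5]

end CZ
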