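import Pool.Agent.H22.CZ.JtA

/-!
# Row JtB: bounds for jets from the rows `J s m`, `m ≤ s`

PROOF of `coeff_le`: `p = ∑_{i ≤ s} a_i X^i` has degree `≤ s` and `|p(m)| ≤ η` for `m = 0, …, s`.
Lagrange interpolation at the nodes `0, …, s`: `p = ∑_m p(m) L_m`, `L_m = ∏_{j ≠ m} (X - j)/(m - j)`.
The sum of the absolute values of the coefficients of `∏_{j≠m} (X - j)` is at most
`∏_{j ≠ m} (1 + j) ≤ (s+1)!` and `∏_{j≠m} |m - j| = m! (s-m)!`. So
`|a_i| ≤ η ∑_m (s+1)!/(m!(s-m)!) = η (s+1) ∑_m C(s,m) = η (s+1) 2^s`.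
(An alternative: bound `|p(x)|` on the unit circle by `η ∑_m ∏_{j≠m} (1 + j)/|m-j|` and use the
Cauchy estimate for the coefficients.)
PROOF of `jet_bound`: by `jet_form`, `J s m F = iteratedDeriv s (fun x ↦ F (x * 1, x * m)) 0`
(`mul_comm`, `mul_one`) `= ∑ a_i m^i`, so `|a_i| ≤ (s+1) 2^s η`, and
`|∑ a_i w^(s-i) t^i| ≤ (s+1) * (s+1) 2^s η * max(‖w‖,‖t‖)^s`. So the final constant is
`(s+1)^2 2^s`.
PROOF of `jet_cauchy`: Cauchy estimate (`norm_iteratedDeriv_le_of_forall_mem_sphere_norm_le`) for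
`x ↦ F (x, m x)` on the circle `|x| = ρ`.
-/

set_option autoImplicit false

namespace CZ

open Complex Finset

theorem JtB_coeff_prod (T : Finset ℕ) (n : ℕ) :
    ∑ i ∈ range n, ‖(∏ j ∈ T, (Polynomial.X - Polynomial.C (j : ℂ))).coeff i‖ ≤
      ∏ j ∈ T, (1 + (j : ℝ)) := by
  induction T using Finset.induction_on generalizing n with
  | empty =>
    simp only [Finset.prod_empty, Polynomial.coeff_one]
    rcases n with _ | n
    · simp
    · rw [Finset.sum_eq_single_of_mem 0 (by simp) (fun b _ hb => by simp [hb])]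
      simp
  | insert j T hj ih =>
    rw [Finset.prod_insert hj, Finset.prod_insert hj]
    set p : Polynomial ℂ := ∏ j ∈ T, (Polynomial.X - Polynomial.C (j : ℂ)) with hp
    have h1 : ∀ m, ∑ i ∈ range m, ‖((Polynomial.X - Polynomial.C (j : ℂ)) * p).coeff i‖ ≤
        ∑ i ∈ range m, (‖(Polynomial.X * p).coeff i‖ + j * ‖p.coeff i‖) := by
      intro m
      refine Finset.sum_le_sum fun i _ => ?_
      rw [sub_mul, Polynomial.coeff_sub, Polynomial.coeff_C_mul]
      refine (norm_sub_le _ _).trans ?_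
      rw [norm_mul, Complex.norm_natCast]
    refine (h1 n).trans ?_
    rw [Finset.sum_add_distrib, ← Finset.mul_sum, add_mul, one_mul]
    refine add_le_add ?_ (mul_le_mul_of_nonneg_left (ih n) (Nat.cast_nonneg _))
    rcases n with _ | n
    · simp only [Finset.range_zero, Finset.sum_empty]
      exact Finset.prod_nonneg fun i _ => by positivity
    · rw [Finset.sum_range_succ']
      simp only [Polynomial.coeff_X_mul, Polynomial.coeff_X_mul_zero, norm_zero, add_zero]
      exact ih n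

theorem JtB_fact (s m : ℕ) (hm : m ≤ s) :
    ∏ j ∈ (range (s + 1)).erase m, ‖((m : ℂ) - j)‖ = m.factorial * (s - m).factorial := by
  have h1 : (range (s + 1)).erase m = range m ∪ Finset.Ico (m + 1) (s + 1) := by
    ext j
    simp only [Finset.mem_erase, Finset.mem_range, Finset.mem_union, Finset.mem_Ico]
    omega
  have h2 : Disjoint (range m) (Finset.Ico (m + 1) (s + 1)) := by
    rw [Finset.disjoint_left]
    intro j hj hj'
    rw [Finset.mem_range] at hj
    rw [Finset.mem_Ico] at hj'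
    omega
  rw [h1, Finset.prod_union h2]
  congr 1
  · rw [← Nat.descFactorial_self, Nat.descFactorial_eq_prod_range, Nat.cast_prod]
    refine Finset.prod_congr rfl fun j hj => ?_
    rw [← Nat.cast_sub (Finset.mem_range.1 hj).le, Complex.norm_natCast]
  · rw [Finset.prod_Ico_eq_prod_range, ← Finset.prod_range_add_one_eq_factorial, Nat.cast_prod]
    have h3 : s + 1 - (m + 1) = s - m := by omega
    rw [h3]
    refine Finset.prod_congr rfl fun j _ => ?_
    have h4 : ((m : ℂ) - ((m + 1 + j : ℕ) : ℂ)) = -((j + 1 : ℕ) : ℂ) := by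
      push_cast
      ring
    rw [h4, norm_neg, Complex.norm_natCast]

theorem JtB_prod (s m : ℕ) (hm : m ≤ s) :
    ∏ j ∈ (range (s + 1)).erase m, (1 + (j : ℝ)) ≤ ((s + 1).factorial : ℝ) := by
  have h1 : ((s + 1).factorial : ℝ) = ∏ j ∈ range (s + 1), (1 + (j : ℝ)) := by
    rw [← Finset.prod_range_add_one_eq_factorial, Nat.cast_prod]
    refine Finset.prod_congr rfl fun j _ => ?_
    push_cast
    ring
  rw [h1, ← Finset.mul_prod_erase (range (s + 1)) _ (Finset.mem_range.2 (Nat.lt_succ_of_le hm))]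
  refine le_mul_of_one_le_left (Finset.prod_nonneg fun i _ => by positivity) ?_
  have : (0 : ℝ) ≤ (m : ℝ) := Nat.cast_nonneg _
  linarith

theorem coeff_le {s : ℕ} {a : ℕ → ℂ} {η : ℝ}
    (h : ∀ m ≤ s, ‖∑ i ∈ range (s + 1), a i * (m : ℂ) ^ i‖ ≤ η) (i : ℕ) (hi : i ≤ s) :
    ‖a i‖ ≤ (s + 1) * 2 ^ s * η := by
  classical
  have hη : 0 ≤ η := (norm_nonneg _).trans (h 0 (Nat.zero_le _))
  set p : Polynomial ℂ := ∑ i ∈ range (s + 1), Polynomial.C (a i) * Polynomial.X ^ i with hp
  have hcoef : p.coeff i = a i := by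
    rw [hp, Polynomial.finsetSum_coeff]
    simp only [Polynomial.coeff_C_mul_X_pow]
    rw [Finset.sum_eq_single_of_mem i (Finset.mem_range.2 (Nat.lt_succ_of_le hi))]
    · simp
    · intro b _ hb
      rw [if_neg (fun h => hb h.symm)]
  have hinj : Set.InjOn (fun m : ℕ => (m : ℂ)) (range (s + 1) : Finset ℕ) :=
    fun x _ y _ hxy => Nat.cast_injective hxy
  have hdeg : p.degree < (range (s + 1)).card := by
    rw [Finset.card_range, hp]
    refine lt_of_le_of_lt (Polynomial.degree_sum_le _ _) ?_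
    rw [Finset.sup_lt_iff (WithBot.bot_lt_coe _)]
    intro b hb
    refine lt_of_le_of_lt (Polynomial.degree_C_mul_X_pow_le _ _) ?_
    exact_mod_cast Finset.mem_range.1 hb
  have hint := Lagrange.eq_interpolate hinj hdeg
  rw [Lagrange.interpolate_apply] at hint
  have heval : ∀ m ≤ s, ‖p.eval (m : ℂ)‖ ≤ η := by
    intro m hm
    rw [hp, Polynomial.eval_finsetSum]
    simpa using h m hm
  have hb : ∀ m ∈ range (s + 1), ‖(Lagrange.basis (range (s + 1))
      (fun m : ℕ => (m : ℂ)) m).coeff i‖ ≤ (s + 1) * (s.choose m : ℝ) := by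
    intro m hm
    have hm' : m ≤ s := Nat.lt_succ_iff.1 (Finset.mem_range.1 hm)
    have h1 : Lagrange.basis (range (s + 1)) (fun m : ℕ => (m : ℂ)) m =
        Polynomial.C (∏ j ∈ (range (s + 1)).erase m, ((m : ℂ) - j))⁻¹ *
          ∏ j ∈ (range (s + 1)).erase m, (Polynomial.X - Polynomial.C (j : ℂ)) := by
      unfold Lagrange.basis Lagrange.basisDivisor
      rw [Finset.prod_mul_distrib, ← Finset.prod_inv_distrib, map_prod]
    rw [h1, Polynomial.coeff_C_mul, norm_mul, norm_inv, norm_prod, JtB_fact s m hm']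
    have h2 : ‖(∏ j ∈ (range (s + 1)).erase m,
        (Polynomial.X - Polynomial.C (j : ℂ))).coeff i‖ ≤ ((s + 1).factorial : ℝ) := by
      refine le_trans ?_ (JtB_prod s m hm')
      refine le_trans ?_ (JtB_coeff_prod ((range (s + 1)).erase m) (i + 1))
      exact Finset.single_le_sum (f := fun i => ‖(∏ j ∈ (range (s + 1)).erase m,
        (Polynomial.X - Polynomial.C (j : ℂ))).coeff i‖) (fun _ _ => norm_nonneg _)
        (Finset.mem_range.2 (Nat.lt_succ_self i))
    have hf0 : (0 : ℝ) < m.factorial * (s - m).factorial := by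
      exact_mod_cast Nat.mul_pos (Nat.factorial_pos _) (Nat.factorial_pos _)
    refine (mul_le_mul_of_nonneg_left h2 (inv_nonneg.2 hf0.le)).trans ?_
    rw [inv_mul_le_iff₀ hf0]
    have h3 : ((s.choose m * m.factorial * (s - m).factorial : ℕ) : ℝ) = (s.factorial : ℝ) := by
      rw [Nat.choose_mul_factorial_mul_factorial hm']
    push_cast at h3
    rw [Nat.factorial_succ]
    push_cast
    rw [← h3]
    apply le_of_eq
    ring
  rw [← hcoef, hint, Polynomial.finsetSum_coeff]
  refine (norm_sum_le _ _).trans ?_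
  calc ∑ m ∈ range (s + 1), ‖(Polynomial.C (p.eval (m : ℂ)) * Lagrange.basis (range (s + 1))
          (fun m : ℕ => (m : ℂ)) m).coeff i‖
      ≤ ∑ m ∈ range (s + 1), η * ((s + 1) * (s.choose m : ℝ)) := by
        refine Finset.sum_le_sum fun m hm => ?_
        rw [Polynomial.coeff_C_mul, norm_mul]
        exact mul_le_mul (heval m (Nat.lt_succ_iff.1 (Finset.mem_range.1 hm))) (hb m hm)
          (norm_nonneg _) hη
    _ = (s + 1) * 2 ^ s * η := by
        rw [← Finset.mul_sum, ← Finset.mul_sum]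
        have h4 : ∑ m ∈ range (s + 1), (s.choose m : ℝ) = 2 ^ s := by
          exact_mod_cast Nat.sum_range_choose s
        rw [h4]
        ring

theorem jet_bound {F : ℂ × ℂ → ℂ} (hF : Differentiable ℂ F) {s : ℕ} {η : ℝ}
    (h : ∀ m ≤ s, ‖J s m F‖ ≤ η) (w t : ℂ) :
    ‖iteratedDeriv s (fun x : ℂ ↦ F (x * w, x * t)) 0‖ ≤
      (s + 1) ^ 2 * 2 ^ s * η * (max ‖w‖ ‖t‖) ^ s := by
  obtain ⟨a, ha⟩ := jet_form hF s
  have hη : 0 ≤ η := (norm_nonneg _).trans (h 0 (Nat.zero_le _))
  have h1 : ∀ m ≤ s, ‖∑ i ∈ range (s + 1), a i * (m : ℂ) ^ i‖ ≤ η := by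
    intro m hm
    have h2 := ha 1 m
    simp only [mul_one, one_pow] at h2
    rw [← h2]
    have h3 := h m hm
    unfold J at h3
    simpa only [mul_comm] using h3
  have h4 := fun i hi => coeff_le h1 i hi
  rw [ha w t]
  refine (norm_sum_le _ _).trans ?_
  have h5 : ∀ i ∈ range (s + 1), ‖a i * w ^ (s - i) * t ^ i‖ ≤
      (s + 1) * 2 ^ s * η * (max ‖w‖ ‖t‖) ^ s := by
    intro i hi
    have hi' : i ≤ s := Nat.lt_succ_iff.1 (Finset.mem_range.1 hi)
    rw [norm_mul, norm_mul, norm_pow, norm_pow, mul_assoc]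
    refine mul_le_mul (h4 i hi') ?_ (by positivity) (by positivity)
    calc ‖w‖ ^ (s - i) * ‖t‖ ^ i ≤ (max ‖w‖ ‖t‖) ^ (s - i) * (max ‖w‖ ‖t‖) ^ i := by
          gcongr
          · exact le_max_left _ _
          · exact le_max_right _ _
      _ = (max ‖w‖ ‖t‖) ^ s := by rw [← pow_add, Nat.sub_add_cancel hi']
  refine (Finset.sum_le_sum h5).trans ?_
  rw [Finset.sum_const, Finset.card_range, nsmul_eq_mul]
  push_cast
  apply le_of_eq
  ring

theorem jet_cauchy {F : ℂ × ℂ → ℂ} (hF : Differentiable ℂ F) {s m : ℕ} {ρ B : ℝ} (hρ : 0 < ρ)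
    (h : ∀ x : ℂ, ‖x‖ = ρ → ‖F (x, m * x)‖ ≤ B) : ‖J s m F‖ ≤ s.factorial * B / ρ ^ s := by
  unfold J
  refine Complex.norm_iteratedDeriv_le_of_forall_mem_sphere_norm_le s hρ ?_ ?_
  · apply Differentiable.diffContOnCl
    exact hF.comp (differentiable_id.prodMk (differentiable_id.const_mul _))
  · intro z hz
    exact h z (by simpa using hz)

end CZ
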