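import Pool.Agent.H22.CZ.Al
import Pool.Agent.H22.CZ.Ba2

/-!
# Row L1: continuity, entireness and local bounds of the blocks

PROOF.
* `dA'`: `deriv b.A` is entire (`b.dA` → analytic → derivative analytic).
* `diff_N, diff_D, diff_W`: `fun_prop` after unfolding; finite sums/products over `Fin 3`, `Fin 6`
  (`fin_cases a; simp only [NX, DX, ...]`).
* `bd`: continuous functions on the compact set `closedBall 0 R ^ 3 ⊂ ℂ × ℂ × ℂ` are bounded.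
* `lo`: at `w = t = y = 0`: `u j = 0`, `A 0 = 1`, so `DX a = WW = 1` (all `a`), `NX 5 = NX 6 = 1`; by continuity
  they have absolute value `≥ 1/2 ≥ exp(-1)` near `0`. (`δ ≤ 1`.)
-/

set_option autoImplicit false

namespace CZ

open Complex

variable (c : CData) (b : BaseFn c.z)

lemma dA' : Differentiable ℂ (deriv b.A) :=
  fun s => (b.dA.analyticAt s).deriv.differentiableAt

lemma diff_u (j : Fin 6) : Differentiable ℂ (fun x : ℂ × ℂ × ℂ ↦ c.u j x.1 x.2.1 x.2.2) := by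
  unfold CData.u
  fun_prop

lemma diff_Au (j : Fin 6) :
    Differentiable ℂ (fun x : ℂ × ℂ × ℂ ↦ b.A (c.u j x.1 x.2.1 x.2.2)) :=
  b.dA.comp (diff_u c j)

lemma diff_Bu (j : Fin 6) :
    Differentiable ℂ (fun x : ℂ × ℂ × ℂ ↦ b.B (c.u j x.1 x.2.1 x.2.2)) :=
  b.dB.comp (diff_u c j)

lemma diff_dAu (j : Fin 6) :
    Differentiable ℂ (fun x : ℂ × ℂ × ℂ ↦ deriv b.A (c.u j x.1 x.2.1 x.2.2)) :=
  (dA' c b).comp (diff_u c j)

theorem diff_W0 : Differentiable ℂ (fun x : ℂ × ℂ × ℂ ↦ WW c b x.1 x.2.1 x.2.2) := by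
  unfold WW
  simp only [Fin.prod_univ_three]
  exact ((diff_Au c b _).mul (diff_Au c b _)).mul (diff_Au c b _)

lemma diff_Z (x0 : ℂ) (v : ℂ × ℂ × ℂ → ℂ) (hv : Differentiable ℂ v) :
    Differentiable ℂ (fun x : ℂ × ℂ × ℂ ↦ ZZ c b x0 (v x) x.1 x.2.1 x.2.2) := by
  have hs : Differentiable ℂ (fun x : ℂ × ℂ × ℂ ↦ ∑ j : Fin 3, c.cc j x0 *
      (deriv b.A (c.u (i3 j) x.1 x.2.1 x.2.2) *
        ∏ i ∈ Finset.univ.erase j, b.A (c.u (i3 i) x.1 x.2.1 x.2.2))) := by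
    have h0 : Finset.univ.erase (0 : Fin 3) = {1, 2} := by decide
    have h1 : Finset.univ.erase (1 : Fin 3) = {0, 2} := by decide
    have h2 : Finset.univ.erase (2 : Fin 3) = {0, 1} := by decide
    simp only [Fin.sum_univ_three, h0, h1, h2]
    rw [show (fun x : ℂ × ℂ × ℂ ↦ c.cc 0 x0 * (deriv b.A (c.u (i3 0) x.1 x.2.1 x.2.2) *
        ∏ i ∈ ({1, 2} : Finset (Fin 3)), b.A (c.u (i3 i) x.1 x.2.1 x.2.2)) +
        c.cc 1 x0 * (deriv b.A (c.u (i3 1) x.1 x.2.1 x.2.2) *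
        ∏ i ∈ ({0, 2} : Finset (Fin 3)), b.A (c.u (i3 i) x.1 x.2.1 x.2.2)) +
        c.cc 2 x0 * (deriv b.A (c.u (i3 2) x.1 x.2.1 x.2.2) *
        ∏ i ∈ ({0, 1} : Finset (Fin 3)), b.A (c.u (i3 i) x.1 x.2.1 x.2.2))) =
        fun x : ℂ × ℂ × ℂ ↦ c.cc 0 x0 * (deriv b.A (c.u (i3 0) x.1 x.2.1 x.2.2) *
        (b.A (c.u (i3 1) x.1 x.2.1 x.2.2) * b.A (c.u (i3 2) x.1 x.2.1 x.2.2))) +
        c.cc 1 x0 * (deriv b.A (c.u (i3 1) x.1 x.2.1 x.2.2) *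
        (b.A (c.u (i3 0) x.1 x.2.1 x.2.2) * b.A (c.u (i3 2) x.1 x.2.1 x.2.2))) +
        c.cc 2 x0 * (deriv b.A (c.u (i3 2) x.1 x.2.1 x.2.2) *
        (b.A (c.u (i3 0) x.1 x.2.1 x.2.2) * b.A (c.u (i3 1) x.1 x.2.1 x.2.2))) from by
      funext x
      rw [Finset.prod_pair (by decide), Finset.prod_pair (by decide),
        Finset.prod_pair (by decide)]]
    exact ((((diff_dAu c b _).mul ((diff_Au c b _).mul (diff_Au c b _))).const_mul _).add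
      (((diff_dAu c b _).mul ((diff_Au c b _).mul (diff_Au c b _))).const_mul _)).add
      (((diff_dAu c b _).mul ((diff_Au c b _).mul (diff_Au c b _))).const_mul _)
  unfold ZZ
  exact (hs.add ((hv.const_mul (2 * Real.pi * I * c.fp x0)).mul (diff_W0 c b))).const_mul b.mu

lemma diff_prod6 (e : Fin 6 → ℕ) :
    Differentiable ℂ (fun x : ℂ × ℂ × ℂ ↦ ∏ j : Fin 6, b.A (c.u j x.1 x.2.1 x.2.2) ^ e j) := by
  simp only [Fin.prod_univ_six]
  exact ((((((diff_Au c b _).pow _).mul ((diff_Au c b _).pow _)).mul ((diff_Au c b _).pow _)).mul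
    ((diff_Au c b _).pow _)).mul ((diff_Au c b _).pow _)).mul ((diff_Au c b _).pow _)

lemma diff_EE (l : Fin 2) : Differentiable ℂ (fun x : ℂ × ℂ × ℂ ↦ EE c b l x.1 x.2.1 x.2.2) := by
  unfold EE
  refine (diff_prod6 c b (c.hp l)).mul ?_
  fun_prop

theorem diff_N (a : Fin 7) : Differentiable ℂ (fun x : ℂ × ℂ × ℂ ↦ NX c b a x.1 x.2.1 x.2.2) := by
  fin_cases a
  · exact diff_Bu c b 0
  · exact diff_Bu c b 1
  · exact diff_Bu c b 2
  · exact diff_Z c b c.zb (fun x => x.1) differentiable_fst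
  · exact diff_Z c b c.r (fun x => x.2.1) (by fun_prop)
  · exact diff_EE c b 0
  · exact diff_EE c b 1

theorem diff_D (a : Fin 7) : Differentiable ℂ (fun x : ℂ × ℂ × ℂ ↦ DX c b a x.1 x.2.1 x.2.2) := by
  fin_cases a
  · exact (diff_Au c b 0).pow 2
  · exact (diff_Au c b 1).pow 2
  · exact (diff_Au c b 2).pow 2
  · exact diff_W0 c b
  · exact diff_W0 c b
  · exact diff_prod6 c b (c.hm 0)
  · exact diff_prod6 c b (c.hm 1)

theorem diff_W : Differentiable ℂ (fun x : ℂ × ℂ × ℂ ↦ WW c b x.1 x.2.1 x.2.2) :=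
  diff_W0 c b

theorem bd (R : ℝ) : ∃ C : ℝ, 1 ≤ C ∧ ∀ (a : Fin 7) (w t y : ℂ), ‖w‖ ≤ R → ‖t‖ ≤ R → ‖y‖ ≤ R →
    ‖NX c b a w t y‖ ≤ C ∧ ‖DX c b a w t y‖ ≤ C ∧ ‖WW c b w t y‖ ≤ C := by
  have hg : Continuous (fun x : ℂ × ℂ × ℂ ↦
      ((fun a : Fin 7 => NX c b a x.1 x.2.1 x.2.2), (fun a : Fin 7 => DX c b a x.1 x.2.1 x.2.2),
        WW c b x.1 x.2.1 x.2.2)) := by
    refine Continuous.prodMk (continuous_pi fun a => (diff_N c b a).continuous) ?_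
    exact Continuous.prodMk (continuous_pi fun a => (diff_D c b a).continuous)
      (diff_W c b).continuous
  obtain ⟨C, hC⟩ := (isCompact_closedBall (0 : ℂ × ℂ × ℂ) R).exists_bound_of_continuousOn
    hg.continuousOn
  refine ⟨max 1 C, le_max_left _ _, fun a w t y hw ht hy => ?_⟩
  have hx : ((w, t, y) : ℂ × ℂ × ℂ) ∈ Metric.closedBall (0 : ℂ × ℂ × ℂ) R := by
    rw [mem_closedBall_zero_iff]
    exact max_le hw (max_le ht hy)
  have h1 := (hC (w, t, y) hx).trans (le_max_right 1 C)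
  have h2 : ‖(fun a : Fin 7 => NX c b a w t y)‖ ≤ max 1 C := (norm_fst_le _).trans h1
  have h3 := (norm_snd_le _).trans h1
  have h4 : ‖(fun a : Fin 7 => DX c b a w t y)‖ ≤ max 1 C := (norm_fst_le _).trans h3
  have h5 : ‖WW c b w t y‖ ≤ max 1 C := (norm_snd_le _).trans h3
  exact ⟨(norm_le_pi_norm (fun a : Fin 7 => NX c b a w t y) a).trans h2,
    (norm_le_pi_norm (fun a : Fin 7 => DX c b a w t y) a).trans h4, h5⟩

lemma u_zero (j : Fin 6) : c.u j 0 0 0 = 0 := by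
  simp [CData.u]

lemma WW_zero : WW c b 0 0 0 = 1 := by
  simp [WW, u_zero, b.A0]

lemma EE_zero (l : Fin 2) : EE c b l 0 0 0 = 1 := by
  simp [EE, u_zero, b.A0]

lemma TT_zero (l : Fin 2) : TT c b l 0 0 0 = 1 := by
  simp [TT, u_zero, b.A0]

lemma DX_zero (a : Fin 7) : DX c b a 0 0 0 = 1 := by
  fin_cases a
  · show b.A (c.u 0 0 0 0) ^ 2 = 1
    rw [u_zero, b.A0, one_pow]
  · show b.A (c.u 1 0 0 0) ^ 2 = 1
    rw [u_zero, b.A0, one_pow]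
  · show b.A (c.u 2 0 0 0) ^ 2 = 1
    rw [u_zero, b.A0, one_pow]
  · exact WW_zero c b
  · exact WW_zero c b
  · exact TT_zero c b 0
  · exact TT_zero c b 1

theorem lo : ∃ δ : ℝ, 0 < δ ∧ δ ≤ 1 ∧ ∀ w t y : ℂ, ‖w‖ ≤ δ → ‖t‖ ≤ δ → ‖y‖ ≤ δ →
    (∀ a, 1 / 2 ≤ ‖DX c b a w t y‖) ∧ 1 / 2 ≤ ‖WW c b w t y‖ ∧ 1 / 2 ≤ ‖NX c b 5 w t y‖ ∧
    1 / 2 ≤ ‖NX c b 6 w t y‖ := by
  have key : ∀ f : ℂ × ℂ × ℂ → ℂ, Differentiable ℂ f → f 0 = 1 →
      ∀ᶠ x in nhds (0 : ℂ × ℂ × ℂ), 1 / 2 ≤ ‖f x‖ := by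
    intro f hf h0
    have h1 : (1 / 2 : ℝ) < ‖f 0‖ := by
      rw [h0, norm_one]
      norm_num
    exact ((hf.continuous.norm.continuousAt).eventually_const_lt h1).mono fun x hx => hx.le
  have h1 : ∀ᶠ x in nhds (0 : ℂ × ℂ × ℂ), ∀ a : Fin 7, 1 / 2 ≤ ‖DX c b a x.1 x.2.1 x.2.2‖ :=
    Filter.eventually_all.2 fun a => key _ (diff_D c b a) (DX_zero c b a)
  have h2 := key _ (diff_W c b) (WW_zero c b)
  have h3 := key _ (diff_N c b 5) (EE_zero c b 0)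
  have h4 := key _ (diff_N c b 6) (EE_zero c b 1)
  obtain ⟨ε, hε, hball⟩ := Metric.eventually_nhds_iff_ball.1 (h1.and (h2.and (h3.and h4)))
  refine ⟨min 1 (ε / 2), lt_min one_pos (half_pos hε), min_le_left _ _, ?_⟩
  intro w t y hw ht hy
  have hx : ((w, t, y) : ℂ × ℂ × ℂ) ∈ Metric.ball (0 : ℂ × ℂ × ℂ) ε := by
    rw [mem_ball_zero_iff]
    refine lt_of_le_of_lt (?_ : _ ≤ min 1 (ε / 2)) (lt_of_le_of_lt (min_le_right _ _) (by linarith))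
    exact max_le hw (max_le ht hy)
  exact hball (w, t, y) hx

end CZ
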