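import Pool.Agent.H22.CZ.P1

/-!
# Row P3: polynomials in the values of a nonconstant analytic function

PROOF. By the open mapping theorem (`AnalyticAt.eventually_constant_or_nhds_le_map_nhds`), since `X` is not
eventually constant at `0`, the image of `closedBall 0 δ` contains `closedBall (X 0) ρ` for some
`0 < ρ ≤ 1`. Put `R = ‖X 0‖ + 1` (`≥ ρ`), `C = (2 R/ρ)^3`. Let `P(x0, x1, x2) = ∑_l p l ∏ x_j^(l j)`. By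
hypothesis `|P| ≤ η` on `closedBall (X 0) ρ ^ 3`. `poly_disc` (`n = D`) in each of the three variables
successively (others fixed): `|P| ≤ η ((D+1)(R/ρ)^D)^3 ≤ η C^D` (`D + 1 ≤ 2^D`) on
`closedBall (X 0) R ^ 3`, which contains `closedBall 0 1 ^ 3`. `poly_coeff` three times.
(Write the triple sum as iterated sums over `Fin (D+1)`, `Fin.consEquiv`/`Fintype.sum_equiv`; the statement is
given with three separate indices to avoid this.)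
-/

set_option autoImplicit false

namespace CZ

open Polynomial Filter Topology

theorem P3_natDegree {D : ℕ} (c : Fin (D + 1) → ℂ) :
    (∑ a : Fin (D + 1), C (c a) * (X : ℂ[X]) ^ (a : ℕ)).natDegree ≤ D := by
  refine natDegree_sum_le_of_forall_le _ _ fun a _ => ?_
  refine (natDegree_C_mul_X_pow_le _ _).trans ?_
  exact Nat.lt_succ_iff.1 a.2

theorem P3_eval {D : ℕ} (c : Fin (D + 1) → ℂ) (s : ℂ) :
    (∑ a : Fin (D + 1), C (c a) * (X : ℂ[X]) ^ (a : ℕ)).eval s = ∑ a, c a * s ^ (a : ℕ) := by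
  rw [eval_finsetSum]
  refine Finset.sum_congr rfl fun a _ => ?_
  rw [eval_mul, eval_C, eval_pow, eval_X]

theorem P3_cf {D : ℕ} (c : Fin (D + 1) → ℂ) (b : Fin (D + 1)) :
    (∑ a : Fin (D + 1), C (c a) * (X : ℂ[X]) ^ (a : ℕ)).coeff b = c b := by
  rw [finsetSum_coeff, Finset.sum_eq_single b]
  · rw [coeff_C_mul, coeff_X_pow, if_pos rfl, mul_one]
  · intro a _ hab
    rw [coeff_C_mul, coeff_X_pow, if_neg, mul_zero]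
    intro h
    exact hab (Fin.ext h.symm)
  · intro h
    exact absurd (Finset.mem_univ _) h

theorem P3_one {D : ℕ} (c : Fin (D + 1) → ℂ) {η ρ R : ℝ} (hρ : 0 < ρ) (hR : ρ ≤ R) {s0 : ℂ}
    (h : ∀ s : ℂ, ‖s - s0‖ ≤ ρ → ‖∑ a, c a * s ^ (a : ℕ)‖ ≤ η) (s : ℂ) (hs : ‖s - s0‖ ≤ R) :
    ‖∑ a, c a * s ^ (a : ℕ)‖ ≤ η * ((D + 1) * (R / ρ) ^ D) := by
  rw [← P3_eval]
  refine poly_disc (P3_natDegree c) hρ hR (s0 := s0) (fun t ht => ?_) s hs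
  rw [P3_eval]
  exact h t ht

theorem P3_coeff {D : ℕ} (c : Fin (D + 1) → ℂ) {η : ℝ}
    (h : ∀ s : ℂ, ‖s‖ ≤ 1 → ‖∑ a, c a * s ^ (a : ℕ)‖ ≤ η) (a : Fin (D + 1)) : ‖c a‖ ≤ η := by
  rw [← P3_cf c a]
  refine poly_coeff (fun t ht => ?_) _
  rw [P3_eval]
  exact h t ht

theorem poly_values {X : ℂ → ℂ} (hX : AnalyticAt ℂ X 0)
    (hnc : ¬ ∃ k : ℂ, ∀ᶠ s in 𝓝 (0 : ℂ), X s = k) {δ : ℝ} (hδ : 0 < δ) : ∃ C : ℝ, 1 ≤ C ∧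
    ∀ (D : ℕ) (p : Fin (D + 1) → Fin (D + 1) → Fin (D + 1) → ℂ) (η : ℝ),
      (∀ u0 u1 u2 : ℂ, ‖u0‖ ≤ δ → ‖u1‖ ≤ δ → ‖u2‖ ≤ δ →
        ‖∑ a, ∑ b, ∑ d, p a b d * X u0 ^ (a : ℕ) * X u1 ^ (b : ℕ) * X u2 ^ (d : ℕ)‖ ≤ η) →
      ∀ a b d, ‖p a b d‖ ≤ C ^ D * η := by
  have hmap : 𝓝 (X 0) ≤ Filter.map X (𝓝 0) := by
    rcases hX.eventually_constant_or_nhds_le_map_nhds with h | h
    · exact absurd ⟨X 0, h⟩ hnc
    · exact h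
  have h1 : X '' Metric.closedBall 0 δ ∈ 𝓝 (X 0) :=
    hmap (Filter.image_mem_map (Metric.closedBall_mem_nhds 0 hδ))
  obtain ⟨ρ0, hρ0, hsub⟩ := Metric.nhds_basis_closedBall.mem_iff.1 h1
  obtain ⟨ρ, hρdef⟩ : ∃ ρ : ℝ, ρ = min ρ0 1 := ⟨_, rfl⟩
  have hρ : 0 < ρ := by rw [hρdef]; exact lt_min hρ0 one_pos
  have hρ1 : ρ ≤ 1 := by rw [hρdef]; exact min_le_right _ _
  have hρ2 : ρ ≤ ρ0 := by rw [hρdef]; exact min_le_left _ _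
  have hval : ∀ x : ℂ, ‖x - X 0‖ ≤ ρ → ∃ u : ℂ, ‖u‖ ≤ δ ∧ X u = x := by
    intro x hx
    have h2 : x ∈ Metric.closedBall (X 0) ρ0 := by
      rw [mem_closedBall_iff_norm]
      exact hx.trans hρ2
    obtain ⟨u, hu, hux⟩ := hsub h2
    rw [mem_closedBall_zero_iff] at hu
    exact ⟨u, hu, hux⟩
  obtain ⟨R, hRdef⟩ : ∃ R : ℝ, R = ‖X 0‖ + 1 := ⟨_, rfl⟩
  have hR1 : 1 ≤ R := by rw [hRdef]; linarith [norm_nonneg (X 0)]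
  have hρR : ρ ≤ R := hρ1.trans hR1
  have hRρ : 1 ≤ R / ρ := by rw [one_le_div hρ]; exact hρR
  have hC1 : 1 ≤ 2 * (R / ρ) := by linarith
  refine ⟨(2 * (R / ρ)) ^ 3, one_le_pow₀ hC1, fun D p η hF a b d => ?_⟩
  obtain ⟨K, hKdef⟩ : ∃ K : ℝ, K = ((D : ℝ) + 1) * (R / ρ) ^ D := ⟨_, rfl⟩
  have hη : 0 ≤ η := (norm_nonneg _).trans
    (hF 0 0 0 (by rw [norm_zero]; exact hδ.le) (by rw [norm_zero]; exact hδ.le) (by rw [norm_zero]; exact hδ.le))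
  -- the polynomial
  obtain ⟨F, hFdef⟩ : ∃ F : ℂ → ℂ → ℂ → ℂ, F = fun x0 x1 x2 =>
      ∑ a, ∑ b, ∑ d, p a b d * x0 ^ (a : ℕ) * x1 ^ (b : ℕ) * x2 ^ (d : ℕ) := ⟨_, rfl⟩
  have e0 : ∀ x0 x1 x2 : ℂ, F x0 x1 x2 =
      ∑ a, (∑ b, ∑ d, p a b d * x1 ^ (b : ℕ) * x2 ^ (d : ℕ)) * x0 ^ (a : ℕ) := by
    intro x0 x1 x2
    rw [hFdef]
    refine Finset.sum_congr rfl fun a _ => ?_
    rw [Finset.sum_mul]
    refine Finset.sum_congr rfl fun b _ => ?_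
    rw [Finset.sum_mul]
    refine Finset.sum_congr rfl fun d _ => ?_
    ring
  have e1 : ∀ x0 x1 x2 : ℂ, F x0 x1 x2 =
      ∑ b, (∑ a, ∑ d, p a b d * x0 ^ (a : ℕ) * x2 ^ (d : ℕ)) * x1 ^ (b : ℕ) := by
    intro x0 x1 x2
    rw [hFdef]
    simp only
    rw [Finset.sum_comm]
    refine Finset.sum_congr rfl fun b _ => ?_
    rw [Finset.sum_mul]
    refine Finset.sum_congr rfl fun a _ => ?_
    rw [Finset.sum_mul]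
    refine Finset.sum_congr rfl fun d _ => ?_
    ring
  have e2 : ∀ x0 x1 x2 : ℂ, F x0 x1 x2 =
      ∑ d, (∑ a, ∑ b, p a b d * x0 ^ (a : ℕ) * x1 ^ (b : ℕ)) * x2 ^ (d : ℕ) := by
    intro x0 x1 x2
    rw [hFdef]
    simp only
    have h2 : ∀ a : Fin (D + 1), (∑ b, ∑ d, p a b d * x0 ^ (a : ℕ) * x1 ^ (b : ℕ) * x2 ^ (d : ℕ)) =
        ∑ d, ∑ b, p a b d * x0 ^ (a : ℕ) * x1 ^ (b : ℕ) * x2 ^ (d : ℕ) := fun a => Finset.sum_comm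
    rw [Finset.sum_congr rfl fun a _ => h2 a, Finset.sum_comm]
    refine Finset.sum_congr rfl fun d _ => ?_
    rw [Finset.sum_mul]
    refine Finset.sum_congr rfl fun a _ => ?_
    rw [Finset.sum_mul]
  have b0 : ∀ x0 x1 x2 : ℂ, ‖x0 - X 0‖ ≤ ρ → ‖x1 - X 0‖ ≤ ρ → ‖x2 - X 0‖ ≤ ρ → ‖F x0 x1 x2‖ ≤ η := by
    intro x0 x1 x2 h0 h1 h2
    obtain ⟨u0, hu0, rfl⟩ := hval x0 h0
    obtain ⟨u1, hu1, rfl⟩ := hval x1 h1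
    obtain ⟨u2, hu2, rfl⟩ := hval x2 h2
    rw [hFdef]
    exact hF u0 u1 u2 hu0 hu1 hu2
  have b1 : ∀ x0 x1 x2 : ℂ, ‖x0 - X 0‖ ≤ R → ‖x1 - X 0‖ ≤ ρ → ‖x2 - X 0‖ ≤ ρ → ‖F x0 x1 x2‖ ≤ η * K := by
    intro x0 x1 x2 h0 h1 h2
    rw [hKdef, e0]
    refine P3_one _ hρ hρR (s0 := X 0) (fun t ht => ?_) x0 h0
    rw [← e0]
    exact b0 t x1 x2 ht h1 h2
  have b2 : ∀ x0 x1 x2 : ℂ, ‖x0 - X 0‖ ≤ R → ‖x1 - X 0‖ ≤ R → ‖x2 - X 0‖ ≤ ρ → ‖F x0 x1 x2‖ ≤ η * K * K := by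
    intro x0 x1 x2 h0 h1 h2
    have h3 : ‖∑ b, (∑ a, ∑ d, p a b d * x0 ^ (a : ℕ) * x2 ^ (d : ℕ)) * x1 ^ (b : ℕ)‖ ≤
        η * K * (((D : ℝ) + 1) * (R / ρ) ^ D) := by
      refine P3_one _ hρ hρR (s0 := X 0) (fun t ht => ?_) x1 h1
      rw [← e1]
      exact b1 x0 t x2 h0 ht h2
    rw [e1]
    rwa [← hKdef] at h3
  have b3 : ∀ x0 x1 x2 : ℂ, ‖x0 - X 0‖ ≤ R → ‖x1 - X 0‖ ≤ R → ‖x2 - X 0‖ ≤ R → ‖F x0 x1 x2‖ ≤ η * K * K * K := by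
    intro x0 x1 x2 h0 h1 h2
    have h3 : ‖∑ d, (∑ a, ∑ b, p a b d * x0 ^ (a : ℕ) * x1 ^ (b : ℕ)) * x2 ^ (d : ℕ)‖ ≤
        η * K * K * (((D : ℝ) + 1) * (R / ρ) ^ D) := by
      refine P3_one _ hρ hρR (s0 := X 0) (fun t ht => ?_) x2 h2
      rw [← e2]
      exact b2 x0 x1 t h0 h1 ht
    rw [e2]
    rwa [← hKdef] at h3
  have hin : ∀ x : ℂ, ‖x‖ ≤ 1 → ‖x - X 0‖ ≤ R := by
    intro x hx
    rw [hRdef]
    linarith [norm_sub_le x (X 0)]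
  have c0 : ∀ x1 x2 : ℂ, ‖x1‖ ≤ 1 → ‖x2‖ ≤ 1 → ‖∑ b, ∑ d, p a b d * x1 ^ (b : ℕ) * x2 ^ (d : ℕ)‖ ≤ η * K * K * K := by
    intro x1 x2 h1 h2
    refine P3_coeff (fun a => ∑ b, ∑ d, p a b d * x1 ^ (b : ℕ) * x2 ^ (d : ℕ)) (fun t ht => ?_) a
    rw [← e0]
    exact b3 t x1 x2 (hin t ht) (hin x1 h1) (hin x2 h2)
  have c1 : ∀ x2 : ℂ, ‖x2‖ ≤ 1 → ‖∑ d, p a b d * x2 ^ (d : ℕ)‖ ≤ η * K * K * K := by
    intro x2 h2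
    refine P3_coeff (fun b => ∑ d, p a b d * x2 ^ (d : ℕ)) (fun t ht => ?_) b
    have h3 : ∑ b, (∑ d, p a b d * x2 ^ (d : ℕ)) * t ^ (b : ℕ) = ∑ b, ∑ d, p a b d * t ^ (b : ℕ) * x2 ^ (d : ℕ) := by
      refine Finset.sum_congr rfl fun b _ => ?_
      rw [Finset.sum_mul]
      refine Finset.sum_congr rfl fun d _ => ?_
      ring
    rw [h3]
    exact c0 t x2 ht h2
  have c2 : ‖p a b d‖ ≤ η * K * K * K := P3_coeff (fun d => p a b d) (fun t ht => c1 t ht) d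
  have hRρ0 : 0 ≤ R / ρ := by linarith
  have hK0 : 0 ≤ K := by rw [hKdef]; positivity
  have hK2 : K ≤ (2 * (R / ρ)) ^ D := by
    rw [hKdef, mul_pow]
    refine mul_le_mul_of_nonneg_right ?_ (by positivity)
    have : D + 1 ≤ 2 ^ D := Nat.lt_two_pow_self
    exact_mod_cast this
  have hK3 : K ^ 3 ≤ ((2 * (R / ρ)) ^ 3) ^ D := by
    calc K ^ 3 ≤ ((2 * (R / ρ)) ^ D) ^ 3 := pow_le_pow_left₀ hK0 hK2 3
      _ = ((2 * (R / ρ)) ^ 3) ^ D := by rw [← pow_mul, ← pow_mul, mul_comm D 3]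
  calc ‖p a b d‖ ≤ η * K * K * K := c2
    _ = K ^ 3 * η := by ring
    _ ≤ ((2 * (R / ρ)) ^ 3) ^ D * η := mul_le_mul_of_nonneg_right hK3 hη

end CZ
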