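import Pool.Agent.H22.CZ.L1
import Pool.Agent.H22.CZ.P3

/-!
# Row L2: the elliptic block

PROOF. Let `δ0` be the constant of `lo` and `0 < δ ≤ δ0`. The linear map
`Λ(w, t, y) = (u_0, u_1, u_2)`, `u_j = A1 zb^j w + A2 r^j t + z^j y` (`u (i3 j)`), is invertible: Vandermonde
determinant of `zb, r, z` times `A1 A2` (`A1_ne, A2_ne, rt_ne`; explicit inverse: for given `u` put
`p_i = (1/fp ρ_i) ∑_j cc j ρ_i u_j` (`cc_sum`), then `A1 w = p_1`, `A2 t = p_2`, `y = p_0`). So there is `δ1 > 0`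
such that every `u` with `|u_j| ≤ δ1` is `Λ(w, t, y)` with `|w|, |t|, |y| ≤ δ`.
On `|w|, |t|, |y| ≤ δ` we have `DX a = A(u_a)^2`, `|DX a| ≥ 1/2` for `a = 0, 1, 2`, so `A(u_a) ≠ 0` and
`NX a ^ l * DX a ^ (D - l) = DX a ^ D * X(u_a) ^ l` with `X = B/A^2`, analytic at `0` and not eventually
constant (`b.nc`). So `|∑ p X(u_0)^a X(u_1)^b X(u_2)^d| ≤ 2^(3D) η` for `|u_j| ≤ δ1`, and `poly_values`
gives the claim with `C = 8 C'`.
-/

set_option autoImplicit false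

namespace CZ

open Complex

variable (c : CData) (b : BaseFn c.z)

/-- The matrix of the inverse of the linear map. -/
noncomputable def iP (c : CData) : Matrix (Fin 3) (Fin 3) ℂ :=
  Matrix.of fun i j ↦ c.cc j (c.rt i) / c.fp (c.rt i)

/-- The Vandermonde matrix. -/
noncomputable def iM (c : CData) : Matrix (Fin 3) (Fin 3) ℂ :=
  Matrix.of fun j i ↦ c.rt i ^ (j : ℕ)

lemma iP_iM : iP c * iM c = 1 := by
  ext i i'
  rw [Matrix.mul_apply]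
  have h := cc_sum c i i'
  have h1 : ∑ j : Fin 3, iP c i j * iM c j i' =
      (∑ j : Fin 3, c.cc j (c.rt i) * c.rt i' ^ (j : ℕ)) / c.fp (c.rt i) := by
    rw [Finset.sum_div]
    refine Finset.sum_congr rfl fun j _ ↦ ?_
    show c.cc j (c.rt i) / c.fp (c.rt i) * c.rt i' ^ (j : ℕ) = _
    ring
  rw [h1, h, Matrix.one_apply]
  split_ifs with h2
  · exact div_self (fp_ne c i)
  · simp

lemma iM_iP (v : Fin 3 → ℂ) (j : Fin 3) :
    ∑ i : Fin 3, c.rt i ^ (j : ℕ) * (iP c).mulVec v i = v j := by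
  have h : iM c * iP c = 1 := mul_eq_one_comm.mp (iP_iM c)
  have h1 : (iM c).mulVec ((iP c).mulVec v) = v := by
    rw [Matrix.mulVec_mulVec, h, Matrix.one_mulVec]
  have h2 := congrFun h1 j
  rw [Matrix.mulVec, dotProduct] at h2
  exact h2

/-- The linear forms take all small values. -/
lemma surj_u {δ : ℝ} (hδ : 0 < δ) : ∃ δ1 : ℝ, 0 < δ1 ∧ ∀ v : Fin 3 → ℂ, (∀ j, ‖v j‖ ≤ δ1) →
    ∃ w t y : ℂ, ‖w‖ ≤ δ ∧ ‖t‖ ≤ δ ∧ ‖y‖ ≤ δ ∧ ∀ j, c.u (i3 j) w t y = v j := by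
  set K0 : ℝ := ∑ i : Fin 3, ∑ j : Fin 3, ‖iP c i j‖ with hK0
  have hK00 : 0 ≤ K0 := Finset.sum_nonneg fun i _ ↦ Finset.sum_nonneg fun j _ ↦ norm_nonneg _
  set m : ℝ := min 1 (min ‖c.A1‖ ‖c.A2‖) with hm
  have hm0 : 0 < m := lt_min one_pos (lt_min (norm_pos_iff.mpr (A1_ne c)) (norm_pos_iff.mpr (A2_ne c)))
  have hm1 : m ≤ 1 := min_le_left _ _
  have hmA1 : m ≤ ‖c.A1‖ := (min_le_right _ _).trans (min_le_left _ _)
  have hmA2 : m ≤ ‖c.A2‖ := (min_le_right _ _).trans (min_le_right _ _)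
  refine ⟨δ * m / (K0 + 1), by positivity, fun v hv ↦ ?_⟩
  have hp : ∀ i, ‖(iP c).mulVec v i‖ ≤ δ * m := by
    intro i
    have h1 : ‖(iP c).mulVec v i‖ ≤ ∑ j : Fin 3, ‖iP c i j‖ * (δ * m / (K0 + 1)) := by
      rw [Matrix.mulVec, dotProduct]
      refine (norm_sum_le _ _).trans (Finset.sum_le_sum fun j _ ↦ ?_)
      rw [norm_mul]
      exact mul_le_mul_of_nonneg_left (hv j) (norm_nonneg _)
    have h2 : ∑ j : Fin 3, ‖iP c i j‖ ≤ K0 :=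
      Finset.single_le_sum (f := fun i ↦ ∑ j : Fin 3, ‖iP c i j‖)
        (fun i _ ↦ Finset.sum_nonneg fun j _ ↦ norm_nonneg _) (Finset.mem_univ i)
    rw [← Finset.sum_mul] at h1
    have h3 : (∑ j : Fin 3, ‖iP c i j‖) * (δ * m / (K0 + 1)) ≤ (K0 + 1) * (δ * m / (K0 + 1)) :=
      mul_le_mul_of_nonneg_right (by linarith) (by positivity)
    have h4 : (K0 + 1) * (δ * m / (K0 + 1)) = δ * m := by field_simp
    linarith
  refine ⟨(iP c).mulVec v 1 / c.A1, (iP c).mulVec v 2 / c.A2, (iP c).mulVec v 0, ?_, ?_, ?_, ?_⟩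
  · rw [norm_div, div_le_iff₀ (norm_pos_iff.mpr (A1_ne c))]
    exact (hp 1).trans (mul_le_mul_of_nonneg_left hmA1 hδ.le)
  · rw [norm_div, div_le_iff₀ (norm_pos_iff.mpr (A2_ne c))]
    exact (hp 2).trans (mul_le_mul_of_nonneg_left hmA2 hδ.le)
  · refine (hp 0).trans ?_
    calc δ * m ≤ δ * 1 := mul_le_mul_of_nonneg_left hm1 hδ.le
      _ = δ := mul_one δ
  · intro j
    have h := iM_iP c v j
    rw [Fin.sum_univ_three] at h
    have e0 : c.rt 0 = c.z := rfl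
    have e1 : c.rt 1 = c.zb := rfl
    have e2 : c.rt 2 = (c.r : ℂ) := rfl
    rw [e0, e1, e2] at h
    have hA1 := A1_ne c
    have hA2 := A2_ne c
    have f1 : c.A1 * ((iP c).mulVec v 1 / c.A1) = (iP c).mulVec v 1 := mul_div_cancel₀ _ hA1
    have f2 : c.A2 * ((iP c).mulVec v 2 / c.A2) = (iP c).mulVec v 2 := mul_div_cancel₀ _ hA2
    rw [CData.u, nu_i3, nu_i3, nu_i3, ← h]
    linear_combination c.zb ^ (j : ℕ) * f1 + (c.r : ℂ) ^ (j : ℕ) * f2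

lemma pw {D l : ℕ} (hl : l ≤ D) {x y : ℂ} (hy : y ≠ 0) :
    x ^ l * y ^ (D - l) = y ^ D * (x / y) ^ l := by
  obtain ⟨m, rfl⟩ := Nat.exists_eq_add_of_le hl
  rw [Nat.add_sub_cancel_left, pow_add, div_pow]
  have : y ^ l ≠ 0 := pow_ne_zero _ hy
  field_simp

/-- The elliptic function. -/
noncomputable def XE (b : BaseFn c.z) (s : ℂ) : ℂ := b.B s / b.A s ^ 2

lemma XE_an : AnalyticAt ℂ (XE c b) 0 := by
  have h1 : AnalyticAt ℂ b.B 0 := b.dB.analyticAt 0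
  have h2 : AnalyticAt ℂ b.A 0 := b.dA.analyticAt 0
  refine h1.div (h2.pow 2) ?_
  show b.A 0 ^ 2 ≠ 0
  rw [b.A0]
  norm_num

open Filter Topology in
lemma XE_nc : ¬ ∃ k : ℂ, ∀ᶠ s in 𝓝 (0 : ℂ), XE c b s = k := by
  rintro ⟨k, hk⟩
  apply b.nc
  refine ⟨k, ?_⟩
  have h0 : ∀ᶠ s in 𝓝 (0 : ℂ), b.A s ≠ 0 := by
    have hc : ContinuousAt b.A 0 := b.dA.continuous.continuousAt
    apply hc.eventually_ne
    rw [b.A0]
    exact one_ne_zero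
  filter_upwards [hk, h0] with s h1 h2
  rw [XE] at h1
  rw [← h1]
  field_simp

theorem ell : ∃ δ0 : ℝ, 0 < δ0 ∧ δ0 ≤ 1 ∧ ∀ δ : ℝ, 0 < δ → δ ≤ δ0 → ∃ C : ℝ, 1 ≤ C ∧
    ∀ (D : ℕ) (p : Fin (D + 1) → Fin (D + 1) → Fin (D + 1) → ℂ) (η : ℝ),
      (∀ w t y : ℂ, ‖w‖ ≤ δ → ‖t‖ ≤ δ → ‖y‖ ≤ δ →
        ‖∑ l0, ∑ l1, ∑ l2, p l0 l1 l2 *
          (NX c b 0 w t y ^ (l0 : ℕ) * DX c b 0 w t y ^ (D - (l0 : ℕ))) *
          (NX c b 1 w t y ^ (l1 : ℕ) * DX c b 1 w t y ^ (D - (l1 : ℕ))) *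
          (NX c b 2 w t y ^ (l2 : ℕ) * DX c b 2 w t y ^ (D - (l2 : ℕ)))‖ ≤ η) →
      ∀ l0 l1 l2, ‖p l0 l1 l2‖ ≤ C ^ D * η := by
  obtain ⟨δ0, hδ0, hδ01, hlo⟩ := lo c b
  refine ⟨δ0, hδ0, hδ01, fun δ hδ hδl ↦ ?_⟩
  obtain ⟨δ1, hδ1, hsurj⟩ := surj_u c hδ
  obtain ⟨C', hC', hpv⟩ := poly_values (XE_an c b) (XE_nc c b) hδ1
  refine ⟨8 * C', by linarith, fun D p η hyp ↦ ?_⟩
  have key := hpv D p (8 ^ D * η) ?_
  · intro l0 l1 l2
    refine (key l0 l1 l2).trans (le_of_eq ?_)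
    rw [mul_pow]
    ring
  · intro u0 u1 u2 h0 h1 h2
    obtain ⟨w, t, y, hw, ht, hy, hu⟩ := hsurj ![u0, u1, u2] (by
      intro j
      fin_cases j
      · exact h0
      · exact h1
      · exact h2)
    have hu0 : c.u 0 w t y = u0 := hu 0
    have hu1 : c.u 1 w t y = u1 := hu 1
    have hu2 : c.u 2 w t y = u2 := hu 2
    have hL := (hlo w t y (hw.trans hδl) (ht.trans hδl) (hy.trans hδl)).1
    have hne : ∀ a, DX c b a w t y ≠ 0 := by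
      intro a ha
      have := hL a
      rw [ha, norm_zero] at this
      linarith
    have hX0 : NX c b 0 w t y / DX c b 0 w t y = XE c b u0 := by
      show b.B (c.u 0 w t y) / b.A (c.u 0 w t y) ^ 2 = _
      rw [hu0]; rfl
    have hX1 : NX c b 1 w t y / DX c b 1 w t y = XE c b u1 := by
      show b.B (c.u 1 w t y) / b.A (c.u 1 w t y) ^ 2 = _
      rw [hu1]; rfl
    have hX2 : NX c b 2 w t y / DX c b 2 w t y = XE c b u2 := by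
      show b.B (c.u 2 w t y) / b.A (c.u 2 w t y) ^ 2 = _
      rw [hu2]; rfl
    have hsum : ∑ l0, ∑ l1, ∑ l2, p l0 l1 l2 *
          (NX c b 0 w t y ^ (l0 : ℕ) * DX c b 0 w t y ^ (D - (l0 : ℕ))) *
          (NX c b 1 w t y ^ (l1 : ℕ) * DX c b 1 w t y ^ (D - (l1 : ℕ))) *
          (NX c b 2 w t y ^ (l2 : ℕ) * DX c b 2 w t y ^ (D - (l2 : ℕ))) =
        (DX c b 0 w t y ^ D * DX c b 1 w t y ^ D * DX c b 2 w t y ^ D) *
          ∑ l0, ∑ l1, ∑ l2, p l0 l1 l2 * XE c b u0 ^ (l0 : ℕ) * XE c b u1 ^ (l1 : ℕ) *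
            XE c b u2 ^ (l2 : ℕ) := by
      rw [Finset.mul_sum]
      refine Finset.sum_congr rfl fun l0 _ ↦ ?_
      rw [Finset.mul_sum]
      refine Finset.sum_congr rfl fun l1 _ ↦ ?_
      rw [Finset.mul_sum]
      refine Finset.sum_congr rfl fun l2 _ ↦ ?_
      rw [pw (Nat.lt_succ_iff.mp l0.2) (hne 0), pw (Nat.lt_succ_iff.mp l1.2) (hne 1),
        pw (Nat.lt_succ_iff.mp l2.2) (hne 2), hX0, hX1, hX2]
      ring
    have h3 := hyp w t y hw ht hy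
    rw [hsum, norm_mul] at h3
    have h4 : (1 / 8 : ℝ) ^ D ≤ ‖DX c b 0 w t y ^ D * DX c b 1 w t y ^ D * DX c b 2 w t y ^ D‖ := by
      rw [norm_mul, norm_mul, norm_pow, norm_pow, norm_pow, ← mul_pow, ← mul_pow]
      refine pow_le_pow_left₀ (by norm_num) ?_ D
      have g0 := hL 0
      have g1 := hL 1
      have g2 := hL 2
      calc (1 / 8 : ℝ) = 1 / 2 * (1 / 2) * (1 / 2) := by norm_num
        _ ≤ _ := by gcongr
    have h5 : (1 / 8 : ℝ) ^ D * ‖∑ l0, ∑ l1, ∑ l2, p l0 l1 l2 * XE c b u0 ^ (l0 : ℕ) *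
        XE c b u1 ^ (l1 : ℕ) * XE c b u2 ^ (l2 : ℕ)‖ ≤ η :=
      (mul_le_mul_of_nonneg_right h4 (norm_nonneg _)).trans h3
    have h6 : (8 : ℝ) ^ D * (1 / 8) ^ D = 1 := by
      rw [← mul_pow]; norm_num
    calc ‖∑ l0, ∑ l1, ∑ l2, p l0 l1 l2 * XE c b u0 ^ (l0 : ℕ) *
        XE c b u1 ^ (l1 : ℕ) * XE c b u2 ^ (l2 : ℕ)‖
        = (8 : ℝ) ^ D * ((1 / 8 : ℝ) ^ D * ‖∑ l0, ∑ l1, ∑ l2, p l0 l1 l2 * XE c b u0 ^ (l0 : ℕ) *
        XE c b u1 ^ (l1 : ℕ) * XE c b u2 ^ (l2 : ℕ)‖) := by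
          rw [← mul_assoc, h6, one_mul]
      _ ≤ (8 : ℝ) ^ D * η := mul_le_mul_of_nonneg_left h5 (by positivity)

end CZ
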