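import Pool.Agent.H22.CZ.L1

/-!
# Row L3: splitting of the sums, bounds for `GX`, factorisation of `GX` near `0`

PROOF.
* `sum_split`: `Fin 7 → Fin (D+1)` is in bijection with the seven-tuples; e.g. the equivalence
  `(Fin 2 → Fin (D+1)) × Fin (D+1) × ... ≃ (Fin 7 → Fin (D+1))`, `(n, l3, l4, l0, l1, l2) ↦ ix ..` with inverse
  `l ↦ (![l 5, l 6], l 3, l 4, l 0, l 1, l 2)`; `Fintype.sum_equiv` and `Fintype.sum_prod_type`.
* `GX_le`: by `bd` (constant `C1`): `|QX| ≤ (D+1)^3 κ C1^(3D)` (`|NX^l DX^(D-l)| ≤ C1^D`), the factor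
  `|(NX 3 + k1 WW)^(l3) WW^(D-l3)| ≤ (C1 (1 + T))^D` (`C1, T ≥ 1`), so
  `|GX| ≤ (D+1)^5 κ C1^(7D) (1+T)^(2D) ≤ κ exp(C D) T^(2D)` for `D ≥ 1` (`1 + T ≤ 2T`, `D + 1 ≤ e^D`).
* `GX_fac`: if `WW ≠ 0`: `(NX 3 + k1 WW)^l WW^(D-l) = WW^D (NX 3/WW + k1)^l` (`l ≤ D`).
-/

set_option autoImplicit false

namespace CZ

open Complex

variable (c : CData) (b : BaseFn c.z)

/-- the bijection between the seven-tuples and their parts -/
def L3_e (D : ℕ) : ((Fin 2 → Fin (D + 1)) × Fin (D + 1) × Fin (D + 1) × Fin (D + 1) × Fin (D + 1) ×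
    Fin (D + 1)) ≃ (Fin 7 → Fin (D + 1)) where
  toFun x := ix D x.2.2.2.1 x.2.2.2.2.1 x.2.2.2.2.2 x.2.1 x.2.2.1 x.1
  invFun l := (![l 5, l 6], l 3, l 4, l 0, l 1, l 2)
  left_inv := by
    rintro ⟨n, l3, l4, l0, l1, l2⟩
    have h : (![n 0, n 1] : Fin 2 → Fin (D + 1)) = n := by
      funext a
      fin_cases a <;> rfl
    show ((![n 0, n 1] : Fin 2 → Fin (D + 1)), l3, l4, l0, l1, l2) = (n, l3, l4, l0, l1, l2)
    rw [h]
  right_inv := by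
    intro l
    funext a
    fin_cases a <;> rfl

theorem sum_split {D : ℕ} (f : (Fin 7 → Fin (D + 1)) → ℂ) :
    ∑ l, f l = ∑ n : Fin 2 → Fin (D + 1), ∑ l3, ∑ l4, ∑ l0, ∑ l1, ∑ l2,
      f (ix D l0 l1 l2 l3 l4 n) := by
  rw [← (L3_e D).sum_comp f]
  simp only [Fintype.sum_prod_type]
  rfl

theorem L3_sum {D : ℕ} (f : Fin (D + 1) → ℂ) (M : ℝ) (h : ∀ i, ‖f i‖ ≤ M) :
    ‖∑ i, f i‖ ≤ ((D : ℝ) + 1) * M := by
  refine (norm_sum_le _ _).trans ((Finset.sum_le_sum fun i _ => h i).trans (le_of_eq ?_))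
  rw [Finset.sum_const, Finset.card_univ, Fintype.card_fin, nsmul_eq_mul]
  push_cast
  ring

theorem L3_pw {x y : ℂ} {M : ℝ} {D l : ℕ} (hl : l ≤ D) (hx : ‖x‖ ≤ M) (hy : ‖y‖ ≤ M) :
    ‖x ^ l * y ^ (D - l)‖ ≤ M ^ D := by
  have hM : 0 ≤ M := (norm_nonneg x).trans hx
  rw [norm_mul, norm_pow, norm_pow]
  calc ‖x‖ ^ l * ‖y‖ ^ (D - l) ≤ M ^ l * M ^ (D - l) :=
        mul_le_mul (pow_le_pow_left₀ (norm_nonneg _) hx _) (pow_le_pow_left₀ (norm_nonneg _) hy _)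
          (by positivity) (by positivity)
    _ = M ^ D := by
        rw [← pow_add]
        congr 1
        omega

theorem L3_num {C1 T κ : ℝ} {D : ℕ} (hC1 : 1 ≤ C1) (hT : 1 ≤ T) (hκ : 0 ≤ κ) :
    ((D : ℝ) + 1) * (((D : ℝ) + 1) * ((((D : ℝ) + 1) * (((D : ℝ) + 1) * (((D : ℝ) + 1) *
      (κ * C1 ^ D * C1 ^ D * C1 ^ D)))) * (C1 * (1 + T)) ^ D * (C1 * (1 + T)) ^ D * (C1 ^ D * C1 ^ D))) ≤
    κ * Real.exp ((5 + 7 * Real.log C1 + 2 * Real.log 2) * D) * T ^ (2 * D) := by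
  have hD : ((D : ℝ) + 1) ≤ Real.exp D := Real.add_one_le_exp _
  have hC0 : 0 < C1 := by linarith
  have h1 : ((D : ℝ) + 1) ^ 5 ≤ Real.exp (5 * D) := by
    have h2 : ((D : ℝ) + 1) ^ 5 ≤ Real.exp D ^ 5 := pow_le_pow_left₀ (by positivity) hD 5
    refine h2.trans (le_of_eq ?_)
    rw [← Real.exp_nat_mul]
    norm_num
  have h3 : C1 ^ D = Real.exp (Real.log C1 * D) := by
    rw [mul_comm, Real.exp_nat_mul, Real.exp_log hC0]
  have h4 : (2 : ℝ) ^ D = Real.exp (Real.log 2 * D) := by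
    rw [mul_comm, Real.exp_nat_mul, Real.exp_log (by norm_num)]
  have h5 : (1 + T) ^ D ≤ 2 ^ D * T ^ D := by
    rw [← mul_pow]
    exact pow_le_pow_left₀ (by linarith) (by linarith) D
  have h6 : (1 + T) ^ D * (1 + T) ^ D ≤ (2 ^ D * T ^ D) * (2 ^ D * T ^ D) :=
    mul_le_mul h5 h5 (by positivity) (by positivity)
  calc ((D : ℝ) + 1) * (((D : ℝ) + 1) * ((((D : ℝ) + 1) * (((D : ℝ) + 1) * (((D : ℝ) + 1) *
      (κ * C1 ^ D * C1 ^ D * C1 ^ D)))) * (C1 * (1 + T)) ^ D * (C1 * (1 + T)) ^ D * (C1 ^ D * C1 ^ D)))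
      = κ * (C1 ^ D) ^ 7 * (((D : ℝ) + 1) ^ 5 * ((1 + T) ^ D * (1 + T) ^ D)) := by
        rw [mul_pow]
        ring
    _ ≤ κ * (C1 ^ D) ^ 7 * (Real.exp (5 * D) * ((2 ^ D * T ^ D) * (2 ^ D * T ^ D))) := by
        refine mul_le_mul_of_nonneg_left (mul_le_mul h1 h6 (by positivity) (Real.exp_pos _).le) (by positivity)
    _ = κ * Real.exp ((5 + 7 * Real.log C1 + 2 * Real.log 2) * D) * T ^ (2 * D) := by
        rw [h3, h4, ← Real.exp_nat_mul]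
        have h7 : (5 + 7 * Real.log C1 + 2 * Real.log 2) * (D : ℝ) =
            ((7 : ℕ) : ℝ) * (Real.log C1 * D) + (5 * D + (Real.log 2 * D + Real.log 2 * D)) := by
          push_cast
          ring
        rw [h7, Real.exp_add, Real.exp_add, Real.exp_add, two_mul, pow_add]
        ring

theorem GX_le (R : ℝ) : ∃ C : ℝ, 1 ≤ C ∧ ∀ (D : ℕ) (n : Fin 2 → Fin (D + 1))
    (k : (Fin 7 → Fin (D + 1)) → ℂ) (κ T : ℝ) (w t y k1 k2 : ℂ), 1 ≤ D → 0 ≤ κ → 1 ≤ T →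
    ‖w‖ ≤ R → ‖t‖ ≤ R → ‖y‖ ≤ R → ‖k1‖ ≤ T → ‖k2‖ ≤ T →
    (∀ l0 l1 l2 l3 l4, ‖k (ix D l0 l1 l2 l3 l4 n)‖ ≤ κ) →
    ‖GX c b D n k w t y k1 k2‖ ≤ κ * Real.exp (C * D) * T ^ (2 * D) := by
  obtain ⟨C1, hC1, hbd⟩ := bd c b R
  have hl1 : 0 ≤ Real.log C1 := Real.log_nonneg hC1
  have hl2 : 0 ≤ Real.log 2 := Real.log_nonneg (by norm_num)
  refine ⟨5 + 7 * Real.log C1 + 2 * Real.log 2, by linarith, ?_⟩
  intro D n k κ T w t y k1 k2 hD hκ hT hw ht hy hk1 hk2 hk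
  have hN : ∀ a, ‖NX c b a w t y‖ ≤ C1 := fun a => (hbd a w t y hw ht hy).1
  have hDX : ∀ a, ‖DX c b a w t y‖ ≤ C1 := fun a => (hbd a w t y hw ht hy).2.1
  have hWW : ‖WW c b w t y‖ ≤ C1 := (hbd 0 w t y hw ht hy).2.2
  have hC0 : 0 ≤ C1 := by linarith
  have hsh : ∀ (a : Fin 7) (k1 : ℂ), ‖k1‖ ≤ T → ‖NX c b a w t y + k1 * WW c b w t y‖ ≤ C1 * (1 + T) := by
    intro a k1 h1
    refine (norm_add_le _ _).trans ?_
    rw [norm_mul]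
    have h2 : ‖k1‖ * ‖WW c b w t y‖ ≤ T * C1 := mul_le_mul h1 hWW (norm_nonneg _) (by linarith)
    have h3 := hN a
    linarith
  have hWW' : ‖WW c b w t y‖ ≤ C1 * (1 + T) :=
    hWW.trans (le_mul_of_one_le_right hC0 (by linarith))
  have hle : ∀ x : Fin (D + 1), (x : ℕ) ≤ D := fun x => Nat.lt_succ_iff.1 x.2
  have hQ : ∀ l3 l4, ‖QX c b D n k l3 l4 w t y‖ ≤ ((D : ℝ) + 1) * (((D : ℝ) + 1) * (((D : ℝ) + 1) *
      (κ * C1 ^ D * C1 ^ D * C1 ^ D))) := by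
    intro l3 l4
    unfold QX
    refine L3_sum _ _ fun l0 => L3_sum _ _ fun l1 => L3_sum _ _ fun l2 => ?_
    rw [norm_mul, norm_mul, norm_mul]
    have e0 := L3_pw (hle l0) (hN 0) (hDX 0)
    have e1 := L3_pw (hle l1) (hN 1) (hDX 1)
    have e2 := L3_pw (hle l2) (hN 2) (hDX 2)
    have e3 := hk l0 l1 l2 l3 l4
    exact mul_le_mul (mul_le_mul (mul_le_mul e3 e0 (norm_nonneg _) hκ) e1 (norm_nonneg _) (by positivity)) e2
      (norm_nonneg _) (by positivity)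
  have hE : ‖ET c b D n w t y‖ ≤ C1 ^ D * C1 ^ D := by
    unfold ET
    rw [norm_mul]
    exact mul_le_mul (L3_pw (hle _) (hN 5) (hDX 5)) (L3_pw (hle _) (hN 6) (hDX 6)) (norm_nonneg _) (by positivity)
  refine le_trans ?_ (L3_num (D := D) hC1 hT hκ)
  unfold GX
  refine L3_sum _ _ fun l3 => L3_sum _ _ fun l4 => ?_
  rw [norm_mul, norm_mul, norm_mul]
  have e1 := L3_pw (hle l3) (hsh 3 k1 hk1) hWW'
  have e2 := L3_pw (hle l4) (hsh 4 k2 hk2) hWW'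
  have hT0 : 0 ≤ 1 + T := by linarith
  exact mul_le_mul (mul_le_mul (mul_le_mul (hQ l3 l4) e1 (norm_nonneg _) (by positivity)) e2 (norm_nonneg _)
    (by positivity)) hE (norm_nonneg _) (by positivity)

theorem L3_fac {W X k1 : ℂ} (hW : W ≠ 0) {D l : ℕ} (hl : l ≤ D) :
    (X + k1 * W) ^ l * W ^ (D - l) = W ^ D * (X / W + k1) ^ l := by
  have h1 : X / W + k1 = (X + k1 * W) / W := by field_simp
  have h2 : W ^ D = W ^ (D - l) * W ^ l := by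
    rw [← pow_add]
    congr 1
    omega
  rw [h1, h2, div_pow]
  field_simp

theorem GX_fac {D : ℕ} (n : Fin 2 → Fin (D + 1)) (k : (Fin 7 → Fin (D + 1)) → ℂ)
    {w t y : ℂ} (hW : WW c b w t y ≠ 0) (k1 k2 : ℂ) :
    GX c b D n k w t y k1 k2 = WW c b w t y ^ (2 * D) * ET c b D n w t y *
      ∑ l3 : Fin (D + 1), ∑ l4 : Fin (D + 1), QX c b D n k l3 l4 w t y *
        (NX c b 3 w t y / WW c b w t y + k1) ^ (l3 : ℕ) *
        (NX c b 4 w t y / WW c b w t y + k2) ^ (l4 : ℕ) := by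
  unfold GX
  rw [Finset.mul_sum]
  refine Finset.sum_congr rfl fun l3 _ => ?_
  rw [Finset.mul_sum]
  refine Finset.sum_congr rfl fun l4 _ => ?_
  rw [L3_fac hW (Nat.lt_succ_iff.1 l3.2), L3_fac hW (Nat.lt_succ_iff.1 l4.2), two_mul, pow_add]
  ring

end CZ
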