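import Pool.Agent.H22.CZ.L4b

/-!
# Row L4: the zero estimate for fixed `n`

PROOF. `K` and `C5` from `line_step`, `δ, C6` from `grid_step`. Let
`κ = max over l0..l4 of ‖k (ix D l0 l1 l2 l3 l4 n)‖` (`Finset.exists_max_image` over a finite nonempty type, or
`⨆`), and
`η1 = κ exp(C5 D log(r+2)) (1/3)^(2 K Jp) + η 10000^(K Jp)`. `grid_step` gives
`κ ≤ η1 exp(C6 D log(r+2))`. Choose `K' ≥ C5 + C6 + 1`, `K' ≥ 20 K + C6 + 1`. As `D log(r+2) ≤ Jp/K'` and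
`(1/3)^2 ≤ exp(-2)`, `K Jp ≥ Jp ≥ K' D log(r+2)`, the factor of `κ` on the right is
`≤ exp((C5 + C6) D log(r+2) - 2 Jp) ≤ exp(-Jp) ≤ 1/2`. So `κ ≤ 2 η 10000^(K Jp) exp(C6 D log(r+2)) ≤
η exp(1 + 10 K Jp + Jp) ≤ η exp(K' Jp)` (`log 10000 < 10`, `Jp ≥ 1`).
(`D ≤ Jp`: `log(r+2) ≥ log 3 ≥ 1`, `K' ≥ 1`; it is contained in `FamHyp` anyway.)
-/

set_option autoImplicit false

namespace CZ

open Complex

variable (c : CData) (b : BaseFn c.z)

theorem core {C1 : ℝ} (hC1 : 1 ≤ C1) : ∃ K : ℕ, 1 ≤ K ∧ ∃ δ : ℝ, 0 < δ ∧ δ ≤ 1 ∧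
    ∃ K' : ℝ, 1 ≤ K' ∧ ∀ (D Jp : ℕ) (r η : ℝ) (n : Fin 2 → Fin (D + 1))
      (k : (Fin 7 → Fin (D + 1)) → ℂ) (xb g : Fin 3 → ℤ), FamHyp c C1 D Jp r xb g → 0 ≤ η →
      K' * D * Real.log (r + 2) ≤ Jp →
      (∀ (i1 i2 : ℕ) (j : ℤ) (w t : ℂ), i1 ≤ 2 * D → i2 ≤ 2 * D → |j| ≤ (K * Jp : ℕ) →
        ‖w‖ ≤ δ → ‖t‖ ≤ δ → ‖GXe c b D n k w t (c.fam xb g i1 i2 j)‖ ≤ η) →
      ∀ l0 l1 l2 l3 l4, ‖k (ix D l0 l1 l2 l3 l4 n)‖ ≤ η * Real.exp (K' * Jp) := by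
  obtain ⟨K, hK, C5, hC5, hline⟩ := line_step c b hC1
  obtain ⟨δ, hδ, hδ1, C6, hC6, hgrid⟩ := grid_step c b hC1
  have hK0 : (1 : ℝ) ≤ K := by exact_mod_cast hK
  refine ⟨K, hK, δ, hδ, hδ1, C5 + C6 + 20 * K + 2, by linarith, ?_⟩
  intro D Jp r η n k xb g hF hη hDJ hyp
  -- the maximum
  obtain ⟨x0, hx0⟩ := Finite.exists_max (fun x : Fin (D + 1) × Fin (D + 1) × Fin (D + 1) ×
    Fin (D + 1) × Fin (D + 1) ↦ ‖k (ix D x.1 x.2.1 x.2.2.1 x.2.2.2.1 x.2.2.2.2 n)‖)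
  set κ : ℝ := ‖k (ix D x0.1 x0.2.1 x0.2.2.1 x0.2.2.2.1 x0.2.2.2.2 n)‖ with hκ
  have hκ0 : 0 ≤ κ := norm_nonneg _
  have hkκ : ∀ l0 l1 l2 l3 l4, ‖k (ix D l0 l1 l2 l3 l4 n)‖ ≤ κ :=
    fun l0 l1 l2 l3 l4 ↦ hx0 (l0, l1, l2, l3, l4)
  set L : ℝ := Real.log (r + 2) with hL
  have hr := hF.hr
  have hL1 : 1 ≤ L := by
    rw [hL, Real.le_log_iff_exp_le (by linarith)]
    have := Real.exp_one_lt_d9
    linarith
  have hD : (1 : ℝ) ≤ D := by exact_mod_cast hF.hD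
  have hDL : 0 < (D : ℝ) * L := by positivity
  have hJ1 : (1 : ℝ) ≤ Jp := by
    have : (D : ℝ) ≤ Jp := by exact_mod_cast hF.hDJ
    linarith
  have hJ1' : 1 ≤ Jp := by exact_mod_cast hJ1
  have h1 := hline D Jp r η κ δ n k xb g hF hκ0 hδ hδ1 hkκ hyp
  have h2 := hgrid D Jp r _ n k xb g hF h1
  have h3 : κ ≤ (κ * Real.exp (C5 * D * L) * (1 / 3) ^ (2 * (K * Jp)) + η * 10000 ^ (K * Jp)) *
      Real.exp (C6 * D * L) := h2 _ _ _ _ _
  -- exponents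
  have hDL2 : C5 * D * L + C6 * D * L ≤ Jp := by
    have : (C5 + C6 + 20 * K + 2) * D * L = (C5 * D * L + C6 * D * L) + (20 * K + 2) * (D * L) := by
      ring
    nlinarith [mul_pos (show (0 : ℝ) < 20 * K + 2 by linarith) hDL]
  have hC6J : C6 * D * L ≤ Jp := by
    have : 0 ≤ C5 * D * L := by positivity
    linarith
  have hexpJ : Real.exp 1 ^ Jp = Real.exp Jp := by
    rw [← Real.exp_nat_mul, mul_one]
  have hA : Real.exp (C5 * D * L) * (1 / 3) ^ (2 * (K * Jp)) * Real.exp (C6 * D * L) ≤ 1 / 2 := by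
    have hp : ((1 : ℝ) / 3) ^ (2 * (K * Jp)) ≤ (1 / 9) ^ Jp := by
      have : ((1 : ℝ) / 9) ^ Jp = (1 / 3) ^ (2 * Jp) := by
        rw [pow_mul]; norm_num
      rw [this]
      apply pow_le_pow_of_le_one (by norm_num) (by norm_num)
      nlinarith [Nat.mul_le_mul_right Jp hK]
    calc Real.exp (C5 * D * L) * (1 / 3) ^ (2 * (K * Jp)) * Real.exp (C6 * D * L)
        = Real.exp (C5 * D * L + C6 * D * L) * (1 / 3) ^ (2 * (K * Jp)) := by
          rw [Real.exp_add]; ring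
      _ ≤ Real.exp Jp * (1 / 9) ^ Jp := by
          apply mul_le_mul (Real.exp_le_exp.mpr hDL2) hp (by positivity) (Real.exp_pos _).le
      _ = (Real.exp 1 / 9) ^ Jp := by rw [← hexpJ, ← mul_pow]; ring
      _ ≤ (1 / 2) ^ Jp := by
          apply pow_le_pow_left₀ (by positivity)
          have := Real.exp_one_lt_d9
          linarith
      _ ≤ (1 / 2) ^ 1 := pow_le_pow_of_le_one (by norm_num) (by norm_num) hJ1'
      _ = 1 / 2 := pow_one _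
  have hB : κ ≤ 2 * (η * 10000 ^ (K * Jp) * Real.exp (C6 * D * L)) := by
    have e : (κ * Real.exp (C5 * D * L) * (1 / 3) ^ (2 * (K * Jp)) + η * 10000 ^ (K * Jp)) *
      Real.exp (C6 * D * L) = κ * (Real.exp (C5 * D * L) * (1 / 3) ^ (2 * (K * Jp)) *
      Real.exp (C6 * D * L)) + η * 10000 ^ (K * Jp) * Real.exp (C6 * D * L) := by ring
    rw [e] at h3
    have := mul_le_mul_of_nonneg_left hA hκ0
    linarith
  have h10 : (10000 : ℝ) ≤ Real.exp 10 := by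
    have : Real.exp 10 = Real.exp 1 ^ 10 := by rw [← Real.exp_nat_mul]; norm_num
    rw [this]
    calc (10000 : ℝ) ≤ 2.7 ^ 10 := by norm_num
      _ ≤ Real.exp 1 ^ 10 := by
          apply pow_le_pow_left₀ (by norm_num)
          have := Real.exp_one_gt_d9
          linarith
  have hC : (10000 : ℝ) ^ (K * Jp) ≤ Real.exp (10 * (K * Jp)) := by
    calc (10000 : ℝ) ^ (K * Jp) ≤ Real.exp 10 ^ (K * Jp) :=
          pow_le_pow_left₀ (by norm_num) h10 _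
      _ = Real.exp (10 * (K * Jp)) := by
          rw [← Real.exp_nat_mul]; congr 1; push_cast; ring
  have h2J : (2 : ℝ) ≤ Real.exp Jp := by
    have := Real.add_one_le_exp (Jp : ℝ)
    linarith
  have hfin : κ ≤ η * Real.exp ((C5 + C6 + 20 * K + 2) * Jp) := by
    calc κ ≤ 2 * (η * 10000 ^ (K * Jp) * Real.exp (C6 * D * L)) := hB
      _ ≤ Real.exp Jp * (η * Real.exp (10 * (K * Jp)) * Real.exp Jp) := by
          have hCe : Real.exp (C6 * D * L) ≤ Real.exp Jp := Real.exp_le_exp.mpr hC6J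
          gcongr
      _ = η * Real.exp (Jp + 10 * (K * Jp) + Jp) := by
          rw [Real.exp_add, Real.exp_add]; ring
      _ ≤ η * Real.exp ((C5 + C6 + 20 * K + 2) * Jp) := by
          apply mul_le_mul_of_nonneg_left _ hη
          apply Real.exp_le_exp.mpr
          have hKJ : 0 ≤ (K : ℝ) * Jp := by positivity
          have h5 : 0 ≤ (C5 + C6) * (Jp : ℝ) := by positivity
          nlinarith
  exact fun l0 l1 l2 l3 l4 ↦ (hkκ l0 l1 l2 l3 l4).trans hfin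

end CZ
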