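import Mathlib

/-!
# Row P4: an entire function small at the integers of an interval

PROOF. Nodes: the integers `|j| ≤ J` (`2J+1` of them), `P(s) = ∏_j (s - j)`, `L` the Lagrange interpolation
polynomial of `h` at the nodes. `h - L` vanishes at the nodes, so `h - L = P g` with `g` entire
(divide successively, `dslope`, or: `g = (h - L)/P` off the nodes with removable singularities).
* `|L(s)| ≤ η ∑_j ∏_{i≠j} |s - i| / ∏_{i≠j} |j - i|`, `∏_{i≠j}|j - i| = (J+j)!(J-j)! ≥ (J!)^2`,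
  `J! ≥ (J/e)^J`. For `|s| ≤ 7J`: `≤ η (2J+1) (8J)^(2J)/(J!)^2 ≤ η (2J+1)(8e)^(2J)`; for `|s| ≤ J`:
  `≤ η (2J+1)(2e)^(2J)`.
* on `|s| = 7J`: `|P(s)| ≥ (6J)^(2J+1)`; so `|g| ≤ (B + η (2J+1)(8e)^(2J))/(6J)^(2J+1)` on `|s| ≤ 7J`
  (maximum principle).
* for `|s| ≤ J`: `|P(s)| ≤ (2J)^(2J+1)`, so `|h(s)| ≤ |L(s)| + (1/3)^(2J+1)(B + η (2J+1)(8e)^(2J))
  ≤ B (1/3)^(2J) + 2 η (2J+1)(8e)^(2J) ≤ B (1/3)^(2J) + η 10000^J`
  (`(2J+1) ≤ e^(2J)`, `(8 e^2)^2 < 3600`, `2 * 3600^J ≤ 10000^J` for `J ≥ 1`).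
(`g` may be avoided by the residue/Hermite formula, or by the maximum principle applied to the quotient.)
-/

set_option autoImplicit false

namespace CZ

open Finset

/-- Division by the zeros. -/
private theorem P4_div (S : Finset ℂ) : ∀ F : ℂ → ℂ, Differentiable ℂ F → (∀ a ∈ S, F a = 0) →
    ∃ g : ℂ → ℂ, Differentiable ℂ g ∧ ∀ s, F s = (∏ a ∈ S, (s - a)) * g s := by
  induction S using Finset.induction_on with
  | empty =>
    intro F hF _
    exact ⟨F, hF, fun s => by simp⟩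
  | insert a S ha ih =>
    intro F hF hz
    have hFa : F a = 0 := hz a (mem_insert_self a S)
    have hd : Differentiable ℂ (dslope F a) := by
      have h1 : DifferentiableOn ℂ (dslope F a) Set.univ :=
        (Complex.differentiableOn_dslope Filter.univ_mem).2 hF.differentiableOn
      exact differentiableOn_univ.1 h1
    have hmul : ∀ s, F s = (s - a) * dslope F a s := by
      intro s
      have h1 := sub_smul_dslope F a s
      rw [smul_eq_mul, hFa, sub_zero] at h1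
      exact h1.symm
    obtain ⟨g, hg, hgs⟩ := ih (dslope F a) hd (by
      intro b hb
      have h1 := hmul b
      rw [hz b (mem_insert_of_mem hb)] at h1
      have h2 : b - a ≠ 0 := by
        intro h
        rw [sub_eq_zero] at h
        rw [h] at hb
        exact ha hb
      rcases mul_eq_zero.1 h1.symm with h3 | h3
      · exact absurd h3 h2
      · exact h3)
    refine ⟨g, hg, fun s => ?_⟩
    rw [hmul s, hgs s, prod_insert ha, mul_assoc]

private theorem P4_fact {J j : ℕ} (hj : j ≤ 2 * J) :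
    J.factorial ^ 2 ≤ j.factorial * (2 * J - j).factorial := by
  have h1 := Nat.choose_mul_factorial_mul_factorial hj
  have h2 := Nat.choose_mul_factorial_mul_factorial (show J ≤ 2 * J by omega)
  have h3 : 2 * J - J = J := by omega
  rw [h3] at h2
  have h4 : (2 * J).choose j ≤ (2 * J).choose J := by
    have := Nat.choose_le_middle j (2 * J)
    rwa [Nat.mul_div_cancel_left J (by norm_num)] at this
  have h5 : 0 < (2 * J).choose J := Nat.choose_pos (by omega)
  by_contra hcon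
  have h6 : j.factorial * (2 * J - j).factorial < J.factorial ^ 2 := not_le.1 hcon
  have h7 : (2 * J).choose j * (j.factorial * (2 * J - j).factorial) ≤
      (2 * J).choose J * (j.factorial * (2 * J - j).factorial) := Nat.mul_le_mul_right _ h4
  have h8 : (2 * J).choose J * (j.factorial * (2 * J - j).factorial) <
      (2 * J).choose J * J.factorial ^ 2 := Nat.mul_lt_mul_of_pos_left h6 h5
  rw [← mul_assoc, h1] at h7
  rw [pow_two, ← mul_assoc ((2 * J).choose J) J.factorial J.factorial, h2] at h8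
  omega

private theorem P4_prod {n j : ℕ} (hj : j ≤ n) :
    ∏ i ∈ (range (n + 1)).erase j, |(j : ℝ) - i| = (j.factorial : ℝ) * (n - j).factorial := by
  have h1 : (range (n + 1)).erase j = range j ∪ Ico (j + 1) (n + 1) := by
    ext i
    simp only [mem_erase, mem_range, mem_union, mem_Ico]
    omega
  have h2 : Disjoint (range j) (Ico (j + 1) (n + 1)) := by
    rw [disjoint_left]
    intro i hi hi'
    rw [mem_range] at hi
    rw [mem_Ico] at hi'
    omega
  rw [h1, prod_union h2]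
  congr 1
  · have h3 : ∏ i ∈ range j, |(j : ℝ) - i| = ∏ i ∈ range j, (((j - 1 - i : ℕ) + 1 : ℕ) : ℝ) := by
      refine prod_congr rfl fun i hi => ?_
      rw [mem_range] at hi
      have h4 : ((j - 1 - i : ℕ) + 1 : ℕ) = j - i := by omega
      rw [h4, Nat.cast_sub hi.le, abs_of_nonneg]
      have : (i : ℝ) ≤ j := by exact_mod_cast hi.le
      linarith
    rw [h3, prod_range_reflect (fun i => ((i + 1 : ℕ) : ℝ)) j, ← Nat.cast_prod,
      prod_range_add_one_eq_factorial]
  · rw [prod_Ico_eq_prod_range]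
    have h4 : n + 1 - (j + 1) = n - j := by omega
    rw [h4]
    have h3 : ∏ i ∈ range (n - j), |(j : ℝ) - ((j + 1 + i : ℕ) : ℝ)| =
        ∏ i ∈ range (n - j), ((i + 1 : ℕ) : ℝ) := by
      refine prod_congr rfl fun i _ => ?_
      push_cast
      rw [abs_sub_comm, abs_of_nonneg]
      · ring
      · have : (0 : ℝ) ≤ i := Nat.cast_nonneg i
        linarith
    rw [h3, ← Nat.cast_prod, prod_range_add_one_eq_factorial]

/-- `(8 J)^(2 J) ≤ (8 e)^(2 J) (J!)²` -/
private theorem P4_stir (J : ℕ) :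
    (8 * (J : ℝ)) ^ (2 * J) ≤ (8 * Real.exp 1) ^ (2 * J) * (J.factorial : ℝ) ^ 2 := by
  have h1 := Real.pow_div_factorial_le_exp (J : ℝ) (Nat.cast_nonneg J) J
  have h2 : (0 : ℝ) < (J.factorial : ℝ) := by exact_mod_cast J.factorial_pos
  rw [div_le_iff₀ h2] at h1
  have h3 : Real.exp (J : ℝ) = Real.exp 1 ^ J := by
    rw [← Real.exp_nat_mul, mul_one]
  rw [h3] at h1
  have h4 : ((J : ℝ) ^ J) ^ 2 ≤ (Real.exp 1 ^ J * (J.factorial : ℝ)) ^ 2 :=
    pow_le_pow_left₀ (by positivity) h1 2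
  calc (8 * (J : ℝ)) ^ (2 * J) = 8 ^ (2 * J) * ((J : ℝ) ^ J) ^ 2 := by
        rw [mul_pow, ← pow_mul, mul_comm J 2]
    _ ≤ 8 ^ (2 * J) * (Real.exp 1 ^ J * (J.factorial : ℝ)) ^ 2 :=
        mul_le_mul_of_nonneg_left h4 (by positivity)
    _ = (8 * Real.exp 1) ^ (2 * J) * (J.factorial : ℝ) ^ 2 := by
        rw [mul_pow 8 (Real.exp 1), mul_pow (Real.exp 1 ^ J), ← pow_mul (Real.exp 1), mul_comm J 2]
        ring

/-- `2 (2J+1) (8e)^(2J) ≤ 10000^J` -/
private theorem P4_num {J : ℕ} (hJ : 1 ≤ J) :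
    2 * ((2 * (J : ℝ) + 1) * (8 * Real.exp 1) ^ (2 * J)) ≤ 10000 ^ J := by
  have h1 : 2 * (J : ℝ) + 1 ≤ Real.exp 1 ^ (2 * J) := by
    have h2 := Real.add_one_le_exp (2 * (J : ℝ))
    have h3 : Real.exp (2 * (J : ℝ)) = Real.exp 1 ^ (2 * J) := by
      rw [← Real.exp_nat_mul, mul_one]
      push_cast
      rfl
    rw [h3] at h2
    exact h2
  have he : Real.exp 1 < 2.7182818286 := Real.exp_one_lt_d9
  have he0 : 0 < Real.exp 1 := Real.exp_pos 1
  have h4 : (Real.exp 1) ^ 2 < 7.4 := by nlinarith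
  have h5 : (8 * (Real.exp 1) ^ 2) ^ 2 ≤ 3600 := by
    have h6 : 8 * (Real.exp 1) ^ 2 ≤ 60 := by linarith
    have h7 : (0 : ℝ) ≤ 8 * (Real.exp 1) ^ 2 := by positivity
    nlinarith
  have h8 : (2 * (J : ℝ) + 1) * (8 * Real.exp 1) ^ (2 * J) ≤ 3600 ^ J := by
    calc (2 * (J : ℝ) + 1) * (8 * Real.exp 1) ^ (2 * J)
        ≤ Real.exp 1 ^ (2 * J) * (8 * Real.exp 1) ^ (2 * J) :=
          mul_le_mul_of_nonneg_right h1 (by positivity)
      _ = ((8 * (Real.exp 1) ^ 2) ^ 2) ^ J := by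
          rw [← mul_pow, ← pow_mul]
          congr 1
          ring
      _ ≤ 3600 ^ J := pow_le_pow_left₀ (by positivity) h5 J
  have h9 : (2 : ℝ) * 3600 ^ J ≤ 10000 ^ J := by
    have h10 : (10000 : ℝ) ^ J = (10000 / 3600) ^ J * 3600 ^ J := by
      rw [← mul_pow]
      norm_num
    rw [h10]
    refine mul_le_mul_of_nonneg_right ?_ (by positivity)
    have h11 : (10000 / 3600 : ℝ) ^ 1 ≤ (10000 / 3600) ^ J := pow_le_pow_right₀ (by norm_num) hJ
    have h12 : (2 : ℝ) ≤ (10000 / 3600) ^ 1 := by norm_num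
    linarith
  linarith

theorem int_interp {h : ℂ → ℂ} (hh : Differentiable ℂ h) {J : ℕ} {B η : ℝ} (hJ : 1 ≤ J)
    (hB : ∀ s : ℂ, ‖s‖ ≤ 7 * J → ‖h s‖ ≤ B) (hη : ∀ j : ℤ, |j| ≤ (J : ℤ) → ‖h j‖ ≤ η) (s : ℂ)
    (hs : ‖s‖ ≤ J) : ‖h s‖ ≤ B * (1 / 3) ^ (2 * J) + η * 10000 ^ J := by
  have hJ0 : (1 : ℝ) ≤ J := by exact_mod_cast hJ
  have hJp : (0 : ℝ) < J := by linarith
  have hB0 : 0 ≤ B := (norm_nonneg _).trans (hB 0 (by rw [norm_zero]; positivity))
  have hη0 : 0 ≤ η := (norm_nonneg _).trans (hη 0 (by simp))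
  obtain ⟨v, hv⟩ : ∃ v : ℕ → ℂ, v = fun i : ℕ => (((i : ℤ) - (J : ℤ) : ℤ) : ℂ) := ⟨_, rfl⟩
  have hvR : ∀ i, v i = (((i : ℝ) - (J : ℝ) : ℝ) : ℂ) := by
    intro i
    rw [hv]
    push_cast
    rfl
  have hvn : ∀ i ∈ range (2 * J + 1), ‖v i‖ ≤ J := by
    intro i hi
    rw [mem_range] at hi
    rw [hvR, Complex.norm_real, Real.norm_eq_abs, abs_le]
    have h1 : (i : ℝ) ≤ 2 * J := by
      have : i ≤ 2 * J := by omega
      exact_mod_cast this
    have h2 : (0 : ℝ) ≤ i := Nat.cast_nonneg i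
    constructor <;> linarith
  have hvd : ∀ i j, ‖v j - v i‖ = |(j : ℝ) - i| := by
    intro i j
    rw [hvR, hvR, ← Complex.ofReal_sub, Complex.norm_real, Real.norm_eq_abs]
    congr 1
    ring
  have hvinj : Function.Injective v := by
    intro i j hij
    have h1 := hvd i j
    rw [hij, sub_self, norm_zero] at h1
    have h2 : (j : ℝ) - i = 0 := abs_eq_zero.1 h1.symm
    have h3 : (j : ℝ) = i := by linarith
    exact_mod_cast h3.symm
  have hvh : ∀ i ∈ range (2 * J + 1), ‖h (v i)‖ ≤ η := by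
    intro i hi
    rw [mem_range] at hi
    rw [hv]
    refine hη _ ?_
    rw [abs_le]
    constructor <;> omega
  -- the interpolation polynomial
  obtain ⟨bs, hbs⟩ : ∃ bs : ℕ → ℂ → ℂ, bs = fun j w =>
      ∏ i ∈ (range (2 * J + 1)).erase j, (w - v i) / (v j - v i) := ⟨_, rfl⟩
  obtain ⟨L, hL⟩ : ∃ L : ℂ → ℂ, L = fun w => ∑ j ∈ range (2 * J + 1), h (v j) * bs j w := ⟨_, rfl⟩
  have hbd : ∀ j, Differentiable ℂ (bs j) := by
    intro j
    rw [hbs]
    fun_prop
  have hLd : Differentiable ℂ L := by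
    rw [hL]
    fun_prop
  have hbb : ∀ j ∈ range (2 * J + 1), ∀ w : ℂ, ‖w‖ ≤ 7 * J → ‖bs j w‖ ≤ (8 * Real.exp 1) ^ (2 * J) := by
    intro j hj w hw
    have hj' : j ≤ 2 * J := by
      rw [mem_range] at hj
      omega
    rw [hbs]
    simp only
    rw [norm_prod]
    simp only [norm_div]
    rw [prod_div_distrib]
    have h1 : ∏ i ∈ (range (2 * J + 1)).erase j, ‖w - v i‖ ≤ (8 * (J : ℝ)) ^ (2 * J) := by
      have h2 : ∏ i ∈ (range (2 * J + 1)).erase j, ‖w - v i‖ ≤
          ∏ _i ∈ (range (2 * J + 1)).erase j, (8 * (J : ℝ)) := by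
        refine prod_le_prod (fun i _ => norm_nonneg _) fun i hi => ?_
        have h3 := hvn i (mem_of_mem_erase hi)
        have h4 := norm_sub_le w (v i)
        linarith
      rw [prod_const, card_erase_of_mem hj, card_range, Nat.add_sub_cancel] at h2
      exact h2
    have h5 : ∏ i ∈ (range (2 * J + 1)).erase j, ‖v j - v i‖ =
        (j.factorial : ℝ) * (2 * J - j).factorial := by
      simp only [hvd]
      exact P4_prod hj'
    rw [h5]
    have h6 : (J.factorial : ℝ) ^ 2 ≤ (j.factorial : ℝ) * (2 * J - j).factorial := by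
      exact_mod_cast P4_fact hj'
    have h7 : (0 : ℝ) < (J.factorial : ℝ) := by exact_mod_cast J.factorial_pos
    rw [div_le_iff₀ (lt_of_lt_of_le (by positivity) h6)]
    exact (h1.trans (P4_stir J)).trans (mul_le_mul_of_nonneg_left h6 (by positivity))
  have hLb : ∀ w : ℂ, ‖w‖ ≤ 7 * J → ‖L w‖ ≤ η * ((2 * (J : ℝ) + 1) * (8 * Real.exp 1) ^ (2 * J)) := by
    intro w hw
    rw [hL]
    simp only
    refine (norm_sum_le _ _).trans ?_
    have h1 : ∑ j ∈ range (2 * J + 1), ‖h (v j) * bs j w‖ ≤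
        ∑ _j ∈ range (2 * J + 1), η * (8 * Real.exp 1) ^ (2 * J) := by
      refine sum_le_sum fun j hj => ?_
      rw [norm_mul]
      exact mul_le_mul (hvh j hj) (hbb j hj w hw) (norm_nonneg _) hη0
    rw [sum_const, card_range, nsmul_eq_mul] at h1
    refine h1.trans (le_of_eq ?_)
    push_cast
    ring
  have hLv : ∀ k ∈ range (2 * J + 1), L (v k) = h (v k) := by
    intro k hk
    rw [hL]
    simp only
    rw [sum_eq_single_of_mem k hk]
    · rw [hbs]
      simp only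
      rw [prod_eq_one, mul_one]
      intro i hi
      refine div_self ?_
      rw [sub_ne_zero]
      exact fun h' => (ne_of_mem_erase hi) (hvinj h').symm
    · intro j _ hjk
      rw [hbs]
      simp only
      rw [prod_eq_zero (mem_erase.2 ⟨hjk.symm, hk⟩), mul_zero]
      rw [sub_self, zero_div]
  -- the quotient
  obtain ⟨g, hg, hgs⟩ := P4_div ((range (2 * J + 1)).image v) (fun w => h w - L w) (hh.sub hLd) (by
    intro a ha
    rw [mem_image] at ha
    obtain ⟨k, hk, rfl⟩ := ha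
    rw [hLv k hk, sub_self])
  have hprod : ∀ w : ℂ, ∏ a ∈ (range (2 * J + 1)).image v, (w - a) =
      ∏ i ∈ range (2 * J + 1), (w - v i) := fun w => prod_image fun i _ j _ hij => hvinj hij
  simp only [hprod] at hgs
  obtain ⟨M, hM⟩ : ∃ M, M = (2 * (J : ℝ) + 1) * (8 * Real.exp 1) ^ (2 * J) := ⟨_, rfl⟩
  rw [← hM] at hLb
  have hM0 : 0 ≤ M := by
    rw [hM]
    positivity
  have hgb : ∀ w : ℂ, ‖w‖ ≤ 7 * J → ‖g w‖ ≤ (B + η * M) / (6 * J) ^ (2 * J + 1) := by
    intro w hw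
    refine Complex.norm_le_of_forall_mem_frontier_norm_le (U := Metric.ball 0 (7 * J))
      Metric.isBounded_ball hg.diffContOnCl ?_ ?_
    · intro x hx
      rw [frontier_ball (0 : ℂ) (by positivity), mem_sphere_zero_iff_norm] at hx
      have h1 : (6 * (J : ℝ)) ^ (2 * J + 1) ≤ ‖∏ i ∈ range (2 * J + 1), (x - v i)‖ := by
        rw [norm_prod]
        have h2 : ∏ _i ∈ range (2 * J + 1), (6 * (J : ℝ)) ≤ ∏ i ∈ range (2 * J + 1), ‖x - v i‖ := by
          refine prod_le_prod (fun i _ => by positivity) fun i hi => ?_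
          have h3 := hvn i hi
          have h4 := norm_sub_norm_le x (v i)
          linarith
        rw [prod_const, card_range] at h2
        exact h2
      have h2 : ‖h x - L x‖ ≤ B + η * M := by
        have h3 := norm_sub_le (h x) (L x)
        have h4 := hB x hx.le
        have h5 := hLb x hx.le
        linarith
      rw [hgs x, norm_mul] at h2
      rw [le_div_iff₀ (by positivity), mul_comm]
      exact (mul_le_mul_of_nonneg_right h1 (norm_nonneg _)).trans h2
    · rw [closure_ball (0 : ℂ) (by positivity), mem_closedBall_zero_iff]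
      exact hw
  have hs7 : ‖s‖ ≤ 7 * J := by linarith
  have h1 : ‖∏ i ∈ range (2 * J + 1), (s - v i)‖ ≤ (2 * (J : ℝ)) ^ (2 * J + 1) := by
    rw [norm_prod]
    have h2 : ∏ i ∈ range (2 * J + 1), ‖s - v i‖ ≤ ∏ _i ∈ range (2 * J + 1), (2 * (J : ℝ)) := by
      refine prod_le_prod (fun i _ => norm_nonneg _) fun i hi => ?_
      have h3 := hvn i hi
      have h4 := norm_sub_le s (v i)
      linarith
    rw [prod_const, card_range] at h2
    exact h2
  have h2 : ‖h s - L s‖ ≤ (1 / 3) ^ (2 * J + 1) * (B + η * M) := by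
    rw [hgs s, norm_mul]
    refine (mul_le_mul h1 (hgb s hs7) (norm_nonneg _) (by positivity)).trans (le_of_eq ?_)
    rw [mul_div_assoc', div_eq_iff (by positivity)]
    have h3 : (2 * (J : ℝ)) ^ (2 * J + 1) = (1 / 3) ^ (2 * J + 1) * (6 * J) ^ (2 * J + 1) := by
      rw [← mul_pow]
      congr 1
      ring
    rw [h3]
    ring
  have h3 : ‖h s‖ ≤ ‖h s - L s‖ + ‖L s‖ := by
    have := norm_add_le (h s - L s) (L s)
    rwa [sub_add_cancel] at this
  have h4 := hLb s hs7
  have h5 : (1 / 3 : ℝ) ^ (2 * J + 1) ≤ (1 / 3) ^ (2 * J) :=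
    pow_le_pow_of_le_one (by norm_num) (by norm_num) (by omega)
  have h6 : (1 / 3 : ℝ) ^ (2 * J + 1) ≤ 1 := pow_le_one₀ (by norm_num) (by norm_num)
  have h7 : (1 / 3 : ℝ) ^ (2 * J + 1) * B ≤ (1 / 3) ^ (2 * J) * B :=
    mul_le_mul_of_nonneg_right h5 hB0
  have h8 : (1 / 3 : ℝ) ^ (2 * J + 1) * (η * M) ≤ 1 * (η * M) :=
    mul_le_mul_of_nonneg_right h6 (mul_nonneg hη0 hM0)
  have h9 := P4_num hJ
  rw [← hM] at h9
  have h10 : η * (2 * M) ≤ η * 10000 ^ J := mul_le_mul_of_nonneg_left h9 hη0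
  linarith

end CZ
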