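import Pool.Agent.H22.CZ.L3
import Pool.Agent.H22.CZ.La2
import Pool.Agent.H22.CZ.P4

/-!
# Row L4a: from the integers `j` to all complex parameters

PROOF. Notation `b_i(x) = lat (rt i) x`; `e = fam xb g i1 i2 0`, `e_i = b_i(e)`, `g_i = b_i(g)`. By `lat_add,
lat_zsmul, lat_mulz`: `b_i(fam xb g i1 i2 j) = b_i(xb) + (i1 (N ρ_i) + i2 (N ρ_i)^2) g_i + j g_i = e_i + j g_i`.
Also `|g_1| = |g_0|`, `|b_1(xb)| = |b_0(xb)|` (`lat_zb`), `b_2 = latr` (`lat_r`).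
Sizes, with `M = 2 N (‖z‖ + |r|) + 2 N^2 (‖z‖^2 + |r|^2)`, `D ≤ Jp`:
`|e_0|, |e_1| ≤ 1 + M D C1/Jp ≤ 1 + M C1 =: C2`; `|e_2| ≤ r + M D C1 Jp^2 ≤ r + M C1 Jp^3 ≤ C2 r`.
Put `K = ⌈(1 + C2) C1⌉`, `Jn = K * Jp` (natural, `≥ 1`).
`h s = GX c b D n k w t (-(e_0 + s g_0)) (ka1 (e_1 + s g_1)) (ka2 (e_2 + s g_2))` is entire in `s`
(`diff_N, diff_D, diff_W`: compositions with affine maps; `ka1, ka2` linear).
For `‖s‖ ≤ 7 Jn`: `|e_0 + s g_0| ≤ C2 + 7 K C1 =: R` (`R ≥ 1 ≥ δ`), `|ka1(..)| ≤ C R`,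
`|e_2 + s g_2| ≤ C2 r + 7 K Jp C1 Jp^2 ≤ C r`, so `|ka2(..)| ≤ C r` : both are `≤ T := C' r`, `C' ≥ 1`, and by
`GX_le R`: `‖h s‖ ≤ κ exp(C D) (C' r)^(2D) ≤ κ exp(C5 D log(r+2))` (`log(r+2) ≥ log 3 ≥ 1`, `log r ≤ log(r+2)`).
At integers `|j| ≤ Jn`: `‖h j‖ ≤ η` by the hypothesis. `int_interp` (`P4`) with `J = Jn`: for `‖s‖ ≤ Jn` the
claimed bound for `h s`. Finally `s = -(y0 + e_0)/g_0` has `‖s‖ ≤ (δ + C2) C1 Jp ≤ (1 + C2) C1 Jp ≤ Jn`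
(`‖g_0‖ ≥ 1/(C1 Jp)`), and `-(e_0 + s g_0) = y0`.
-/

set_option autoImplicit false

namespace CZ

open Complex

variable (c : CData) (b : BaseFn c.z)

/-- The hypotheses on the family. -/
structure FamHyp (C1 : ℝ) (D Jp : ℕ) (r : ℝ) (xb g : Fin 3 → ℤ) : Prop where
  hD : 1 ≤ D
  hDJ : D ≤ Jp
  hr : 1 ≤ r
  hJr : (Jp : ℝ) ^ 3 ≤ r
  xb0 : ‖c.lat c.z xb‖ ≤ 1
  xb2 : |c.latr xb| ≤ r
  g0l : 1 / (C1 * Jp) ≤ ‖c.lat c.z g‖
  g0u : ‖c.lat c.z g‖ ≤ C1 / Jp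
  g2l : (Jp : ℝ) ^ 2 / C1 ≤ |c.latr g|
  g2u : |c.latr g| ≤ C1 * (Jp : ℝ) ^ 2

/-- `GX` at the parameters of the lattice element `e`. -/
noncomputable def GXe (D : ℕ) (n : Fin 2 → Fin (D + 1)) (k : (Fin 7 → Fin (D + 1)) → ℂ)
    (w t : ℂ) (e : Fin 3 → ℤ) : ℂ :=
  GX c b D n k w t (-c.lat c.z e) (ka1 c b (c.lat c.zb e)) (ka2 c b (c.lat c.r e))

/-- `GX` at the complex parameter `s` for which the third variable is `y0`. -/
noncomputable def GXs (D : ℕ) (n : Fin 2 → Fin (D + 1)) (k : (Fin 7 → Fin (D + 1)) → ℂ)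
    (w t y0 : ℂ) (e g : Fin 3 → ℤ) : ℂ :=
  GX c b D n k w t y0
    (ka1 c b (c.lat c.zb e - (y0 + c.lat c.z e) / c.lat c.z g * c.lat c.zb g))
    (ka2 c b (c.lat c.r e - (y0 + c.lat c.z e) / c.lat c.z g * c.lat c.r g))

private theorem L4a_fam (ρ : ℂ) (xb g : Fin 3 → ℤ) (i1 i2 : ℕ) (j : ℤ) :
    c.lat ρ (c.fam xb g i1 i2 j) = c.lat ρ (c.fam xb g i1 i2 0) + j * c.lat ρ g := by
  have h : c.fam xb g i1 i2 j = c.fam xb g i1 i2 0 + j • g := by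
    unfold CData.fam
    rw [zero_smul, add_zero]
  rw [h, lat_add, lat_zsmul]

private theorem L4a_rt (i : Fin 3) (xb g : Fin 3 → ℤ) (i1 i2 : ℕ) :
    c.lat (c.rt i) (c.fam xb g i1 i2 0) = c.lat (c.rt i) xb +
      (i1 * (c.N * c.rt i) + i2 * (c.N * c.rt i) ^ 2) * c.lat (c.rt i) g := by
  unfold CData.fam
  rw [zero_smul, add_zero, lat_add, lat_add, lat_zsmul, lat_zsmul, lat_mulz, lat_mulz, lat_mulz]
  push_cast
  ring

private theorem L4a_norm (i : Fin 3) (xb g : Fin 3 → ℤ) {i1 i2 D : ℕ} (h1 : i1 ≤ 2 * D) (h2 : i2 ≤ 2 * D)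
    {M : ℝ} (hM : 2 * c.N * ‖c.rt i‖ + 2 * c.N ^ 2 * ‖c.rt i‖ ^ 2 ≤ M) :
    ‖c.lat (c.rt i) (c.fam xb g i1 i2 0)‖ ≤ ‖c.lat (c.rt i) xb‖ + D * M * ‖c.lat (c.rt i) g‖ := by
  rw [L4a_rt]
  refine (norm_add_le _ _).trans (add_le_add le_rfl ?_)
  rw [norm_mul]
  refine mul_le_mul_of_nonneg_right ?_ (norm_nonneg _)
  have h1' : (i1 : ℝ) ≤ 2 * D := by exact_mod_cast h1
  have h2' : (i2 : ℝ) ≤ 2 * D := by exact_mod_cast h2
  have hN : (0 : ℝ) ≤ c.N := Nat.cast_nonneg _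
  have hr : 0 ≤ ‖c.rt i‖ := norm_nonneg _
  calc ‖(i1 : ℂ) * (c.N * c.rt i) + i2 * (c.N * c.rt i) ^ 2‖
      ≤ ‖(i1 : ℂ) * (c.N * c.rt i)‖ + ‖(i2 : ℂ) * (c.N * c.rt i) ^ 2‖ := norm_add_le _ _
    _ = (i1 : ℝ) * (c.N * ‖c.rt i‖) + (i2 : ℝ) * (c.N * ‖c.rt i‖) ^ 2 := by
        rw [norm_mul, norm_mul, norm_mul, norm_pow, norm_mul, Complex.norm_natCast, Complex.norm_natCast,
          Complex.norm_natCast]
    _ ≤ (2 * D : ℝ) * (c.N * ‖c.rt i‖) + (2 * D : ℝ) * (c.N * ‖c.rt i‖) ^ 2 :=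
        add_le_add (mul_le_mul_of_nonneg_right h1' (by positivity))
          (mul_le_mul_of_nonneg_right h2' (by positivity))
    _ = D * (2 * c.N * ‖c.rt i‖ + 2 * c.N ^ 2 * ‖c.rt i‖ ^ 2) := by ring
    _ ≤ D * M := mul_le_mul_of_nonneg_left hM (Nat.cast_nonneg _)

/-- the function of the complex parameter -/
private noncomputable def L4a_h (D : ℕ) (n : Fin 2 → Fin (D + 1)) (k : (Fin 7 → Fin (D + 1)) → ℂ)
    (w t e0 e1 e2 g0 g1 g2 : ℂ) (s : ℂ) : ℂ :=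
  GX c b D n k w t (-(e0 + s * g0)) (ka1 c b (e1 + s * g1)) (ka2 c b (e2 + s * g2))

private theorem L4a_diff' (D : ℕ) (n : Fin 2 → Fin (D + 1)) (k : (Fin 7 → Fin (D + 1)) → ℂ)
    (N DD : Fin 7 → ℂ → ℂ) (W k1 k2 : ℂ → ℂ) (hN : ∀ a, Differentiable ℂ (N a))
    (hD : ∀ a, Differentiable ℂ (DD a)) (hW : Differentiable ℂ W) (hk1 : Differentiable ℂ k1)
    (hk2 : Differentiable ℂ k2) :
    Differentiable ℂ fun s => ∑ l3 : Fin (D + 1), ∑ l4 : Fin (D + 1),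
      (∑ l0 : Fin (D + 1), ∑ l1 : Fin (D + 1), ∑ l2 : Fin (D + 1), k (ix D l0 l1 l2 l3 l4 n) *
        (N 0 s ^ (l0 : ℕ) * DD 0 s ^ (D - (l0 : ℕ))) *
        (N 1 s ^ (l1 : ℕ) * DD 1 s ^ (D - (l1 : ℕ))) *
        (N 2 s ^ (l2 : ℕ) * DD 2 s ^ (D - (l2 : ℕ)))) *
      ((N 3 s + k1 s * W s) ^ (l3 : ℕ) * W s ^ (D - (l3 : ℕ))) *
      ((N 4 s + k2 s * W s) ^ (l4 : ℕ) * W s ^ (D - (l4 : ℕ))) *
      ((N 5 s ^ (n 0 : ℕ) * DD 5 s ^ (D - (n 0 : ℕ))) * (N 6 s ^ (n 1 : ℕ) * DD 6 s ^ (D - (n 1 : ℕ)))) := by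
  have h0 := hN 0
  have h1 := hN 1
  have h2 := hN 2
  have h3 := hN 3
  have h4 := hN 4
  have h5 := hN 5
  have h6 := hN 6
  have d0 := hD 0
  have d1 := hD 1
  have d2 := hD 2
  have d5 := hD 5
  have d6 := hD 6
  generalize N 0 = N0 at *
  generalize N 1 = N1 at *
  generalize N 2 = N2 at *
  generalize N 3 = N3 at *
  generalize N 4 = N4 at *
  generalize N 5 = N5 at *
  generalize N 6 = N6 at *
  generalize DD 0 = D0 at *
  generalize DD 1 = D1 at *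
  generalize DD 2 = D2 at *
  generalize DD 5 = D5 at *
  generalize DD 6 = D6 at *
  fun_prop

private theorem L4a_comp (G : ℂ → ℂ → ℂ → ℂ) (hG : Differentiable ℂ fun x : ℂ × ℂ × ℂ => G x.1 x.2.1 x.2.2)
    (w t e0 g0 : ℂ) : Differentiable ℂ fun s : ℂ => G w t (-(e0 + s * g0)) := by
  have hy : Differentiable ℂ (fun s : ℂ => ((w, t, -(e0 + s * g0)) : ℂ × ℂ × ℂ)) := by fun_prop
  exact hG.comp hy

private theorem L4a_diff (D : ℕ) (n : Fin 2 → Fin (D + 1)) (k : (Fin 7 → Fin (D + 1)) → ℂ)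
    (w t e0 e1 e2 g0 g1 g2 : ℂ) : Differentiable ℂ (L4a_h c b D n k w t e0 e1 e2 g0 g1 g2) := by
  have hN : ∀ a, Differentiable ℂ fun s : ℂ => NX c b a w t (-(e0 + s * g0)) := fun a =>
    L4a_comp (NX c b a) (diff_N c b a) w t e0 g0
  have hD : ∀ a, Differentiable ℂ fun s : ℂ => DX c b a w t (-(e0 + s * g0)) := fun a =>
    L4a_comp (DX c b a) (diff_D c b a) w t e0 g0
  have hW : Differentiable ℂ fun s : ℂ => WW c b w t (-(e0 + s * g0)) :=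
    L4a_comp (WW c b) (diff_W c b) w t e0 g0
  have hk1 : Differentiable ℂ fun s : ℂ => ka1 c b (e1 + s * g1) := by
    have h : (fun s : ℂ => ka1 c b (e1 + s * g1)) = fun s => (b.mu * (2 * Real.pi * I * c.fp c.zb) / c.A1) * (e1 + s * g1) := by
      funext s
      unfold ka1
      ring
    rw [h]
    fun_prop
  have hk2 : Differentiable ℂ fun s : ℂ => ka2 c b (e2 + s * g2) := by
    have h : (fun s : ℂ => ka2 c b (e2 + s * g2)) = fun s => (b.mu * (2 * Real.pi * I * c.fp c.r) / c.A2) * (e2 + s * g2) := by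
      funext s
      unfold ka2
      ring
    rw [h]
    fun_prop
  unfold L4a_h GX QX ET
  exact L4a_diff' D n k (fun a s => NX c b a w t (-(e0 + s * g0))) (fun a s => DX c b a w t (-(e0 + s * g0)))
    (fun s => WW c b w t (-(e0 + s * g0))) (fun s => ka1 c b (e1 + s * g1)) (fun s => ka2 c b (e2 + s * g2))
    hN hD hW hk1 hk2

private theorem L4a_ka1 (v : ℂ) : ka1 c b v = ka1 c b 1 * v := by
  unfold ka1
  ring

private theorem L4a_ka2 (v : ℂ) : ka2 c b v = ka2 c b 1 * v := by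
  unfold ka2
  ring

theorem line_step {C1 : ℝ} (hC1 : 1 ≤ C1) : ∃ K : ℕ, 1 ≤ K ∧ ∃ C5 : ℝ, 1 ≤ C5 ∧
    ∀ (D Jp : ℕ) (r η κ δ : ℝ) (n : Fin 2 → Fin (D + 1)) (k : (Fin 7 → Fin (D + 1)) → ℂ)
      (xb g : Fin 3 → ℤ), FamHyp c C1 D Jp r xb g → 0 ≤ κ → 0 < δ → δ ≤ 1 →
      (∀ l0 l1 l2 l3 l4, ‖k (ix D l0 l1 l2 l3 l4 n)‖ ≤ κ) →
      (∀ (i1 i2 : ℕ) (j : ℤ) (w t : ℂ), i1 ≤ 2 * D → i2 ≤ 2 * D → |j| ≤ (K * Jp : ℕ) →
        ‖w‖ ≤ δ → ‖t‖ ≤ δ → ‖GXe c b D n k w t (c.fam xb g i1 i2 j)‖ ≤ η) →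
      ∀ (i1 i2 : ℕ) (w t y0 : ℂ), i1 ≤ 2 * D → i2 ≤ 2 * D → ‖w‖ ≤ δ → ‖t‖ ≤ δ → ‖y0‖ ≤ δ →
        ‖GXs c b D n k w t y0 (c.fam xb g i1 i2 0) g‖ ≤
          κ * Real.exp (C5 * D * Real.log (r + 2)) * (1 / 3) ^ (2 * (K * Jp)) +
            η * 10000 ^ (K * Jp) := by
  have hN0 : (0 : ℝ) ≤ c.N := Nat.cast_nonneg _
  set M : ℝ := 2 * c.N * (‖c.z‖ + |c.r|) + 2 * c.N ^ 2 * (‖c.z‖ ^ 2 + |c.r| ^ 2) with hM
  have hM0 : 0 ≤ M := by positivity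
  have hzb : ‖c.zb‖ = ‖c.z‖ := by
    unfold CData.zb
    exact RCLike.norm_conj _
  have hMi : ∀ i : Fin 3, 2 * c.N * ‖c.rt i‖ + 2 * c.N ^ 2 * ‖c.rt i‖ ^ 2 ≤ M := by
    intro i
    have hz0 : 0 ≤ ‖c.z‖ := norm_nonneg _
    have hr0 : 0 ≤ |c.r| := abs_nonneg _
    have a1 : 0 ≤ 2 * c.N * |c.r| + 2 * c.N ^ 2 * |c.r| ^ 2 := by positivity
    have a2 : 0 ≤ 2 * c.N * ‖c.z‖ + 2 * c.N ^ 2 * ‖c.z‖ ^ 2 := by positivity
    have hMe : M = (2 * c.N * ‖c.z‖ + 2 * c.N ^ 2 * ‖c.z‖ ^ 2) + (2 * c.N * |c.r| + 2 * c.N ^ 2 * |c.r| ^ 2) := by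
      rw [hM]
      ring
    rw [hMe]
    fin_cases i
    · change 2 * c.N * ‖c.z‖ + 2 * c.N ^ 2 * ‖c.z‖ ^ 2 ≤ _
      linarith
    · change 2 * c.N * ‖c.zb‖ + 2 * c.N ^ 2 * ‖c.zb‖ ^ 2 ≤ _
      rw [hzb]
      linarith
    · change 2 * c.N * ‖(c.r : ℂ)‖ + 2 * c.N ^ 2 * ‖(c.r : ℂ)‖ ^ 2 ≤ _
      rw [Complex.norm_real, Real.norm_eq_abs]
      linarith
  set C2 : ℝ := 1 + M * C1 with hC2
  have hC21 : 1 ≤ C2 := by
    have : 0 ≤ M * C1 := by positivity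
    linarith
  set K : ℕ := ⌈(1 + C2) * C1⌉₊ with hK
  have hK1 : (1 + C2) * C1 ≤ K := Nat.le_ceil _
  have hKr : (1 : ℝ) ≤ K := by nlinarith
  have hK1' : 1 ≤ K := by exact_mod_cast hKr
  set R : ℝ := C2 + 7 * K * C1 with hR
  have hR1 : 1 ≤ R := by
    have : 0 ≤ 7 * (K : ℝ) * C1 := by positivity
    linarith
  obtain ⟨Cg, hCg, hGX⟩ := GX_le c b R
  set C' : ℝ := (1 + ‖ka1 c b 1‖ + ‖ka2 c b 1‖) * R with hC'
  have hk1n : 0 ≤ ‖ka1 c b 1‖ := norm_nonneg _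
  have hk2n : 0 ≤ ‖ka2 c b 1‖ := norm_nonneg _
  have hC'1 : 1 ≤ C' := by
    rw [hC']
    nlinarith
  have hlC' : 0 ≤ Real.log C' := Real.log_nonneg hC'1
  refine ⟨K, hK1', Cg + 2 * Real.log C' + 2, by linarith, ?_⟩
  intro D Jp r η κ δ n k xb g hF hκ hδ hδ1 hk hη i1 i2 w t y0 hi1 hi2 hw ht hy0
  have hDr : (1 : ℝ) ≤ D := by exact_mod_cast hF.hD
  have hDJ : (D : ℝ) ≤ Jp := by exact_mod_cast hF.hDJ
  have hJ1 : (1 : ℝ) ≤ Jp := hDr.trans hDJ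
  have hJ0 : (0 : ℝ) < Jp := by linarith
  have hr1 := hF.hr
  have hC10 : 0 < C1 := by linarith
  -- notation
  set e0 := c.lat c.z (c.fam xb g i1 i2 0) with he0
  set e1 := c.lat c.zb (c.fam xb g i1 i2 0) with he1
  set e2 := c.lat c.r (c.fam xb g i1 i2 0) with he2
  set g0 := c.lat c.z g with hg0
  set g1 := c.lat c.zb g with hg1
  set g2 := c.lat c.r g with hg2
  have ng1 : ‖g1‖ = ‖g0‖ := by
    rw [hg1, lat_zb]
    exact RCLike.norm_conj _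
  have ng2 : ‖g2‖ = |c.latr g| := by rw [hg2, lat_r, Complex.norm_real, Real.norm_eq_abs]
  have be0 : ‖e0‖ ≤ C2 := by
    have h1 := L4a_norm c 0 xb g hi1 hi2 (hMi 0)
    change ‖e0‖ ≤ ‖c.lat c.z xb‖ + D * M * ‖g0‖ at h1
    have h2 : D * M * ‖g0‖ ≤ M * C1 := by
      calc (D : ℝ) * M * ‖g0‖ ≤ D * M * (C1 / Jp) :=
            mul_le_mul_of_nonneg_left hF.g0u (by positivity)
        _ ≤ Jp * M * (C1 / Jp) :=
            mul_le_mul_of_nonneg_right (mul_le_mul_of_nonneg_right hDJ hM0) (by positivity)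
        _ = M * C1 := by field_simp
    have := hF.xb0
    linarith
  have be1 : ‖e1‖ ≤ C2 := by
    have : ‖e1‖ = ‖e0‖ := by
      rw [he1, lat_zb]
      exact RCLike.norm_conj _
    rw [this]
    exact be0
  have be2 : ‖e2‖ ≤ C2 * r := by
    have h1 := L4a_norm c 2 xb g hi1 hi2 (hMi 2)
    change ‖e2‖ ≤ ‖c.lat c.r xb‖ + D * M * ‖g2‖ at h1
    have h3 : ‖c.lat c.r xb‖ ≤ r := by
      rw [lat_r, Complex.norm_real, Real.norm_eq_abs]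
      exact hF.xb2
    have h2 : D * M * ‖g2‖ ≤ M * C1 * r := by
      calc (D : ℝ) * M * ‖g2‖ ≤ D * M * (C1 * Jp ^ 2) := by
            rw [ng2]
            exact mul_le_mul_of_nonneg_left hF.g2u (by positivity)
        _ ≤ Jp * M * (C1 * Jp ^ 2) :=
            mul_le_mul_of_nonneg_right (mul_le_mul_of_nonneg_right hDJ hM0) (by positivity)
        _ = M * C1 * Jp ^ 3 := by ring
        _ ≤ M * C1 * r := mul_le_mul_of_nonneg_left hF.hJr (by positivity)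
    rw [hC2]
    linarith
  have hK0 : (0 : ℝ) ≤ K := Nat.cast_nonneg _
  -- the bound on the large disc
  have hbig : ∀ s : ℂ, ‖s‖ ≤ 7 * ((K * Jp : ℕ) : ℝ) →
      ‖L4a_h c b D n k w t e0 e1 e2 g0 g1 g2 s‖ ≤
        κ * Real.exp ((Cg + 2 * Real.log C' + 2) * D * Real.log (r + 2)) := by
    intro s hs
    have hs' : ‖s‖ ≤ 7 * K * Jp := by
      push_cast at hs
      linarith
    have b0 : ‖s * g0‖ ≤ 7 * K * C1 := by
      rw [norm_mul]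
      calc ‖s‖ * ‖g0‖ ≤ (7 * K * Jp) * (C1 / Jp) := mul_le_mul hs' hF.g0u (norm_nonneg _) (by positivity)
        _ = 7 * K * C1 := by field_simp
    have y1 : ‖-(e0 + s * g0)‖ ≤ R := by
      rw [norm_neg]
      exact (norm_add_le _ _).trans (add_le_add be0 b0)
    have k1 : ‖ka1 c b (e1 + s * g1)‖ ≤ C' * r := by
      rw [L4a_ka1, norm_mul]
      have h1 : ‖e1 + s * g1‖ ≤ R := by
        refine (norm_add_le _ _).trans (add_le_add be1 ?_)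
        rw [norm_mul, ng1, ← norm_mul]
        exact b0
      calc ‖ka1 c b 1‖ * ‖e1 + s * g1‖ ≤ ‖ka1 c b 1‖ * R := mul_le_mul_of_nonneg_left h1 hk1n
        _ ≤ C' * 1 := by
            rw [hC', mul_one]
            exact mul_le_mul_of_nonneg_right (by linarith) (by linarith)
        _ ≤ C' * r := mul_le_mul_of_nonneg_left hr1 (by linarith)
    have k2 : ‖ka2 c b (e2 + s * g2)‖ ≤ C' * r := by
      rw [L4a_ka2, norm_mul]
      have h1 : ‖e2 + s * g2‖ ≤ R * r := by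
        refine (norm_add_le _ _).trans ?_
        have h2 : ‖s * g2‖ ≤ 7 * K * C1 * r := by
          rw [norm_mul, ng2]
          calc ‖s‖ * |c.latr g| ≤ (7 * K * Jp) * (C1 * Jp ^ 2) :=
                mul_le_mul hs' hF.g2u (abs_nonneg _) (by positivity)
            _ = 7 * K * C1 * Jp ^ 3 := by ring
            _ ≤ 7 * K * C1 * r := mul_le_mul_of_nonneg_left hF.hJr (by positivity)
        calc ‖e2‖ + ‖s * g2‖ ≤ C2 * r + 7 * K * C1 * r := add_le_add be2 h2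
          _ = R * r := by rw [hR]; ring
      calc ‖ka2 c b 1‖ * ‖e2 + s * g2‖ ≤ ‖ka2 c b 1‖ * (R * r) := mul_le_mul_of_nonneg_left h1 hk2n
        _ = (‖ka2 c b 1‖ * R) * r := by ring
        _ ≤ C' * r := by
            refine mul_le_mul_of_nonneg_right ?_ (by linarith)
            rw [hC']
            exact mul_le_mul_of_nonneg_right (by linarith) (by linarith)
    have hT : 1 ≤ C' * r := by nlinarith
    have h1 := hGX D n k κ (C' * r) w t (-(e0 + s * g0)) (ka1 c b (e1 + s * g1)) (ka2 c b (e2 + s * g2))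
      hF.hD hκ hT (hw.trans (hδ1.trans hR1)) (ht.trans (hδ1.trans hR1)) y1 k1 k2 hk
    have h2 : L4a_h c b D n k w t e0 e1 e2 g0 g1 g2 s =
      GX c b D n k w t (-(e0 + s * g0)) (ka1 c b (e1 + s * g1)) (ka2 c b (e2 + s * g2)) := rfl
    rw [h2]
    refine h1.trans ?_
    rw [mul_assoc]
    refine mul_le_mul_of_nonneg_left ?_ hκ
    have hT0 : 0 < C' * r := by linarith
    have h3 : (C' * r) ^ (2 * D) = Real.exp (2 * D * (Real.log C' + Real.log r)) := by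
      rw [← Real.log_mul (by linarith) (by linarith)]
      have e4 : 2 * (D : ℝ) * Real.log (C' * r) = ((2 * D : ℕ) : ℝ) * Real.log (C' * r) := by push_cast; ring
      rw [e4, Real.exp_nat_mul, Real.exp_log hT0]
    rw [h3, ← Real.exp_add]
    apply Real.exp_le_exp.2
    have hl1 : 1 ≤ Real.log (r + 2) := by
      rw [Real.le_log_iff_exp_le (by linarith)]
      have := Real.exp_one_lt_d9
      linarith
    have hl2 : Real.log r ≤ Real.log (r + 2) := Real.log_le_log (by linarith) (by linarith)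
    set ℓ := Real.log (r + 2) with hℓ
    have h5 : Cg * D ≤ Cg * D * ℓ := by
      have : 0 ≤ Cg * D := by positivity
      nlinarith
    have h6 : 2 * D * Real.log C' ≤ 2 * D * Real.log C' * ℓ := by
      have : 0 ≤ 2 * D * Real.log C' := by positivity
      nlinarith
    have h7 : 2 * D * Real.log r ≤ 2 * D * ℓ := mul_le_mul_of_nonneg_left hl2 (by positivity)
    nlinarith
  -- the values at the integers
  have hint : ∀ j : ℤ, |j| ≤ ((K * Jp : ℕ) : ℤ) →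
      ‖L4a_h c b D n k w t e0 e1 e2 g0 g1 g2 (j : ℂ)‖ ≤ η := by
    intro j hj
    have h1 := hη i1 i2 j w t hi1 hi2 hj hw ht
    unfold GXe at h1
    rw [L4a_fam c c.z, L4a_fam c c.zb, L4a_fam c c.r] at h1
    exact h1
  have hKJ : 1 ≤ K * Jp := Nat.mul_pos hK1' (hF.hD.trans hF.hDJ)
  have g0pos : 0 < ‖g0‖ := lt_of_lt_of_le (by positivity) hF.g0l
  have g0ne : g0 ≠ 0 := norm_pos_iff.1 g0pos
  have hsn : ‖-((y0 + e0) / g0)‖ ≤ ((K * Jp : ℕ) : ℝ) := by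
    rw [norm_neg, norm_div, div_le_iff₀ g0pos]
    have h1 : ‖y0 + e0‖ ≤ 1 + C2 := (norm_add_le _ _).trans (add_le_add (hy0.trans hδ1) be0)
    have h2 : 1 ≤ C1 * Jp * ‖g0‖ := by
      have := hF.g0l
      rw [div_le_iff₀ (by positivity)] at this
      linarith
    push_cast
    calc ‖y0 + e0‖ ≤ (1 + C2) * 1 := by linarith
      _ ≤ (1 + C2) * (C1 * Jp * ‖g0‖) := mul_le_mul_of_nonneg_left h2 (by linarith)
      _ = ((1 + C2) * C1) * (Jp * ‖g0‖) := by ring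
      _ ≤ K * (Jp * ‖g0‖) := mul_le_mul_of_nonneg_right hK1 (by positivity)
      _ = K * Jp * ‖g0‖ := by ring
  have key := int_interp (L4a_diff c b D n k w t e0 e1 e2 g0 g1 g2) hKJ hbig hint _ hsn
  have hfin : L4a_h c b D n k w t e0 e1 e2 g0 g1 g2 (-((y0 + e0) / g0)) =
      GXs c b D n k w t y0 (c.fam xb g i1 i2 0) g := by
    unfold L4a_h GXs
    rw [← he0, ← he1, ← he2, ← hg0, ← hg1, ← hg2]
    have a1 : -(e0 + -((y0 + e0) / g0) * g0) = y0 := by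
      field_simp
      ring
    have a2 : e1 + -((y0 + e0) / g0) * g1 = e1 - (y0 + e0) / g0 * g1 := by ring
    have a3 : e2 + -((y0 + e0) / g0) * g2 = e2 - (y0 + e0) / g0 * g2 := by ring
    rw [a1, a2, a3]
  rw [hfin] at key
  exact key

end CZ
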