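import Pool.Agent.H22.CZ.P1

/-!
# Row P2: interpolation on an affine grid of `ℂ ^ 2`

PROOF. `q(s1, s2) = ∑_{a,b} p a b (x0 + s1 x1 + s2 x2)^a (y0 + s1 y1 + s2 y2)^b`. For fixed `s2` it is the value
at `s1` of a polynomial of degree `≤ 2 D`, and conversely. Put `R' = 4 R^3`. For integers `0 ≤ i2 ≤ 2D` and
`|s1| ≤ R'`: `poly_nodes` (`n = 2D`) gives `|q(s1, i2)| ≤ η (2(R' + 2D))^(2D)`. For fixed `|s1| ≤ R'` apply
`poly_nodes` again in `s2`: `|q(s1, s2)| ≤ η (2 (R' + 2D))^(4D)` for `|s1|, |s2| ≤ R'`.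
For `|x|, |y| ≤ 1` the solution of `x0 + s1 x1 + s2 x2 = x`, `y0 + s1 y1 + s2 y2 = y` is
`s1 = ((x - x0) y2 - (y - y0) x2)/det`, `s2 = (x1 (y - y0) - y1 (x - x0))/det`, `det = x1 y2 - x2 y1`, so
`|s1|, |s2| ≤ 2 (1 + R) R * R ≤ 4 R^3`. So `|∑ p a b x^a y^b| ≤ η (2(R' + 2D))^(4D)` for `|x|, |y| ≤ 1`; apply
`poly_coeff` in `y` (for fixed `x`) and then in `x`.
-/

set_option autoImplicit false

namespace CZ

open Polynomial

/-- The polynomial of a line. -/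
noncomputable def P2_pol {D : ℕ} (p : Fin (D + 1) → Fin (D + 1) → ℂ) (u1 v1 u2 v2 : ℂ) : ℂ[X] :=
  ∑ a : Fin (D + 1), ∑ b : Fin (D + 1),
    C (p a b) * ((C u1 + C v1 * X) ^ (a : ℕ) * (C u2 + C v2 * X) ^ (b : ℕ))

theorem P2_eval {D : ℕ} (p : Fin (D + 1) → Fin (D + 1) → ℂ) (u1 v1 u2 v2 s : ℂ) :
    (P2_pol p u1 v1 u2 v2).eval s = ∑ a : Fin (D + 1), ∑ b : Fin (D + 1),
      p a b * (u1 + v1 * s) ^ (a : ℕ) * (u2 + v2 * s) ^ (b : ℕ) := by
  unfold P2_pol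
  simp only [eval_finset_sum, eval_mul, eval_pow, eval_add, eval_C, eval_X, mul_assoc]

theorem P2_deg {D : ℕ} (p : Fin (D + 1) → Fin (D + 1) → ℂ) (u1 v1 u2 v2 : ℂ) :
    (P2_pol p u1 v1 u2 v2).natDegree ≤ 2 * D := by
  have hlin : ∀ u v : ℂ, (C u + C v * X : ℂ[X]).natDegree ≤ 1 := by
    intro u v
    refine (natDegree_add_le _ _).trans (max_le ?_ ?_)
    · rw [natDegree_C]
      exact Nat.zero_le _
    · exact (natDegree_C_mul_le _ _).trans natDegree_X_le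
  unfold P2_pol
  refine natDegree_sum_le_of_forall_le _ _ fun a _ => natDegree_sum_le_of_forall_le _ _ fun b _ => ?_
  refine (natDegree_C_mul_le _ _).trans (natDegree_mul_le.trans ?_)
  have h1 : ((C u1 + C v1 * X : ℂ[X]) ^ (a : ℕ)).natDegree ≤ (a : ℕ) * 1 :=
    natDegree_pow_le.trans (Nat.mul_le_mul_left _ (hlin _ _))
  have h2 : ((C u2 + C v2 * X : ℂ[X]) ^ (b : ℕ)).natDegree ≤ (b : ℕ) * 1 :=
    natDegree_pow_le.trans (Nat.mul_le_mul_left _ (hlin _ _))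
  have := a.2
  have := b.2
  omega

theorem P2_coef {D : ℕ} (c : Fin (D + 1) → ℂ) {η : ℝ}
    (h : ∀ s : ℂ, ‖s‖ ≤ 1 → ‖∑ b : Fin (D + 1), c b * s ^ (b : ℕ)‖ ≤ η) (b : Fin (D + 1)) :
    ‖c b‖ ≤ η := by
  have h1 := poly_coeff (p := ∑ b : Fin (D + 1), C (c b) * X ^ (b : ℕ)) (η := η) (fun s hs => by
    simp only [eval_finset_sum, eval_mul, eval_pow, eval_C, eval_X]
    exact h s hs) (b : ℕ)
  rw [finset_sum_coeff, Finset.sum_eq_single b] at h1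
  · rw [coeff_C_mul, coeff_X_pow, if_pos rfl, mul_one] at h1
    exact h1
  · intro b' _ hb'
    rw [coeff_C_mul, coeff_X_pow, if_neg fun hh => hb' (Fin.ext hh.symm), mul_zero]
  · intro hb
    exact absurd (Finset.mem_univ _) hb

theorem grid2 {D : ℕ} (p : Fin (D + 1) → Fin (D + 1) → ℂ) {x0 y0 x1 y1 x2 y2 : ℂ} {η R : ℝ}
    (hR : 1 ≤ R) (hx0 : ‖x0‖ ≤ R) (hy0 : ‖y0‖ ≤ R) (hx1 : ‖x1‖ ≤ R) (hy1 : ‖y1‖ ≤ R)
    (hx2 : ‖x2‖ ≤ R) (hy2 : ‖y2‖ ≤ R) (hdet : 1 ≤ R * ‖x1 * y2 - x2 * y1‖)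
    (h : ∀ i1 i2 : ℕ, i1 ≤ 2 * D → i2 ≤ 2 * D →
      ‖∑ a : Fin (D + 1), ∑ b : Fin (D + 1), p a b * (x0 + i1 * x1 + i2 * x2) ^ (a : ℕ) *
        (y0 + i1 * y1 + i2 * y2) ^ (b : ℕ)‖ ≤ η) (a b : Fin (D + 1)) :
    ‖p a b‖ ≤ η * (2 * (4 * R ^ 3 + 2 * D)) ^ (4 * D) := by
  have hR0 : 0 < R := by linarith
  obtain ⟨B, hB⟩ : ∃ B : ℝ, B = (2 * (4 * R ^ 3 + 2 * D)) ^ (2 * D) := ⟨_, rfl⟩
  have hBB : (2 * (4 * R ^ 3 + 2 * (D : ℝ))) ^ (4 * D) = B * B := by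
    rw [hB, ← pow_add]
    congr 1
    omega
  rw [hBB, ← mul_assoc]
  have hR3 : (0 : ℝ) ≤ 4 * R ^ 3 := by positivity
  -- first interpolation
  have h1 : ∀ (i2 : ℕ), i2 ≤ 2 * D → ∀ s1 : ℂ, ‖s1‖ ≤ 4 * R ^ 3 →
      ‖∑ a : Fin (D + 1), ∑ b : Fin (D + 1), p a b * (x0 + s1 * x1 + i2 * x2) ^ (a : ℕ) *
        (y0 + s1 * y1 + i2 * y2) ^ (b : ℕ)‖ ≤ η * B := by
    intro i2 hi2 s1 hs1
    have h2 := poly_nodes (P2_deg p (x0 + i2 * x2) x1 (y0 + i2 * y2) y1) (η := η) hR3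
      (fun i hi => by
        rw [P2_eval]
        refine le_trans (le_of_eq ?_) (h i i2 hi hi2)
        congr 1
        refine Finset.sum_congr rfl fun a _ => Finset.sum_congr rfl fun b _ => ?_
        congr 2
        · congr 1
          ring
        · ring) s1 hs1
    rw [P2_eval] at h2
    have h3 : η * (2 * (4 * R ^ 3 + ((2 * D : ℕ) : ℝ))) ^ (2 * D) = η * B := by
      rw [hB]
      push_cast
      ring
    rw [h3] at h2
    refine le_trans (le_of_eq ?_) h2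
    congr 1
    refine Finset.sum_congr rfl fun a _ => Finset.sum_congr rfl fun b _ => ?_
    congr 2
    · congr 1
      ring
    · ring
  -- second interpolation
  have h2 : ∀ s1 : ℂ, ‖s1‖ ≤ 4 * R ^ 3 → ∀ s2 : ℂ, ‖s2‖ ≤ 4 * R ^ 3 →
      ‖∑ a : Fin (D + 1), ∑ b : Fin (D + 1), p a b * (x0 + s1 * x1 + s2 * x2) ^ (a : ℕ) *
        (y0 + s1 * y1 + s2 * y2) ^ (b : ℕ)‖ ≤ η * B * B := by
    intro s1 hs1 s2 hs2
    have h2 := poly_nodes (P2_deg p (x0 + s1 * x1) x2 (y0 + s1 * y1) y2) (η := η * B) hR3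
      (fun i hi => by
        rw [P2_eval]
        refine le_trans (le_of_eq ?_) (h1 i hi s1 hs1)
        congr 1
        refine Finset.sum_congr rfl fun a _ => Finset.sum_congr rfl fun b _ => ?_
        congr 2
        · congr 1
          ring
        · ring) s2 hs2
    rw [P2_eval] at h2
    have h3 : η * B * (2 * (4 * R ^ 3 + ((2 * D : ℕ) : ℝ))) ^ (2 * D) = η * B * B := by
      rw [hB]
      push_cast
      ring
    rw [h3] at h2
    refine le_trans (le_of_eq ?_) h2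
    congr 1
    refine Finset.sum_congr rfl fun a _ => Finset.sum_congr rfl fun b _ => ?_
    congr 2
    · congr 1
      ring
    · ring
  -- change of coordinates
  have hd0 : 0 < ‖x1 * y2 - x2 * y1‖ := by
    by_contra hcon
    rw [not_lt] at hcon
    have := mul_le_mul_of_nonneg_left hcon hR0.le
    linarith
  have hd : x1 * y2 - x2 * y1 ≠ 0 := norm_pos_iff.1 hd0
  have hbd : ∀ u v u' v' : ℂ, ‖u‖ ≤ 1 + R → ‖v‖ ≤ R → ‖u'‖ ≤ 1 + R → ‖v'‖ ≤ R →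
      ‖(u * v - u' * v') / (x1 * y2 - x2 * y1)‖ ≤ 4 * R ^ 3 := by
    intro u v u' v' hu hv hu' hv'
    rw [norm_div, div_le_iff₀ hd0]
    have e1 : ‖u * v - u' * v'‖ ≤ (1 + R) * R + (1 + R) * R := by
      refine (norm_sub_le _ _).trans ?_
      rw [norm_mul, norm_mul]
      exact add_le_add (mul_le_mul hu hv (norm_nonneg _) (by positivity))
        (mul_le_mul hu' hv' (norm_nonneg _) (by positivity))
    have e2 : (1 + R) * R + (1 + R) * R ≤ 4 * R ^ 2 := by nlinarith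
    have e3 : 4 * R ^ 2 * 1 ≤ 4 * R ^ 2 * (R * ‖x1 * y2 - x2 * y1‖) :=
      mul_le_mul_of_nonneg_left hdet (by positivity)
    calc ‖u * v - u' * v'‖ ≤ 4 * R ^ 2 * 1 := by linarith
      _ ≤ 4 * R ^ 2 * (R * ‖x1 * y2 - x2 * y1‖) := e3
      _ = _ := by ring
  have h3 : ∀ x y : ℂ, ‖x‖ ≤ 1 → ‖y‖ ≤ 1 →
      ‖∑ a : Fin (D + 1), ∑ b : Fin (D + 1), p a b * x ^ (a : ℕ) * y ^ (b : ℕ)‖ ≤ η * B * B := by
    intro x y hx hy
    have hxx : ‖x - x0‖ ≤ 1 + R := (norm_sub_le _ _).trans (add_le_add hx hx0)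
    have hyy : ‖y - y0‖ ≤ 1 + R := (norm_sub_le _ _).trans (add_le_add hy hy0)
    have h4 := h2 (((x - x0) * y2 - (y - y0) * x2) / (x1 * y2 - x2 * y1))
      (hbd _ _ _ _ hxx hy2 hyy hx2) (((y - y0) * x1 - (x - x0) * y1) / (x1 * y2 - x2 * y1))
      (hbd _ _ _ _ hyy hx1 hxx hy1)
    have e0 : ∀ A B u v : ℂ, A / (x1 * y2 - x2 * y1) * u + B / (x1 * y2 - x2 * y1) * v =
        (A * u + B * v) / (x1 * y2 - x2 * y1) := by
      intro A B u v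
      ring
    have e1 : x0 + ((x - x0) * y2 - (y - y0) * x2) / (x1 * y2 - x2 * y1) * x1 +
        ((y - y0) * x1 - (x - x0) * y1) / (x1 * y2 - x2 * y1) * x2 = x := by
      have e3 : ((x - x0) * y2 - (y - y0) * x2) * x1 + ((y - y0) * x1 - (x - x0) * y1) * x2 =
        (x - x0) * (x1 * y2 - x2 * y1) := by ring
      rw [add_assoc, e0, e3, mul_div_assoc, div_self hd]
      ring
    have e2 : y0 + ((x - x0) * y2 - (y - y0) * x2) / (x1 * y2 - x2 * y1) * y1 +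
        ((y - y0) * x1 - (x - x0) * y1) / (x1 * y2 - x2 * y1) * y2 = y := by
      have e3 : ((x - x0) * y2 - (y - y0) * x2) * y1 + ((y - y0) * x1 - (x - x0) * y1) * y2 =
        (y - y0) * (x1 * y2 - x2 * y1) := by ring
      rw [add_assoc, e0, e3, mul_div_assoc, div_self hd]
      ring
    rw [e1, e2] at h4
    exact h4
  -- coefficients
  have h4 : ∀ (b : Fin (D + 1)) (x : ℂ), ‖x‖ ≤ 1 →
      ‖∑ a : Fin (D + 1), p a b * x ^ (a : ℕ)‖ ≤ η * B * B := by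
    intro b x hx
    refine P2_coef (fun b => ∑ a : Fin (D + 1), p a b * x ^ (a : ℕ)) (fun y hy => ?_) b
    refine le_trans (le_of_eq ?_) (h3 x y hx hy)
    rw [Finset.sum_comm]
    congr 1
    refine Finset.sum_congr rfl fun b _ => ?_
    rw [Finset.sum_mul]
  exact P2_coef (fun a => p a b) (fun x hx => h4 b x hx) a

end CZ
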