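import Pool.Agent.H22.CZ.L4a
import Pool.Agent.H22.CZ.L2
import Pool.Agent.H22.CZ.P2

/-!
# Row L4b: from the grid of values of `(ka1, ka2)` to all coefficients

PROOF. `δ = min (δ of lo) (δ0 of ell)`. Fix `w, t, y0` of norm `≤ δ`; `W = WW c b w t y0`, `|W| ≥ 1/2`,
`|ET c b D n w t y0| ≥ (1/2)^(2D)` (each of its two factors is a product of `D` numbers of modulus `≥ 1/2`),
`ζ1 = NX 3/W`, `ζ2 = NX 4/W` bounded by a constant (`bd 1`, `lo`).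
By `GX_fac`: `∑_{l3,l4} QX l3 l4 (ζ1 + k1)^l3 (ζ2 + k2)^l4 = GX/(W^(2D) ET)`, so at the points
`k1 = ka1(..), k2 = ka2(..)` of `GXs c b D n k w t y0 (fam xb g i1 i2 0) g` it is `≤ 16^D η1`.
GRID: with `ρ̂_i = N rt i`, `b_i(fam xb g i1 i2 0) = b_i(xb) + (i1 ρ̂_i + i2 ρ̂_i^2) g_i` and
`(y0 + b_0(fam))/g_0 = (y0 + b_0(xb))/g_0 + i1 ρ̂_0 + i2 ρ̂_0^2`, so
`b_i(fam) - (y0 + b_0(fam))/g_0 * g_i = [b_i(xb) - (y0 + b_0(xb))/g_0 g_i] + i1 (ρ̂_i - ρ̂_0) g_i + i2 (ρ̂_i^2 - ρ̂_0^2) g_i`.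
`ka1 v = α1 v`, `ka2 v = α2 v` with constants `α1 = mu 2πi fp(zb)/A1 ≠ 0`, `α2 = mu 2πi fp(r)/A2 ≠ 0`. So
`ζ1 + k1 = x0 + i1 x1 + i2 x2`, `ζ2 + k2 = y0' + i1 y1 + i2 y2`, with
`x1 = α1 (ρ̂_1 - ρ̂_0) g_1`, `x2 = α1 (ρ̂_1^2 - ρ̂_0^2) g_1`, `y1 = α2 (ρ̂_2 - ρ̂_0) g_2`, `y2 = α2 (ρ̂_2^2 - ρ̂_0^2) g_2`,
all of modulus `≤ C r` (`|g_1| ≤ C1`, `|g_2| ≤ C1 Jp^2 ≤ C1 r`, `|b_2(xb)| ≤ r`, `|(y0 + b_0(xb))/g_0| ≤ 2 C1 Jp`,
`Jp * Jp^2 ≤ r`), and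
`x1 y2 - x2 y1 = α1 α2 g_1 g_2 (ρ̂_1 - ρ̂_0)(ρ̂_2 - ρ̂_0)(ρ̂_2 - ρ̂_1)`, of modulus `≥ c |g_1||g_2| ≥
c (1/(C1 Jp)) (Jp^2/C1) ≥ c/C1^2` (`Jp ≥ 1`). So `grid2` applies with `R = C r` (`C` large, also
`R * |det| ≥ 1`): `|QX l3 l4| ≤ 16^D η1 (2 (4 R^3 + 2D))^(4D) ≤ η1 exp(C D log(r+2))` (`D ≤ Jp ≤ r`), for all
`w, t, y0` of norm `≤ δ`. By `ell`: `|k (ix ..)| ≤ C^D * that ≤ η1 exp(C6 D log(r+2))`.
(`η1 ≥ 0` follows from the hypothesis.)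
-/

set_option autoImplicit false

namespace CZ

open Complex

variable (c : CData) (b : BaseFn c.z)

/-- the constant of `ka1` -/
private noncomputable def al1 : ℂ := b.mu * (2 * Real.pi * I * c.fp c.zb) / c.A1

/-- the constant of `ka2` -/
private noncomputable def al2 : ℂ := b.mu * (2 * Real.pi * I * c.fp c.r) / c.A2

private lemma ka1_eq (v : ℂ) : ka1 c b v = al1 c b * v := by
  unfold ka1 al1; ring

private lemma ka2_eq (v : ℂ) : ka2 c b v = al2 c b * v := by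
  unfold ka2 al2; ring

private lemma al1_ne : al1 c b ≠ 0 := by
  have h := fp_ne c 1
  have h1 : c.fp c.zb ≠ 0 := h
  exact div_ne_zero (mul_ne_zero b.hmu (mul_ne_zero two_pi_I_ne_zero h1)) (A1_ne c)

private lemma al2_ne : al2 c b ≠ 0 := by
  have h := fp_ne c 2
  have h1 : c.fp c.r ≠ 0 := h
  exact div_ne_zero (mul_ne_zero b.hmu (mul_ne_zero two_pi_I_ne_zero h1)) (A2_ne c)

/-- `N` times a root -/
private noncomputable def rh (i : Fin 3) : ℂ := c.N * c.rt i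

private lemma rh_ne {i i' : Fin 3} (h : i ≠ i') : rh c i - rh c i' ≠ 0 := by
  unfold rh
  rw [← mul_sub]
  exact mul_ne_zero (N_ne c) (sub_ne_zero.2 (rt_ne c h))

private lemma lat_fam (i : Fin 3) (xb g : Fin 3 → ℤ) (i1 i2 : ℕ) :
    c.lat (c.rt i) (c.fam xb g i1 i2 0) = c.lat (c.rt i) xb +
      (i1 * rh c i + i2 * rh c i ^ 2) * c.lat (c.rt i) g := by
  unfold CData.fam rh
  rw [lat_add, lat_add, lat_add, lat_zsmul, lat_zsmul, lat_zsmul, lat_mulz, lat_mulz, lat_mulz]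
  push_cast
  ring

private lemma pow_lo {x : ℂ} (hx : 1 / 2 ≤ ‖x‖) (n : ℕ) : (1 / 2 : ℝ) ^ n ≤ ‖x ^ n‖ := by
  rw [norm_pow]
  exact pow_le_pow_left₀ (by norm_num) hx n

private lemma ET_lo {D : ℕ} (n : Fin 2 → Fin (D + 1)) {w t y : ℂ}
    (h5 : 1 / 2 ≤ ‖NX c b 5 w t y‖) (h6 : 1 / 2 ≤ ‖NX c b 6 w t y‖)
    (hD : ∀ a, 1 / 2 ≤ ‖DX c b a w t y‖) : (1 / 2 : ℝ) ^ (2 * D) ≤ ‖ET c b D n w t y‖ := by
  have key : ∀ (x y : ℂ) (m : Fin (D + 1)), 1 / 2 ≤ ‖x‖ → 1 / 2 ≤ ‖y‖ →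
      (1 / 2 : ℝ) ^ D ≤ ‖x ^ (m : ℕ) * y ^ (D - (m : ℕ))‖ := by
    intro x y m hx hy
    have hm : (m : ℕ) ≤ D := by have := m.2; omega
    rw [norm_mul]
    calc (1 / 2 : ℝ) ^ D = (1 / 2 : ℝ) ^ (m : ℕ) * (1 / 2 : ℝ) ^ (D - (m : ℕ)) := by
          rw [← pow_add]; congr 1; omega
      _ ≤ ‖x ^ (m : ℕ)‖ * ‖y ^ (D - (m : ℕ))‖ :=
          mul_le_mul (pow_lo hx _) (pow_lo hy _) (by positivity) (norm_nonneg _)
  unfold ET
  rw [norm_mul, two_mul, pow_add]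
  exact mul_le_mul (key _ _ _ h5 (hD 5)) (key _ _ _ h6 (hD 6)) (by positivity) (norm_nonneg _)

theorem grid_step {C1 : ℝ} (hC1 : 1 ≤ C1) : ∃ δ : ℝ, 0 < δ ∧ δ ≤ 1 ∧ ∃ C6 : ℝ, 1 ≤ C6 ∧
    ∀ (D Jp : ℕ) (r η1 : ℝ) (n : Fin 2 → Fin (D + 1)) (k : (Fin 7 → Fin (D + 1)) → ℂ)
      (xb g : Fin 3 → ℤ), FamHyp c C1 D Jp r xb g →
      (∀ (i1 i2 : ℕ) (w t y0 : ℂ), i1 ≤ 2 * D → i2 ≤ 2 * D → ‖w‖ ≤ δ → ‖t‖ ≤ δ → ‖y0‖ ≤ δ →
        ‖GXs c b D n k w t y0 (c.fam xb g i1 i2 0) g‖ ≤ η1) →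
      ∀ l0 l1 l2 l3 l4, ‖k (ix D l0 l1 l2 l3 l4 n)‖ ≤ η1 * Real.exp (C6 * D * Real.log (r + 2)) := by
  obtain ⟨δ1, hδ1, hδ1', hlo⟩ := lo c b
  obtain ⟨δ2, hδ2, hδ2', hell⟩ := ell c b
  set δ : ℝ := min δ1 δ2 with hδdef
  have hδ : 0 < δ := lt_min hδ1 hδ2
  have hδ_1 : δ ≤ δ1 := min_le_left _ _
  have hδle : δ ≤ 1 := hδ_1.trans hδ1'
  obtain ⟨C, hC, hellC⟩ := hell δ hδ (min_le_right _ _)
  obtain ⟨Cb, hCb, hbd⟩ := bd c b 1
  -- the determinant constant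
  set c0 : ℝ := ‖al1 c b * al2 c b * ((rh c 1 - rh c 0) * (rh c 2 - rh c 0) * (rh c 2 - rh c 1))‖
    with hc0
  have hc0pos : 0 < c0 := by
    rw [hc0, norm_pos_iff]
    exact mul_ne_zero (mul_ne_zero (al1_ne c b) (al2_ne c b))
      (mul_ne_zero (mul_ne_zero (rh_ne c (by decide)) (rh_ne c (by decide)))
        (rh_ne c (by decide)))
  -- a common bound
  obtain ⟨M, hM1, hMal1, hMal2, hMr1, hMr1', hMr2, hMr2', hMb, hMc⟩ : ∃ M : ℝ, 1 ≤ M ∧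
      ‖al1 c b‖ ≤ M ∧ ‖al2 c b‖ ≤ M ∧ ‖rh c 1 - rh c 0‖ ≤ M ∧ ‖rh c 1 ^ 2 - rh c 0 ^ 2‖ ≤ M ∧
      ‖rh c 2 - rh c 0‖ ≤ M ∧ ‖rh c 2 ^ 2 - rh c 0 ^ 2‖ ≤ M ∧ 2 * Cb ≤ M ∧ 1 ≤ M * c0 := by
    refine ⟨1 + ‖al1 c b‖ + ‖al2 c b‖ + ‖rh c 1 - rh c 0‖ + ‖rh c 1 ^ 2 - rh c 0 ^ 2‖ +
      ‖rh c 2 - rh c 0‖ + ‖rh c 2 ^ 2 - rh c 0 ^ 2‖ + 2 * Cb + 1 / c0, ?_⟩
    have h1 := norm_nonneg (al1 c b)
    have h2 := norm_nonneg (al2 c b)
    have h3 := norm_nonneg (rh c 1 - rh c 0)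
    have h4 := norm_nonneg (rh c 1 ^ 2 - rh c 0 ^ 2)
    have h5 := norm_nonneg (rh c 2 - rh c 0)
    have h6 := norm_nonneg (rh c 2 ^ 2 - rh c 0 ^ 2)
    have h7 : 0 < 1 / c0 := by positivity
    refine ⟨by linarith, by linarith, by linarith, by linarith, by linarith, by linarith,
      by linarith, by linarith, ?_⟩
    have h8 : 1 = (1 / c0) * c0 := by field_simp
    calc (1 : ℝ) = (1 / c0) * c0 := h8
      _ ≤ _ := by
        apply mul_le_mul_of_nonneg_right _ hc0pos.le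
        linarith
  have hM0 : 0 ≤ M := by linarith
  have hC10 : 0 ≤ C1 := by linarith
  set Cc : ℝ := 4 * M ^ 2 * C1 ^ 2 with hCc
  have hCc1 : 1 ≤ Cc := by
    have h1 : 1 ≤ M ^ 2 := one_le_pow₀ hM1
    have h2 : 1 ≤ C1 ^ 2 := one_le_pow₀ hC1
    rw [hCc]; nlinarith
  set Eb : ℝ := 16 * C * (12 * Cc ^ 3) ^ 4 with hEb
  have hEb1 : 1 ≤ Eb := by
    have h1 : 1 ≤ Cc ^ 3 := one_le_pow₀ hCc1
    have h2 : 1 ≤ (12 * Cc ^ 3) ^ 4 := one_le_pow₀ (by linarith)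
    rw [hEb]; nlinarith
  refine ⟨δ, hδ, hδle, Real.log Eb + 12, by linarith [Real.log_nonneg hEb1], ?_⟩
  intro D Jp r η1 n k xb g hF hGX l0 l1 l2 l3 l4
  have hη1 : 0 ≤ η1 := (norm_nonneg _).trans
    (hGX 0 0 0 0 0 (Nat.zero_le _) (Nat.zero_le _) (by simpa using hδ.le) (by simpa using hδ.le)
      (by simpa using hδ.le))
  have hJ1 : (1 : ℝ) ≤ Jp := by exact_mod_cast hF.hD.trans hF.hDJ
  have hJ0 : (0 : ℝ) < Jp := by linarith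
  have hr1 : 1 ≤ r := hF.hr
  have hJ2r : (Jp : ℝ) ^ 2 ≤ r := le_trans (pow_le_pow_right₀ hJ1 (by norm_num)) hF.hJr
  have hJr : (Jp : ℝ) ≤ r := by
    have : (Jp : ℝ) ^ 1 ≤ (Jp : ℝ) ^ 3 := pow_le_pow_right₀ hJ1 (by norm_num)
    rw [pow_one] at this
    exact this.trans hF.hJr
  have hDr : (D : ℝ) ≤ r := le_trans (by exact_mod_cast hF.hDJ) hJr
  -- notation
  set G0 : ℂ := c.lat c.z g with hG0
  set G1 : ℂ := c.lat c.zb g with hG1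
  set G2 : ℂ := c.lat c.r g with hG2
  set X0 : ℂ := c.lat c.z xb with hX0
  set X1 : ℂ := c.lat c.zb xb with hX1
  set X2 : ℂ := c.lat c.r xb with hX2
  have nG1 : ‖G1‖ = ‖G0‖ := by rw [hG1, lat_zb, RCLike.norm_conj]
  have nX1 : ‖X1‖ = ‖X0‖ := by rw [hX1, lat_zb, RCLike.norm_conj]
  have nG2 : ‖G2‖ = |c.latr g| := by rw [hG2, lat_r, Complex.norm_real, Real.norm_eq_abs]
  have nX2 : ‖X2‖ = |c.latr xb| := by rw [hX2, lat_r, Complex.norm_real, Real.norm_eq_abs]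
  have hC1J : 0 < C1 * Jp := by positivity
  have hG0pos : 0 < ‖G0‖ := lt_of_lt_of_le (by positivity) hF.g0l
  have hG0ne : G0 ≠ 0 := norm_pos_iff.1 hG0pos
  have hG0inv : 1 / ‖G0‖ ≤ C1 * Jp := by
    rw [div_le_iff₀ hG0pos]
    have := hF.g0l
    rw [div_le_iff₀ hC1J] at this
    linarith
  have hG1u : ‖G1‖ ≤ C1 := by
    rw [nG1]
    refine hF.g0u.trans ?_
    rw [div_le_iff₀ hJ0]
    nlinarith
  have hG2u : ‖G2‖ ≤ C1 * r := by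
    rw [nG2]
    exact hF.g2u.trans (mul_le_mul_of_nonneg_left hJ2r hC10)
  have hdetG : 1 / C1 ^ 2 ≤ ‖G1‖ * ‖G2‖ := by
    rw [nG1, nG2]
    calc 1 / C1 ^ 2 ≤ (1 / (C1 * Jp)) * ((Jp : ℝ) ^ 2 / C1) := by
          have : (1 / (C1 * Jp)) * ((Jp : ℝ) ^ 2 / C1) = Jp / C1 ^ 2 := by
            field_simp
          rw [this]
          exact div_le_div_of_nonneg_right hJ1 (by positivity)
      _ ≤ _ := mul_le_mul hF.g0l hF.g2l (by positivity) (norm_nonneg _)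
  set R : ℝ := Cc * r with hR
  have hR1 : 1 ≤ R := by rw [hR]; nlinarith
  -- the bound for the elliptic blocks
  have hQ : ∀ (l3 l4 : Fin (D + 1)) (w t y0 : ℂ), ‖w‖ ≤ δ → ‖t‖ ≤ δ → ‖y0‖ ≤ δ →
      ‖QX c b D n k l3 l4 w t y0‖ ≤ 16 ^ D * η1 * (2 * (4 * R ^ 3 + 2 * D)) ^ (4 * D) := by
    intro l3 l4 w t y0 hw ht hy
    obtain ⟨hDX, hW, h5, h6⟩ := hlo w t y0 (hw.trans hδ_1) (ht.trans hδ_1) (hy.trans hδ_1)
    set W : ℂ := WW c b w t y0 with hWdef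
    have hWpos : 0 < ‖W‖ := by linarith
    have hWne : W ≠ 0 := norm_pos_iff.1 hWpos
    have hb3 := (hbd 3 w t y0 (hw.trans hδle) (ht.trans hδle) (hy.trans hδle)).1
    have hb4 := (hbd 4 w t y0 (hw.trans hδle) (ht.trans hδle) (hy.trans hδle)).1
    set ζ1 : ℂ := NX c b 3 w t y0 / W with hζ1
    set ζ2 : ℂ := NX c b 4 w t y0 / W with hζ2
    have nζ : ∀ x : ℂ, ‖x‖ ≤ Cb → ‖x / W‖ ≤ M := by
      intro x hx
      rw [norm_div, div_le_iff₀ hWpos]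
      nlinarith
    have hζ1M : ‖ζ1‖ ≤ M := nζ _ hb3
    have hζ2M : ‖ζ2‖ ≤ M := nζ _ hb4
    set q0 : ℂ := (y0 + X0) / G0 with hq0
    have hyX : ‖y0 + X0‖ ≤ 2 := by
      have h1 := norm_add_le y0 X0
      have h2 := hF.xb0
      linarith [hy.trans hδle]
    have hq0n : ‖q0‖ ≤ 2 * (C1 * Jp) := by
      rw [hq0, norm_div, div_eq_mul_one_div]
      exact mul_le_mul hyX hG0inv (by positivity) (by norm_num)
    set x0 : ℂ := ζ1 + al1 c b * (X1 - q0 * G1) with hx0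
    set y0' : ℂ := ζ2 + al2 c b * (X2 - q0 * G2) with hy0'
    set x1 : ℂ := al1 c b * ((rh c 1 - rh c 0) * G1) with hx1
    set x2 : ℂ := al1 c b * ((rh c 1 ^ 2 - rh c 0 ^ 2) * G1) with hx2
    set y1 : ℂ := al2 c b * ((rh c 2 - rh c 0) * G2) with hy1
    set y2 : ℂ := al2 c b * ((rh c 2 ^ 2 - rh c 0 ^ 2) * G2) with hy2
    have hMM : M ≤ M ^ 2 := by nlinarith
    have hCC : C1 ≤ C1 ^ 2 := by nlinarith
    have hM2 : 1 ≤ M ^ 2 := one_le_pow₀ hM1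
    have hC2 : 1 ≤ C1 ^ 2 := one_le_pow₀ hC1
    have hRge : 4 * M ^ 2 * C1 ^ 2 * r = R := by rw [hR]
    have hbig : ∀ a : ℝ, 0 ≤ a → a ≤ M ^ 2 → ∀ e : ℝ, 0 ≤ e → e ≤ 4 * (C1 ^ 2 * r) → a * e ≤ R := by
      intro a ha ha' e he he'
      calc a * e ≤ M ^ 2 * (4 * (C1 ^ 2 * r)) := mul_le_mul ha' he' he (by positivity)
        _ = R := by rw [← hRge]; ring
    have hC2r : C1 ≤ C1 ^ 2 * r := by nlinarith
    have hC2r' : C1 * r ≤ C1 ^ 2 * r := mul_le_mul_of_nonneg_right hCC (by linarith)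
    have h1r : 1 ≤ C1 ^ 2 * r := by nlinarith
    have hrr : r ≤ C1 ^ 2 * r := by nlinarith
    have nx0 : ‖x0‖ ≤ R := by
      have h1 : ‖q0 * G1‖ ≤ 2 := by
        rw [norm_mul, nG1, hq0, norm_div, div_mul_cancel₀ _ hG0pos.ne']
        exact hyX
      have h2 : ‖X1 - q0 * G1‖ ≤ 3 := by
        have := norm_sub_le X1 (q0 * G1)
        have h3 : ‖X1‖ ≤ 1 := by rw [nX1]; exact hF.xb0
        linarith
      have h4 : ‖x0‖ ≤ M * 4 := by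
        calc ‖x0‖ ≤ ‖ζ1‖ + ‖al1 c b * (X1 - q0 * G1)‖ := norm_add_le _ _
          _ ≤ M + M * 3 := by
            rw [norm_mul]
            exact add_le_add hζ1M (mul_le_mul hMal1 h2 (norm_nonneg _) hM0)
          _ = M * 4 := by ring
      exact h4.trans (hbig M hM0 hMM 4 (by norm_num) (by linarith))
    have ny0 : ‖y0'‖ ≤ R := by
      have h1 : ‖q0 * G2‖ ≤ 2 * (C1 ^ 2 * r) := by
        rw [norm_mul, nG2]
        calc ‖q0‖ * |c.latr g| ≤ (2 * (C1 * Jp)) * (C1 * (Jp : ℝ) ^ 2) :=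
              mul_le_mul hq0n hF.g2u (abs_nonneg _) (by positivity)
          _ = 2 * (C1 ^ 2 * (Jp : ℝ) ^ 3) := by ring
          _ ≤ 2 * (C1 ^ 2 * r) := by
              have := mul_le_mul_of_nonneg_left hF.hJr (sq_nonneg C1)
              linarith
      have h2 : ‖X2 - q0 * G2‖ ≤ 3 * (C1 ^ 2 * r) := by
        have := norm_sub_le X2 (q0 * G2)
        have h3 : ‖X2‖ ≤ r := by rw [nX2]; exact hF.xb2
        linarith
      have h4 : ‖y0'‖ ≤ M * (4 * (C1 ^ 2 * r)) := by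
        calc ‖y0'‖ ≤ ‖ζ2‖ + ‖al2 c b * (X2 - q0 * G2)‖ := norm_add_le _ _
          _ ≤ M + M * (3 * (C1 ^ 2 * r)) := by
            rw [norm_mul]
            exact add_le_add hζ2M (mul_le_mul hMal2 h2 (norm_nonneg _) hM0)
          _ ≤ M * (4 * (C1 ^ 2 * r)) := by nlinarith
      exact h4.trans (hbig M hM0 hMM _ (by positivity) le_rfl)
    have nal : ∀ (α β γ : ℂ) (e : ℝ), ‖α‖ ≤ M → ‖β‖ ≤ M → ‖γ‖ ≤ e → e ≤ C1 ^ 2 * r → 0 ≤ e →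
        ‖α * (β * γ)‖ ≤ R := by
      intro α β γ e hα hβ hγ he he0
      rw [norm_mul, norm_mul, ← mul_assoc]
      have h1 : ‖α‖ * ‖β‖ ≤ M ^ 2 := by
        rw [sq]; exact mul_le_mul hα hβ (norm_nonneg _) hM0
      refine le_trans (mul_le_mul h1 hγ (norm_nonneg _) (by positivity)) ?_
      exact hbig _ (by positivity) le_rfl e he0 (by linarith)
    have nx1 : ‖x1‖ ≤ R := nal _ _ _ C1 hMal1 hMr1 hG1u hC2r hC10
    have nx2 : ‖x2‖ ≤ R := nal _ _ _ C1 hMal1 hMr1' hG1u hC2r hC10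
    have ny1 : ‖y1‖ ≤ R := nal _ _ _ (C1 * r) hMal2 hMr2 hG2u hC2r' (by positivity)
    have ny2 : ‖y2‖ ≤ R := nal _ _ _ (C1 * r) hMal2 hMr2' hG2u hC2r' (by positivity)
    have hdet : 1 ≤ R * ‖x1 * y2 - x2 * y1‖ := by
      have h1 : x1 * y2 - x2 * y1 = (al1 c b * al2 c b * ((rh c 1 - rh c 0) * (rh c 2 - rh c 0) *
          (rh c 2 - rh c 1))) * (G1 * G2) := by
        rw [hx1, hx2, hy1, hy2]; ring
      rw [h1, norm_mul, norm_mul G1, ← hc0]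
      have h2 : c0 * (1 / C1 ^ 2) ≤ c0 * (‖G1‖ * ‖G2‖) := mul_le_mul_of_nonneg_left hdetG hc0pos.le
      have h3 : 4 * M * (M * c0) * r ≤ R * (c0 * (1 / C1 ^ 2)) := by
        rw [← hRge]
        apply le_of_eq
        field_simp
      have h4 : 1 ≤ 4 * M * (M * c0) * r := by
        have h5 : 1 ≤ 4 * M := by linarith
        have h6 : 1 ≤ 4 * M * (M * c0) := by
          calc (1 : ℝ) = 1 * 1 := by ring
            _ ≤ 4 * M * (M * c0) := mul_le_mul h5 hMc (by norm_num) (by linarith)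
        calc (1 : ℝ) = 1 * 1 := by ring
          _ ≤ 4 * M * (M * c0) * r := mul_le_mul h6 hr1 (by norm_num) (by linarith)
      exact h4.trans (h3.trans (mul_le_mul_of_nonneg_left h2 (by linarith)))
    refine grid2 (fun a b' => QX c b D n k a b' w t y0) hR1 nx0 ny0 nx1 ny1 nx2 ny2 hdet ?_ l3 l4
    intro i1 i2 hi1 hi2
    have hG := hGX i1 i2 w t y0 hi1 hi2 hw ht hy
    unfold GXs at hG
    rw [GX_fac c b n k hWne, norm_mul, norm_mul] at hG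
    have e0 := lat_fam c 0 xb g i1 i2
    have e1 := lat_fam c 1 xb g i1 i2
    have e2 := lat_fam c 2 xb g i1 i2
    change c.lat c.z _ = X0 + _ * G0 at e0
    change c.lat c.zb _ = X1 + _ * G1 at e1
    change c.lat c.r _ = X2 + _ * G2 at e2
    have hk1 : ζ1 + ka1 c b (c.lat c.zb (c.fam xb g i1 i2 0) -
        (y0 + c.lat c.z (c.fam xb g i1 i2 0)) / c.lat c.z g * c.lat c.zb g) =
        x0 + i1 * x1 + i2 * x2 := by
      rw [ka1_eq, e0, e1, ← hG0, ← hG1]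
      have h1 : (y0 + (X0 + (i1 * rh c 0 + i2 * rh c 0 ^ 2) * G0)) / G0 =
          q0 + (i1 * rh c 0 + i2 * rh c 0 ^ 2) := by
        rw [hq0]; field_simp; ring
      rw [h1, hx0, hx1, hx2]
      ring
    have hk2 : ζ2 + ka2 c b (c.lat c.r (c.fam xb g i1 i2 0) -
        (y0 + c.lat c.z (c.fam xb g i1 i2 0)) / c.lat c.z g * c.lat c.r g) =
        y0' + i1 * y1 + i2 * y2 := by
      rw [ka2_eq, e0, e2, ← hG0, ← hG2]
      have h1 : (y0 + (X0 + (i1 * rh c 0 + i2 * rh c 0 ^ 2) * G0)) / G0 =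
          q0 + (i1 * rh c 0 + i2 * rh c 0 ^ 2) := by
        rw [hq0]; field_simp; ring
      rw [h1, hy0', hy1, hy2]
      ring
    rw [← hWdef, ← hζ1, ← hζ2, hk1, hk2] at hG
    set Sg : ℂ := ∑ l3 : Fin (D + 1), ∑ l4 : Fin (D + 1), QX c b D n k l3 l4 w t y0 *
      (x0 + i1 * x1 + i2 * x2) ^ (l3 : ℕ) * (y0' + i1 * y1 + i2 * y2) ^ (l4 : ℕ) with hSg
    change ‖Sg‖ ≤ _
    have hWlo : (1 / 2 : ℝ) ^ (2 * D) ≤ ‖W ^ (2 * D)‖ := pow_lo hW _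
    have hElo := ET_lo c b n h5 h6 hDX
    have h16 : (1 / 2 : ℝ) ^ (2 * D) * (1 / 2 : ℝ) ^ (2 * D) * 16 ^ D = 1 := by
      rw [pow_mul, ← mul_pow, ← mul_pow]
      norm_num
    have hprod : (1 / 2 : ℝ) ^ (2 * D) * (1 / 2 : ℝ) ^ (2 * D) * ‖Sg‖ ≤ η1 := by
      refine le_trans ?_ hG
      exact mul_le_mul_of_nonneg_right (mul_le_mul hWlo hElo (by positivity) (norm_nonneg _))
        (norm_nonneg _)
    calc ‖Sg‖ = 16 ^ D * ((1 / 2 : ℝ) ^ (2 * D) * (1 / 2 : ℝ) ^ (2 * D) * ‖Sg‖) := by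
          rw [← mul_assoc, mul_comm ((16 : ℝ) ^ D), h16, one_mul]
      _ ≤ 16 ^ D * η1 := mul_le_mul_of_nonneg_left hprod (by positivity)
  have hfin := hellC D (fun a0 a1 a2 => k (ix D a0 a1 a2 l3 l4 n))
    (16 ^ D * η1 * (2 * (4 * R ^ 3 + 2 * D)) ^ (4 * D))
    (fun w t y hw ht hy => hQ l3 l4 w t y hw ht hy) l0 l1 l2
  refine hfin.trans ?_
  -- the numerical estimate
  have hL1 : 1 ≤ Real.log (r + 2) := by
    rw [Real.le_log_iff_exp_le (by linarith)]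
    have := Real.exp_one_lt_d9
    linarith
  have hX : 2 * (4 * R ^ 3 + 2 * D) ≤ 12 * Cc ^ 3 * (r + 2) ^ 3 := by
    have h1 : R ^ 3 = Cc ^ 3 * r ^ 3 := by rw [hR]; ring
    have h2 : r ^ 3 ≤ (r + 2) ^ 3 := pow_le_pow_left₀ (by linarith) (by linarith) 3
    have h3 : (D : ℝ) ≤ Cc ^ 3 * (r + 2) ^ 3 := by
      have h4 : 1 ≤ Cc ^ 3 := one_le_pow₀ hCc1
      have h5 : r ≤ (r + 2) ^ 3 := by nlinarith [sq_nonneg (r + 2), sq_nonneg r]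
      calc (D : ℝ) ≤ r := hDr
        _ ≤ (r + 2) ^ 3 := h5
        _ ≤ Cc ^ 3 * (r + 2) ^ 3 := le_mul_of_one_le_left (by positivity) h4
    have h6 : Cc ^ 3 * r ^ 3 ≤ Cc ^ 3 * (r + 2) ^ 3 := mul_le_mul_of_nonneg_left h2 (by positivity)
    rw [h1]
    linarith
  have hbase : C * (16 * (2 * (4 * R ^ 3 + 2 * D)) ^ 4) ≤
      Real.exp ((Real.log Eb + 12) * Real.log (r + 2)) := by
    have h0 : 0 ≤ 2 * (4 * R ^ 3 + 2 * (D : ℝ)) := by positivity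
    have h1 : (2 * (4 * R ^ 3 + 2 * (D : ℝ))) ^ 4 ≤ (12 * Cc ^ 3 * (r + 2) ^ 3) ^ 4 :=
      pow_le_pow_left₀ h0 hX 4
    have h2 : C * (16 * (2 * (4 * R ^ 3 + 2 * (D : ℝ))) ^ 4) ≤ Eb * (r + 2) ^ 12 := by
      calc C * (16 * (2 * (4 * R ^ 3 + 2 * (D : ℝ))) ^ 4)
          ≤ C * (16 * (12 * Cc ^ 3 * (r + 2) ^ 3) ^ 4) := by
            apply mul_le_mul_of_nonneg_left _ (by linarith)
            linarith
        _ = Eb * (r + 2) ^ 12 := by rw [hEb]; ring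
    refine h2.trans ?_
    rw [add_mul, Real.exp_add]
    have h3 : Eb ≤ Real.exp (Real.log Eb * Real.log (r + 2)) := by
      calc Eb = Real.exp (Real.log Eb) := (Real.exp_log (by linarith)).symm
        _ ≤ _ := by
          apply Real.exp_le_exp.2
          exact le_mul_of_one_le_right (Real.log_nonneg hEb1) hL1
    have h4 : (r + 2) ^ 12 = Real.exp (12 * Real.log (r + 2)) := by
      rw [mul_comm, ← Real.rpow_def_of_pos (by linarith)]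
      norm_cast
    rw [h4]
    exact mul_le_mul_of_nonneg_right h3 (Real.exp_pos _).le
  calc C ^ D * (16 ^ D * η1 * (2 * (4 * R ^ 3 + 2 * D)) ^ (4 * D))
      = η1 * (C * (16 * (2 * (4 * R ^ 3 + 2 * D)) ^ 4)) ^ D := by
        generalize 2 * (4 * R ^ 3 + 2 * (D : ℝ)) = Xx
        rw [mul_pow C, mul_pow 16, ← pow_mul]; ring
    _ ≤ η1 * (Real.exp ((Real.log Eb + 12) * Real.log (r + 2))) ^ D := by
        apply mul_le_mul_of_nonneg_left _ hη1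
        exact pow_le_pow_left₀ (by positivity) hbase D
    _ = η1 * Real.exp ((Real.log Eb + 12) * D * Real.log (r + 2)) := by
        rw [← Real.exp_nat_mul]
        congr 2
        ring

end CZ
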