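import Pool.Agent.H22.CZ.Al

/-!
# Row La1: the traces are even integers

PROOF. Power sums `p k = ∑ i, c.rt i ^ k`. CLAIM: for every `k` there is an integer `P k` with
`N^k p_k = P k` (in `ℂ`). `p_0 = 3`; `N p_1 = -b2` (`he1`); `N^2 p_2 = (N p_1)^2 - 2 N (N e2) =
b2^2 - 2 N b1`; and from `rt_root` multiplied by `ρ^k` and summed:
`N^(k+3) p_(k+3) = -b2 (N^(k+2) p_(k+2)) - b1 N (N^(k+1) p_(k+1)) - b0 N^2 (N^k p_k)`. Strong
induction (or `Nat.rec` for three consecutive values).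

CLAIM 2: for `a ≤ 5` and `x : Fin 3 → ℤ`: `∑ i, ρ_i^a * lat ρ_i x = 2 m` with `m : ℤ`, because it is
`2 (x0 N^(5-a) (N^a p_a) + x1 N^(5-a) (N^(a+1) p_(a+1)) + x2 N^(5-a) (N^(a+2) p_(a+2)))`.
`trace_even`: `nu j ρ` is a sum of at most two monomials `ρ^a`, `a ≤ 2` (`fin_cases j`), so apply
CLAIM 2 with `a ≤ 2`, and with `a ≤ 3` for `ρ * nu j ρ`.

`trace_be`: `be l ρ = (3 N ρ^2 + 2 b2 ρ + b1) ρ^l` and
`lat ρ x ^2 = 4 N^10 (x0 + x1 N ρ + x2 N^2 ρ^2)^2`, so `ρ be l ρ (lat ρ x)^2` is an integral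
combination of the terms `4 N^10 N^e ρ^(a+e)` with `a ≤ 4` (`a` = the exponent coming from
`ρ be l ρ`, `e ≤ 4` the one coming from the square), and `N^10 N^e p_(a+e) = N^(10-a) (N^(a+e) p_(a+e))`
is an integer. So the sum is `4 *` an integer; in particular `2 * m`.
-/

set_option autoImplicit false

namespace CZ

open Complex

variable (c : CData)

theorem La1_pow (k : ℕ) : ∃ P : ℤ, ∑ i : Fin 3, ((c.N : ℂ) * c.rt i) ^ k = (P : ℂ) := by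
  have hN := N_ne c
  have key : ∀ k : ℕ, (∃ P : ℤ, ∑ i : Fin 3, ((c.N : ℂ) * c.rt i) ^ k = (P : ℂ)) ∧
      (∃ P : ℤ, ∑ i : Fin 3, ((c.N : ℂ) * c.rt i) ^ (k + 1) = (P : ℂ)) ∧
      (∃ P : ℤ, ∑ i : Fin 3, ((c.N : ℂ) * c.rt i) ^ (k + 2) = (P : ℂ)) := by
    intro k
    induction k with
    | zero =>
      have h1 := c.he1
      have h2 := c.he2
      have e0 : c.rt 0 = c.z := rfl
      have e1 : c.rt 1 = (starRingEnd ℂ) c.z := rfl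
      have e2 : c.rt 2 = (c.r : ℂ) := rfl
      refine ⟨⟨3, ?_⟩, ⟨-c.b2, ?_⟩, ⟨c.b2 ^ 2 - 2 * c.N * c.b1, ?_⟩⟩
      · simp
      · rw [Fin.sum_univ_three, e0, e1, e2]
        push_cast
        linear_combination h1
      · rw [Fin.sum_univ_three, e0, e1, e2]
        push_cast
        linear_combination ((c.N : ℂ) * (c.z + (starRingEnd ℂ) c.z + c.r) - c.b2) * h1 - 2 * (c.N : ℂ) * h2
    | succ k ih =>
      obtain ⟨⟨P0, h0⟩, ⟨P1, h1⟩, ⟨P2, h2⟩⟩ := ih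
      refine ⟨⟨P1, h1⟩, ⟨P2, h2⟩, ⟨-c.b2 * P2 - c.N * c.b1 * P1 - c.N ^ 2 * c.b0 * P0, ?_⟩⟩
      have hr : ∀ i : Fin 3, ((c.N : ℂ) * c.rt i) ^ (k + 1 + 2) =
          -c.b2 * ((c.N : ℂ) * c.rt i) ^ (k + 2) - c.N * c.b1 * ((c.N : ℂ) * c.rt i) ^ (k + 1)
            - c.N ^ 2 * c.b0 * ((c.N : ℂ) * c.rt i) ^ k := by
        intro i
        have h3 := rt_root c i
        have h4 : ((c.N : ℂ) * c.rt i) ^ 3 + c.b2 * ((c.N : ℂ) * c.rt i) ^ 2 + c.N * c.b1 * ((c.N : ℂ) * c.rt i)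
            + c.N ^ 2 * c.b0 = 0 := by
          have h5 : (c.N : ℂ) ^ 3 * (c.rt i ^ 3 + (c.b2 / c.N) * c.rt i ^ 2 + (c.b1 / c.N) * c.rt i + c.b0 / c.N) = 0 := by
            rw [h3, mul_zero]
          rw [← h5]
          field_simp
        have h6 : ((c.N : ℂ) * c.rt i) ^ (k + 1 + 2) = ((c.N : ℂ) * c.rt i) ^ k * ((c.N : ℂ) * c.rt i) ^ 3 := by ring
        rw [h6]
        linear_combination ((c.N : ℂ) * c.rt i) ^ k * h4
      rw [Finset.sum_congr rfl (fun i _ => hr i), Finset.sum_sub_distrib, Finset.sum_sub_distrib,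
        ← Finset.mul_sum, ← Finset.mul_sum, ← Finset.mul_sum, h0, h1, h2]
      push_cast
      ring
  exact (key k).1

theorem La1_poly (Q : Polynomial ℤ) :
    ∃ P : ℤ, ∑ i : Fin 3, Polynomial.aeval ((c.N : ℂ) * c.rt i) Q = (P : ℂ) := by
  induction Q using Polynomial.induction_on' with
  | add p q hp hq =>
    obtain ⟨P, hP⟩ := hp
    obtain ⟨R, hR⟩ := hq
    refine ⟨P + R, ?_⟩
    simp only [map_add, Finset.sum_add_distrib, hP, hR]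
    push_cast
    ring
  | monomial n a =>
    obtain ⟨P, hP⟩ := La1_pow c n
    refine ⟨a * P, ?_⟩
    simp only [Polynomial.aeval_monomial]
    rw [← Finset.mul_sum, hP]
    simp

theorem La1_mono (a : ℕ) (ha : a ≤ 5) (x : Fin 3 → ℤ) :
    ∃ m : ℤ, ∑ i : Fin 3, c.rt i ^ a * c.lat (c.rt i) x = 2 * (m : ℂ) := by
  obtain ⟨P, hP⟩ := La1_poly c (Polynomial.C ((c.N : ℤ) ^ (5 - a)) * Polynomial.X ^ a *
    (Polynomial.C (x 0) + Polynomial.C (x 1) * Polynomial.X + Polynomial.C (x 2) * Polynomial.X ^ 2))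
  refine ⟨P, ?_⟩
  rw [← hP, Finset.mul_sum]
  refine Finset.sum_congr rfl fun i _ => ?_
  have e : (c.N : ℂ) ^ 5 = (c.N : ℂ) ^ (5 - a) * (c.N : ℂ) ^ a := by
    rw [← pow_add]
    congr 1
    omega
  simp only [map_mul, map_add, map_pow, Polynomial.aeval_C, Polynomial.aeval_X, CData.lat]
  rw [e]
  simp
  ring

theorem trace_even (j : Fin 6) (x : Fin 3 → ℤ) :
    (∃ n : ℤ, ∑ i : Fin 3, nu j (c.rt i) * c.lat (c.rt i) x = 2 * (n : ℂ)) ∧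
    (∃ m : ℤ, ∑ i : Fin 3, c.rt i * nu j (c.rt i) * c.lat (c.rt i) x = 2 * (m : ℂ)) := by
  obtain ⟨m0, h0⟩ := La1_mono c 0 (by norm_num) x
  obtain ⟨m1, h1⟩ := La1_mono c 1 (by norm_num) x
  obtain ⟨m2, h2⟩ := La1_mono c 2 (by norm_num) x
  obtain ⟨m3, h3⟩ := La1_mono c 3 (by norm_num) x
  rw [Fin.sum_univ_three] at h0 h1 h2 h3
  simp only [Fin.sum_univ_three]
  fin_cases j
  · refine ⟨⟨m0, ?_⟩, ⟨m1, ?_⟩⟩
    · show (1 : ℂ) * _ + 1 * _ + 1 * _ = _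
      linear_combination h0
    · show _ * (1 : ℂ) * _ + _ * 1 * _ + _ * 1 * _ = _
      linear_combination h1
  · refine ⟨⟨m1, ?_⟩, ⟨m2, ?_⟩⟩
    · show c.rt 0 * _ + c.rt 1 * _ + c.rt 2 * _ = _
      linear_combination h1
    · show _ * c.rt 0 * _ + _ * c.rt 1 * _ + _ * c.rt 2 * _ = _
      linear_combination h2
  · refine ⟨⟨m2, ?_⟩, ⟨m3, ?_⟩⟩
    · show c.rt 0 ^ 2 * _ + c.rt 1 ^ 2 * _ + c.rt 2 ^ 2 * _ = _
      linear_combination h2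
    · show _ * c.rt 0 ^ 2 * _ + _ * c.rt 1 ^ 2 * _ + _ * c.rt 2 ^ 2 * _ = _
      linear_combination h3
  · refine ⟨⟨m0 + m1, ?_⟩, ⟨m1 + m2, ?_⟩⟩
    · show (1 + c.rt 0) * _ + (1 + c.rt 1) * _ + (1 + c.rt 2) * _ = _
      push_cast
      linear_combination h0 + h1
    · show _ * (1 + c.rt 0) * _ + _ * (1 + c.rt 1) * _ + _ * (1 + c.rt 2) * _ = _
      push_cast
      linear_combination h1 + h2
  · refine ⟨⟨m0 + m2, ?_⟩, ⟨m1 + m3, ?_⟩⟩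
    · show (1 + c.rt 0 ^ 2) * _ + (1 + c.rt 1 ^ 2) * _ + (1 + c.rt 2 ^ 2) * _ = _
      push_cast
      linear_combination h0 + h2
    · show _ * (1 + c.rt 0 ^ 2) * _ + _ * (1 + c.rt 1 ^ 2) * _ + _ * (1 + c.rt 2 ^ 2) * _ = _
      push_cast
      linear_combination h1 + h3
  · refine ⟨⟨m1 + m2, ?_⟩, ⟨m2 + m3, ?_⟩⟩
    · show (c.rt 0 + c.rt 0 ^ 2) * _ + (c.rt 1 + c.rt 1 ^ 2) * _ + (c.rt 2 + c.rt 2 ^ 2) * _ = _
      push_cast
      linear_combination h1 + h2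
    · show _ * (c.rt 0 + c.rt 0 ^ 2) * _ + _ * (c.rt 1 + c.rt 1 ^ 2) * _ + _ * (c.rt 2 + c.rt 2 ^ 2) * _ = _
      push_cast
      linear_combination h2 + h3

theorem La1_be (ρ : ℂ) (l : Fin 2) : c.be l ρ = (3 * c.N * ρ ^ 2 + 2 * c.b2 * ρ + c.b1) * ρ ^ (l : ℕ) := by
  have hN := N_ne c
  unfold CData.be CData.fp
  field_simp

theorem trace_be (l : Fin 2) (x : Fin 3 → ℤ) :
    ∃ m : ℤ, ∑ i : Fin 3, c.rt i * c.be l (c.rt i) * c.lat (c.rt i) x ^ 2 = 2 * (m : ℂ) := by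
  obtain ⟨P, hP⟩ := La1_poly c (Polynomial.C ((c.N : ℤ) ^ (8 - (l : ℕ))) *
    (Polynomial.C (x 0) + Polynomial.C (x 1) * Polynomial.X + Polynomial.C (x 2) * Polynomial.X ^ 2) ^ 2 *
    (Polynomial.C 3 * Polynomial.X ^ 2 + Polynomial.C (2 * c.b2) * Polynomial.X + Polynomial.C (c.N * c.b1)) *
      Polynomial.X ^ ((l : ℕ) + 1))
  refine ⟨2 * P, ?_⟩
  have e2 : (2 : ℂ) * ((2 * P : ℤ) : ℂ) = 4 * (P : ℂ) := by
    push_cast
    ring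
  rw [e2, ← hP, Finset.mul_sum]
  refine Finset.sum_congr rfl fun i _ => ?_
  have e : (c.N : ℂ) ^ 8 = (c.N : ℂ) ^ (8 - (l : ℕ)) * (c.N : ℂ) ^ (l : ℕ) := by
    rw [← pow_add]
    congr 1
    have := l.2
    omega
  rw [La1_be]
  simp only [map_mul, map_add, map_pow, Polynomial.aeval_C, Polynomial.aeval_X, CData.lat]
  have e3 : ∀ a : ℤ, (algebraMap ℤ ℂ) a = (a : ℂ) := fun a => rfl
  simp only [e3, mul_pow, pow_add, pow_one]
  push_cast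
  have e5 : (c.N : ℂ) ^ 10 = (c.N : ℂ) ^ 2 * ((c.N : ℂ) ^ (8 - (l : ℕ)) * (c.N : ℂ) ^ (l : ℕ)) := by
    rw [← e]
    ring
  have e6 : ((c.N : ℂ) ^ 5) ^ 2 = (c.N : ℂ) ^ 2 * ((c.N : ℂ) ^ (8 - (l : ℕ)) * (c.N : ℂ) ^ (l : ℕ)) := by
    rw [← e5]
    ring
  rw [e6]
  ring

end CZ
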