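import Pool.Agent.H22.CZ.L4a
import Pool.Agent.H22.CZ.La1
import Pool.Agent.H22.CZ.Ba1

/-!
# Row L5: expansion of `FF` at the points `x_e = (w + e_1/A1, t + e_2/A2)`

Here `e_i = lat (rt i) e`. PROOF.
* `u_at`: `u j (w + e_1/A1) (t + e_2/A2) 0 = A1 nu_j(zb) w + A2 nu_j(r) t + nu_j(zb) e_1 + nu_j(r) e_2
  = u j w t (-e_0) + ∑_i nu_j(rt i) e_i`, and the last sum is the integer `2 n` of `trace_even`.
  So by `A_int, dA_int, B_int` the values of `A, A', B` at `u j x_e` and at `u j w t (-e_0)` agree.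
* `NX a x_e = NX a w t (-e_0)` (`a = 0,1,2`), `DX a x_e = DX a w t (-e_0)` (all `a`), `WW` too;
  `NX 3 x_e = NX 3 w t (-e_0) + ka1 e_1 * WW w t (-e_0)` (`v = w + e_1/A1` in `ZZ`; note that `ZZ` at
  `(w, t, -e_0)` has `v = w`), `NX 4` similarly; for `a = 5, 6` (`l = 0, 1`):
  `NX a x_e = NX a w t (-e_0) * exp(π i [be_l(zb)(2 e_1 w + e_1^2/A1) + be_l(r)(2 e_2 t + e_2^2/A2)])`
  (`A1 (w + e_1/A1)^2 = A1 w^2 + 2 e_1 w + e_1^2/A1`).
* `FF_at`: `sum_split` for `FF = ∑_l k l Phi l`, insert, and collect: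
  `(N exp(P))^n = N^n exp(n P)`, `exp_add`, `Finset.mul_sum`. `Fin.prod_univ_seven` for `Phi`.
-/

set_option autoImplicit false

namespace CZ

open Complex

variable (c : CData) (b : BaseFn c.z)

/-- The exponent of the theta block at `x_e`. -/
noncomputable def CData.ph (D : ℕ) (n : Fin 2 → Fin (D + 1)) (w t : ℂ) (e : Fin 3 → ℤ) : ℂ :=
  Real.pi * I * ∑ l : Fin 2, ((n l : ℕ) : ℂ) *
    (c.be l c.zb * (2 * c.lat c.zb e * w + c.lat c.zb e ^ 2 / c.A1) +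
      c.be l c.r * (2 * c.lat c.r e * t + c.lat c.r e ^ 2 / c.A2))

theorem u_at (j : Fin 6) (w t : ℂ) (e : Fin 3 → ℤ) : ∃ m : ℤ,
    c.u j (w + c.lat c.zb e / c.A1) (t + c.lat c.r e / c.A2) 0 = c.u j w t (-c.lat c.z e) + m := by
  obtain ⟨n, hn⟩ := (trace_even c j e).1
  rw [Fin.sum_univ_three] at hn
  have h0 : c.rt 0 = c.z := rfl
  have h1 : c.rt 1 = c.zb := rfl
  have h2 : c.rt 2 = (c.r : ℂ) := rfl
  rw [h0, h1, h2] at hn
  refine ⟨2 * n, ?_⟩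
  have hA1 := A1_ne c
  have hA2 := A2_ne c
  rw [CData.u, CData.u]
  push_cast
  have e1 : c.A1 * nu j c.zb * (w + c.lat c.zb e / c.A1) =
      c.A1 * nu j c.zb * w + nu j c.zb * c.lat c.zb e := by field_simp
  have e2 : c.A2 * nu j c.r * (t + c.lat c.r e / c.A2) =
      c.A2 * nu j c.r * t + nu j c.r * c.lat c.r e := by field_simp
  rw [e1, e2]
  linear_combination hn

lemma A_at (j : Fin 6) (w t : ℂ) (e : Fin 3 → ℤ) :
    b.A (c.u j (w + c.lat c.zb e / c.A1) (t + c.lat c.r e / c.A2) 0) =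
      b.A (c.u j w t (-c.lat c.z e)) := by
  obtain ⟨m, hm⟩ := u_at c j w t e
  rw [hm, A_int]

lemma dA_at (j : Fin 6) (w t : ℂ) (e : Fin 3 → ℤ) :
    deriv b.A (c.u j (w + c.lat c.zb e / c.A1) (t + c.lat c.r e / c.A2) 0) =
      deriv b.A (c.u j w t (-c.lat c.z e)) := by
  obtain ⟨m, hm⟩ := u_at c j w t e
  rw [hm, dA_int]

lemma B_at (j : Fin 6) (w t : ℂ) (e : Fin 3 → ℤ) :
    b.B (c.u j (w + c.lat c.zb e / c.A1) (t + c.lat c.r e / c.A2) 0) =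
      b.B (c.u j w t (-c.lat c.z e)) := by
  obtain ⟨m, hm⟩ := u_at c j w t e
  rw [hm, B_int]

lemma WW_at (w t : ℂ) (e : Fin 3 → ℤ) :
    WW c b (w + c.lat c.zb e / c.A1) (t + c.lat c.r e / c.A2) 0 =
      WW c b w t (-c.lat c.z e) := by
  simp only [WW, A_at]

lemma TT_at (l : Fin 2) (w t : ℂ) (e : Fin 3 → ℤ) :
    TT c b l (w + c.lat c.zb e / c.A1) (t + c.lat c.r e / c.A2) 0 =
      TT c b l w t (-c.lat c.z e) := by
  simp only [TT, A_at]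

lemma ZZ_at (x v w t : ℂ) (d : ℂ) (e : Fin 3 → ℤ) :
    ZZ c b x (v + d) (w + c.lat c.zb e / c.A1) (t + c.lat c.r e / c.A2) 0 =
      ZZ c b x v w t (-c.lat c.z e) +
        b.mu * (2 * Real.pi * I * c.fp x * d) * WW c b w t (-c.lat c.z e) := by
  simp only [ZZ, WW_at, A_at, dA_at]
  ring

/-- The exponential factor of the theta block. -/
noncomputable def CData.pe (l : Fin 2) (w t : ℂ) (e : Fin 3 → ℤ) : ℂ :=
  exp (Real.pi * I * (c.be l c.zb * (2 * c.lat c.zb e * w + c.lat c.zb e ^ 2 / c.A1) +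
      c.be l c.r * (2 * c.lat c.r e * t + c.lat c.r e ^ 2 / c.A2)))

lemma EE_at (l : Fin 2) (w t : ℂ) (e : Fin 3 → ℤ) :
    EE c b l (w + c.lat c.zb e / c.A1) (t + c.lat c.r e / c.A2) 0 =
      EE c b l w t (-c.lat c.z e) * c.pe l w t e := by
  have hA1 := A1_ne c
  have hA2 := A2_ne c
  have e1 : c.A1 * (w + c.lat c.zb e / c.A1) ^ 2 =
      c.A1 * w ^ 2 + (2 * c.lat c.zb e * w + c.lat c.zb e ^ 2 / c.A1) := by
    field_simp
    ring
  have e2 : c.A2 * (t + c.lat c.r e / c.A2) ^ 2 =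
      c.A2 * t ^ 2 + (2 * c.lat c.r e * t + c.lat c.r e ^ 2 / c.A2) := by
    field_simp
    ring
  have hexp : exp (Real.pi * I * (c.be l c.zb * c.A1 * (w + c.lat c.zb e / c.A1) ^ 2 +
      c.be l c.r * c.A2 * (t + c.lat c.r e / c.A2) ^ 2)) =
      exp (Real.pi * I * (c.be l c.zb * c.A1 * w ^ 2 + c.be l c.r * c.A2 * t ^ 2)) *
      exp (Real.pi * I * (c.be l c.zb * (2 * c.lat c.zb e * w + c.lat c.zb e ^ 2 / c.A1) +
      c.be l c.r * (2 * c.lat c.r e * t + c.lat c.r e ^ 2 / c.A2))) := by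
    rw [← exp_add]
    congr 1
    linear_combination Real.pi * I * c.be l c.zb * e1 + Real.pi * I * c.be l c.r * e2
  simp only [EE, A_at, CData.pe]
  rw [hexp]
  ring

lemma exp_ph (D : ℕ) (n : Fin 2 → Fin (D + 1)) (w t : ℂ) (e : Fin 3 → ℤ) :
    exp (c.ph D n w t e) = c.pe 0 w t e ^ (n 0 : ℕ) * c.pe 1 w t e ^ (n 1 : ℕ) := by
  rw [CData.ph, Fin.sum_univ_two, CData.pe, CData.pe, ← Complex.exp_nat_mul,
    ← Complex.exp_nat_mul, ← Complex.exp_add]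
  congr 1
  ring

theorem FF_at (D : ℕ) (k : (Fin 7 → Fin (D + 1)) → ℂ) (w t : ℂ) (e : Fin 3 → ℤ) :
    FF c b D k (w + c.lat c.zb e / c.A1, t + c.lat c.r e / c.A2) =
      ∑ n : Fin 2 → Fin (D + 1), exp (c.ph D n w t e) * GXe c b D n k w t e := by
  rw [FF, sum_split]
  refine Finset.sum_congr rfl fun n _ ↦ ?_
  rw [GXe, GX, Finset.mul_sum]
  refine Finset.sum_congr rfl fun l3 _ ↦ ?_
  rw [Finset.mul_sum]
  refine Finset.sum_congr rfl fun l4 _ ↦ ?_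
  rw [QX, Finset.sum_mul, Finset.sum_mul, Finset.sum_mul, Finset.mul_sum]
  refine Finset.sum_congr rfl fun l0 _ ↦ ?_
  rw [Finset.sum_mul, Finset.sum_mul, Finset.sum_mul, Finset.mul_sum]
  refine Finset.sum_congr rfl fun l1 _ ↦ ?_
  rw [Finset.sum_mul, Finset.sum_mul, Finset.sum_mul, Finset.mul_sum]
  refine Finset.sum_congr rfl fun l2 _ ↦ ?_
  have hphi : Phi c b D (ix D l0 l1 l2 l3 l4 n)
      (w + c.lat c.zb e / c.A1, t + c.lat c.r e / c.A2) =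
      (NX c b 0 w t (-c.lat c.z e) ^ (l0 : ℕ) * DX c b 0 w t (-c.lat c.z e) ^ (D - (l0 : ℕ))) *
      (NX c b 1 w t (-c.lat c.z e) ^ (l1 : ℕ) * DX c b 1 w t (-c.lat c.z e) ^ (D - (l1 : ℕ))) *
      (NX c b 2 w t (-c.lat c.z e) ^ (l2 : ℕ) * DX c b 2 w t (-c.lat c.z e) ^ (D - (l2 : ℕ))) *
      ((NX c b 3 w t (-c.lat c.z e) + ka1 c b (c.lat c.zb e) * WW c b w t (-c.lat c.z e)) ^
        (l3 : ℕ) * WW c b w t (-c.lat c.z e) ^ (D - (l3 : ℕ))) *
      ((NX c b 4 w t (-c.lat c.z e) + ka2 c b (c.lat c.r e) * WW c b w t (-c.lat c.z e)) ^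
        (l4 : ℕ) * WW c b w t (-c.lat c.z e) ^ (D - (l4 : ℕ))) *
      ((NX c b 5 w t (-c.lat c.z e) * c.pe 0 w t e) ^ (n 0 : ℕ) *
        DX c b 5 w t (-c.lat c.z e) ^ (D - (n 0 : ℕ))) *
      ((NX c b 6 w t (-c.lat c.z e) * c.pe 1 w t e) ^ (n 1 : ℕ) *
        DX c b 6 w t (-c.lat c.z e) ^ (D - (n 1 : ℕ))) := by
    have N0 : NX c b 0 (w + c.lat c.zb e / c.A1) (t + c.lat c.r e / c.A2) 0 =
        NX c b 0 w t (-c.lat c.z e) := B_at c b 0 w t e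
    have N1 : NX c b 1 (w + c.lat c.zb e / c.A1) (t + c.lat c.r e / c.A2) 0 =
        NX c b 1 w t (-c.lat c.z e) := B_at c b 1 w t e
    have N2 : NX c b 2 (w + c.lat c.zb e / c.A1) (t + c.lat c.r e / c.A2) 0 =
        NX c b 2 w t (-c.lat c.z e) := B_at c b 2 w t e
    have N3 : NX c b 3 (w + c.lat c.zb e / c.A1) (t + c.lat c.r e / c.A2) 0 =
        NX c b 3 w t (-c.lat c.z e) + ka1 c b (c.lat c.zb e) * WW c b w t (-c.lat c.z e) := by
      refine (ZZ_at c b c.zb w w t (c.lat c.zb e / c.A1) e).trans ?_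
      show ZZ c b c.zb w w t (-c.lat c.z e) + _ = ZZ c b c.zb w w t (-c.lat c.z e) + _
      rw [ka1]
      ring
    have N4 : NX c b 4 (w + c.lat c.zb e / c.A1) (t + c.lat c.r e / c.A2) 0 =
        NX c b 4 w t (-c.lat c.z e) + ka2 c b (c.lat c.r e) * WW c b w t (-c.lat c.z e) := by
      refine (ZZ_at c b c.r t w t (c.lat c.r e / c.A2) e).trans ?_
      show ZZ c b c.r t w t (-c.lat c.z e) + _ = ZZ c b c.r t w t (-c.lat c.z e) + _
      rw [ka2]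
      ring
    have N5 : NX c b 5 (w + c.lat c.zb e / c.A1) (t + c.lat c.r e / c.A2) 0 =
        NX c b 5 w t (-c.lat c.z e) * c.pe 0 w t e := EE_at c b 0 w t e
    have N6 : NX c b 6 (w + c.lat c.zb e / c.A1) (t + c.lat c.r e / c.A2) 0 =
        NX c b 6 w t (-c.lat c.z e) * c.pe 1 w t e := EE_at c b 1 w t e
    have D0 : DX c b 0 (w + c.lat c.zb e / c.A1) (t + c.lat c.r e / c.A2) 0 =
        DX c b 0 w t (-c.lat c.z e) := congrArg (· ^ 2) (A_at c b 0 w t e)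
    have D1 : DX c b 1 (w + c.lat c.zb e / c.A1) (t + c.lat c.r e / c.A2) 0 =
        DX c b 1 w t (-c.lat c.z e) := congrArg (· ^ 2) (A_at c b 1 w t e)
    have D2 : DX c b 2 (w + c.lat c.zb e / c.A1) (t + c.lat c.r e / c.A2) 0 =
        DX c b 2 w t (-c.lat c.z e) := congrArg (· ^ 2) (A_at c b 2 w t e)
    have D3 : DX c b 3 (w + c.lat c.zb e / c.A1) (t + c.lat c.r e / c.A2) 0 =
        WW c b w t (-c.lat c.z e) := WW_at c b w t e
    have D4 : DX c b 4 (w + c.lat c.zb e / c.A1) (t + c.lat c.r e / c.A2) 0 =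
        WW c b w t (-c.lat c.z e) := WW_at c b w t e
    have D5 : DX c b 5 (w + c.lat c.zb e / c.A1) (t + c.lat c.r e / c.A2) 0 =
        DX c b 5 w t (-c.lat c.z e) := TT_at c b 0 w t e
    have D6 : DX c b 6 (w + c.lat c.zb e / c.A1) (t + c.lat c.r e / c.A2) 0 =
        DX c b 6 w t (-c.lat c.z e) := TT_at c b 1 w t e
    rw [Phi, Fin.prod_univ_seven, N0, N1, N2, N3, N4, N5, N6, D0, D1, D2, D3, D4, D5, D6]
    rfl
  rw [hphi, exp_ph, ET, mul_pow, mul_pow]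
  ring

end CZ
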