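import Pool.Agent.H22.CZ.L5

/-!
# Row L6: sizes at the points `x_e`

PROOF.
* `q_at`: `q = ∑_a ∑_j qc a j (π/Y) (Im u_j)^2` and `u_j(x_e) = u j w t (-e_0) + m`, `m` an integer (`u_at`), so
  `Im u_j(x_e) = Im (u j w t (-e_0))`, bounded for `‖w‖, ‖t‖ ≤ 1`, `‖e_0‖ ≤ C2`.
* `im_at`: `e_2 = latr e` is real and `Im(1/A2) = -Y/normSq A2`, so
  `Im(t + e_2/A2) = t.im - e_2 Y/normSq A2`, of modulus `≤ 1 + C |e_2|`.
* `ph_re`: `Re(π i v) = -π Im v`. The part with `be_l(r) = ber l` (real):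
  `-π ber l Im(2 e_2 t + e_2^2/A2) = ber l (-2 π e_2 t.im + π e_2^2 Y/normSq A2) = ber l * Tm e_2 t`. The part with
  `be_l(zb)`: `|..| ≤ π |be_l(zb)| (2 ‖e_1‖ + ‖e_1‖^2/|A1|) ≤ C`, `‖e_1‖ = ‖e_0‖ ≤ C2`; times
  `n_l ≤ D`, two values of `l`.
* `GXe_le`: `GX_le` with `R = max 1 C2`, `T = C r` (`‖ka1 e_1‖ ≤ C`, `‖ka2 e_2‖ ≤ C r` as `|latr e| ≤ r`, `r ≥ 1`):
  `≤ κ exp(C D) (C r)^(2D) ≤ κ exp(C' D log(r+2))`.
-/

set_option autoImplicit false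

namespace CZ

open Complex

variable (c : CData) (b : BaseFn c.z)

theorem q_at (C2 : ℝ) : ∃ C : ℝ, 1 ≤ C ∧ ∀ (w t : ℂ) (e : Fin 3 → ℤ), ‖w‖ ≤ 1 → ‖t‖ ≤ 1 →
    ‖c.lat c.z e‖ ≤ C2 → c.q (w + c.lat c.zb e / c.A1) (t + c.lat c.r e / c.A2) ≤ C := by
  have hY := c.hz
  have hpY : 0 ≤ Real.pi / c.z.im := div_nonneg Real.pi_pos.le hY.le
  let M : Fin 6 → ℝ := fun j =>
    ‖c.A1 * nu j c.zb‖ + ‖c.A2 * nu j c.r‖ + ‖nu j c.z‖ * C2
  refine ⟨1 + ∑ a : Fin 7, ∑ j : Fin 6, (c.qc a j : ℝ) * (Real.pi / c.z.im * M j ^ 2), ?_, ?_⟩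
  · refine le_add_of_nonneg_right (Finset.sum_nonneg fun a _ => Finset.sum_nonneg fun j _ => ?_)
    exact mul_nonneg (Nat.cast_nonneg _) (mul_nonneg hpY (sq_nonneg _))
  · intro w t e hw ht he
    refine le_trans ?_ (le_add_of_nonneg_left zero_le_one)
    unfold CData.q CData.qa
    refine Finset.sum_le_sum fun a _ => Finset.sum_le_sum fun j _ => ?_
    refine mul_le_mul_of_nonneg_left (mul_le_mul_of_nonneg_left ?_ hpY) (Nat.cast_nonneg _)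
    obtain ⟨m, hm⟩ := u_at c j w t e
    rw [hm, Complex.add_im, Complex.intCast_im, add_zero]
    have h1 : |(c.u j w t (-c.lat c.z e)).im| ≤ M j := by
      refine (Complex.abs_im_le_norm _).trans ?_
      unfold CData.u
      refine (norm_add₃_le).trans ?_
      refine add_le_add (add_le_add ?_ ?_) ?_
      · rw [norm_mul]
        exact mul_le_of_le_one_right (norm_nonneg _) hw
      · rw [norm_mul]
        exact mul_le_of_le_one_right (norm_nonneg _) ht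
      · rw [norm_mul, norm_neg]
        exact mul_le_mul_of_nonneg_left he (norm_nonneg _)
    rw [← sq_abs]
    exact pow_le_pow_left₀ (abs_nonneg _) h1 2

theorem im_at : ∃ C : ℝ, 1 ≤ C ∧ ∀ (t : ℂ) (e : Fin 3 → ℤ), ‖t‖ ≤ 1 →
    |(t + c.lat c.r e / c.A2).im| ≤ C * (1 + |c.latr e|) := by
  refine ⟨1 + 1 / ‖c.A2‖, le_add_of_nonneg_right (by positivity), ?_⟩
  intro t e ht
  rw [lat_r]
  have h1 : |(t + (c.latr e : ℂ) / c.A2).im| ≤ 1 + |c.latr e| / ‖c.A2‖ := by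
    refine (Complex.abs_im_le_norm _).trans ((norm_add_le _ _).trans ?_)
    refine add_le_add ht (le_of_eq ?_)
    rw [norm_div, Complex.norm_real, Real.norm_eq_abs]
  refine h1.trans ?_
  have h2 : 0 ≤ |c.latr e| := abs_nonneg _
  have h3 : 0 ≤ 1 / ‖c.A2‖ := by positivity
  have h4 : |c.latr e| / ‖c.A2‖ = 1 / ‖c.A2‖ * |c.latr e| := by ring
  rw [h4]
  nlinarith [mul_nonneg h3 h2]

/-- the real part of the exponent belonging to `r` -/
theorem Tm_re (x : ℝ) (t : ℂ) :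
    (Real.pi * I * (2 * (x : ℂ) * t + (x : ℂ) ^ 2 / c.A2)).re = c.Tm x t := by
  have hA : c.A2.im = c.z.im := by
    unfold CData.A2
    simp
  have h1 : ((x : ℂ) ^ 2 / c.A2).im = -(x ^ 2 * c.z.im / Complex.normSq c.A2) := by
    rw [div_eq_mul_inv, ← Complex.ofReal_pow, Complex.im_ofReal_mul, Complex.inv_im, hA]
    ring
  have h2 : (2 * (x : ℂ) * t).im = 2 * x * t.im := by
    have : (2 * (x : ℂ) * t) = ((2 * x : ℝ) : ℂ) * t := by push_cast; ring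
    rw [this, Complex.im_ofReal_mul]
  have h3 : (Real.pi * I * (2 * (x : ℂ) * t + (x : ℂ) ^ 2 / c.A2)) =
      ((Real.pi : ℝ) : ℂ) * (I * (2 * (x : ℂ) * t + (x : ℂ) ^ 2 / c.A2)) := by ring
  rw [h3, Complex.re_ofReal_mul, Complex.I_mul_re, Complex.add_im, h1, h2]
  unfold CData.Tm
  ring

theorem ph_re (C2 : ℝ) : ∃ C : ℝ, 1 ≤ C ∧ ∀ (D : ℕ) (n : Fin 2 → Fin (D + 1)) (w t : ℂ)
    (e : Fin 3 → ℤ), ‖w‖ ≤ 1 → ‖t‖ ≤ 1 → ‖c.lat c.z e‖ ≤ C2 →
    |(c.ph D n w t e).re -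
      ((n 0 : ℕ) * c.ber 0 + (n 1 : ℕ) * c.ber 1) * c.Tm (c.latr e) t| ≤ C * D := by
  let K : Fin 2 → ℝ := fun l => Real.pi * (‖c.be l c.zb‖ * (2 * |C2| + |C2| ^ 2 / ‖c.A1‖))
  have hK : ∀ l, 0 ≤ K l := fun l => mul_nonneg Real.pi_pos.le (by positivity)
  refine ⟨1 + ∑ l : Fin 2, K l, le_add_of_nonneg_right (Finset.sum_nonneg fun l _ => hK l), ?_⟩
  intro D n w t e hw ht he
  have he0 : ‖c.lat c.z e‖ ≤ |C2| := he.trans (le_abs_self _)
  have he1 : ‖c.lat c.zb e‖ ≤ |C2| := by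
    rw [lat_zb, Complex.norm_conj]
    exact he0
  have hsplit : (c.ph D n w t e) = (∑ l : Fin 2, Real.pi * I * (((n l : ℕ) : ℂ) *
      (c.be l c.zb * (2 * c.lat c.zb e * w + c.lat c.zb e ^ 2 / c.A1)))) +
      ∑ l : Fin 2, (((n l : ℕ) * c.ber l : ℝ) : ℂ) * (Real.pi * I *
        (2 * (c.latr e : ℂ) * t + (c.latr e : ℂ) ^ 2 / c.A2)) := by
    unfold CData.ph
    rw [Finset.mul_sum, ← Finset.sum_add_distrib]
    refine Finset.sum_congr rfl fun l _ => ?_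
    rw [be_r, lat_r]
    push_cast
    ring
  have h2 : (∑ l : Fin 2, (((n l : ℕ) * c.ber l : ℝ) : ℂ) * (Real.pi * I *
        (2 * (c.latr e : ℂ) * t + (c.latr e : ℂ) ^ 2 / c.A2))).re =
      ((n 0 : ℕ) * c.ber 0 + (n 1 : ℕ) * c.ber 1) * c.Tm (c.latr e) t := by
    rw [Complex.re_sum, Fin.sum_univ_two, Complex.re_ofReal_mul, Complex.re_ofReal_mul, Tm_re]
    ring
  rw [hsplit, Complex.add_re, h2, add_sub_cancel_right]
  refine (Complex.abs_re_le_norm _).trans ((norm_sum_le _ _).trans ?_)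
  have h3 : ∀ l : Fin 2, ‖Real.pi * I * (((n l : ℕ) : ℂ) *
      (c.be l c.zb * (2 * c.lat c.zb e * w + c.lat c.zb e ^ 2 / c.A1)))‖ ≤ K l * D := by
    intro l
    have hn : ((n l : ℕ) : ℝ) ≤ D := by exact_mod_cast Nat.lt_succ_iff.1 (n l).2
    have h4 : ‖2 * c.lat c.zb e * w + c.lat c.zb e ^ 2 / c.A1‖ ≤ 2 * |C2| + |C2| ^ 2 / ‖c.A1‖ := by
      refine (norm_add_le _ _).trans (add_le_add ?_ ?_)
      · rw [norm_mul, norm_mul, Complex.norm_ofNat]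
        have := mul_le_mul he1 hw (norm_nonneg _) (abs_nonneg _)
        nlinarith [norm_nonneg (c.lat c.zb e), norm_nonneg w]
      · rw [norm_div, norm_pow]
        exact div_le_div_of_nonneg_right (pow_le_pow_left₀ (norm_nonneg _) he1 2) (norm_nonneg _)
    rw [norm_mul, norm_mul, norm_mul, norm_mul, Complex.norm_I, mul_one, Complex.norm_natCast,
      Complex.norm_real, Real.norm_eq_abs, abs_of_pos Real.pi_pos]
    have h5 : ‖c.be l c.zb‖ * ‖2 * c.lat c.zb e * w + c.lat c.zb e ^ 2 / c.A1‖ ≤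
        ‖c.be l c.zb‖ * (2 * |C2| + |C2| ^ 2 / ‖c.A1‖) :=
      mul_le_mul_of_nonneg_left h4 (norm_nonneg _)
    have h6 : 0 ≤ ‖c.be l c.zb‖ * ‖2 * c.lat c.zb e * w + c.lat c.zb e ^ 2 / c.A1‖ := by positivity
    calc Real.pi * (((n l : ℕ) : ℝ) *
          (‖c.be l c.zb‖ * ‖2 * c.lat c.zb e * w + c.lat c.zb e ^ 2 / c.A1‖))
        ≤ Real.pi * ((D : ℝ) * (‖c.be l c.zb‖ * (2 * |C2| + |C2| ^ 2 / ‖c.A1‖))) :=
          mul_le_mul_of_nonneg_left (mul_le_mul hn h5 h6 (Nat.cast_nonneg _)) Real.pi_pos.le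
      _ = K l * D := by simp only [K]; ring
  refine (Finset.sum_le_sum fun l _ => h3 l).trans ?_
  rw [← Finset.sum_mul]
  refine mul_le_mul_of_nonneg_right ?_ (Nat.cast_nonneg _)
  exact le_add_of_nonneg_left zero_le_one

theorem GXe_le (C2 : ℝ) : ∃ C : ℝ, 1 ≤ C ∧ ∀ (D : ℕ) (n : Fin 2 → Fin (D + 1))
    (k : (Fin 7 → Fin (D + 1)) → ℂ) (κ r : ℝ) (w t : ℂ) (e : Fin 3 → ℤ), 1 ≤ D → 0 ≤ κ → 1 ≤ r →
    ‖w‖ ≤ 1 → ‖t‖ ≤ 1 → ‖c.lat c.z e‖ ≤ C2 → |c.latr e| ≤ r →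
    (∀ l0 l1 l2 l3 l4, ‖k (ix D l0 l1 l2 l3 l4 n)‖ ≤ κ) →
    ‖GXe c b D n k w t e‖ ≤ κ * Real.exp (C * D * Real.log (r + 2)) := by
  obtain ⟨C0, hC0, hG⟩ := GX_le c b (max 1 |C2|)
  let K1 : ℝ := ‖b.mu‖ * (2 * Real.pi * ‖c.fp c.zb‖) / ‖c.A1‖
  let K2 : ℝ := ‖b.mu‖ * (2 * Real.pi * ‖c.fp c.r‖) / ‖c.A2‖
  have hK1 : 0 ≤ K1 := by have := Real.pi_pos; positivity
  have hK2 : 0 ≤ K2 := by have := Real.pi_pos; positivity
  obtain ⟨C', hC'⟩ : ∃ C', C' = 1 + K1 * |C2| + K2 := ⟨_, rfl⟩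
  have hC1 : 1 ≤ C' := by
    rw [hC']
    have : 0 ≤ K1 * |C2| := by positivity
    linarith
  have hlC : 0 ≤ Real.log C' := Real.log_nonneg hC1
  refine ⟨C0 + 2 * Real.log C' + 2, by linarith, ?_⟩
  intro D n k κ r w t e hD hκ hr hw ht he her hk
  have he0 : ‖c.lat c.z e‖ ≤ |C2| := he.trans (le_abs_self _)
  have he1 : ‖c.lat c.zb e‖ ≤ |C2| := by
    rw [lat_zb, Complex.norm_conj]
    exact he0
  have he2 : ‖c.lat c.r e‖ ≤ r := by
    rw [lat_r, Complex.norm_real, Real.norm_eq_abs]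
    exact her
  have hk1 : ∀ v : ℂ, ‖ka1 c b v‖ = K1 * ‖v‖ := by
    intro v
    unfold ka1
    simp only [K1]
    rw [norm_div, norm_mul, norm_mul, norm_mul, norm_mul, norm_mul, Complex.norm_I,
      Complex.norm_ofNat, Complex.norm_real, Real.norm_eq_abs, abs_of_pos Real.pi_pos]
    ring
  have hk2 : ∀ v : ℂ, ‖ka2 c b v‖ = K2 * ‖v‖ := by
    intro v
    unfold ka2
    simp only [K2]
    rw [norm_div, norm_mul, norm_mul, norm_mul, norm_mul, norm_mul, Complex.norm_I,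
      Complex.norm_ofNat, Complex.norm_real, Real.norm_eq_abs, abs_of_pos Real.pi_pos]
    ring
  have hT : 1 ≤ C' * r := by nlinarith
  have h1 : ‖ka1 c b (c.lat c.zb e)‖ ≤ C' * r := by
    rw [hk1]
    have h2 : K1 * ‖c.lat c.zb e‖ ≤ K1 * |C2| := mul_le_mul_of_nonneg_left he1 hK1
    have h3 : K1 * |C2| ≤ C' := by rw [hC']; linarith
    nlinarith
  have h2 : ‖ka2 c b (c.lat c.r e)‖ ≤ C' * r := by
    rw [hk2]
    have h2 : K2 * ‖c.lat c.r e‖ ≤ K2 * r := mul_le_mul_of_nonneg_left he2 hK2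
    have h3 : K2 ≤ C' := by
      rw [hC']
      have : 0 ≤ K1 * |C2| := by positivity
      linarith
    have h4 : K2 * r ≤ C' * r := mul_le_mul_of_nonneg_right h3 (by linarith)
    linarith
  have h3 := hG D n k κ (C' * r) w t (-c.lat c.z e) (ka1 c b (c.lat c.zb e))
    (ka2 c b (c.lat c.r e)) hD hκ hT (hw.trans (le_max_left _ _)) (ht.trans (le_max_left _ _))
    (by rw [norm_neg]; exact he0.trans (le_max_right _ _)) h1 h2 hk
  unfold GXe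
  refine h3.trans ?_
  have hl : 1 ≤ Real.log (r + 2) := by
    rw [Real.le_log_iff_exp_le (by linarith)]
    have := Real.exp_one_lt_d9
    linarith
  have hTpos : 0 < C' * r := by linarith
  have h4 : (C' * r) ^ (2 * D) = Real.exp ((2 * D : ℕ) * Real.log (C' * r)) := by
    rw [Real.exp_nat_mul, Real.exp_log hTpos]
  rw [h4, mul_assoc, ← Real.exp_add]
  refine mul_le_mul_of_nonneg_left (Real.exp_le_exp.2 ?_) hκ
  rw [Real.log_mul (by linarith) (by linarith)]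
  have h5 : Real.log r ≤ Real.log (r + 2) := Real.log_le_log (by linarith) (by linarith)
  have hD0 : (0 : ℝ) ≤ D := Nat.cast_nonneg _
  push_cast
  have h6 : C0 * D ≤ C0 * D * Real.log (r + 2) := le_mul_of_one_le_right (by positivity) hl
  have h7 : Real.log C' + Real.log r ≤ (Real.log C' + 1) * Real.log (r + 2) := by
    nlinarith
  have h8 : 2 * (D : ℝ) * (Real.log C' + Real.log r) ≤
      2 * D * ((Real.log C' + 1) * Real.log (r + 2)) :=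
    mul_le_mul_of_nonneg_left h7 (by positivity)
  nlinarith

end CZ
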