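import Mathlib

/-!
# Row P5: a long window on the upper envelope of finitely many lines

PROOF. Put `Δ = ℓ + 2 m/g`, `Q = #s ≥ 1`, `T_i = i Δ` for `i = 0, …, Q` (`Q + 1` points of `[0, R]`). For each `i` let
`n_i ∈ s` maximise `a n + β n T_i`. If `i < i'` then `β(n_i) ≤ β(n_{i'})` (add the two maximality inequalities:
`(β(n_{i'}) - β(n_i))(T_{i'} - T_i) ≥ 0`). By pigeonhole there are `i < i'` with `n_i = n_{i'}`; then
`β(n_i) ≤ β(n_{i+1}) ≤ β(n_{i'}) = β(n_i)`, so `β(n_{i+1}) = β(n_i)`, and by the gap hypothesis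
`n_{i+1} = n_i =: n*`. For any other `n ∈ s` the affine function `d(T) = (a n* - a n) + (β n* - β n) T` is
`≥ 0` at `T_i` and at `T_{i+1}` and has slope of absolute value `≥ g`, so for
`T ∈ [T_i + m/g, T_{i+1} - m/g]` it is `≥ m` (use the endpoint on the correct side). The window is
`[T1, T1 + ℓ]`, `T1 = T_i + m/g`.
-/

set_option autoImplicit false

namespace CZ

theorem envelope {ι : Type} (s : Finset ι) (hs : s.Nonempty) (a β : ι → ℝ) {g m l R : ℝ}
    (hg : 0 < g) (hm : 0 ≤ m) (hl : 0 < l)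
    (hgap : ∀ n ∈ s, ∀ n' ∈ s, n ≠ n' → g ≤ |β n - β n'|)
    (hR : s.card * (l + 2 * m / g) ≤ R) :
    ∃ n ∈ s, ∃ T1 : ℝ, 0 ≤ T1 ∧ T1 + l ≤ R ∧
      ∀ T : ℝ, T1 ≤ T → T ≤ T1 + l → ∀ n' ∈ s, n' ≠ n → a n' + β n' * T + m ≤ a n + β n * T := by
  classical
  obtain ⟨Δ, hΔ⟩ : ∃ Δ : ℝ, Δ = l + 2 * (m / g) := ⟨_, rfl⟩
  have hmg : 0 ≤ m / g := div_nonneg hm hg.le
  have hΔ0 : 0 < Δ := by rw [hΔ]; positivity
  have hR' : (s.card : ℝ) * Δ ≤ R := by
    have : l + 2 * m / g = Δ := by rw [hΔ]; ring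
    rw [this] at hR
    exact hR
  have hex : ∀ i : ℕ, ∃ n ∈ s, ∀ n' ∈ s, a n' + β n' * (i * Δ) ≤ a n + β n * (i * Δ) :=
    fun i => Finset.exists_max_image s (fun n => a n + β n * (i * Δ)) hs
  choose f hf hmax using hex
  have hmono : ∀ i j : ℕ, i < j → β (f i) ≤ β (f j) := by
    intro i j hij
    have h1 := hmax i (f j) (hf j)
    have h2 := hmax j (f i) (hf i)
    have h3 : (i : ℝ) * Δ < j * Δ := by
      have : (i : ℝ) < j := by exact_mod_cast hij
      exact mul_lt_mul_of_pos_right this hΔ0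
    by_contra hcon
    push Not at hcon
    nlinarith [mul_pos (sub_pos.mpr hcon) (sub_pos.mpr h3)]
  have hmono' : ∀ i j : ℕ, i ≤ j → β (f i) ≤ β (f j) := by
    intro i j hij
    rcases eq_or_lt_of_le hij with h | h
    · rw [h]
    · exact hmono i j h
  obtain ⟨i, hi, j, hj, hne, hij⟩ :=
    Finset.exists_ne_map_eq_of_card_lt_of_maps_to (s := Finset.range (s.card + 1)) (t := s) (f := f)
      (by simp) (fun i _ => hf i)
  have key : ∃ i j : ℕ, i < j ∧ j < s.card + 1 ∧ f i = f j := by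
    rcases lt_or_gt_of_ne hne with h | h
    · exact ⟨i, j, h, Finset.mem_range.mp hj, hij⟩
    · exact ⟨j, i, h, Finset.mem_range.mp hi, hij.symm⟩
  obtain ⟨i, j, hlt, hjQ, hfe⟩ := key
  have hb : β (f (i + 1)) = β (f i) := by
    apply le_antisymm
    · calc β (f (i + 1)) ≤ β (f j) := hmono' _ _ hlt
        _ = β (f i) := by rw [hfe]
    · exact hmono' _ _ (Nat.le_succ i)
  have hfi : f (i + 1) = f i := by
    by_contra hcon
    have := hgap _ (hf (i + 1)) _ (hf i) hcon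
    rw [hb, sub_self, abs_zero] at this
    linarith
  have hiQ : ((i : ℝ) + 1) ≤ s.card := by
    have : i + 1 ≤ s.card := by omega
    exact_mod_cast this
  refine ⟨f i, hf i, i * Δ + m / g, by positivity, ?_, ?_⟩
  · have h1 : ((i : ℝ) + 1) * Δ ≤ s.card * Δ := mul_le_mul_of_nonneg_right hiQ hΔ0.le
    have h2 : (i : ℝ) * Δ + m / g + l ≤ ((i : ℝ) + 1) * Δ := by
      have : ((i : ℝ) + 1) * Δ = i * Δ + Δ := by ring
      rw [this]
      have : m / g + l ≤ Δ := by rw [hΔ]; linarith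
      linarith
    linarith
  · intro T hT1 hT2 n' hn' hne'
    have h1 := hmax i n' hn'
    have h2 := hmax (i + 1) n' hn'
    rw [hfi] at h2
    push_cast at h2
    have hgp := hgap _ (hf i) _ hn' (Ne.symm hne')
    have hmgm : g * (m / g) = m := by field_simp
    rcases le_total 0 (β (f i) - β n') with hp | hp
    · rw [abs_of_nonneg hp] at hgp
      have h3 : m / g ≤ T - i * Δ := by linarith
      have h4 : g * (m / g) ≤ (β (f i) - β n') * (T - i * Δ) :=
        mul_le_mul hgp h3 hmg hp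
      rw [hmgm] at h4
      nlinarith
    · rw [abs_of_nonpos hp] at hgp
      have h3 : m / g ≤ ((i : ℝ) + 1) * Δ - T := by
        have h5 : ((i : ℝ) + 1) * Δ = i * Δ + Δ := by ring
        rw [h5]
        have : Δ = l + 2 * (m / g) := hΔ
        linarith
      have h4 : g * (m / g) ≤ (-(β (f i) - β n')) * (((i : ℝ) + 1) * Δ - T) :=
        mul_le_mul hgp h3 hmg (by linarith)
      rw [hmgm] at h4
      nlinarith

end CZ
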