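import Pool.Agent.H22.CZ.L4a
import Pool.Agent.H22.CZ.La4
import Pool.Agent.H22.CZ.P5

/-!
# Row L7a: the window and the family

PROOF. Constants: `C1` from `small2`; `C0` from `cover`; `g0` from `slope_gap`; `Y = z.im`, `v = π Y/normSq A2 > 0`,
`β n = n_0 ber 0 + n_1 ber 1`. The theorem asserts `∃ C1` first (the constant of `small2`), then for all `K4, C6, C7`
there are `C2` and `K`.
Let `M = 2 N (‖z‖ + |r|) + 2 N^2 (‖z‖^2 + |r|^2)`. For `e = fam xb g i1 i2 j`, `i1, i2 ≤ 2D ≤ 2 Jp`, `|j| ≤ K4 Jp`: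
`b_0(e) = b_0(xb) + (i1 (N z) + i2 (N z)^2 + j) g_0` (`lat_add, lat_zsmul, lat_mulz`), so
`‖b_0(e)‖ ≤ 1 + (M Jp + K4 Jp) C1/Jp ≤ 1 + (M + K4) C1 =: C2`;
`|latr e - latr xb| ≤ (M Jp + K4 Jp) C1 Jp^2 ≤ C2 Jp^3`.
Put `r1 = r/(2 C6)`, `R0 = v r1^2`. With `C8 = 2 (v (C0 + C2) * (2 r1 + ...)..)`: let
`ℓ = C8 r Jp^3` with `C8` chosen below, `m = C7 Jp`, `gap g = g0/D^2`.
ENVELOPE (`envelope`, `P5`): the index type is `Fin 2 → Fin (D+1)`, `s.card ≤ (D+1)^2 ≤ 4 D^2`; the gap: for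
`n ≠ n'` apply `slope_gap` with `T = D` to the integers `n_i - n'_i` (not both zero, `≤ D` in absolute value). The
condition `s.card (ℓ + 2 m/g) ≤ R0`: `4 D^2 C8 r Jp^3 ≤ 4 C8 r^2/K` and
`8 D^4 C7 Jp/g0 ≤ (8 C7/g0) (D^2 Jp^3)^2 ≤ (8 C7/g0) r^2/K^2` (`K D^2 Jp^3 ≤ r`): fine for `K` large.
So we get `n* ∈ s` and `T1` with `[T1, T1 + ℓ] ⊂ [0, R0]`.
BASE POINT: `Tc = T1 + ℓ/2 ∈ [0, R0]`, `e* = sqrt(Tc/v) ∈ [0, r1]`. `cover` with `ρ = 1, w = 0, s = e*` gives `xb` with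
`‖lat zb xb‖ ≤ 1` (so `‖lat z xb‖ ≤ 1`, `lat_zb`), `|e* - latr xb| ≤ C0`. `g` from `small2` with `X = Jp`.
FOR ALL `e` of the family: `|latr e - e*| ≤ C0 + C2 Jp^3 ≤ (C0 + C2) Jp^3`; `|latr e| ≤ r1 + (C0 + C2) Jp^3 ≤ r/C6`
and `≤ r` (`(C0 + C2) Jp^3 ≤ r/(2 C6)` for `K ≥ 2 C6 (C0 + C2)`); the same for `xb`.
`|Tm (latr e) t - Tc| = |v ((latr e)^2 - e*^2) - 2 π latr e t.im| ≤ v (C0 + C2) Jp^3 * 2 r + 2 π r ≤ C9 r Jp^3`
with `C9 = 2 v (C0 + C2) + 2 π` (`‖t‖ ≤ 1`, `|latr e + e*| ≤ 2 r`). Choose `C8 = 2 C9`: then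
`Tm ∈ [T1, T1 + ℓ]`, so `0 ≤ Tm ≤ R0 ≤ v r^2`, and the envelope inequality holds at `T = Tm`.
`FamHyp`: `Jp^3 ≤ r` since `K ≥ 1`, `D ≥ 1`.
-/

set_option autoImplicit false

namespace CZ

open Complex

variable (c : CData)

lemma L7a_fam (i : Fin 3) (xb g : Fin 3 → ℤ) (i1 i2 : ℕ) (j : ℤ) :
    c.lat (c.rt i) (c.fam xb g i1 i2 j) = c.lat (c.rt i) xb +
      ((i1 : ℂ) * (c.N * c.rt i) + (i2 : ℂ) * (c.N * c.rt i) ^ 2 + j) * c.lat (c.rt i) g := by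
  unfold CData.fam
  rw [lat_add, lat_add, lat_add, lat_zsmul, lat_zsmul, lat_zsmul, lat_mulz, lat_mulz, lat_mulz]
  push_cast
  ring

lemma L7a_coef (ρ : ℂ) (N i1 i2 D Jp K4 : ℕ) (j : ℤ) (hDJ : D ≤ Jp) (h1 : i1 ≤ 2 * D)
    (h2 : i2 ≤ 2 * D) (hj : |j| ≤ (K4 * Jp : ℕ)) :
    ‖(i1 : ℂ) * (N * ρ) + (i2 : ℂ) * (N * ρ) ^ 2 + j‖ ≤
      (2 * N * ‖ρ‖ + 2 * N ^ 2 * ‖ρ‖ ^ 2 + K4) * Jp := by
  have e1 : (i1 : ℝ) ≤ 2 * Jp := by
    have : i1 ≤ 2 * Jp := by omega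
    exact_mod_cast this
  have e2 : (i2 : ℝ) ≤ 2 * Jp := by
    have : i2 ≤ 2 * Jp := by omega
    exact_mod_cast this
  have e3 : ‖(j : ℂ)‖ ≤ K4 * Jp := by
    rw [Complex.norm_intCast]
    exact_mod_cast hj
  have f1 : ‖(i1 : ℂ) * (N * ρ)‖ ≤ 2 * Jp * (N * ‖ρ‖) := by
    rw [norm_mul, norm_mul, Complex.norm_natCast, Complex.norm_natCast]
    exact mul_le_mul_of_nonneg_right e1 (by positivity)
  have f2 : ‖(i2 : ℂ) * (N * ρ) ^ 2‖ ≤ 2 * Jp * (N * ‖ρ‖) ^ 2 := by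
    rw [norm_mul, norm_pow, norm_mul, Complex.norm_natCast, Complex.norm_natCast]
    exact mul_le_mul_of_nonneg_right e2 (by positivity)
  calc ‖(i1 : ℂ) * (N * ρ) + (i2 : ℂ) * (N * ρ) ^ 2 + j‖
      ≤ ‖(i1 : ℂ) * (N * ρ)‖ + ‖(i2 : ℂ) * (N * ρ) ^ 2‖ + ‖(j : ℂ)‖ := norm_add₃_le
    _ ≤ 2 * Jp * (N * ‖ρ‖) + 2 * Jp * (N * ‖ρ‖) ^ 2 + K4 * Jp := by linarith
    _ = _ := by ring

theorem window : ∃ C1 : ℝ, 1 ≤ C1 ∧ ∀ (K4 : ℕ) (C6 C7 : ℝ), 1 ≤ C6 → 1 ≤ C7 →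
    ∃ C2 K : ℝ, 1 ≤ C2 ∧ 1 ≤ K ∧ ∀ (D Jp : ℕ) (r : ℝ), 1 ≤ D → D ≤ Jp → 1 ≤ r →
      K * D ^ 2 * (Jp : ℝ) ^ 3 ≤ r →
      ∀ (s : Finset (Fin 2 → Fin (D + 1))) (a : (Fin 2 → Fin (D + 1)) → ℝ), s.Nonempty →
        ∃ n ∈ s, ∃ xb g : Fin 3 → ℤ, FamHyp c C1 D Jp r xb g ∧
          ∀ (i1 i2 : ℕ) (j : ℤ) (t : ℂ), i1 ≤ 2 * D → i2 ≤ 2 * D → |j| ≤ (K4 * Jp : ℕ) →
            ‖t‖ ≤ 1 →
            ‖c.lat c.z (c.fam xb g i1 i2 j)‖ ≤ C2 ∧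
            |c.latr (c.fam xb g i1 i2 j)| ≤ r / C6 ∧
            0 ≤ c.Tm (c.latr (c.fam xb g i1 i2 j)) t ∧
            c.Tm (c.latr (c.fam xb g i1 i2 j)) t ≤ C2 * r ^ 2 ∧
            ∀ n' ∈ s, n' ≠ n → a n' + ((n' 0 : ℕ) * c.ber 0 + (n' 1 : ℕ) * c.ber 1) *
                c.Tm (c.latr (c.fam xb g i1 i2 j)) t + C7 * Jp ≤
              a n + ((n 0 : ℕ) * c.ber 0 + (n 1 : ℕ) * c.ber 1) *
                c.Tm (c.latr (c.fam xb g i1 i2 j)) t := by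
  obtain ⟨C1, hC1, hsmall⟩ := small2 c
  obtain ⟨C0, hC0, hcover⟩ := cover c
  obtain ⟨g0, hg0, hslope⟩ := slope_gap c
  refine ⟨C1, hC1, fun K4 C6 C7 hC6 hC7 => ?_⟩
  obtain ⟨v, hv⟩ : ∃ v : ℝ, v = Real.pi * c.z.im / Complex.normSq c.A2 := ⟨_, rfl⟩
  have hv0 : 0 < v := by
    rw [hv]
    exact div_pos (mul_pos Real.pi_pos c.hz) (Complex.normSq_pos.2 (A2_ne c))
  obtain ⟨M, hM⟩ : ∃ M : ℝ, M = 2 * c.N * (‖c.z‖ + |c.r|) + 2 * c.N ^ 2 * (‖c.z‖ ^ 2 + |c.r| ^ 2) :=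
    ⟨_, rfl⟩
  have hM0 : 0 ≤ M := by
    rw [hM]
    positivity
  have hMz : 2 * c.N * ‖c.z‖ + 2 * c.N ^ 2 * ‖c.z‖ ^ 2 + K4 ≤ M + K4 := by
    rw [hM]
    have h1 : 0 ≤ 2 * (c.N : ℝ) * |c.r| := by positivity
    have h2 : 0 ≤ 2 * (c.N : ℝ) ^ 2 * |c.r| ^ 2 := by positivity
    linarith
  have hMr : 2 * c.N * ‖(c.r : ℂ)‖ + 2 * c.N ^ 2 * ‖(c.r : ℂ)‖ ^ 2 + K4 ≤ M + K4 := by
    rw [hM, Complex.norm_real, Real.norm_eq_abs]
    have h1 : 0 ≤ 2 * (c.N : ℝ) * ‖c.z‖ := by positivity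
    have h2 : 0 ≤ 2 * (c.N : ℝ) ^ 2 * ‖c.z‖ ^ 2 := by positivity
    linarith
  obtain ⟨Ca, hCa⟩ : ∃ Ca : ℝ, Ca = 1 + (M + K4) * C1 := ⟨_, rfl⟩
  have hMK : 0 ≤ M + K4 := by positivity
  have hCa1 : 1 ≤ Ca := by
    rw [hCa]
    have : 0 ≤ (M + K4) * C1 := mul_nonneg hMK (by linarith)
    linarith
  obtain ⟨B, hB⟩ : ∃ B : ℝ, B = C0 + Ca := ⟨_, rfl⟩
  have hB1 : 1 ≤ B := by linarith
  have hpi := Real.pi_pos
  obtain ⟨C9, hC9⟩ : ∃ C9 : ℝ, C9 = 2 * v * B + 2 * Real.pi := ⟨_, rfl⟩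
  have hC90 : 0 < C9 := by
    rw [hC9]
    positivity
  obtain ⟨Q, hQ⟩ : ∃ Q : ℝ, Q = 4 * (2 * C9) + 8 * C7 / g0 := ⟨_, rfl⟩
  have hQ0 : 0 < Q := by
    rw [hQ]
    positivity
  obtain ⟨K, hK⟩ : ∃ K : ℝ, K = 1 + 2 * C6 * B + Q * (4 * C6 ^ 2 / v) := ⟨_, rfl⟩
  have hQ2 : 0 < Q * (4 * C6 ^ 2 / v) := by positivity
  have hCB : 0 < 2 * C6 * B := by positivity
  refine ⟨Ca + v, K, by linarith, by linarith, ?_⟩
  intro D Jp r hD hDJ hr hKr s a hs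
  have hDr : (1:ℝ) ≤ D := by exact_mod_cast hD
  have hJ1 : (1:ℝ) ≤ Jp := by exact_mod_cast hD.trans hDJ
  have hD2 : (1:ℝ) ≤ (D:ℝ) ^ 2 := one_le_pow₀ hDr
  have hJ3 : (1:ℝ) ≤ (Jp:ℝ) ^ 3 := one_le_pow₀ hJ1
  have hr0 : 0 < r := by linarith
  have hK1 : 1 ≤ K := by linarith
  -- the basic size
  obtain ⟨U, hU⟩ : ∃ U : ℝ, U = (D:ℝ) ^ 2 * (Jp:ℝ) ^ 3 := ⟨_, rfl⟩
  have hU1 : 1 ≤ U := by
    rw [hU]
    exact one_le_mul_of_one_le_of_one_le hD2 hJ3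
  have hKU : K * U ≤ r := by
    rw [hU, ← mul_assoc]
    exact hKr
  have hJU : (Jp:ℝ) ^ 3 ≤ U := by
    rw [hU]
    exact le_mul_of_one_le_left (by positivity) hD2
  have hUr : U ≤ r / K := by
    rw [le_div_iff₀ (by linarith), mul_comm]
    exact hKU
  have hJr : (Jp : ℝ) ^ 3 ≤ r := by
    have h1 : U ≤ K * U := le_mul_of_one_le_left (by linarith) hK1
    linarith
  have hBJ : B * (Jp:ℝ) ^ 3 ≤ r / (2 * C6) := by
    rw [le_div_iff₀ (by positivity)]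
    have h1 : 2 * C6 * B * U ≤ K * U := mul_le_mul_of_nonneg_right (by linarith) (by linarith)
    have h2 : B * (Jp:ℝ) ^ 3 * (2 * C6) ≤ B * U * (2 * C6) := by gcongr
    linarith
  -- the window
  obtain ⟨r1, hr1⟩ : ∃ r1 : ℝ, r1 = r / (2 * C6) := ⟨_, rfl⟩
  have hr10 : 0 < r1 := by
    rw [hr1]
    positivity
  have hr1C : 2 * r1 = r / C6 := by
    rw [hr1]
    field_simp
  have hrC : r / C6 ≤ r := div_le_self hr0.le hC6
  obtain ⟨ell, hell⟩ : ∃ ell : ℝ, ell = 2 * C9 * r * (Jp:ℝ) ^ 3 := ⟨_, rfl⟩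
  have hell0 : 0 < ell := by
    rw [hell]
    positivity
  have hgap : ∀ n ∈ s, ∀ n' ∈ s, n ≠ n' → g0 / (D:ℝ) ^ 2 ≤
      |(((n 0 : ℕ) : ℝ) * c.ber 0 + ((n 1 : ℕ) : ℝ) * c.ber 1) -
        (((n' 0 : ℕ) : ℝ) * c.ber 0 + ((n' 1 : ℕ) : ℝ) * c.ber 1)| := by
    intro n _ n' _ hne
    have hbd : ∀ i : Fin 2, |((((n i : ℕ) : ℤ) - ((n' i : ℕ) : ℤ) : ℤ) : ℝ)| ≤ D := by
      intro i
      have h1 : (n i : ℕ) ≤ D := Nat.lt_succ_iff.1 (n i).2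
      have h2 : (n' i : ℕ) ≤ D := Nat.lt_succ_iff.1 (n' i).2
      have h3 : |((n i : ℕ) : ℤ) - ((n' i : ℕ) : ℤ)| ≤ (D : ℤ) := by
        rw [abs_le]
        constructor <;> omega
      rw [← Int.cast_abs]
      exact_mod_cast h3
    have h4 := hslope (D:ℝ) (((n 0 : ℕ) : ℤ) - ((n' 0 : ℕ) : ℤ)) (((n 1 : ℕ) : ℤ) - ((n' 1 : ℕ) : ℤ))
      hDr (by
        by_contra h5
        rw [not_or, not_not, not_not] at h5
        have h6 : n 0 = n' 0 := Fin.ext (by have := h5.1; omega)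
        have h7 : n 1 = n' 1 := Fin.ext (by have := h5.2; omega)
        apply hne
        funext i
        fin_cases i
        · exact h6
        · exact h7) (hbd 0) (hbd 1)
    refine h4.trans (le_of_eq ?_)
    push_cast
    refine congrArg _ ?_
    ring
  have hR : (s.card : ℝ) * (ell + 2 * (C7 * Jp) / (g0 / (D:ℝ) ^ 2)) ≤ v * r1 ^ 2 := by
    have hc1 : (s.card : ℝ) ≤ 4 * (D:ℝ) ^ 2 := by
      have h1 : s.card ≤ (D + 1) ^ 2 := by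
        refine (Finset.card_le_univ s).trans (le_of_eq ?_)
        rw [Fintype.card_fun, Fintype.card_fin, Fintype.card_fin]
      have h2 : (s.card : ℝ) ≤ ((D:ℝ) + 1) ^ 2 := by exact_mod_cast h1
      nlinarith
    have h1 : ell + 2 * (C7 * Jp) / (g0 / (D:ℝ) ^ 2) = 2 * C9 * r * (Jp:ℝ) ^ 3 + 2 * C7 / g0 * (Jp * (D:ℝ) ^ 2) := by
      rw [hell]
      field_simp
    rw [h1]
    have h2 : 0 ≤ 2 * C9 * r * (Jp:ℝ) ^ 3 + 2 * C7 / g0 * (Jp * (D:ℝ) ^ 2) := by positivity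
    have h3 : (D:ℝ) ^ 4 * Jp ≤ U ^ 2 := by
      rw [hU]
      have h4 : (Jp:ℝ) ≤ (Jp:ℝ) ^ 6 := by
        have := pow_le_pow_right₀ hJ1 (show 1 ≤ 6 by norm_num)
        rwa [pow_one] at this
      calc (D:ℝ) ^ 4 * Jp ≤ (D:ℝ) ^ 4 * (Jp:ℝ) ^ 6 := by gcongr
        _ = ((D:ℝ) ^ 2 * (Jp:ℝ) ^ 3) ^ 2 := by ring
    have h5 : U ^ 2 ≤ r * U := by
      have h6 : U ≤ r := hUr.trans (div_le_self hr0.le hK1)
      calc U ^ 2 = U * U := by ring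
        _ ≤ r * U := mul_le_mul_of_nonneg_right h6 (by linarith)
    calc (s.card : ℝ) * (2 * C9 * r * (Jp:ℝ) ^ 3 + 2 * C7 / g0 * (Jp * (D:ℝ) ^ 2))
        ≤ 4 * (D:ℝ) ^ 2 * (2 * C9 * r * (Jp:ℝ) ^ 3 + 2 * C7 / g0 * (Jp * (D:ℝ) ^ 2)) :=
          mul_le_mul_of_nonneg_right hc1 h2
      _ = 4 * (2 * C9) * (r * U) + 8 * C7 / g0 * ((D:ℝ) ^ 4 * Jp) := by
          rw [hU]
          ring
      _ ≤ 4 * (2 * C9) * (r * U) + 8 * C7 / g0 * (r * U) := by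
          have h6 : 0 ≤ 8 * C7 / g0 := by positivity
          have h7 := mul_le_mul_of_nonneg_left (h3.trans h5) h6
          linarith
      _ = Q * (r * U) := by
          rw [hQ]
          ring
      _ ≤ v * r1 ^ 2 := by
          have h8 : Q * (4 * C6 ^ 2 / v) * U ≤ K * U :=
            mul_le_mul_of_nonneg_right (by linarith) (by linarith)
          have h9 : Q * (4 * C6 ^ 2 / v) * U ≤ r := h8.trans hKU
          have h10 : v * r1 ^ 2 = v / (4 * C6 ^ 2) * (r * r) := by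
            rw [hr1]
            field_simp
            ring
          have h11 : Q * (r * U) = v / (4 * C6 ^ 2) * (r * (Q * (4 * C6 ^ 2 / v) * U)) := by
            field_simp
          rw [h10, h11]
          exact mul_le_mul_of_nonneg_left (mul_le_mul_of_nonneg_left h9 hr0.le) (by positivity)
  obtain ⟨n, hn, T1, hT10, hT1R, henv⟩ := envelope s hs a
    (fun n => ((n 0 : ℕ) : ℝ) * c.ber 0 + ((n 1 : ℕ) : ℝ) * c.ber 1)
    (g := g0 / (D:ℝ) ^ 2) (m := C7 * Jp) (l := ell) (R := v * r1 ^ 2) (by positivity)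
    (by positivity) hell0 hgap hR
  -- base point
  obtain ⟨es, hes⟩ : ∃ es : ℝ, es = Real.sqrt ((T1 + ell / 2) / v) := ⟨_, rfl⟩
  have hes0 : 0 ≤ es := by
    rw [hes]
    exact Real.sqrt_nonneg _
  have hes2 : v * es ^ 2 = T1 + ell / 2 := by
    rw [hes, Real.sq_sqrt (by positivity)]
    field_simp
  have hesr : es ≤ r1 := by
    have h1 : v * es ^ 2 ≤ v * r1 ^ 2 := by
      rw [hes2]
      linarith
    have h2 : es ^ 2 ≤ r1 ^ 2 := le_of_mul_le_mul_left h1 hv0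
    exact (pow_le_pow_iff_left₀ hes0 hr10.le two_ne_zero).1 h2
  obtain ⟨xb, hxb1, hxb2⟩ := hcover 1 one_pos 0 es
  rw [zero_sub, norm_neg, lat_zb, Complex.norm_conj] at hxb1
  rw [one_pow, div_one] at hxb2
  obtain ⟨g, -, hg1, hg2, hg3, hg4⟩ := hsmall (Jp : ℝ) (by linarith)
  have hxbr : |c.latr xb| ≤ r1 + C0 := by
    have h1 : |c.latr xb| ≤ |es| + |c.latr xb - es| := by
      have h2 := abs_add_le es (c.latr xb - es)
      rw [add_sub_cancel] at h2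
      exact h2
    rw [abs_of_nonneg hes0, abs_sub_comm] at h1
    linarith
  have hC0J : C0 ≤ C0 * (Jp:ℝ) ^ 3 := le_mul_of_one_le_right (by linarith) hJ3
  have hBJ2 : B * (Jp:ℝ) ^ 3 ≤ r1 := by
    rw [hr1]
    exact hBJ
  have hBsplit : B * (Jp:ℝ) ^ 3 = C0 * (Jp:ℝ) ^ 3 + Ca * (Jp:ℝ) ^ 3 := by
    rw [hB]
    ring
  have hCaJ : 0 ≤ Ca * (Jp:ℝ) ^ 3 := by positivity
  refine ⟨n, hn, xb, g, ⟨hD, hDJ, hr, hJr, hxb1, by linarith, hg3, hg1, hg4, hg2⟩, ?_⟩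
  intro i1 i2 j t hi1 hi2 hj ht
  obtain ⟨e, he⟩ : ∃ e : Fin 3 → ℤ, e = c.fam xb g i1 i2 j := ⟨_, rfl⟩
  rw [← he]
  have hJ0 : (0:ℝ) < Jp := by linarith
  -- first coordinate
  have hez : ‖c.lat c.z e‖ ≤ Ca := by
    have h1 := L7a_fam c 0 xb g i1 i2 j
    have h2 := L7a_coef c.z c.N i1 i2 D Jp K4 j hDJ hi1 hi2 hj
    have h3 : c.rt 0 = c.z := rfl
    rw [h3, ← he] at h1
    rw [h1]
    calc ‖c.lat c.z xb + ((i1 : ℂ) * (c.N * c.z) + (i2 : ℂ) * (c.N * c.z) ^ 2 + j) * c.lat c.z g‖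
        ≤ ‖c.lat c.z xb‖ + ‖(i1 : ℂ) * (c.N * c.z) + (i2 : ℂ) * (c.N * c.z) ^ 2 + j‖ *
          ‖c.lat c.z g‖ := by
            refine (norm_add_le _ _).trans (le_of_eq ?_)
            rw [norm_mul]
      _ ≤ 1 + ((M + K4) * Jp) * (C1 / Jp) := by
            refine add_le_add hxb1 (mul_le_mul ?_ hg1 (norm_nonneg _) (by positivity))
            exact h2.trans (mul_le_mul_of_nonneg_right hMz hJ0.le)
      _ = Ca := by
            rw [hCa]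
            field_simp
  have her : |c.latr e - c.latr xb| ≤ Ca * (Jp:ℝ) ^ 3 := by
    have h1 := L7a_fam c 2 xb g i1 i2 j
    have h2 := L7a_coef (c.r : ℂ) c.N i1 i2 D Jp K4 j hDJ hi1 hi2 hj
    have h3 : c.rt 2 = c.r := rfl
    rw [h3, ← he, lat_r, lat_r, lat_r] at h1
    have h4 : ((c.latr e - c.latr xb : ℝ) : ℂ) =
        ((i1 : ℂ) * (c.N * c.r) + (i2 : ℂ) * (c.N * c.r) ^ 2 + j) * (c.latr g : ℂ) := by
      rw [Complex.ofReal_sub, h1]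
      ring
    have h5 : |c.latr e - c.latr xb| =
        ‖(i1 : ℂ) * (c.N * c.r) + (i2 : ℂ) * (c.N * c.r) ^ 2 + j‖ * |c.latr g| := by
      have h6 := congrArg (fun x : ℂ => ‖x‖) h4
      simp only [Complex.norm_real, Real.norm_eq_abs, norm_mul] at h6
      rw [h6]
    rw [h5]
    calc ‖(i1 : ℂ) * (c.N * c.r) + (i2 : ℂ) * (c.N * c.r) ^ 2 + j‖ * |c.latr g|
        ≤ ((M + K4) * Jp) * (C1 * (Jp:ℝ) ^ 2) := by
            refine mul_le_mul ?_ hg2 (abs_nonneg _) (by positivity)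
            exact h2.trans (mul_le_mul_of_nonneg_right hMr hJ0.le)
      _ = ((M + K4) * C1) * (Jp:ℝ) ^ 3 := by ring
      _ ≤ Ca * (Jp:ℝ) ^ 3 := by
            refine mul_le_mul_of_nonneg_right ?_ (by positivity)
            rw [hCa]
            linarith
  have hee : |c.latr e - es| ≤ B * (Jp:ℝ) ^ 3 := by
    have h1 := abs_add_le (c.latr e - c.latr xb) (c.latr xb - es)
    rw [sub_add_sub_cancel] at h1
    rw [abs_sub_comm] at hxb2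
    linarith
  have heabs : |c.latr e| ≤ r / C6 := by
    have h1 : |c.latr e| ≤ |es| + |c.latr e - es| := by
      have h2 := abs_add_le es (c.latr e - es)
      rw [add_sub_cancel] at h2
      exact h2
    rw [abs_of_nonneg hes0] at h1
    linarith
  have hTm : |c.Tm (c.latr e) t - (T1 + ell / 2)| ≤ ell / 2 := by
    have h1 : c.Tm (c.latr e) t - (T1 + ell / 2) =
        v * ((c.latr e - es) * (c.latr e + es)) - 2 * Real.pi * (c.latr e * t.im) := by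
      rw [← hes2]
      unfold CData.Tm
      rw [← hv]
      ring
    have h2 : |c.latr e + es| ≤ 2 * r := by
      refine (abs_add_le _ _).trans ?_
      rw [abs_of_nonneg hes0]
      linarith
    have h3 : |t.im| ≤ 1 := (Complex.abs_im_le_norm t).trans ht
    have h4 : |(c.latr e - es) * (c.latr e + es)| ≤ B * (Jp:ℝ) ^ 3 * (2 * r) := by
      rw [abs_mul]
      exact mul_le_mul hee h2 (abs_nonneg _) (by positivity)
    have h5 : |c.latr e * t.im| ≤ r * 1 := by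
      rw [abs_mul]
      exact mul_le_mul (heabs.trans hrC) h3 (abs_nonneg _) hr0.le
    rw [h1]
    calc |v * ((c.latr e - es) * (c.latr e + es)) - 2 * Real.pi * (c.latr e * t.im)|
        ≤ |v * ((c.latr e - es) * (c.latr e + es))| + |2 * Real.pi * (c.latr e * t.im)| :=
          abs_sub _ _
      _ = v * |(c.latr e - es) * (c.latr e + es)| + 2 * Real.pi * |c.latr e * t.im| := by
          rw [abs_mul v, abs_of_pos hv0, abs_mul (2 * Real.pi),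
            abs_of_pos (show 0 < 2 * Real.pi by positivity)]
      _ ≤ v * (B * (Jp:ℝ) ^ 3 * (2 * r)) + 2 * Real.pi * (r * 1) := by gcongr
      _ ≤ v * (B * (Jp:ℝ) ^ 3 * (2 * r)) + 2 * Real.pi * (r * (Jp:ℝ) ^ 3) := by gcongr
      _ = ell / 2 := by
          rw [hell, hC9]
          ring
  rw [abs_le] at hTm
  refine ⟨by linarith, heabs, by linarith [hTm.1], ?_, ?_⟩
  · have h1 : c.Tm (c.latr e) t ≤ v * r1 ^ 2 := by linarith [hTm.2]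
    have h2 : v * r1 ^ 2 ≤ (Ca + v) * r ^ 2 := by
      have h3 : r1 ≤ r := by linarith
      have h4 : r1 ^ 2 ≤ r ^ 2 := pow_le_pow_left₀ hr10.le h3 2
      exact mul_le_mul (by linarith) h4 (by positivity) (by positivity)
    exact h1.trans h2
  · intro n' hn' hne
    exact henv _ (by linarith [hTm.1]) (by linarith [hTm.2]) n' hn' hne

end CZ
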