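import Pool.Agent.H22.CZ.L4
import Pool.Agent.H22.CZ.L6
import Pool.Agent.H22.CZ.L7a

/-!
# Row L7: the lower bound

PROOF. Constants: `C1` from `window`; `K4, δ, K4'` from `core hC1`; `Ci` from `im_at`; `C6 = 4 Ci` (so that
`Ci (1 + |latr e|) ≤ Ci (1 + r/C6) ≤ r` when `r ≥ 4 Ci`); `C7` (below); `C2, K7` from `window K4 C6 C7` - but the
constants of `q_at C2`, `ph_re C2`, `GXe_le C2` depend on `C2`, and `C7` must be large in terms of the constant
`C_G` of `GXe_le`. NOTE: the proof of `window` gives `C2` independent of `C7`; to avoid this circularity apply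
`window` with margin `C7 = K4' + 4` and gain the rest from the hypothesis `K * D * log (r+2) ≤ Jp`: with
`K ≥ C_G + ...`, `C_G D log(r+2) ≤ Jp`. So all constants `C_q, C_p, C_G` (of `q_at, ph_re, GXe_le` for this `C2`)
are fixed and `K` is chosen last, larger than everything.
Suppose the claim is false: `‖FF (w,t)‖ e^(-D q w t) < σ := exp(-K D r^2)` whenever `|t.im| ≤ r`.
For `n : Fin 2 → Fin (D+1)` let `κ n = max over l0..l4 of ‖k (ix ..n)‖ ∈ [0, 1]`; `κ n0 = 1` for some `n0` (every `l`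
is `ix D (l 0) .. (l 4) ![l 5, l 6]`). `s = {n | 0 < κ n}`, `a n = log (κ n)`. `window` gives `n*, xb, g`.
Let `e` be in the family (`|j| ≤ K4 Jp`), `‖w‖, ‖t‖ ≤ δ`, `T = Tm (latr e) t`, `β n = n_0 ber 0 + n_1 ber 1`.
(1) `|Im (t + e_2/A2)| ≤ r` (`im_at`), so `‖FF x_e‖ ≤ σ e^(D q(x_e)) ≤ σ e^(C_q D)`.
(2) `FF_at`: `GXe n* = e^(-ph n*) (FF x_e - ∑_{n ≠ n*} e^(ph n) GXe n)`. By `ph_re`:
  `‖e^(-ph n*)‖ ≤ e^(C_p D - β n* T)`, `‖e^(ph n)‖ ≤ e^(C_p D + β n T)`. By `GXe_le` (with `κ = κ n`):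
  `‖GXe n‖ ≤ κ n e^(C_G D log(r+2))`, `= 0` if `n ∉ s`.
(3) For `n ∈ s`, `n ≠ n*`: `κ n e^((β n - β n*) T) = e^(a n + β n T - β n* T) ≤ κ n* e^(-C7 Jp)`.
(4) `a n* + β n* T ≥ a n0 + β n0 T = β n0 T ≥ -(|ber 0| + |ber 1|) D C2 r^2` (trivial if `n* = n0`), so
  `e^(-β n* T) ≤ κ n* e^(Cb D r^2)`, `Cb = (|ber 0| + |ber 1|) C2`.
So `‖GXe n*‖ ≤ κ n* η'`, `η' = σ e^((C_q + C_p) D + Cb D r^2) + (D+1)^2 e^(2 C_p D + C_G D log(r+2) - C7 Jp)`.
`core` (with `η = κ n* η'`): `κ n* ≤ κ n* η' e^(K4' Jp)`, so `1 ≤ η' e^(K4' Jp)`.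
But `Jp ≤ r ≤ r^2`, and for `K ≥ C_q + C_p + Cb + K4' + 1`: `σ e^(...) e^(K4' Jp) ≤ e^(-D r^2) ≤ e^(-1) < 1/2`;
`(D+1)^2 e^(2 C_p D + C_G D log(r+2)) ≤ e^(2 Jp)` for `K` large (`(D+1)^2 ≤ e^(2D)`, `D log(r+2) ≤ Jp/K`,
`D ≤ D log(r+2)`), so the second term is `≤ e^(2 Jp + K4' Jp - C7 Jp) ≤ e^(-2 Jp) < 1/2`. Contradiction.
The hypotheses of `window`/`core`: `D ≤ Jp`, `K4' D log(r+2) ≤ Jp`, `K7 D^2 Jp^3 ≤ r`, `r ≥ 4 Ci` follow from those
with `K` (`r ≥ K D^2 Jp^3 ≥ K`).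
-/

set_option autoImplicit false

namespace CZ

open Complex

/-- the abstract estimate of one term of an exponential sum -/
lemma l7_abs {ι : Type} [Fintype ι] [DecidableEq ι] (ph G : ι → ℂ) (β κ : ι → ℝ)
    (T P E Q J F : ℝ) (m : ι)
    (hP : ∀ n, |(ph n).re - β n * T| ≤ P) (hG : ∀ n, ‖G n‖ ≤ κ n * E) (hE : 0 ≤ E)
    (hκ : ∀ n, 0 ≤ κ n) (hm : 0 < κ m)
    (henv : ∀ n, 0 < κ n → n ≠ m →
      Real.log (κ n) + β n * T + J ≤ Real.log (κ m) + β m * T)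
    (hF : ‖∑ n, exp (ph n) * G n‖ ≤ F) (hF0 : 0 ≤ F)
    (hlow : -(β m * T) ≤ Real.log (κ m) + Q) :
    ‖G m‖ ≤ κ m * (F * Real.exp (P + Q) +
      Fintype.card ι * (E * Real.exp (2 * P - J))) := by
  have hsplit : exp (ph m) * G m =
      ∑ n, exp (ph n) * G n - ∑ n ∈ Finset.univ.erase m, exp (ph n) * G n := by
    rw [← Finset.add_sum_erase _ _ (Finset.mem_univ m)]
    ring
  have hPm := abs_le.1 (hP m)
  have hκm : Real.exp (Real.log (κ m)) = κ m := Real.exp_log hm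
  -- size of exp(-ph m)
  have h1 : ‖G m‖ = Real.exp (-(ph m).re) * ‖exp (ph m) * G m‖ := by
    rw [norm_mul, Complex.norm_exp, ← mul_assoc, ← Real.exp_add]
    simp
  have h2 : ‖exp (ph m) * G m‖ ≤ F + ∑ n ∈ Finset.univ.erase m, ‖exp (ph n) * G n‖ := by
    rw [hsplit]
    refine (norm_sub_le _ _).trans (add_le_add hF (norm_sum_le _ _))
  have h3 : Real.exp (-(ph m).re) * F ≤ κ m * (F * Real.exp (P + Q)) := by
    have e1 : Real.exp (-(ph m).re) ≤ κ m * Real.exp (P + Q) := by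
      calc Real.exp (-(ph m).re) ≤ Real.exp (Real.log (κ m) + (P + Q)) :=
            Real.exp_le_exp.2 (by linarith)
        _ = κ m * Real.exp (P + Q) := by rw [Real.exp_add, hκm]
    calc Real.exp (-(ph m).re) * F ≤ (κ m * Real.exp (P + Q)) * F :=
          mul_le_mul_of_nonneg_right e1 hF0
      _ = κ m * (F * Real.exp (P + Q)) := by ring
  have h4 : ∀ n ∈ Finset.univ.erase m, Real.exp (-(ph m).re) * ‖exp (ph n) * G n‖ ≤
      κ m * (E * Real.exp (2 * P - J)) := by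
    intro n hn
    have hne : n ≠ m := Finset.ne_of_mem_erase hn
    have hPn := abs_le.1 (hP n)
    rcases (hκ n).eq_or_lt with h0 | h0
    · have h5 : ‖G n‖ ≤ 0 := by
        have := hG n
        rw [← h0, zero_mul] at this
        exact this
      have h6 : ‖exp (ph n) * G n‖ = 0 := by
        rw [norm_mul, le_antisymm h5 (norm_nonneg _), mul_zero]
      rw [h6, mul_zero]
      have := Real.exp_pos (2 * P - J)
      positivity
    · have h7 := henv n h0 hne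
      rw [norm_mul, Complex.norm_exp]
      have e1 : Real.exp (-(ph m).re) * Real.exp (ph n).re * κ n ≤
          κ m * Real.exp (2 * P - J) := by
        have hκn : κ n = Real.exp (Real.log (κ n)) := (Real.exp_log h0).symm
        calc Real.exp (-(ph m).re) * Real.exp (ph n).re * κ n
            = Real.exp (-(ph m).re + (ph n).re + Real.log (κ n)) := by
              rw [Real.exp_add, Real.exp_add, Real.exp_log h0]
          _ ≤ Real.exp (Real.log (κ m) + (2 * P - J)) := Real.exp_le_exp.2 (by linarith)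
          _ = κ m * Real.exp (2 * P - J) := by rw [Real.exp_add, hκm]
      calc Real.exp (-(ph m).re) * (Real.exp (ph n).re * ‖G n‖)
          ≤ Real.exp (-(ph m).re) * (Real.exp (ph n).re * (κ n * E)) := by
            refine mul_le_mul_of_nonneg_left ?_ (Real.exp_pos _).le
            exact mul_le_mul_of_nonneg_left (hG n) (Real.exp_pos _).le
        _ = (Real.exp (-(ph m).re) * Real.exp (ph n).re * κ n) * E := by ring
        _ ≤ (κ m * Real.exp (2 * P - J)) * E := mul_le_mul_of_nonneg_right e1 hE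
        _ = κ m * (E * Real.exp (2 * P - J)) := by ring
  have h5 : ∑ n ∈ Finset.univ.erase m, Real.exp (-(ph m).re) * ‖exp (ph n) * G n‖ ≤
      Fintype.card ι * (κ m * (E * Real.exp (2 * P - J))) := by
    refine (Finset.sum_le_card_nsmul _ _ _ h4).trans ?_
    rw [nsmul_eq_mul]
    refine mul_le_mul_of_nonneg_right ?_ ?_
    · exact_mod_cast (Finset.card_le_card (Finset.erase_subset m Finset.univ))
    · have := Real.exp_pos (2 * P - J)
      positivity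
  calc ‖G m‖ = Real.exp (-(ph m).re) * ‖exp (ph m) * G m‖ := h1
    _ ≤ Real.exp (-(ph m).re) * (F + ∑ n ∈ Finset.univ.erase m, ‖exp (ph n) * G n‖) :=
        mul_le_mul_of_nonneg_left h2 (Real.exp_pos _).le
    _ = Real.exp (-(ph m).re) * F +
        ∑ n ∈ Finset.univ.erase m, Real.exp (-(ph m).re) * ‖exp (ph n) * G n‖ := by
        rw [mul_add, Finset.mul_sum]
    _ ≤ κ m * (F * Real.exp (P + Q)) + Fintype.card ι * (κ m * (E * Real.exp (2 * P - J))) :=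
        add_le_add h3 h5
    _ = _ := by ring

/-- the numerical contradiction -/
lemma l7_num {K Cq Cp CG Cb K4 D Jp r L : ℝ} (hCq : 0 ≤ Cq) (hCp : 0 ≤ Cp) (hCG : 0 ≤ CG)
    (hCb : 0 ≤ Cb) (hK4 : 0 ≤ K4) (hK : Cq + Cp + Cb + K4 + 1 ≤ K) (hK' : 2 + 2 * Cp + CG ≤ K)
    (hD : 1 ≤ D) (hJ : 1 ≤ Jp) (hJr : Jp ≤ r) (hL : 1 ≤ L) (hKJ : K * D * L ≤ Jp)
    (h : 1 ≤ ((Real.exp (-(K * D * r ^ 2)) * Real.exp (Cq * D)) * Real.exp (Cp * D + Cb * D * r ^ 2) +
      (D + 1) ^ 2 * (Real.exp (CG * D * L) * Real.exp (2 * (Cp * D) - (K4 + 4) * Jp))) *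
      Real.exp (K4 * Jp)) : False := by
  have hr : 1 ≤ r := hJ.trans hJr
  have hr2 : r ≤ r ^ 2 := by nlinarith
  have hDr : r ^ 2 ≤ D * r ^ 2 := by nlinarith [sq_nonneg r]
  have hDr' : D ≤ D * r ^ 2 := by nlinarith
  have he1 : Real.exp (-1) < 1 / 2 := by
    rw [Real.exp_neg, inv_lt_comm₀ (Real.exp_pos 1) (by norm_num)]
    have := Real.exp_one_gt_d9
    norm_num
    linarith
  have h1 : (Real.exp (-(K * D * r ^ 2)) * Real.exp (Cq * D)) *
      Real.exp (Cp * D + Cb * D * r ^ 2) * Real.exp (K4 * Jp) ≤ Real.exp (-1) := by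
    rw [← Real.exp_add, ← Real.exp_add, ← Real.exp_add]
    refine Real.exp_le_exp.2 ?_
    have e1 : Cq * D ≤ Cq * (D * r ^ 2) := mul_le_mul_of_nonneg_left hDr' hCq
    have e2 : Cp * D ≤ Cp * (D * r ^ 2) := mul_le_mul_of_nonneg_left hDr' hCp
    have e3 : K4 * Jp ≤ K4 * (D * r ^ 2) := mul_le_mul_of_nonneg_left (by linarith) hK4
    have e4 : (Cq + Cp + Cb + K4 + 1) * (D * r ^ 2) ≤ K * (D * r ^ 2) :=
      mul_le_mul_of_nonneg_right hK (by positivity)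
    nlinarith
  have h2 : (D + 1) ^ 2 * (Real.exp (CG * D * L) * Real.exp (2 * (Cp * D) - (K4 + 4) * Jp)) *
      Real.exp (K4 * Jp) ≤ Real.exp (-1) := by
    have hD1 : (D + 1) ^ 2 ≤ Real.exp (2 * D) := by
      have e := Real.add_one_le_exp D
      have e2 : Real.exp (2 * D) = Real.exp D ^ 2 := by
        rw [← Real.exp_nat_mul]
        norm_num
      rw [e2]
      exact pow_le_pow_left₀ (by linarith) e 2
    calc (D + 1) ^ 2 * (Real.exp (CG * D * L) * Real.exp (2 * (Cp * D) - (K4 + 4) * Jp)) *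
        Real.exp (K4 * Jp)
        ≤ Real.exp (2 * D) * (Real.exp (CG * D * L) *
          Real.exp (2 * (Cp * D) - (K4 + 4) * Jp)) * Real.exp (K4 * Jp) := by
          refine mul_le_mul_of_nonneg_right (mul_le_mul_of_nonneg_right hD1 ?_)
            (Real.exp_pos _).le
          positivity
      _ = Real.exp (2 * D + (CG * D * L + (2 * (Cp * D) - (K4 + 4) * Jp)) + K4 * Jp) := by
          rw [Real.exp_add, Real.exp_add, Real.exp_add]
      _ ≤ Real.exp (-1) := by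
          refine Real.exp_le_exp.2 ?_
          have e0 : D ≤ D * L := by nlinarith
          have e1 : (2 + 2 * Cp + CG) * (D * L) ≤ K * (D * L) :=
            mul_le_mul_of_nonneg_right hK' (by positivity)
          have e2 : 2 * Cp * D ≤ 2 * Cp * (D * L) := mul_le_mul_of_nonneg_left e0 (by linarith)
          nlinarith
  rw [add_mul] at h
  linarith

variable (c : CData) (b : BaseFn c.z)

lemma l7_ix (D : ℕ) (l : Fin 7 → Fin (D + 1)) :
    l = ix D (l 0) (l 1) (l 2) (l 3) (l 4) ![l 5, l 6] := by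
  funext i
  fin_cases i <;> rfl

theorem lower : ∃ K : ℝ, 1 ≤ K ∧ ∀ (D Jp : ℕ) (r : ℝ) (k : (Fin 7 → Fin (D + 1)) → ℂ), 1 ≤ D →
    K * D * Real.log (r + 2) ≤ Jp → K * D ^ 2 * (Jp : ℝ) ^ 3 ≤ r →
    (∀ l, ‖k l‖ ≤ 1) → (∃ l, ‖k l‖ = 1) →
    ∃ w t : ℂ, |t.im| ≤ r ∧
      Real.exp (-(K * D * r ^ 2)) ≤ ‖FF c b D k (w, t)‖ * Real.exp (-(D * c.q w t)) := by
  classical
  obtain ⟨C1, hC1, hwin⟩ := window c
  obtain ⟨K4, hK4, δ, hδ, hδ1, K4', hK4', hcore⟩ := core c b hC1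
  obtain ⟨Ci, hCi, him⟩ := im_at c
  obtain ⟨C2, K7, hC2, hK7, hw⟩ := hwin K4 (4 * Ci) (K4' + 4) (by linarith) (by linarith)
  obtain ⟨Cq, hCq, hq⟩ := q_at c C2
  obtain ⟨Cp, hCp, hp⟩ := ph_re c C2
  obtain ⟨CG, hCG, hG⟩ := GXe_le c b C2
  set Cb : ℝ := (|c.ber 0| + |c.ber 1|) * C2 with hCb
  have hCb0 : 0 ≤ Cb := mul_nonneg (by positivity) (by linarith)
  set K : ℝ := K7 + K4' + 4 * Ci + CG + 3 * Cp + Cq + Cb + 3 with hKdef
  have hK1 : 1 ≤ K := by linarith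
  refine ⟨K, hK1, ?_⟩
  intro D Jp r k hD hKJ hKr hk1 hk2
  have hDr : (1 : ℝ) ≤ D := by exact_mod_cast hD
  have hJ0 : (0 : ℝ) ≤ Jp := Nat.cast_nonneg _
  have hr0 : 0 ≤ r := le_trans (by positivity) hKr
  have hlog0 : 0 < Real.log (r + 2) := Real.log_pos (by linarith)
  have hJpos : (0 : ℝ) < Jp := lt_of_lt_of_le (by positivity) hKJ
  have hJ1 : (1 : ℝ) ≤ Jp := by
    have : 0 < Jp := by exact_mod_cast hJpos
    exact_mod_cast this
  have hJ3 : (Jp : ℝ) ≤ (Jp : ℝ) ^ 3 := by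
    calc (Jp : ℝ) = Jp ^ 1 := (pow_one _).symm
      _ ≤ (Jp : ℝ) ^ 3 := pow_le_pow_right₀ hJ1 (by norm_num)
  have hD2 : (1 : ℝ) ≤ (D : ℝ) ^ 2 := one_le_pow₀ hDr
  have hKD : K ≤ K * D ^ 2 * (Jp : ℝ) ^ 3 := by
    have e1 : K * 1 ≤ K * (D : ℝ) ^ 2 := mul_le_mul_of_nonneg_left hD2 (by linarith)
    have e2 : K * (D : ℝ) ^ 2 * 1 ≤ K * (D : ℝ) ^ 2 * (Jp : ℝ) ^ 3 :=
      mul_le_mul_of_nonneg_left (one_le_pow₀ hJ1) (by positivity)
    linarith
  have hKr' : K ≤ r := hKD.trans hKr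
  have hr1 : 1 ≤ r := hK1.trans hKr'
  have hJr : (Jp : ℝ) ≤ r := by
    refine le_trans ?_ hKr
    have e1 : 1 * (Jp : ℝ) ^ 3 ≤ K * (D : ℝ) ^ 2 * (Jp : ℝ) ^ 3 := by
      refine mul_le_mul_of_nonneg_right ?_ (by positivity)
      exact one_le_mul_of_one_le_of_one_le hK1 hD2
    linarith
  have hlog1 : 1 ≤ Real.log (r + 2) := by
    rw [Real.le_log_iff_exp_le (by linarith)]
    have := Real.exp_one_lt_d9
    linarith
  have hDL : (D : ℝ) ≤ D * Real.log (r + 2) := by nlinarith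
  have hDJr : (D : ℝ) ≤ Jp := by
    have e1 : 1 * (D * Real.log (r + 2)) ≤ K * (D * Real.log (r + 2)) :=
      mul_le_mul_of_nonneg_right hK1 (by positivity)
    have e2 : K * (D * Real.log (r + 2)) = K * D * Real.log (r + 2) := by ring
    linarith
  have hDJ : D ≤ Jp := by exact_mod_cast hDJr
  by_contra hcon
  push Not at hcon
  -- the maxima
  have hmax : ∀ n : Fin 2 → Fin (D + 1), ∃ x : Fin (D + 1) × Fin (D + 1) × Fin (D + 1) ×
      Fin (D + 1) × Fin (D + 1), ∀ y : Fin (D + 1) × Fin (D + 1) × Fin (D + 1) ×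
      Fin (D + 1) × Fin (D + 1), ‖k (ix D y.1 y.2.1 y.2.2.1 y.2.2.2.1 y.2.2.2.2 n)‖ ≤
        ‖k (ix D x.1 x.2.1 x.2.2.1 x.2.2.2.1 x.2.2.2.2 n)‖ := fun n =>
    Finite.exists_max (fun y : Fin (D + 1) × Fin (D + 1) × Fin (D + 1) ×
      Fin (D + 1) × Fin (D + 1) => ‖k (ix D y.1 y.2.1 y.2.2.1 y.2.2.2.1 y.2.2.2.2 n)‖)
  choose X hX using hmax
  set κ : (Fin 2 → Fin (D + 1)) → ℝ := fun n =>
    ‖k (ix D (X n).1 (X n).2.1 (X n).2.2.1 (X n).2.2.2.1 (X n).2.2.2.2 n)‖ with hκdef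
  have hκle : ∀ n l0 l1 l2 l3 l4, ‖k (ix D l0 l1 l2 l3 l4 n)‖ ≤ κ n :=
    fun n l0 l1 l2 l3 l4 => hX n (l0, l1, l2, l3, l4)
  have hκ0 : ∀ n, 0 ≤ κ n := fun n => norm_nonneg _
  have hκ1 : ∀ n, κ n ≤ 1 := fun n => hk1 _
  obtain ⟨l, hl⟩ := hk2
  set n0 : Fin 2 → Fin (D + 1) := ![l 5, l 6] with hn0
  have hκn0 : κ n0 = 1 := by
    refine le_antisymm (hκ1 n0) ?_
    rw [← hl, l7_ix D l]
    exact hκle n0 _ _ _ _ _
  set s : Finset (Fin 2 → Fin (D + 1)) := Finset.univ.filter (fun n => 0 < κ n) with hs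
  have hn0s : n0 ∈ s := Finset.mem_filter.2 ⟨Finset.mem_univ _, by rw [hκn0]; norm_num⟩
  have hK7r : K7 * (D : ℝ) ^ 2 * (Jp : ℝ) ^ 3 ≤ r := by
    refine le_trans ?_ hKr
    have : K7 ≤ K := by linarith
    have e1 : K7 * ((D : ℝ) ^ 2 * (Jp : ℝ) ^ 3) ≤ K * ((D : ℝ) ^ 2 * (Jp : ℝ) ^ 3) :=
      mul_le_mul_of_nonneg_right this (by positivity)
    linarith
  obtain ⟨m, hm, xb, g, hfam, hall⟩ := hw D Jp r hD hDJ hr1 hK7r s (fun n => Real.log (κ n))
    ⟨n0, hn0s⟩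
  have hm0 : 0 < κ m := (Finset.mem_filter.1 hm).2
  -- the bound for GXe
  have hest : ∀ (i1 i2 : ℕ) (j : ℤ) (w t : ℂ), i1 ≤ 2 * D → i2 ≤ 2 * D →
      |j| ≤ (K4 * Jp : ℕ) → ‖w‖ ≤ δ → ‖t‖ ≤ δ →
      ‖GXe c b D m k w t (c.fam xb g i1 i2 j)‖ ≤
        κ m * ((Real.exp (-(K * D * r ^ 2)) * Real.exp (Cq * D)) *
          Real.exp (Cp * D + Cb * D * r ^ 2) +
          ((D : ℝ) + 1) ^ 2 * (Real.exp (CG * D * Real.log (r + 2)) *
            Real.exp (2 * (Cp * D) - (K4' + 4) * Jp))) := by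
    intro i1 i2 j w t hi1 hi2 hj hwδ htδ
    have hw1 : ‖w‖ ≤ 1 := hwδ.trans hδ1
    have ht1 : ‖t‖ ≤ 1 := htδ.trans hδ1
    obtain ⟨he0, he2, hT0, hT1, henv⟩ := hall i1 i2 j t hi1 hi2 hj ht1
    set e : Fin 3 → ℤ := c.fam xb g i1 i2 j with he
    set T : ℝ := c.Tm (c.latr e) t with hT
    have he2r : |c.latr e| ≤ r := by
      refine he2.trans ?_
      rw [div_le_iff₀ (by linarith)]
      nlinarith
    -- the point
    have hImle : |(t + c.lat c.r e / c.A2).im| ≤ r := by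
      refine (him t e ht1).trans ?_
      have e1 : Ci * |c.latr e| ≤ Ci * (r / (4 * Ci)) :=
        mul_le_mul_of_nonneg_left he2 (by linarith)
      have e2 : Ci * (r / (4 * Ci)) = r / 4 := by field_simp
      have e3 : 4 * Ci ≤ r := by linarith
      nlinarith
    have hFF := hcon (w + c.lat c.zb e / c.A1) (t + c.lat c.r e / c.A2) hImle
    have hFF' : ‖FF c b D k (w + c.lat c.zb e / c.A1, t + c.lat c.r e / c.A2)‖ ≤
        Real.exp (-(K * D * r ^ 2)) * Real.exp (Cq * D) := by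
      have e1 := hq w t e hw1 ht1 he0
      set qv : ℝ := c.q (w + c.lat c.zb e / c.A1) (t + c.lat c.r e / c.A2) with hqv
      have e2 : ‖FF c b D k (w + c.lat c.zb e / c.A1, t + c.lat c.r e / c.A2)‖ =
          (‖FF c b D k (w + c.lat c.zb e / c.A1, t + c.lat c.r e / c.A2)‖ *
            Real.exp (-(D * qv))) * Real.exp (D * qv) := by
        rw [mul_assoc, ← Real.exp_add]
        simp
      rw [e2]
      refine mul_le_mul hFF.le (Real.exp_le_exp.2 ?_) (Real.exp_pos _).le (Real.exp_pos _).le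
      have := mul_le_mul_of_nonneg_left e1 (by linarith : (0 : ℝ) ≤ D)
      linarith
    have hcard : (Fintype.card (Fin 2 → Fin (D + 1)) : ℝ) = ((D : ℝ) + 1) ^ 2 := by
      rw [Fintype.card_fun, Fintype.card_fin, Fintype.card_fin]
      push_cast
      ring
    have hβ : ∀ n : Fin 2 → Fin (D + 1),
        |((n 0 : ℕ) * c.ber 0 + (n 1 : ℕ) * c.ber 1) * T| ≤ Cb * D * r ^ 2 := by
      intro n
      rw [abs_mul, abs_of_nonneg hT0]
      have e0 : ((n 0 : ℕ) : ℝ) ≤ D := by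
        exact_mod_cast Nat.lt_succ_iff.1 (n 0).2
      have e1 : ((n 1 : ℕ) : ℝ) ≤ D := by
        exact_mod_cast Nat.lt_succ_iff.1 (n 1).2
      have e2 : |((n 0 : ℕ) : ℝ) * c.ber 0 + ((n 1 : ℕ) : ℝ) * c.ber 1| ≤
          D * (|c.ber 0| + |c.ber 1|) := by
        refine (abs_add_le _ _).trans ?_
        rw [abs_mul, abs_mul, Nat.abs_cast, Nat.abs_cast, mul_add]
        exact add_le_add (mul_le_mul_of_nonneg_right e0 (abs_nonneg _))
          (mul_le_mul_of_nonneg_right e1 (abs_nonneg _))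
      calc |((n 0 : ℕ) : ℝ) * c.ber 0 + ((n 1 : ℕ) : ℝ) * c.ber 1| * T
          ≤ (D * (|c.ber 0| + |c.ber 1|)) * (C2 * r ^ 2) :=
            mul_le_mul e2 hT1 hT0 (by positivity)
        _ = Cb * D * r ^ 2 := by rw [hCb]; ring
    have hlow : -(((m 0 : ℕ) * c.ber 0 + (m 1 : ℕ) * c.ber 1) * T) ≤
        Real.log (κ m) + Cb * D * r ^ 2 := by
      by_cases h : n0 = m
      · have e1 := (abs_le.1 (hβ m)).1
        rw [← h, hκn0, Real.log_one]
        rw [← h] at e1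
        linarith
      · have e1 := henv n0 hn0s h
        have e2 := (abs_le.1 (hβ n0)).1
        simp only [hκn0, Real.log_one] at e1
        have e3 : 0 ≤ (K4' + 4) * (Jp : ℝ) := by positivity
        linarith
    have hmain := l7_abs (fun n => c.ph D n w t e) (fun n => GXe c b D n k w t e)
      (fun n => (n 0 : ℕ) * c.ber 0 + (n 1 : ℕ) * c.ber 1) κ T (Cp * D)
      (Real.exp (CG * D * Real.log (r + 2))) (Cb * D * r ^ 2) ((K4' + 4) * Jp)
      (Real.exp (-(K * D * r ^ 2)) * Real.exp (Cq * D)) m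
      (fun n => hp D n w t e hw1 ht1 he0)
      (fun n => hG D n k (κ n) r w t e hD (hκ0 n) hr1 hw1 ht1 he0 he2r (hκle n))
      (Real.exp_pos _).le hκ0 hm0
      (fun n hn hnm => henv n (Finset.mem_filter.2 ⟨Finset.mem_univ _, hn⟩) hnm)
      (by rw [← FF_at]; exact hFF') (by positivity) hlow
    rw [hcard] at hmain
    exact hmain
  -- conclusion
  have hK4J : K4' * D * Real.log (r + 2) ≤ Jp := by
    refine le_trans ?_ hKJ
    have : K4' ≤ K := by linarith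
    have e1 : K4' * (D * Real.log (r + 2)) ≤ K * (D * Real.log (r + 2)) :=
      mul_le_mul_of_nonneg_right this (by positivity)
    linarith
  have hfin := hcore D Jp r _ m k xb g hfam (by positivity) hK4J hest (X m).1 (X m).2.1
    (X m).2.2.1 (X m).2.2.2.1 (X m).2.2.2.2
  have hfin2 : κ m * 1 ≤ κ m * (((Real.exp (-(K * D * r ^ 2)) * Real.exp (Cq * D)) *
          Real.exp (Cp * D + Cb * D * r ^ 2) +
          ((D : ℝ) + 1) ^ 2 * (Real.exp (CG * D * Real.log (r + 2)) *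
            Real.exp (2 * (Cp * D) - (K4' + 4) * Jp))) * Real.exp (K4' * Jp)) := by
    rw [mul_one, ← mul_assoc]
    exact hfin
  have hfin3 := le_of_mul_le_mul_left hfin2 hm0
  exact l7_num (by linarith) (by linarith) (by linarith) hCb0 (by linarith) (by linarith)
    (by linarith) hDr hJ1 hJr hlog1 hKJ hfin3

end CZ
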