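import Pool.Agent.H22.CZ.La2

/-!
# Row La3: small lattice elements (pigeonhole or Minkowski)

PROOF (pigeonhole). Let `C1 ≥ 1` with `‖lat z x‖ ≤ C1 * max |x_i|`, `|latr x| ≤ C1 * max |x_i|`.
For a natural number `H ≥ 1` the `(H+1)^3` vectors `x` with `0 ≤ x_i ≤ H` have images
`(Re lat z x, Im lat z x, latr x)` in `[-C1 H, C1 H]^3`. Divide the box into
`⌈2 C1 H / a⌉^2 * ⌈2 C1 H / d⌉` boxes with sides `≤ a, a, d`. Take `a = C/(2X)`, `d = C X^2` with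
`C = 32 C1^3 + 1`... precisely: if `H ≥ max(a, d)` then `⌈2 C1 H/a⌉ ≤ 2 C1 H/a + 1 ≤ 3 C1 H / a`
(as `C1 ≥ 1`, `H ≥ a`), the same for `d`, so the number of boxes is `≤ 27 C1^3 H^3/(a^2 d)`, which is
`< (H+1)^3` as soon as `a^2 d ≥ 27 C1^3`. With `a = A/X`, `d = A X^2`, `A = 27 C1^3 ≥ 1` we have
`a^2 d = A^3 ≥ 27 C1^3`. So two different vectors `x ≠ x'` lie in the same box, and
`x - x' ≠ 0` has `|Re|, |Im| ≤ a`, so `‖lat z (x - x')‖ ≤ 2 a = 2A/X` and `|latr (x - x')| ≤ A X^2`.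
Take `C = 2 A`. (Alternatively use Minkowski's theorem of Mathlib for the convex symmetric set
`{|Re| ≤ a, |Im| ≤ a, |t| ≤ d}` pulled back to `ℝ^3`.)

`small2`: from `small` and `norm_ge`: `1 ≤ ‖lat z x‖^2 |latr x| ≤ ‖lat z x‖^2 C X^2` gives
`‖lat z x‖ ≥ 1/(√C X) ≥ 1/(C X)`, and `1 ≤ (C/X)^2 |latr x|` gives `|latr x| ≥ X^2/C^2`.
-/

set_option autoImplicit false

namespace CZ

open Complex

variable (c : CData)

/-- Bound of the lattice element at the root `ρ`. -/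
theorem la3_norm_lat_le (ρ : ℂ) (x : Fin 3 → ℤ) (H : ℝ) (hx : ∀ i, |(x i : ℝ)| ≤ H) :
    ‖c.lat ρ x‖ ≤ 2 * (c.N : ℝ) ^ 5 * (1 + c.N * ‖ρ‖ + (c.N * ‖ρ‖) ^ 2) * H := by
  have hn : ∀ i, ‖(x i : ℂ)‖ ≤ H := fun i ↦ by
    rw [Complex.norm_intCast]
    exact hx i
  have h1 : ‖c.lat ρ x‖ = 2 * (c.N : ℝ) ^ 5 * ‖(x 0 : ℂ) + x 1 * (c.N * ρ) + x 2 * (c.N * ρ) ^ 2‖ := by
    unfold CData.lat
    rw [norm_mul, norm_mul, norm_pow, Complex.norm_natCast, Complex.norm_ofNat]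
  have h5 : 2 * (c.N : ℝ) ^ 5 * (1 + c.N * ‖ρ‖ + (c.N * ‖ρ‖) ^ 2) * H =
      2 * (c.N : ℝ) ^ 5 * ((1 + c.N * ‖ρ‖ + (c.N * ‖ρ‖) ^ 2) * H) := by ring
  have h6 : (0 : ℝ) ≤ 2 * (c.N : ℝ) ^ 5 := by positivity
  rw [h1, h5]
  refine mul_le_mul_of_nonneg_left ?_ h6
  calc ‖(x 0 : ℂ) + x 1 * (c.N * ρ) + x 2 * (c.N * ρ) ^ 2‖
      ≤ ‖(x 0 : ℂ)‖ + ‖(x 1 : ℂ) * (c.N * ρ)‖ + ‖(x 2 : ℂ) * (c.N * ρ) ^ 2‖ := norm_add₃_le
    _ = ‖(x 0 : ℂ)‖ + ‖(x 1 : ℂ)‖ * (c.N * ‖ρ‖) + ‖(x 2 : ℂ)‖ * (c.N * ‖ρ‖) ^ 2 := by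
        simp only [norm_mul, norm_pow, Complex.norm_natCast]
    _ ≤ H + H * (c.N * ‖ρ‖) + H * (c.N * ‖ρ‖) ^ 2 := by
        have h2 : (0 : ℝ) ≤ c.N * ‖ρ‖ := by positivity
        gcongr
        · exact hn 0
        · exact hn 1
        · exact hn 2
    _ = _ := by ring

/-- The integer parts of a bounded number. -/
theorem la3_floor_mem (u B a : ℝ) (ha : 0 < a) (hu : |u| ≤ B) :
    ⌊u / a⌋ ∈ Finset.Icc ⌊-B / a⌋ ⌊B / a⌋ := by
  have h := abs_le.1 hu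
  rw [Finset.mem_Icc]
  exact ⟨Int.floor_mono (by gcongr; exact h.1), Int.floor_mono (by gcongr; exact h.2)⟩

theorem la3_card (B a : ℝ) (ha : 0 < a) (hB : a ≤ B) :
    (((Finset.Icc ⌊-B / a⌋ ⌊B / a⌋).card : ℕ) : ℝ) ≤ 4 * B / a := by
  have hBa : 1 ≤ B / a := (one_le_div ha).2 hB
  have h1 : ⌊-B / a⌋ ≤ ⌊B / a⌋ + 1 := by
    have : ⌊-B / a⌋ ≤ ⌊B / a⌋ := Int.floor_mono (by
      have : -B ≤ B := by linarith
      gcongr)
    omega
  have h2 : (((Finset.Icc ⌊-B / a⌋ ⌊B / a⌋).card : ℕ) : ℝ) = (⌊B / a⌋ : ℝ) + 1 - ⌊-B / a⌋ := by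
    rw [Int.card_Icc]
    have h3 : (((⌊B / a⌋ + 1 - ⌊-B / a⌋).toNat : ℕ) : ℤ) = ⌊B / a⌋ + 1 - ⌊-B / a⌋ :=
      Int.toNat_of_nonneg (by omega)
    have h4 : ((((⌊B / a⌋ + 1 - ⌊-B / a⌋).toNat : ℕ) : ℤ) : ℝ) =
        ((⌊B / a⌋ + 1 - ⌊-B / a⌋ : ℤ) : ℝ) := by rw [h3]
    push_cast at h4
    rw [← h4]
  have h5 := Int.floor_le (B / a)
  have h6 := Int.lt_floor_add_one (-B / a)
  rw [h2]
  have h7 : -B / a = -(B / a) := by ring
  have h8 : 4 * B / a = 4 * (B / a) := by ring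
  rw [h8]
  rw [h7] at h6
  rw [h7]
  linarith

theorem la3_abs_lt (u v a : ℝ) (ha : 0 < a) (h : ⌊u / a⌋ = ⌊v / a⌋) : |u - v| ≤ a := by
  have h1 := Int.abs_sub_lt_one_of_floor_eq_floor h
  have h2 : u / a - v / a = (u - v) / a := by ring
  rw [h2, abs_div, abs_of_pos ha, div_lt_one ha] at h1
  exact h1.le

theorem small : ∃ C : ℝ, 1 ≤ C ∧ ∀ X : ℝ, 0 < X → ∃ x : Fin 3 → ℤ, x ≠ 0 ∧
    ‖c.lat c.z x‖ ≤ C / X ∧ |c.latr x| ≤ C * X ^ 2 := by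
  classical
  set Kz : ℝ := 2 * (c.N : ℝ) ^ 5 * (1 + c.N * ‖c.z‖ + (c.N * ‖c.z‖) ^ 2) with hKz
  set Kr : ℝ := 2 * (c.N : ℝ) ^ 5 * (1 + c.N * ‖(c.r : ℂ)‖ + (c.N * ‖(c.r : ℂ)‖) ^ 2) with hKr
  have hKz0 : 0 ≤ Kz := by positivity
  have hKr0 : 0 ≤ Kr := by positivity
  set C1 : ℝ := 1 + Kz + Kr with hC1
  have hC11 : 1 ≤ C1 := by linarith
  set A : ℝ := 64 * C1 ^ 3 with hA
  have hA1 : 1 ≤ A := by
    have : 1 ≤ C1 ^ 3 := one_le_pow₀ hC11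
    linarith
  refine ⟨2 * A, by linarith, ?_⟩
  intro X hX
  set a : ℝ := A / X with ha
  set d : ℝ := A * X ^ 2 with hd
  have ha0 : 0 < a := by positivity
  have hd0 : 0 < d := by positivity
  obtain ⟨H, hH⟩ := exists_nat_ge (max a d)
  have hHa : a ≤ H := (le_max_left _ _).trans hH
  have hHd : d ≤ H := (le_max_right _ _).trans hH
  have hH0 : (0 : ℝ) < H := lt_of_lt_of_le ha0 hHa
  set B : ℝ := C1 * H with hB
  have hBH : (H : ℝ) ≤ B := by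
    rw [hB]
    exact le_mul_of_one_le_left hH0.le hC11
  set toZ : (Fin 3 → ℕ) → (Fin 3 → ℤ) := fun x i ↦ (x i : ℤ) with htoZ
  set F : (Fin 3 → ℕ) → ℤ × ℤ × ℤ := fun x ↦
    (⌊(c.lat c.z (toZ x)).re / a⌋, ⌊(c.lat c.z (toZ x)).im / a⌋, ⌊c.latr (toZ x) / d⌋) with hF
  set S : Finset (Fin 3 → ℕ) := Fintype.piFinset (fun _ : Fin 3 ↦ Finset.range (H + 1)) with hS
  set Ta : Finset ℤ := Finset.Icc ⌊-B / a⌋ ⌊B / a⌋ with hTa
  set Td : Finset ℤ := Finset.Icc ⌊-B / d⌋ ⌊B / d⌋ with hTd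
  have hSc : S.card = (H + 1) ^ 3 := by
    rw [hS, Fintype.card_piFinset]
    simp
  have hTac := la3_card B a ha0 (hHa.trans hBH)
  have hTdc := la3_card B d hd0 (hHd.trans hBH)
  rw [← hTa] at hTac
  rw [← hTd] at hTdc
  have hA3 : 64 * C1 ^ 3 ≤ a ^ 2 * d := by
    have h1 : a ^ 2 * d = A ^ 3 := by
      rw [ha, hd]
      field_simp
    rw [h1, ← hA]
    calc A = A ^ 1 := (pow_one A).symm
      _ ≤ A ^ 3 := pow_le_pow_right₀ hA1 (by norm_num)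
  have hlt : (Ta ×ˢ Ta ×ˢ Td).card < S.card := by
    rw [hSc, Finset.card_product, Finset.card_product]
    have h1 : ((Ta.card * (Ta.card * Td.card) : ℕ) : ℝ) ≤ (H : ℝ) ^ 3 := by
      push_cast
      calc (Ta.card : ℝ) * (Ta.card * Td.card) ≤ (4 * B / a) * ((4 * B / a) * (4 * B / d)) := by
            gcongr
        _ = (64 * C1 ^ 3) * (H : ℝ) ^ 3 / (a ^ 2 * d) := by
            rw [hB]
            field_simp
            ring
        _ ≤ (a ^ 2 * d) * (H : ℝ) ^ 3 / (a ^ 2 * d) := by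
            gcongr
        _ = (H : ℝ) ^ 3 := by
            field_simp
    have h2 : Ta.card * (Ta.card * Td.card) ≤ H ^ 3 := by exact_mod_cast h1
    have h3 : H ^ 3 < (H + 1) ^ 3 := Nat.pow_lt_pow_left (Nat.lt_succ_self H) (by norm_num)
    omega
  have hmaps : ∀ x ∈ S, F x ∈ Ta ×ˢ Ta ×ˢ Td := by
    intro x hx
    rw [hS, Fintype.mem_piFinset] at hx
    have hxb : ∀ i, |((toZ x i : ℤ) : ℝ)| ≤ H := by
      intro i
      have h1 := Finset.mem_range.1 (hx i)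
      have h2 : ((x i : ℕ) : ℝ) ≤ H := by exact_mod_cast Nat.lt_succ_iff.1 h1
      simp only [htoZ, Int.cast_natCast]
      rw [abs_of_nonneg (by positivity)]
      exact h2
    have hz1 : ‖c.lat c.z (toZ x)‖ ≤ B := by
      refine (la3_norm_lat_le c c.z (toZ x) H hxb).trans ?_
      rw [← hKz, hB]
      exact mul_le_mul_of_nonneg_right (by rw [hC1]; linarith) hH0.le
    have hr1 : |c.latr (toZ x)| ≤ B := by
      have h1 := la3_norm_lat_le c (c.r : ℂ) (toZ x) H hxb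
      have h2 : ‖c.lat (c.r : ℂ) (toZ x)‖ = |c.latr (toZ x)| := by
        rw [lat_r, Complex.norm_real, Real.norm_eq_abs]
      rw [h2, ← hKr] at h1
      refine h1.trans ?_
      rw [hB]
      exact mul_le_mul_of_nonneg_right (by rw [hC1]; linarith) hH0.le
    simp only [hF, Finset.mem_product]
    exact ⟨la3_floor_mem _ B a ha0 ((Complex.abs_re_le_norm _).trans hz1),
      la3_floor_mem _ B a ha0 ((Complex.abs_im_le_norm _).trans hz1),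
      la3_floor_mem _ B d hd0 hr1⟩
  obtain ⟨x, hx, y, hy, hxy, hFxy⟩ := Finset.exists_ne_map_eq_of_card_lt_of_maps_to hlt hmaps
  refine ⟨toZ x - toZ y, ?_, ?_, ?_⟩
  · intro h0
    apply hxy
    funext i
    have h1 := congrFun h0 i
    simp only [htoZ, Pi.sub_apply, Pi.zero_apply] at h1
    omega
  · have h1 : c.lat c.z (toZ x - toZ y) = c.lat c.z (toZ x) - c.lat c.z (toZ y) := by
      simp only [CData.lat, Pi.sub_apply, Int.cast_sub]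
      ring
    simp only [hF, Prod.mk.injEq] at hFxy
    have h2 := la3_abs_lt _ _ a ha0 hFxy.1
    have h3 := la3_abs_lt _ _ a ha0 hFxy.2.1
    rw [h1]
    refine (Complex.norm_le_abs_re_add_abs_im _).trans ?_
    rw [Complex.sub_re, Complex.sub_im]
    have h4 : 2 * A / X = a + a := by rw [ha]; ring
    rw [h4]
    exact add_le_add h2 h3
  · have h1 : c.latr (toZ x - toZ y) = c.latr (toZ x) - c.latr (toZ y) := by
      simp only [CData.latr, Pi.sub_apply, Int.cast_sub]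
      ring
    simp only [hF, Prod.mk.injEq] at hFxy
    have h2 := la3_abs_lt _ _ d hd0 hFxy.2.2
    rw [h1]
    refine h2.trans ?_
    rw [hd]
    have h5 : 0 ≤ A * X ^ 2 := by positivity
    have h6 : 2 * A * X ^ 2 = A * X ^ 2 + A * X ^ 2 := by ring
    rw [h6]
    linarith

theorem small2 : ∃ C : ℝ, 1 ≤ C ∧ ∀ X : ℝ, 0 < X → ∃ x : Fin 3 → ℤ, x ≠ 0 ∧
    ‖c.lat c.z x‖ ≤ C / X ∧ |c.latr x| ≤ C * X ^ 2 ∧
    1 / (C * X) ≤ ‖c.lat c.z x‖ ∧ X ^ 2 / C ≤ |c.latr x| := by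
  obtain ⟨C, hC, hsm⟩ := small c
  have hCC : C ≤ C ^ 2 := by nlinarith
  refine ⟨C ^ 2, by nlinarith, ?_⟩
  intro X hX
  obtain ⟨x, hx0, hx1, hx2⟩ := hsm X hX
  have hn := norm_ge c hx0
  have hC0 : 0 < C := by linarith
  have hu0 : 0 ≤ ‖c.lat c.z x‖ := norm_nonneg _
  have hv0 : 0 ≤ |c.latr x| := abs_nonneg _
  refine ⟨x, hx0, hx1.trans (by gcongr), hx2.trans (by gcongr), ?_, ?_⟩
  · by_contra hcon
    push Not at hcon
    have h1 : ‖c.lat c.z x‖ ^ 2 < (1 / (C ^ 2 * X)) ^ 2 := by gcongr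
    have h2 : ‖c.lat c.z x‖ ^ 2 * |c.latr x| ≤ (1 / (C ^ 2 * X)) ^ 2 * (C * X ^ 2) := by
      gcongr
    have h3 : (1 / (C ^ 2 * X)) ^ 2 * (C * X ^ 2) = 1 / C ^ 3 := by
      field_simp
    rcases hv0.eq_or_lt with h0 | h0
    · rw [← h0, mul_zero] at hn
      linarith
    · have h4 : ‖c.lat c.z x‖ ^ 2 * |c.latr x| < (1 / (C ^ 2 * X)) ^ 2 * (C * X ^ 2) :=
        mul_lt_mul h1 hx2 h0 (by positivity)
      rw [h3] at h4
      have h5 : 1 / C ^ 3 ≤ 1 := by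
        rw [div_le_one (by positivity)]
        exact one_le_pow₀ hC
      linarith
  · have h1 : ‖c.lat c.z x‖ ^ 2 ≤ (C / X) ^ 2 := by gcongr
    have h2 : 1 ≤ (C / X) ^ 2 * |c.latr x| := hn.trans (by gcongr)
    rw [div_le_iff₀ (by positivity)]
    have h3 : (C / X) ^ 2 * |c.latr x| * X ^ 2 = |c.latr x| * C ^ 2 := by
      field_simp
    calc X ^ 2 = 1 * X ^ 2 := (one_mul _).symm
      _ ≤ ((C / X) ^ 2 * |c.latr x|) * X ^ 2 := by gcongr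
      _ = _ := h3

end CZ
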