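import Pool.Agent.H22.CZ.Defs

/-!
# Row MaA: cubic data of a point of degree 3

PROOF. `f = minpoly ℚ z`, monic irreducible of degree 3: `f = X^3 + p X^2 + q X + s`, `p = f.coeff 2` etc.
Let `N` be a common denominator (`N = p.den * q.den * s.den > 0`): `p = b2/N`, `q = b1/N`, `s = b0/N` with
integers. `f z = 0`; `f (conj z) = conj (f z) = 0` (rational coefficients); `z ≠ conj z` (`z.im > 0`).
Define `r = -(p : ℝ) - 2 z.re`, so that `z + conj z + r = -p`. In `ℂ[X]`:
`f = (X - z)(X - conj z)(X - r)`: both sides are monic of degree 3; subtract the two equations `f z = 0`,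
`f (conj z) = 0` and divide by `z - conj z`: `z^2 + z z̄ + z̄^2 + p (z + z̄) + q = 0`, i.e. (with
`p = -(z + z̄ + r)`) `q = z z̄ + (z + z̄) r`; then `s = -(z^3 + p z^2 + q z) = - z z̄ r` (`linear_combination`).
So `he1, he2, he3` hold after multiplication by `N`, and `f r = 0` (`r^3 + p r^2 + q r + s = 0` by the same
identities).
`hirr`: if `x0 + x1 r + x2 r^2 = 0` with integers not all zero then `r` is a root of a nonzero rational polynomial of
degree `≤ 2`; but `f` is monic irreducible with `f r = 0`, so `minpoly ℚ r = f` has degree 3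
(`minpoly.eq_of_irreducible_of_monic`), and `minpoly.degree_le_of_ne_zero`/`minpoly.dvd` gives a contradiction.
(`r : ℝ`; `aeval r f = 0` in `ℝ`.) `hirz`: the same with `z`.
-/

set_option autoImplicit false

namespace CZ

open Polynomial

private lemma lin_indep {K : Type*} [Field K] [Algebra ℚ K] (f : ℚ[X]) (hm : f.Monic)
    (hi : Irreducible f) (h3 : f.natDegree = 3) (x : K) (hx : aeval x f = 0) (x0 x1 x2 : ℤ)
    (h : (x0 : K) + x1 * x + x2 * x ^ 2 = 0) : x0 = 0 ∧ x1 = 0 ∧ x2 = 0 := by
  have hf : f = minpoly ℚ x := minpoly.eq_of_irreducible_of_monic hi hx hm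
  set g : ℚ[X] := C (x0 : ℚ) + C (x1 : ℚ) * X + C (x2 : ℚ) * X ^ 2 with hg
  have hgx : aeval x g = 0 := by
    rw [hg]
    simp only [map_add, map_mul, aeval_X, map_pow, map_intCast]
    exact h
  have hg0 : g = 0 := by
    by_contra hne
    have h1 := minpoly.degree_le_of_ne_zero ℚ x hne hgx
    rw [← hf, degree_eq_natDegree hm.ne_zero, h3] at h1
    have h2 : g.degree ≤ 2 := by
      rw [hg]; compute_degree
    have h4 := h1.trans h2
    exact absurd h4 (by decide)
  have c0 : g.coeff 0 = x0 := by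
    rw [hg]; simp
  have c1 : g.coeff 1 = x1 := by
    rw [hg]; simp only [coeff_add, coeff_C_mul, coeff_X_pow, coeff_X, coeff_C]; norm_num
  have c2 : g.coeff 2 = x2 := by
    rw [hg]; simp only [coeff_add, coeff_C_mul, coeff_X_pow, coeff_X, coeff_C]; norm_num
  rw [hg0, coeff_zero] at c0 c1 c2
  exact ⟨by exact_mod_cast c0.symm, by exact_mod_cast c1.symm, by exact_mod_cast c2.symm⟩

theorem exists_cdata {z : ℂ} (hz : 0 < z.im) (hint : IsIntegral ℚ z)
    (h3 : (minpoly ℚ z).natDegree = 3) : ∃ c : CData, c.z = z := by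
  set f := minpoly ℚ z with hf
  have hmon : f.Monic := minpoly.monic hint
  have hirr : Irreducible f := minpoly.irreducible hint
  set p := f.coeff 2 with hp
  set q := f.coeff 1 with hq
  set s := f.coeff 0 with hs
  have hc3 : f.coeff 3 = 1 := by
    have := hmon.coeff_natDegree
    rwa [h3] at this
  have hex : ∀ {K : Type} [Field K] [Algebra ℚ K] (x : K),
      aeval x f = x ^ 3 + algebraMap ℚ K p * x ^ 2 + algebraMap ℚ K q * x + algebraMap ℚ K s := by
    intro K _ _ x
    rw [aeval_eq_sum_range, h3]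
    simp only [Finset.sum_range_succ, Finset.sum_range_zero, ← hp, ← hq, ← hs, hc3,
      Algebra.smul_def]
    simp
    ring
  have hz0 : z ^ 3 + (p : ℂ) * z ^ 2 + (q : ℂ) * z + (s : ℂ) = 0 := by
    have h := minpoly.aeval ℚ z
    rw [← hf, hex z] at h
    simpa using h
  set zb : ℂ := (starRingEnd ℂ) z with hzb
  have hzb0 : zb ^ 3 + (p : ℂ) * zb ^ 2 + (q : ℂ) * zb + (s : ℂ) = 0 := by
    have h := congrArg (starRingEnd ℂ) hz0
    simpa using h
  set r : ℝ := -(p : ℝ) - 2 * z.re with hr
  have hsum : z + zb + (r : ℂ) = -(p : ℂ) := by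
    have h : z + zb = ((2 * z.re : ℝ) : ℂ) := Complex.add_conj z
    rw [h, hr]
    push_cast
    ring
  have hne : z - zb ≠ 0 := by
    intro h
    have h1 : z = (starRingEnd ℂ) z := sub_eq_zero.1 h
    have h2 := congrArg Complex.im h1
    rw [Complex.conj_im] at h2
    linarith
  have hpv : (p : ℂ) = -(z + zb + r) := by linear_combination hsum
  have hqv : (q : ℂ) = z * zb + (z + zb) * r := by
    have h : (z - zb) * ((q : ℂ) - (z * zb + (z + zb) * r)) = 0 := by
      linear_combination hz0 - hzb0 - (z ^ 2 - zb ^ 2) * hpv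
    rcases mul_eq_zero.1 h with h | h
    · exact absurd h hne
    · linear_combination h
  have hsv : (s : ℂ) = -(z * zb * r) := by
    linear_combination hz0 - z ^ 2 * hpv - z * hqv
  have hr0 : (r : ℝ) ^ 3 + (p : ℝ) * r ^ 2 + (q : ℝ) * r + (s : ℝ) = 0 := by
    have h : (r : ℂ) ^ 3 + (p : ℂ) * r ^ 2 + (q : ℂ) * r + (s : ℂ) = 0 := by
      rw [hpv, hqv, hsv]; ring
    exact_mod_cast h
  have hfr : aeval r f = 0 := by
    rw [hex r]
    simpa using hr0
  have hfz : aeval z f = 0 := minpoly.aeval ℚ z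
  have hpd : (p.num : ℚ) = p * p.den := (Rat.mul_den_eq_num p).symm
  have hqd : (q.num : ℚ) = q * q.den := (Rat.mul_den_eq_num q).symm
  have hsd : (s.num : ℚ) = s * s.den := (Rat.mul_den_eq_num s).symm
  have hpd' : (p.num : ℂ) = p * p.den := by exact_mod_cast congrArg (fun x : ℚ => (x : ℂ)) hpd
  have hqd' : (q.num : ℂ) = q * q.den := by exact_mod_cast congrArg (fun x : ℚ => (x : ℂ)) hqd
  have hsd' : (s.num : ℂ) = s * s.den := by exact_mod_cast congrArg (fun x : ℚ => (x : ℂ)) hsd
  refine ⟨{ z := z, r := r, N := p.den * q.den * s.den, b2 := p.num * q.den * s.den,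
            b1 := q.num * p.den * s.den, b0 := s.num * p.den * q.den, hz := hz,
            hN := Nat.mul_pos (Nat.mul_pos p.den_pos q.den_pos) s.den_pos,
            he1 := ?_, he2 := ?_, he3 := ?_, hirr := ?_, hirz := ?_ }, rfl⟩
  · push_cast
    rw [← hzb, hsum, hpd']; ring
  · push_cast
    rw [← hzb, ← hqv, hqd']; ring
  · push_cast
    rw [← hzb, hsd', hsv]; ring
  · exact fun x0 x1 x2 h => lin_indep f hmon hirr h3 r hfr x0 x1 x2 h
  · exact fun x0 x1 x2 h => lin_indep f hmon hirr h3 z hfz x0 x1 x2 h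

end CZ
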