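import Mathlib

/-!
# Row MaB: three algebraically independent numbers algebraic over `ℚ(a, b, d)`

PROOF. Let `K = IntermediateField.adjoin ℚ {a, b, d}`. If `![a, b, d]` were not algebraically independent, then the
set `{a, b, d}` contains a transcendence basis `s` of `K/ℚ` (maximal algebraically independent subset,
`exists_isTranscendenceBasis_subset`/`exists_isTranscendenceBasis'`), with at most two elements (if it had three
elements it would be all of `{a, b, d}` with `a, b, d` different, and `![a, b, d]` would be independent). So
`trdeg ℚ K ≤ 2`. Let `L = algebraicClosure K ℂ` (relative algebraic closure of `K` in `ℂ`); it is algebraic over `K`,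
so `trdeg ℚ L = trdeg ℚ K ≤ 2` (`Algebra.trdeg_add_eq`/`IsTranscendenceBasis` of an algebraic extension). But the
three numbers `P (f i)` lie in `L` and are algebraically independent over `ℚ`, so `3 ≤ trdeg ℚ L`
(`AlgebraicIndependent.cardinalMk_le_trdeg`/`lift_cardinalMk_le_trdeg`; pull the independence back along the
injection `L → ℂ`, `AlgebraicIndependent.of_ringHom..`/`algebraicIndependent_...`). Contradiction.
(An alternative: the matroid of algebraic independence / exchange lemma.)
-/

set_option autoImplicit false

namespace CZ

theorem indep_of_three {a b d : ℂ} {k : ℕ} {P : Fin k → ℂ} {f : Fin 3 → Fin k}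
    (h : AlgebraicIndependent ℚ (fun i ↦ P (f i)))
    (hP : ∀ i, IsAlgebraic (IntermediateField.adjoin ℚ ({a, b, d} : Set ℂ)) (P i)) :
    AlgebraicIndependent ℚ ![a, b, d] := by
  set M := AlgebraicIndependent.matroid ℚ ℂ with hM
  set X : Set ℂ := Set.range ![a, b, d] with hX
  have hXe : X = {a, b, d} := by
    rw [hX]
    simp only [Matrix.range_cons, Matrix.range_empty, Set.union_empty, Set.singleton_union]
  have hfin : X.Finite := Set.finite_range _
  -- the independent set
  set J : Set ℂ := Set.range (fun i ↦ P (f i)) with hJ
  have hJind : M.Indep J := by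
    rw [hM, AlgebraicIndependent.matroid_indep_iff]
    exact h.to_subtype_range
  have hJcard : J.encard = 3 := by
    rw [hJ, ← Set.image_univ, h.injective.injOn.encard_image, Set.encard_univ]
    simp
  have hJX : J ⊆ M.closure X := by
    rw [hM, AlgebraicIndependent.matroid_closure_eq]
    rintro _ ⟨i, rfl⟩
    rw [SetLike.mem_coe, Subalgebra.mem_algebraicClosure, ← IntermediateField.isAlgebraic_adjoin_iff,
      hXe]
    exact hP (f i)
  have hXcard : X.encard ≤ 3 := by
    rw [hX, ← Set.image_univ]
    refine (Set.encard_image_le _ _).trans ?_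
    rw [Set.encard_univ]
    simp
  have hrk : (3 : ℕ∞) ≤ M.eRk X := by
    rw [← M.eRk_closure_eq X, ← hJcard]
    exact hJind.encard_le_eRk_of_subset hJX
  have hXind : M.Indep X := by
    rw [Matroid.indep_iff_eRk_eq_encard_of_finite hfin]
    exact le_antisymm (M.eRk_le_encard X) (hXcard.trans hrk)
  have hXc3 : X.encard = 3 := le_antisymm hXcard (hrk.trans (M.eRk_le_encard X))
  have hinj : Function.Injective ![a, b, d] := by
    have h1 : (Set.univ : Set (Fin 3)).InjOn ![a, b, d] := by
      refine (Set.toFinite _).injOn_of_encard_image_eq ?_
      rw [Set.image_univ, ← hX, hXc3, Set.encard_univ]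
      simp
    exact Set.injOn_univ.1 h1
  rw [hM, AlgebraicIndependent.matroid_indep_iff] at hXind
  exact AlgebraicIndependent.of_subtype_range hinj hXind

end CZ
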