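import Pool.Agent.H22.CZ.L1

/-!
# Row MaC: linearity of the jets, and the dimension of the space of vanishing jets

PROOF.
* `J_FF`: `x ↦ Phi c b D l (x, m x)` is entire (`diff_N`, `diff_D` with `y = 0`, products), so
  `iteratedDeriv` of the finite sum `∑ l, k l * ..` is the sum (`iteratedDeriv_fun_sum`/`iteratedDeriv_sum`,
  `iteratedDeriv_const_mul`), with `ContDiff` from `Differentiable.contDiff`.
* `dim_V`: `V = ⨅` of the kernels of at most `#T` linear functionals, `T = {(s, m) : m ≤ s, 2 s < N}`,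
  `N = M^1400`. `#T ≤ ((N+1)/2 + 1)^2/2 + ..`: the `s` with `2 s < N` are `< (N+1)/2 =: S` (natural division, `S ≤ (N+1)/2`) and
  for each there are `s + 1` values of `m`: `#T = S (S+1)/2 ≤ (N+1)(N+3)/8 ≤ N^2/4` for `N ≥ 6`
  (`N^2 + 4N + 3 ≤ 2 N^2`). `finrank V ≥ #Λ - #T` (the linear map `Λ → ℂ` to `T → ℂ` has rank `≤ #T`; kernel
  dimension by rank-nullity) and `#Λ = (M^400 + 1)^7 ≥ M^2800 = N^2 ≥ 2 #T`... so
  `2 finrank V ≥ 2 #Λ - 2 #T ≥ #Λ`. (`M ≥ 2`, so `N ≥ 6`: `2^1400 ≥ 6` by `Nat.one_lt_two_pow`-type bounds.)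
-/

set_option autoImplicit false

namespace CZ

variable (c : CData) (b : BaseFn c.z)

private theorem MaC_diff (D m : ℕ) (l : Fin 7 → Fin (D + 1)) :
    Differentiable ℂ fun x : ℂ ↦ Phi c b D l (x, (m : ℂ) * x) := by
  have key : ∀ F : ℂ × ℂ × ℂ → ℂ, Differentiable ℂ F →
      Differentiable ℂ fun x : ℂ ↦ F (x, (m : ℂ) * x, 0) := fun F hF =>
    hF.comp (show Differentiable ℂ fun x : ℂ ↦ ((x, (m : ℂ) * x, 0) : ℂ × ℂ × ℂ) by fun_prop)
  have h1 : ∀ a, Differentiable ℂ fun x : ℂ ↦ NX c b a x ((m : ℂ) * x) 0 := fun a => key _ (diff_N c b a)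
  have h2 : ∀ a, Differentiable ℂ fun x : ℂ ↦ DX c b a x ((m : ℂ) * x) 0 := fun a => key _ (diff_D c b a)
  have h3 : (fun x : ℂ ↦ Phi c b D l (x, (m : ℂ) * x)) = fun x : ℂ ↦ ∏ a : Fin 7,
      NX c b a x ((m : ℂ) * x) 0 ^ (l a : ℕ) * DX c b a x ((m : ℂ) * x) 0 ^ (D - (l a : ℕ)) := by
    funext x
    rw [Phi]
  rw [h3]
  generalize NX c b = N at h1 ⊢
  generalize DX c b = E at h2 ⊢
  exact Differentiable.fun_finsetProd fun a _ => ((h1 a).fun_pow _).fun_mul ((h2 a).fun_pow _)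

theorem J_FF (D s m : ℕ) (k : (Fin 7 → Fin (D + 1)) → ℂ) :
    J s m (FF c b D k) = ∑ l, k l * J s m (Phi c b D l) := by
  have hd : ∀ l, ContDiffAt ℂ s (fun x : ℂ ↦ Phi c b D l (x, (m : ℂ) * x)) 0 := fun l =>
    (MaC_diff c b D m l).contDiff.contDiffAt
  unfold J
  have h1 : (fun x : ℂ ↦ FF c b D k (x, (m : ℂ) * x)) =
      fun x : ℂ ↦ ∑ l, k l * Phi c b D l (x, (m : ℂ) * x) := rfl
  rw [h1, iteratedDeriv_fun_sum (fun l _ => contDiffAt_const.mul (hd l))]
  refine Finset.sum_congr rfl fun l _ => ?_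
  exact iteratedDeriv_const_mul (k l) (hd l)

theorem dim_V {M : ℕ} (hM : 2 ≤ M) (φ : ℕ → ℕ → (Fin 7 → Fin (M ^ 400 + 1)) → ℂ) :
    ∃ V : Submodule ℂ ((Fin 7 → Fin (M ^ 400 + 1)) → ℂ),
      Fintype.card (Fin 7 → Fin (M ^ 400 + 1)) ≤ 2 * Module.finrank ℂ V ∧
      ∀ k ∈ V, ∀ s m : ℕ, m ≤ s → 2 * s < M ^ 1400 → ∑ l, k l * φ s m l = 0 := by
  classical
  obtain ⟨S, hS⟩ : ∃ S : ℕ, S = (M ^ 1400 + 1) / 2 := ⟨_, rfl⟩
  let T : Finset (Σ _ : ℕ, ℕ) := (Finset.range S).sigma fun s => Finset.range (s + 1)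
  let L : ((Fin 7 → Fin (M ^ 400 + 1)) → ℂ) →ₗ[ℂ] (T → ℂ) :=
    { toFun := fun k t => ∑ l, k l * φ t.1.1 t.1.2 l
      map_add' := by
        intro k k'
        funext t
        simp only [Pi.add_apply, add_mul, Finset.sum_add_distrib]
      map_smul' := by
        intro a k
        funext t
        simp only [Pi.smul_apply, smul_eq_mul, RingHom.id_apply, Finset.mul_sum, mul_assoc] }
  refine ⟨LinearMap.ker L, ?_, ?_⟩
  · have h1 := LinearMap.finrank_range_add_finrank_ker L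
    rw [Module.finrank_fintype_fun_eq_card] at h1
    have h2 : Module.finrank ℂ (LinearMap.range L) ≤ T.card := by
      refine (Submodule.finrank_le _).trans ?_
      rw [Module.finrank_fintype_fun_eq_card, Fintype.card_coe]
    have h3 : 2 * T.card = S * (S + 1) := by
      have h4 : T.card = ∑ s ∈ Finset.range S, (s + 1) := by
        rw [Finset.card_sigma]
        simp
      rw [h4, Finset.sum_add_distrib, Finset.sum_const, Finset.card_range, smul_eq_mul, mul_one, mul_add]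
      have h5 := Finset.sum_range_id_mul_two S
      rcases Nat.eq_zero_or_pos S with h6 | h6
      · rw [h6]; simp
      · have h7 : S * (S - 1) + 2 * S = S * (S + 1) := by
          obtain ⟨r, rfl⟩ : ∃ r, S = r + 1 := ⟨S - 1, by omega⟩
          simp only [Nat.add_sub_cancel]
          ring
        rw [← h7, ← h5]
        ring
    have h4 : S * (S + 1) ≤ Fintype.card (Fin 7 → Fin (M ^ 400 + 1)) := by
      have h5 : Fintype.card (Fin 7 → Fin (M ^ 400 + 1)) = (M ^ 400 + 1) ^ 7 := by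
        rw [Fintype.card_fun, Fintype.card_fin, Fintype.card_fin]
      have h6 : (M ^ 1400) ^ 2 ≤ (M ^ 400 + 1) ^ 7 := by
        calc (M ^ 1400) ^ 2 = (M ^ 400) ^ 7 := by rw [← pow_mul, ← pow_mul]
          _ ≤ (M ^ 400 + 1) ^ 7 := Nat.pow_le_pow_left (Nat.le_succ _) 7
      have h7 : 2 ≤ M ^ 1400 := hM.trans (Nat.le_self_pow (by norm_num) M)
      rw [h5]
      refine le_trans ?_ h6
      generalize M ^ 1400 = N at *
      have h8 : 2 * S ≤ N + 1 := by omega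
      nlinarith
    omega
  · intro k hk s m hms hs
    have h1 : s < S := by
      generalize M ^ 1400 = N at *
      omega
    have h2 : (⟨s, m⟩ : Σ _ : ℕ, ℕ) ∈ T :=
      Finset.mem_sigma.2 ⟨Finset.mem_range.2 h1, Finset.mem_range.2 (Nat.lt_succ_of_le hms)⟩
    have h3 := congrFun (LinearMap.mem_ker.1 hk) ⟨⟨s, m⟩, h2⟩
    exact h3

end CZ
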