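import Pool.Agent.H22.CZ.MaC
import Pool.Agent.H32.T3.Ht

/-!
# Row MaE: the hypotheses of the criterion

PROOF. `Λ = Fin 7 → Fin (M^400 + 1)`, `R = {p : ℕ × ℕ // p.2 ≤ p.1 ∧ p.1 < M^1408}`,
`W p l` = the polynomial from `hW (M^400) p.1 p.2 l` (choice). Let `A = |log ‖lam‖|`, so
`exp(-A s) ≤ ‖lam‖^s ≤ exp(A s)`. For `M` large (in terms of `C, A` and the `M0` of `hana`):
* `card Λ = (M^400+1)^7 > 0`; `log card = 7 log(M^400 + 1) ≤ 7 (401 log M + 1)`... `≤ M` (`log M ≤ 2 sqrt M`; or: `M^400 + 1 ≤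
  exp(M/7)` for `M` large).
* degrees: `C (M^400 + s + 1) ≤ C (M^400 + M^1408 + 1) ≤ 3 C M^1408 ≤ M^1410`; norms: the exponent is
  `C (D + s + 1) log(D + s + 2) ≤ 3 C M^1408 log(4 M^1408) ≤ 3 C M^1408 (2 + 1408 log M) ≤ M^1410`
  (`log M ≤ M`-type bounds: `log x ≤ 2 sqrt x`, or `log M ≤ M/(10^4 C)` for `M` large since `log M/M → 0`).
* (ZE): given `k` (`= c` there) take `s, m` from `hana`; `J s m (FF k) = ∑ k l J s m (Phi l) = lam^s ∑ k l aeval P (W l)`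
  (`J_FF`), so `‖∑‖ = ‖lam‖^(-s) ‖J‖ ≥ exp(-A M^1408 - M^4429) ≥ exp(-M^4430)`.
* (SU): `V` from `dim_V` with `φ s m l = J s m (Phi c b (M^400) l)`; for `k ∈ V` all `J s m (FF k) = 0`, `m ≤ s`, `2 s < M^1400`
  so `‖J s m (FF k)‖ ≤ exp(-M^4399)` for `m ≤ s < M^1408`, and `‖∑‖ ≤ exp(A M^1408 - M^4399) ≤ exp(-M^4398)`.
(Never normalise the big powers with `norm_num`; use lemmas `c * M^a ≤ M^b`.)
-/

set_option autoImplicit false

namespace CZ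

open MvPolynomial
open H32.T3 (nrm)

theorem MaE_pow {m K : ℝ} {a b : ℕ} (hm : 1 ≤ m) (hK : K ≤ m) (hab : a + 1 ≤ b) :
    K * m ^ a ≤ m ^ b := by
  have hm0 : 0 ≤ m ^ a := pow_nonneg (by linarith) a
  calc K * m ^ a ≤ m * m ^ a := mul_le_mul_of_nonneg_right hK hm0
    _ = m ^ (a + 1) := by rw [pow_succ, mul_comm]
    _ ≤ m ^ b := pow_le_pow_right₀ hm hab

theorem MaE_log : ∃ M2 : ℕ, ∀ M : ℕ, M2 ≤ M → 2807 * Real.log M ≤ M := by
  have h1 := Real.isLittleO_log_id_atTop.bound (c := 1 / 2807) (by norm_num)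
  have h2 := tendsto_natCast_atTop_atTop (R := ℝ) |>.eventually h1
  obtain ⟨M2, hM2⟩ := Filter.eventually_atTop.1 h2
  refine ⟨M2, fun M hM => ?_⟩
  have h3 := hM2 M hM
  simp only [Real.norm_eq_abs, id] at h3
  have h4 := le_abs_self (Real.log (M : ℝ))
  rw [Nat.abs_cast] at h3
  linarith

theorem MaE_lam {lam : ℂ} (hlam : lam ≠ 0) (s : ℕ) (B : ℝ) (hs : (s : ℝ) ≤ B) :
    Real.exp (-(|Real.log ‖lam‖| * B)) ≤ ‖lam ^ s‖ ∧
      ‖lam ^ s‖ ≤ Real.exp (|Real.log ‖lam‖| * B) := by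
  have hl : 0 < ‖lam‖ := norm_pos_iff.2 hlam
  have h1 : ‖lam ^ s‖ = Real.exp (s * Real.log ‖lam‖) := by
    rw [norm_pow, ← Real.exp_log hl, Real.log_exp, ← Real.exp_nat_mul]
  have h0 : (0 : ℝ) ≤ s := Nat.cast_nonneg s
  have h2 : |(s : ℝ) * Real.log ‖lam‖| ≤ |Real.log ‖lam‖| * B := by
    rw [abs_mul, abs_of_nonneg h0, mul_comm]
    exact mul_le_mul_of_nonneg_left hs (abs_nonneg _)
  rw [abs_le] at h2
  rw [h1]
  exact ⟨Real.exp_le_exp.2 h2.1, Real.exp_le_exp.2 h2.2⟩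

theorem crit_hyp (c : CData) (b : BaseFn c.z) {k : ℕ} (P : Fin k → ℂ) {lam : ℂ} {C : ℝ}
    (hlam : lam ≠ 0) (hC : 1 ≤ C)
    (hW : ∀ (D s m : ℕ) (l : Fin 7 → Fin (D + 1)), m ≤ s → ∃ W : MvPolynomial (Fin k) ℤ,
        (W.totalDegree : ℝ) ≤ C * (D + s + 1) ∧
        nrm W ≤ Real.exp (C * (D + s + 1) * Real.log (D + s + 2)) ∧
        J s m (Phi c b D l) = lam ^ s * aeval P W)
    (hana : ∃ M0 : ℕ, ∀ M : ℕ, M0 ≤ M →
      (∀ k : (Fin 7 → Fin (M ^ 400 + 1)) → ℂ, (∀ l, ‖k l‖ ≤ 1) → (∃ l, ‖k l‖ = 1) →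
        ∃ s m : ℕ, m ≤ s ∧ s < M ^ 1408 ∧
          Real.exp (-(M : ℝ) ^ 4429) ≤ ‖J s m (FF c b (M ^ 400) k)‖) ∧
      (∀ k : (Fin 7 → Fin (M ^ 400 + 1)) → ℂ, (∀ l, ‖k l‖ ≤ 1) →
        (∀ s m : ℕ, m ≤ s → 2 * s < M ^ 1400 → J s m (FF c b (M ^ 400) k) = 0) →
        ∀ s m : ℕ, m ≤ s → s < M ^ 1408 →
          ‖J s m (FF c b (M ^ 400) k)‖ ≤ Real.exp (-(M : ℝ) ^ 4399))) :
    ∃ M0 : ℕ, ∀ M : ℕ, M0 ≤ M → ∃ (Λ : Type) (_ : Fintype Λ) (R : Type)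
      (W : R → Λ → MvPolynomial (Fin k) ℤ),
      0 < Fintype.card Λ ∧ Real.log (Fintype.card Λ) ≤ M ∧
      (∀ s l, ((W s l).totalDegree : ℝ) ≤ (M : ℝ) ^ 1410 ∧
        nrm (W s l) ≤ Real.exp ((M : ℝ) ^ 1410)) ∧
      (∀ c : Λ → ℂ, (∀ l, ‖c l‖ ≤ 1) → (∃ l, ‖c l‖ = 1) →
        ∃ s, Real.exp (-(M : ℝ) ^ 4430) ≤ ‖∑ l, c l * aeval P (W s l)‖) ∧
      (∃ V : Submodule ℂ (Λ → ℂ), Fintype.card Λ ≤ 2 * Module.finrank ℂ V ∧
        ∀ c ∈ V, (∀ l, ‖c l‖ ≤ 1) → ∀ s,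
          ‖∑ l, c l * aeval P (W s l)‖ ≤ Real.exp (-(M : ℝ) ^ 4398)) := by
  obtain ⟨M1, hM1⟩ := hana
  obtain ⟨M2, hM2⟩ := MaE_log
  choose W hWd hWn hWJ using hW
  obtain ⟨M3, hM3⟩ := exists_nat_ge (3000 * C)
  obtain ⟨M4, hM4⟩ := exists_nat_ge (|Real.log ‖lam‖|)
  refine ⟨max (max M1 M2) (max M3 M4), fun M hM => ?_⟩
  have hMM1 : M1 ≤ M := le_trans (le_trans (le_max_left _ _) (le_max_left _ _)) hM
  have hMM2 : M2 ≤ M := le_trans (le_trans (le_max_right _ _) (le_max_left _ _)) hM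
  have hMM3 : (M3 : ℝ) ≤ M := by
    exact_mod_cast le_trans (le_trans (le_max_left _ _) (le_max_right _ _)) hM
  have hMM4 : (M4 : ℝ) ≤ M := by
    exact_mod_cast le_trans (le_trans (le_max_right _ _) (le_max_right _ _)) hM
  have hMC : 3000 * C ≤ (M : ℝ) := hM3.trans hMM3
  have hMA : |Real.log ‖lam‖| ≤ (M : ℝ) := hM4.trans hMM4
  have hM3000 : (3000 : ℝ) ≤ M := by linarith
  have hMone : (1 : ℝ) ≤ M := by linarith
  have hMnat : 2 ≤ M := by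
    have : (2 : ℝ) ≤ M := by linarith
    exact_mod_cast this
  have hMpos : (0 : ℝ) < M := by linarith
  obtain ⟨hze, hsu⟩ := hM1 M hMM1
  have hlogM : 2807 * Real.log M ≤ M := hM2 M hMM2
  have hlogM1 : Real.log M ≤ M := (Real.log_le_sub_one_of_pos hMpos).trans (by linarith)
  have hlogM0 : 0 ≤ Real.log M := Real.log_nonneg hMone
  have hsb : ∀ s : ℕ, s < M ^ 1408 → (s : ℝ) + 1 ≤ (M : ℝ) ^ 1408 := by
    intro s hs
    exact_mod_cast Nat.succ_le_of_lt hs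
  have h400 : (M : ℝ) ^ 400 ≤ (M : ℝ) ^ 1408 := pow_le_pow_right₀ hMone (by norm_num)
  have hcard : Fintype.card (Fin 7 → Fin (M ^ 400 + 1)) = (M ^ 400 + 1) ^ 7 := by
    rw [Fintype.card_fun, Fintype.card_fin, Fintype.card_fin]
  refine ⟨Fin 7 → Fin (M ^ 400 + 1), inferInstance,
    {p : ℕ × ℕ // p.2 ≤ p.1 ∧ p.1 < M ^ 1408},
    fun p l => W (M ^ 400) p.1.1 p.1.2 l p.2.1, ?_, ?_, ?_, ?_, ?_⟩
  · rw [hcard]; positivity
  · rw [hcard, Nat.cast_pow, Real.log_pow]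
    have h1 : ((M ^ 400 + 1 : ℕ) : ℝ) ≤ (M : ℝ) ^ 401 := by
      push_cast
      have h2 : (2 : ℝ) * (M : ℝ) ^ 400 ≤ (M : ℝ) ^ 401 :=
        MaE_pow hMone (by linarith) (le_refl _)
      have h3 : (1 : ℝ) ≤ (M : ℝ) ^ 400 := one_le_pow₀ hMone
      linarith
    have h2 : Real.log ((M ^ 400 + 1 : ℕ) : ℝ) ≤ 401 * Real.log M := by
      have h3 : (0 : ℝ) < ((M ^ 400 + 1 : ℕ) : ℝ) := by positivity
      have h4 := Real.log_le_log h3 h1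
      rw [Real.log_pow] at h4
      exact_mod_cast h4
    push_cast at h2 ⊢
    linarith
  · rintro ⟨⟨s, m⟩, hms, hs⟩ l
    simp only at hms hs
    have hs' := hsb s hs
    have hD : ((M ^ 400 : ℕ) : ℝ) + s + 1 ≤ 2 * (M : ℝ) ^ 1408 := by
      push_cast
      linarith
    have hD0 : (0 : ℝ) ≤ ((M ^ 400 : ℕ) : ℝ) + s + 1 := by positivity
    have hC0 : 0 ≤ C := by linarith
    have h1 : C * (((M ^ 400 : ℕ) : ℝ) + s + 1) ≤ 2 * C * (M : ℝ) ^ 1408 := by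
      have := mul_le_mul_of_nonneg_left hD hC0
      linarith
    constructor
    · refine (hWd (M ^ 400) s m l hms).trans (h1.trans ?_)
      exact MaE_pow hMone (by linarith) (by norm_num)
    · refine (hWn (M ^ 400) s m l hms).trans (Real.exp_le_exp.2 ?_)
      have h2 : Real.log (((M ^ 400 : ℕ) : ℝ) + s + 2) ≤ 1409 * Real.log M := by
        have h3 : ((M ^ 400 : ℕ) : ℝ) + s + 2 ≤ (M : ℝ) ^ 1409 := by
          have h4 : (3 : ℝ) * (M : ℝ) ^ 1408 ≤ (M : ℝ) ^ 1409 :=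
            MaE_pow hMone (by linarith) (le_refl _)
          have h5 : (1 : ℝ) ≤ (M : ℝ) ^ 1408 := one_le_pow₀ hMone
          linarith
        have h4 : (0 : ℝ) < ((M ^ 400 : ℕ) : ℝ) + s + 2 := by positivity
        have h5 := Real.log_le_log h4 h3
        rw [Real.log_pow] at h5
        exact_mod_cast h5
      have h2' : Real.log (((M ^ 400 : ℕ) : ℝ) + s + 2) ≤ 1409 * M := by linarith
      have h3 : (0 : ℝ) ≤ C * (((M ^ 400 : ℕ) : ℝ) + s + 1) := mul_nonneg hC0 hD0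
      calc C * (((M ^ 400 : ℕ) : ℝ) + s + 1) * Real.log (((M ^ 400 : ℕ) : ℝ) + s + 2)
          ≤ C * (((M ^ 400 : ℕ) : ℝ) + s + 1) * (1409 * M) :=
            mul_le_mul_of_nonneg_left h2' h3
        _ ≤ 2 * C * (M : ℝ) ^ 1408 * (1409 * M) :=
            mul_le_mul_of_nonneg_right h1 (by positivity)
        _ = 2818 * C * (M : ℝ) ^ 1409 := by
            rw [pow_succ (M : ℝ) 1408]; ring
        _ ≤ (M : ℝ) ^ 1410 := MaE_pow hMone (by linarith) (le_refl _)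
  · intro cc hcc hex
    obtain ⟨s, m, hms, hs, hJ⟩ := hze cc hcc hex
    refine ⟨⟨(s, m), hms, hs⟩, ?_⟩
    simp only
    have hs' := hsb s hs
    have hJJ : J s m (FF c b (M ^ 400) cc) =
        lam ^ s * ∑ l, cc l * aeval P (W (M ^ 400) s m l hms) := by
      rw [J_FF, Finset.mul_sum]
      refine Finset.sum_congr rfl fun l _ => ?_
      rw [hWJ (M ^ 400) s m l hms]
      ring
    rw [hJJ, norm_mul] at hJ
    obtain ⟨hl1, hl2⟩ := MaE_lam hlam s ((M : ℝ) ^ 1408) (by linarith)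
    set X : ℝ := ‖∑ l, cc l * aeval P (W (M ^ 400) s m l hms)‖ with hX
    have hX0 : 0 ≤ X := norm_nonneg _
    have h1 : Real.exp (-(M : ℝ) ^ 4429) ≤
        Real.exp (|Real.log ‖lam‖| * (M : ℝ) ^ 1408) * X :=
      hJ.trans (mul_le_mul_of_nonneg_right hl2 hX0)
    have h2 : Real.exp (-(M : ℝ) ^ 4429 - |Real.log ‖lam‖| * (M : ℝ) ^ 1408) ≤ X := by
      rw [Real.exp_sub, div_le_iff₀ (Real.exp_pos _), mul_comm]
      exact h1
    refine le_trans (Real.exp_le_exp.2 ?_) h2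
    have h3 : |Real.log ‖lam‖| * (M : ℝ) ^ 1408 ≤ (M : ℝ) ^ 4429 :=
      MaE_pow hMone hMA (by norm_num)
    have h4 : (2 : ℝ) * (M : ℝ) ^ 4429 ≤ (M : ℝ) ^ 4430 :=
      MaE_pow hMone (by linarith) (le_refl _)
    linarith
  · obtain ⟨V, hV1, hV2⟩ := dim_V hMnat (fun s m l => J s m (Phi c b (M ^ 400) l))
    refine ⟨V, hV1, ?_⟩
    rintro cc hccV hcc ⟨⟨s, m⟩, hms, hs⟩
    simp only at hms hs ⊢
    have hs' := hsb s hs
    have hJ := hsu cc hcc (fun s' m' h1 h2 => by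
      rw [J_FF]
      exact hV2 cc hccV s' m' h1 h2) s m hms hs
    have hJJ : J s m (FF c b (M ^ 400) cc) =
        lam ^ s * ∑ l, cc l * aeval P (W (M ^ 400) s m l hms) := by
      rw [J_FF, Finset.mul_sum]
      refine Finset.sum_congr rfl fun l _ => ?_
      rw [hWJ (M ^ 400) s m l hms]
      ring
    rw [hJJ, norm_mul] at hJ
    obtain ⟨hl1, hl2⟩ := MaE_lam hlam s ((M : ℝ) ^ 1408) (by linarith)
    set X : ℝ := ‖∑ l, cc l * aeval P (W (M ^ 400) s m l hms)‖ with hX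
    have hX0 : 0 ≤ X := norm_nonneg _
    have h1 : Real.exp (-(|Real.log ‖lam‖| * (M : ℝ) ^ 1408)) * X ≤
        Real.exp (-(M : ℝ) ^ 4399) :=
      (mul_le_mul_of_nonneg_right hl1 hX0).trans hJ
    have h2 : X ≤ Real.exp (-(M : ℝ) ^ 4399 + |Real.log ‖lam‖| * (M : ℝ) ^ 1408) := by
      have h3 := mul_le_mul_of_nonneg_left h1
        (Real.exp_pos (|Real.log ‖lam‖| * (M : ℝ) ^ 1408)).le
      rw [← mul_assoc, ← Real.exp_add, add_neg_cancel, Real.exp_zero, one_mul, ← Real.exp_add]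
        at h3
      rw [add_comm]
      exact h3
    refine h2.trans (Real.exp_le_exp.2 ?_)
    have h3 : |Real.log ‖lam‖| * (M : ℝ) ^ 1408 ≤ (M : ℝ) ^ 4398 :=
      MaE_pow hMone hMA (by norm_num)
    have h4 : (2 : ℝ) * (M : ℝ) ^ 4398 ≤ (M : ℝ) ^ 4399 :=
      MaE_pow hMone (by linarith) (le_refl _)
    linarith

end CZ
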