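import Pool.Agent.H22.CZ.Main

/-!
# MP_ede373: all tuples of points of a cubic field
-/

set_option autoImplicit false

namespace CZ

open IntermediateField Module

/-- In a cubic field all nonreal points of the upper half-plane are equivalent. -/
theorem equiv_of_cubic (M : IntermediateField ℚ ℂ) (hM : finrank ℚ M = 3) {z z' : ℂ}
    (hz : z ∈ M) (hz' : z' ∈ M) (him : 0 < z.im) (him' : 0 < z'.im) :
    ∃ a b c d : ℚ, 0 < a * d - b * c ∧ z' = ((a : ℂ) * z + (b : ℂ)) / ((c : ℂ) * z + (d : ℂ)) := by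
  have hfd : FiniteDimensional ℚ M := FiniteDimensional.of_finrank_pos (by omega)
  let v : Fin 4 → M := ![1, ⟨z, hz⟩, ⟨z', hz'⟩, ⟨z, hz⟩ * ⟨z', hz'⟩]
  have hdep : ¬ LinearIndependent ℚ v := by
    intro h
    have := h.fintype_card_le_finrank
    rw [hM] at this
    simp at this
  rw [Fintype.not_linearIndependent_iff] at hdep
  obtain ⟨g, hg, i0, hi0⟩ := hdep
  have hrel : (g 0 : ℂ) + (g 1 : ℂ) * z + (g 2 : ℂ) * z' + (g 3 : ℂ) * (z * z') = 0 := by
    have h1 := congrArg (fun x : M ↦ (x : ℂ)) hg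
    simp only [Fin.sum_univ_four, v, Matrix.cons_val] at h1
    simp only [Algebra.smul_def] at h1
    push_cast at h1
    simpa using h1
  have hlin : ∀ a b : ℚ, (a : ℂ) + (b : ℂ) * z = 0 → a = 0 ∧ b = 0 := by
    intro a b h
    have h1 := congrArg Complex.im h
    have h2 := congrArg Complex.re h
    simp only [Complex.add_im, Complex.mul_im, Complex.add_re, Complex.mul_re, Complex.zero_im,
      Complex.zero_re, Complex.ratCast_re, Complex.ratCast_im] at h1 h2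
    have hb : (b : ℝ) = 0 := by
      have : (b : ℝ) * z.im = 0 := by linarith
      rcases mul_eq_zero.mp this with h | h
      · exact h
      · exact absurd h him.ne'
    rw [hb] at h2
    have ha : (a : ℝ) = 0 := by linarith
    exact ⟨by exact_mod_cast ha, by exact_mod_cast hb⟩
  have hden : (g 3 : ℂ) * z + (g 2 : ℂ) ≠ 0 := by
    intro h
    obtain ⟨h2, h3⟩ := hlin (g 2) (g 3) (by linear_combination h)
    have h4 : (g 0 : ℂ) + (g 1 : ℂ) * z = 0 := by
      rw [h2, h3] at hrel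
      simpa using hrel
    obtain ⟨h0, h1⟩ := hlin _ _ h4
    apply hi0
    fin_cases i0 <;> assumption
  have heq : z' = (((-g 1 : ℚ) : ℂ) * z + ((-g 0 : ℚ) : ℂ)) / ((g 3 : ℂ) * z + (g 2 : ℂ)) := by
    rw [eq_div_iff hden]
    push_cast
    linear_combination hrel
  refine ⟨-g 1, -g 0, g 3, g 2, ?_, heq⟩
  -- the sign of the determinant
  have hn : 0 < Complex.normSq ((g 3 : ℂ) * z + (g 2 : ℂ)) := Complex.normSq_pos.mpr hden
  have him2 : z'.im * Complex.normSq ((g 3 : ℂ) * z + (g 2 : ℂ)) =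
      ((-g 1 * g 2 - -g 0 * g 3 : ℚ) : ℝ) * z.im := by
    have h1 : z'.im = ((((-g 1 : ℚ) : ℂ) * z + ((-g 0 : ℚ) : ℂ)) /
        ((g 3 : ℂ) * z + (g 2 : ℂ))).im := by rw [← heq]
    have hn' := hn.ne'
    rw [h1, Complex.div_im, sub_mul, div_mul_cancel₀ _ hn', div_mul_cancel₀ _ hn']
    simp only [Complex.add_im, Complex.mul_im, Complex.add_re, Complex.mul_re,
      Complex.ratCast_re, Complex.ratCast_im]
    push_cast
    ring
  have h3 : 0 < ((-g 1 * g 2 - -g 0 * g 3 : ℚ) : ℝ) * z.im := by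
    rw [← him2]; positivity
  have h4 : 0 < ((-g 1 * g 2 - -g 0 * g 3 : ℚ) : ℝ) := by
    by_contra hcon
    push Not at hcon
    nlinarith
  exact_mod_cast h4

theorem degree_three (M : IntermediateField ℚ ℂ) (hM : finrank ℚ M = 3) {z : ℂ}
    (hz : z ∈ M) (him : 0 < z.im) : IsIntegral ℚ z ∧ (minpoly ℚ z).natDegree = 3 := by
  have hfd : FiniteDimensional ℚ M := FiniteDimensional.of_finrank_pos (by omega)
  have hint : IsIntegral ℚ (⟨z, hz⟩ : M) := IsIntegral.of_finite ℚ _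
  have hint' : IsIntegral ℚ z := hint.map M.val
  refine ⟨hint', ?_⟩
  have hle : ℚ⟮z⟯ ≤ M := by
    rw [adjoin_simple_le_iff]; exact hz
  have h1 : finrank ℚ ℚ⟮z⟯ = (minpoly ℚ z).natDegree := adjoin.finrank hint'
  have h2 : finrank ℚ ℚ⟮z⟯ ∣ 3 := by
    rw [← hM]
    exact finrank_dvd_of_le_right hle
  rw [← h1]
  rcases (Nat.dvd_prime Nat.prime_three).mp h2 with h | h
  · exfalso
    rw [IntermediateField.finrank_eq_one_iff, adjoin_simple_eq_bot_iff] at h
    rw [IntermediateField.mem_bot] at h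
    obtain ⟨q, rfl⟩ := h
    simp at him
  · exact h

theorem main_tuples (E4 E6 Jf : ℂ → ℂ)
    (h4 : ∀ τ : ℂ, E4 τ = 1 + 240 * ∑' m : ℕ, ((ArithmeticFunction.sigma 3 (m + 1) : ℕ) : ℂ) *
          Complex.exp (2 * (Real.pi : ℂ) * Complex.I * ((m : ℂ) + 1) * τ))
    (h6 : ∀ τ : ℂ, E6 τ = 1 - 504 * ∑' m : ℕ, ((ArithmeticFunction.sigma 5 (m + 1) : ℕ) : ℂ) *
          Complex.exp (2 * (Real.pi : ℂ) * Complex.I * ((m : ℂ) + 1) * τ))
    (hJ : ∀ τ : ℂ, Jf τ = 1728 * E4 τ ^ 3 / (E4 τ ^ 3 - E6 τ ^ 2))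
    (M : IntermediateField ℚ ℂ) (hM : finrank ℚ M = 3) (n : ℕ) (z : Fin n → ℂ)
    (hz : ∀ i, z i ∈ M) (him : ∀ i, 0 < (z i).im)
    (hne : ∀ i k, i ≠ k → ¬ ∃ a b c d : ℚ, 0 < a * d - b * c ∧
      z k = ((a : ℂ) * z i + (b : ℂ)) / ((c : ℂ) * z i + (d : ℂ))) :
    n ≤ 1 ∧ AlgebraicIndependent ℚ (fun p : Fin n × Fin 3 ↦
      ![Jf (z p.1), deriv Jf (z p.1), deriv (deriv Jf) (z p.1)] p.2) := by
  match n with
  | 0 => exact ⟨by omega, algebraicIndependent_empty_type⟩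
  | 1 =>
    refine ⟨le_rfl, ?_⟩
    obtain ⟨hint, hdeg⟩ := degree_three M hM (hz 0) (him 0)
    have h := main_cubic E4 E6 Jf h4 h6 hJ (z 0) (him 0) hint hdeg
    have h2 := h.comp (fun p : Fin 1 × Fin 3 ↦ p.2) (by
      rintro ⟨a, b⟩ ⟨a', b'⟩ hab
      simp only at hab
      rw [Subsingleton.elim a a', hab])
    convert h2 using 1
    ext p
    rw [Subsingleton.elim p.1 0]
    rfl
  | n + 2 =>
    exfalso
    exact hne 0 1 (by simp) (equiv_of_cubic M hM (hz 0) (hz 1) (him 0) (him 1))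

end CZ
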