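import Pool.Agent.H22.CZ.Ana
import Pool.Agent.H22.CZ.MaA
import Pool.Agent.H22.CZ.MaB
import Pool.Agent.H22.CZ.MaE
import Pool.Agent.H32.CZ.Ch
import Pool.Agent.H32.CZ.Qh

/-!
# MP_ede373: the theorem for cubic points (assembly)
-/

set_option autoImplicit false

namespace CZ

theorem main_cubic (E4 E6 Jf : ℂ → ℂ)
    (h4 : ∀ τ : ℂ, E4 τ = 1 + 240 * ∑' m : ℕ, ((ArithmeticFunction.sigma 3 (m + 1) : ℕ) : ℂ) *
          Complex.exp (2 * (Real.pi : ℂ) * Complex.I * ((m : ℂ) + 1) * τ))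
    (h6 : ∀ τ : ℂ, E6 τ = 1 - 504 * ∑' m : ℕ, ((ArithmeticFunction.sigma 5 (m + 1) : ℕ) : ℂ) *
          Complex.exp (2 * (Real.pi : ℂ) * Complex.I * ((m : ℂ) + 1) * τ))
    (hJ : ∀ τ : ℂ, Jf τ = 1728 * E4 τ ^ 3 / (E4 τ ^ 3 - E6 τ ^ 2))
    (z : ℂ) (hz : 0 < z.im) (hint : IsIntegral ℚ z) (h3 : (minpoly ℚ z).natDegree = 3) :
    AlgebraicIndependent ℚ ![Jf z, deriv Jf z, deriv (deriv Jf) z] := by
  obtain ⟨c, rfl⟩ := exists_cdata hz hint h3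
  obtain ⟨b, k, P, lam, C, hlam, hC, hP, hW⟩ := arith c E4 E6 Jf h4 h6 hJ
  obtain ⟨f, hf⟩ := criterion P (crit_hyp c b P hlam hC hW (analysis c b))
  exact indep_of_three hf hP

end CZ
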