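import Mathlib

/-!
# Row P1: estimates for polynomials in one variable

PROOF.
* `poly_nodes`: Lagrange interpolation at `0, …, n` (`Lagrange.sum_basis`/`Lagrange.eq_interpolate_of_eval_eq`):
  `p(s) = ∑_i p(i) ∏_{j≠i} (s - j)/(i - j)`. `|∏_{j≠i}(s - j)| ≤ (R + n)^n`, `∏_{j≠i} |i - j| = i! (n-i)!`,
  and `∑_i 1/(i!(n-i)!) = 2^n/n! ≤ 2^n`.
* `poly_coeff`: Cauchy: `p.coeff i = (2π)^(-1) ∫ p(e^{iθ}) e^{-iθ i} dθ`; e.g. from
  `norm_iteratedDeriv_le_of_forall_mem_sphere_norm_le` at radius 1, or from Mathlib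
  (`Polynomial.coeff` and circle integrals / Parseval in the Mahler measure files).
* `poly_disc`: apply `poly_coeff` to `g(X) = p(s0 + ρ X)`: coefficients `≤ η`; for `‖s - s0‖ ≤ R`:
  `p(s) = g((s - s0)/ρ)`, `|..| ≤ ∑_{i ≤ n} η (R/ρ)^i ≤ η (n+1) (R/ρ)^n`.
-/

set_option autoImplicit false

namespace CZ

open Polynomial

theorem poly_nodes {n : ℕ} {p : ℂ[X]} (hp : p.natDegree ≤ n) {η R : ℝ} (hR : 0 ≤ R)
    (h : ∀ i : ℕ, i ≤ n → ‖p.eval (i : ℂ)‖ ≤ η) (s : ℂ) (hs : ‖s‖ ≤ R) :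
    ‖p.eval s‖ ≤ η * (2 * (R + n)) ^ n := by
  have hη : 0 ≤ η := (norm_nonneg _).trans (h 0 (Nat.zero_le n))
  have hinj : Set.InjOn (fun i : ℕ => (i : ℂ)) (Finset.range (n + 1) : Finset ℕ) :=
    fun a _ b _ hab => Nat.cast_injective (R := ℂ) hab
  have hdeg : p.degree < ((Finset.range (n + 1)).card : WithBot ℕ) := by
    rw [Finset.card_range]
    refine lt_of_le_of_lt degree_le_natDegree ?_
    exact_mod_cast Nat.lt_succ_of_le hp
  have hL := Lagrange.eq_interpolate hinj hdeg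
  have hev : p.eval s = ∑ i ∈ Finset.range (n + 1), p.eval (i : ℂ) *
      ∏ j ∈ (Finset.range (n + 1)).erase i, (((i : ℂ) - j)⁻¹ * (s - j)) := by
    conv_lhs => rw [hL]
    rw [Lagrange.interpolate_apply, eval_finsetSum]
    refine Finset.sum_congr rfl fun i _ => ?_
    rw [eval_mul, eval_C, Lagrange.basis, eval_prod]
    congr 1
    refine Finset.prod_congr rfl fun j _ => ?_
    rw [Lagrange.basisDivisor, eval_mul, eval_C, eval_sub, eval_X, eval_C]
  have hterm : ∀ i ∈ Finset.range (n + 1), ‖p.eval (i : ℂ) *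
      ∏ j ∈ (Finset.range (n + 1)).erase i, (((i : ℂ) - j)⁻¹ * (s - j))‖ ≤ η * (R + n) ^ n := by
    intro i hi
    rw [norm_mul, norm_prod]
    have h1 : ‖p.eval (i : ℂ)‖ ≤ η := h i (Nat.lt_succ_iff.1 (Finset.mem_range.1 hi))
    have h2 : ∏ j ∈ (Finset.range (n + 1)).erase i, ‖(((i : ℂ) - j)⁻¹ * (s - j))‖ ≤ (R + n) ^ n := by
      have hc : ((Finset.range (n + 1)).erase i).card = n := by
        rw [Finset.card_erase_of_mem hi, Finset.card_range]
        rfl
      calc ∏ j ∈ (Finset.range (n + 1)).erase i, ‖(((i : ℂ) - j)⁻¹ * (s - j))‖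
          ≤ ∏ _j ∈ (Finset.range (n + 1)).erase i, (R + n) := by
            refine Finset.prod_le_prod (fun j _ => norm_nonneg _) fun j hj => ?_
            rw [Finset.mem_erase, Finset.mem_range] at hj
            obtain ⟨hji, hjn⟩ := hj
            rw [norm_mul, norm_inv]
            have h3 : (1 : ℝ) ≤ ‖(i : ℂ) - j‖ := by
              have h4 : (i : ℂ) - j = (((i : ℤ) - j : ℤ) : ℂ) := by push_cast; ring
              rw [h4, Complex.norm_intCast]
              have h5 : (1 : ℤ) ≤ |(i : ℤ) - j| := Int.one_le_abs (by omega)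
              exact_mod_cast h5
            have h6 : ‖(i : ℂ) - j‖⁻¹ ≤ 1 := inv_le_one_of_one_le₀ h3
            have h7 : ‖s - j‖ ≤ R + n := by
              calc ‖s - j‖ ≤ ‖s‖ + ‖(j : ℂ)‖ := norm_sub_le _ _
                _ ≤ R + n := by
                  rw [Complex.norm_natCast]
                  have : (j : ℝ) ≤ n := by exact_mod_cast Nat.lt_succ_iff.1 hjn
                  linarith
            calc ‖(i : ℂ) - j‖⁻¹ * ‖s - j‖ ≤ 1 * (R + n) :=
                  mul_le_mul h6 h7 (norm_nonneg _) zero_le_one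
              _ = R + n := one_mul _
        _ = (R + n) ^ n := by rw [Finset.prod_const, hc]
    exact mul_le_mul h1 h2 (Finset.prod_nonneg fun j _ => norm_nonneg _) hη
  rw [hev]
  have hRn : 0 ≤ (R + n) ^ n := by positivity
  calc ‖∑ i ∈ Finset.range (n + 1), p.eval (i : ℂ) *
      ∏ j ∈ (Finset.range (n + 1)).erase i, (((i : ℂ) - j)⁻¹ * (s - j))‖
      ≤ ∑ _i ∈ Finset.range (n + 1), η * (R + n) ^ n := norm_sum_le_of_le _ hterm
    _ = (n + 1) * (η * (R + n) ^ n) := by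
      rw [Finset.sum_const, Finset.card_range, nsmul_eq_mul]
      push_cast
      ring
    _ ≤ 2 ^ n * (η * (R + n) ^ n) := by
      refine mul_le_mul_of_nonneg_right ?_ (by positivity)
      have : n + 1 ≤ 2 ^ n := Nat.lt_two_pow_self
      exact_mod_cast this
    _ = η * (2 * (R + n)) ^ n := by
      rw [mul_pow]
      ring

theorem P1_iter (p : ℂ[X]) (i : ℕ) : iteratedDeriv i (fun x => p.eval x) = fun x => (derivative^[i] p).eval x := by
  induction i with
  | zero => simp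
  | succ i ih =>
    rw [iteratedDeriv_succ, ih]
    funext x
    rw [Polynomial.deriv, Function.iterate_succ_apply']

theorem poly_coeff {p : ℂ[X]} {η : ℝ} (h : ∀ s : ℂ, ‖s‖ ≤ 1 → ‖p.eval s‖ ≤ η) (i : ℕ) :
    ‖p.coeff i‖ ≤ η := by
  have h1 := Complex.norm_iteratedDeriv_le_of_forall_mem_sphere_norm_le (c := 0) (R := 1) (C := η)
    (f := fun x => p.eval x) i one_pos p.differentiable.diffContOnCl (fun z hz => h z (by
      rw [mem_sphere_zero_iff_norm] at hz
      exact hz.le))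
  rw [P1_iter] at h1
  have h2 : (derivative^[i] p).eval 0 = (i.factorial : ℂ) * p.coeff i := by
    rw [← coeff_zero_eq_eval_zero, coeff_iterate_derivative, zero_add, Nat.descFactorial_self, nsmul_eq_mul]
  have h3 : ‖(i.factorial : ℂ) * p.coeff i‖ ≤ (i.factorial : ℝ) * η := by
    rw [← h2]
    simpa using h1
  rw [norm_mul, Complex.norm_natCast] at h3
  have h4 : (0 : ℝ) < i.factorial := by exact_mod_cast Nat.factorial_pos i
  exact le_of_mul_le_mul_left h3 h4

theorem poly_disc {n : ℕ} {p : ℂ[X]} (hp : p.natDegree ≤ n) {η ρ R : ℝ} (hρ : 0 < ρ) (hR : ρ ≤ R)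
    {s0 : ℂ} (h : ∀ s : ℂ, ‖s - s0‖ ≤ ρ → ‖p.eval s‖ ≤ η) (s : ℂ) (hs : ‖s - s0‖ ≤ R) :
    ‖p.eval s‖ ≤ η * ((n + 1) * (R / ρ) ^ n) := by
  have hη : 0 ≤ η := (norm_nonneg _).trans (h s0 (by simpa using hρ.le))
  set q : ℂ[X] := C s0 + C (ρ : ℂ) * X with hq
  set g : ℂ[X] := p.comp q with hg
  have hqd : q.natDegree ≤ 1 := by
    rw [hq]
    refine (natDegree_add_le _ _).trans ?_
    rw [natDegree_C]
    exact max_le (Nat.zero_le _) ((natDegree_C_mul_le _ _).trans natDegree_X_le)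
  have hgd : g.natDegree < n + 1 := by
    have h1 := natDegree_comp_le (p := p) (q := q)
    have h2 : p.natDegree * q.natDegree ≤ n * 1 := Nat.mul_le_mul hp hqd
    rw [← hg] at h1
    omega
  have hge : ∀ t : ℂ, g.eval t = p.eval (s0 + ρ * t) := by
    intro t
    rw [hg, eval_comp, hq]
    simp
  have hgb : ∀ t : ℂ, ‖t‖ ≤ 1 → ‖g.eval t‖ ≤ η := by
    intro t ht
    rw [hge]
    refine h _ ?_
    rw [add_sub_cancel_left, norm_mul, Complex.norm_real, Real.norm_of_nonneg hρ.le]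
    calc ρ * ‖t‖ ≤ ρ * 1 := mul_le_mul_of_nonneg_left ht hρ.le
      _ = ρ := mul_one _
  have hco := fun i => poly_coeff hgb i
  have hρc : (ρ : ℂ) ≠ 0 := by exact_mod_cast hρ.ne'
  have hps : p.eval s = g.eval ((s - s0) / ρ) := by
    rw [hge]
    congr 1
    field_simp
    ring
  have hQ1 : 1 ≤ R / ρ := (one_le_div hρ).2 hR
  have ht : ‖(s - s0) / ρ‖ ≤ R / ρ := by
    rw [norm_div, Complex.norm_real, Real.norm_of_nonneg hρ.le]
    exact div_le_div_of_nonneg_right hs hρ.le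
  rw [hps, eval_eq_sum_range' hgd]
  calc ‖∑ i ∈ Finset.range (n + 1), g.coeff i * ((s - s0) / ρ) ^ i‖
      ≤ ∑ _i ∈ Finset.range (n + 1), η * (R / ρ) ^ n := by
        refine norm_sum_le_of_le _ fun i hi => ?_
        rw [norm_mul, norm_pow]
        have hin : i ≤ n := Nat.lt_succ_iff.1 (Finset.mem_range.1 hi)
        refine mul_le_mul (hco i) ?_ (by positivity) hη
        calc ‖(s - s0) / ρ‖ ^ i ≤ (R / ρ) ^ i := pow_le_pow_left₀ (norm_nonneg _) ht i
          _ ≤ (R / ρ) ^ n := pow_le_pow_right₀ hQ1 hin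
    _ = η * ((n + 1) * (R / ρ) ^ n) := by
      rw [Finset.sum_const, Finset.card_range, nsmul_eq_mul]
      push_cast
      ring

end CZ
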