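import Pool.Agent.H22.CZ.Sdef

/-!
# Row S1: Hadamard three lines for the weighted size

PROOF. Fix `w` and take `α, β, γ` from `hq.dec w`. The function
`H t = F (w, t) * exp (-(D * (α t^2 + β t + γ)))` is entire and
`‖H t‖ = ‖F (w,t)‖ exp(-D Re(α t^2 + β t + γ)) = ‖F (w,t)‖ exp(-D q w t) exp(D C' (Im t)^2) = Nf q C' D F w t`.
By `hF.gr`: `‖H t‖ ≤ exp(A + C0 D t.im^2 + D C' t.im^2)`, so `H` is bounded on the strips
`a ≤ Im t ≤ R` and `-R ≤ Im t ≤ -a`. On the lines `Im t = ± a` it is `≤ exp A1`, on `Im t = ± R` it is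
`≤ exp A2`. Apply the three lines theorem of Mathlib
(`Mathlib/Analysis/Complex/Hadamard.lean`, vertical strips: use `s ↦ H (i s')`, or the version
for a general strip; e.g. with `f s = H (I * s)`-type substitutions: `Im (I * s) = Re s`) to get
`‖H t‖ ≤ (exp A1)^(1 - λ) (exp A2)^λ`, `λ = (|t.im| - a)/(R - a)`.
(For `t.im < 0` apply it to `t ↦ H (-t)`, which satisfies the same bounds.)
-/

set_option autoImplicit false

namespace CZ

open Complex

theorem three_lines {q : ℂ → ℂ → ℝ} {C0 C' : ℝ} {G : Set (ℂ × ℝ)} {D A : ℝ} {F : ℂ × ℂ → ℂ}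
    (hq : QData q C0 C') (hF : FData q C0 G D A F) (hD : 0 ≤ D) {a R A1 A2 : ℝ} (ha : 0 ≤ a)
    (haR : a < R) (h1 : ∀ w t : ℂ, |t.im| = a → Nf q C' D F w t ≤ Real.exp A1)
    (h2 : ∀ w t : ℂ, |t.im| = R → Nf q C' D F w t ≤ Real.exp A2) (w t : ℂ) (hat : a ≤ |t.im|)
    (htR : |t.im| ≤ R) :
    Nf q C' D F w t ≤ Real.exp (((R - |t.im|) * A1 + (|t.im| - a) * A2) / (R - a)) := by
  obtain ⟨α, β, γ, hdec⟩ := hq.dec w
  set H : ℂ → ℂ := fun t ↦ F (w, t) * exp (-(D * (α * t ^ 2 + β * t + γ))) with hH
  have hHn : ∀ t, ‖H t‖ = Nf q C' D F w t := by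
    intro t
    rw [hH, Nf]
    simp only [norm_mul, norm_exp]
    rw [mul_assoc, ← Real.exp_add]
    congr 2
    rw [hdec t, neg_re, re_ofReal_mul]
    ring
  have hHd : Differentiable ℂ H := by
    have h1 : Differentiable ℂ fun t : ℂ ↦ F (w, t) :=
      hF.diff.comp ((differentiable_const w).prodMk differentiable_id)
    refine h1.mul ?_
    fun_prop
  have key : ∀ σ : ℂ, ‖σ‖ = 1 → (∀ s : ℂ, |(σ * s).im| = |s.re|) → ∀ s : ℂ, a ≤ s.re → s.re ≤ R →
      ‖H (σ * s)‖ ≤ Real.exp (((R - s.re) * A1 + (s.re - a) * A2) / (R - a)) := by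
    intro σ _ hσ s hs1 hs2
    have hRa : 0 < R - a := by linarith
    have h := HadamardThreeLines.norm_le_interp_of_mem_verticalClosedStrip' (f := fun s ↦ H (σ * s))
      (z := s) (a := Real.exp A1) (b := Real.exp A2) haR ⟨hs1, hs2⟩
      (hHd.comp (differentiable_id.const_mul σ)).diffContOnCl
      (by
        refine ⟨Real.exp (A + (C0 + C') * D * R ^ 2), ?_⟩
        rintro _ ⟨u, hu, rfl⟩
        have hu1 : a ≤ u.re := hu.1
        have hu2 : u.re ≤ R := hu.2
        have him : (σ * u).im ^ 2 ≤ R ^ 2 := by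
          rw [← sq_abs, hσ u, sq_abs]
          nlinarith
        simp only [Function.comp]
        rw [hHn, Nf]
        calc ‖F (w, σ * u)‖ * Real.exp (-(D * q w (σ * u))) * Real.exp (D * C' * (σ * u).im ^ 2)
            ≤ Real.exp (A + C0 * D * (σ * u).im ^ 2) * Real.exp (D * C' * (σ * u).im ^ 2) :=
              mul_le_mul_of_nonneg_right (hF.gr w (σ * u)) (Real.exp_pos _).le
          _ = Real.exp (A + (C0 + C') * D * (σ * u).im ^ 2) := by
              rw [← Real.exp_add]
              ring_nf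
          _ ≤ Real.exp (A + (C0 + C') * D * R ^ 2) := by
              apply Real.exp_le_exp.2
              have h1 : 0 ≤ (C0 + C') * D :=
                mul_nonneg (add_nonneg (zero_le_one.trans hq.one_le) hq.C'_nonneg) hD
              have := mul_le_mul_of_nonneg_left him h1
              linarith)
      (by
        intro u hu
        have hu' : u.re = a := hu
        rw [hHn]
        apply h1
        rw [hσ u, hu', abs_of_nonneg ha])
      (by
        intro u hu
        have hu' : u.re = R := hu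
        rw [hHn]
        apply h2
        rw [hσ u, hu', abs_of_nonneg (ha.trans haR.le)])
    refine h.trans (le_of_eq ?_)
    rw [← Real.exp_mul, ← Real.exp_mul, ← Real.exp_add]
    congr 1
    field_simp
    ring
  rw [← hHn]
  rcases le_total 0 t.im with ht | ht
  · have h3 := key I (by simp) (by intro s; simp) (-I * t) (by simpa [abs_of_nonneg ht] using hat)
      (by simpa [abs_of_nonneg ht] using htR)
    have h4 : I * (-I * t) = t := by
      rw [← mul_assoc, mul_neg, I_mul_I, neg_neg, one_mul]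
    rw [h4] at h3
    have h5 : (-I * t).re = |t.im| := by
      rw [abs_of_nonneg ht]
      simp
    rwa [h5] at h3
  · have h3 := key (-I) (by simp) (by intro s; simp) (I * t) (by simpa [abs_of_nonpos ht] using hat)
      (by simpa [abs_of_nonpos ht] using htR)
    have h4 : -I * (I * t) = t := by
      rw [← mul_assoc, neg_mul, I_mul_I, neg_neg, one_mul]
    rw [h4] at h3
    have h5 : (I * t).re = |t.im| := by
      rw [abs_of_nonpos ht]
      simp
    rwa [h5] at h3

end CZ
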