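import Pool.Agent.H22.CZ.S1

/-!
# Row S4: from the real hyperplane to a large strip

PROOF. `three_lines` with `a = 0`, `R = 2 r`, `A1 = -Λ` (`|t.im| = 0` iff `t.im = 0`, and then
`Nf = ‖F‖ e^(-D q)`), `A2 = A + 8 C0 D r^2` (`‖F‖e^(-Dq) e^(D C' R^2) ≤ exp(A + C0 D R^2 + D C0 R^2)`,
`R^2 = 4 r^2`). For `|t.im| ≤ r`, with `λ = |t.im|/(2 r) ∈ [0, 1/2]`: the exponent is
`(1 - λ)(-Λ) + λ A2 ≤ -Λ/2 + A2` (`Λ ≥ 0`, `A2 ≥ 0`). And `‖F‖e^(-Dq) ≤ Nf` (`D C' t.im^2 ≥ 0`).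
-/

set_option autoImplicit false

namespace CZ

open Complex

theorem spread {q : ℂ → ℂ → ℝ} {C0 C' : ℝ} {G : Set (ℂ × ℝ)} {D A : ℝ} {F : ℂ × ℂ → ℂ}
    (hq : QData q C0 C') (hF : FData q C0 G D A F) (hD : 0 ≤ D) (hA : 0 ≤ A) {Λ r : ℝ}
    (hΛ : 0 ≤ Λ) (hr : 0 < r)
    (h : ∀ w t : ℂ, t.im = 0 → ‖F (w, t)‖ * Real.exp (-(D * q w t)) ≤ Real.exp (-Λ)) (w t : ℂ)
    (ht : |t.im| ≤ r) :
    ‖F (w, t)‖ * Real.exp (-(D * q w t)) ≤ Real.exp (-Λ / 2 + A + 8 * C0 * D * r ^ 2) := by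
  have hC0 : 0 ≤ C0 := le_trans zero_le_one hq.one_le
  have hC' := hq.C'_nonneg
  have hCC := hq.C'_le
  have hr2 : 0 ≤ D * r ^ 2 := by positivity
  have h1 : ∀ w t : ℂ, |t.im| = 0 → Nf q C' D F w t ≤ Real.exp (-Λ) := by
    intro w t h0
    have h0' : t.im = 0 := abs_eq_zero.1 h0
    have := h w t h0'
    unfold Nf
    rw [h0']
    simpa using this
  have h2 : ∀ w t : ℂ, |t.im| = 2 * r → Nf q C' D F w t ≤ Real.exp (A + 8 * C0 * D * r ^ 2) := by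
    intro w t h0
    have hsq : t.im ^ 2 = 4 * r ^ 2 := by
      rw [← sq_abs, h0]; ring
    have hg := hF.gr w t
    unfold Nf
    calc ‖F (w, t)‖ * Real.exp (-(D * q w t)) * Real.exp (D * C' * t.im ^ 2)
        ≤ Real.exp (A + C0 * D * t.im ^ 2) * Real.exp (D * C' * t.im ^ 2) :=
          mul_le_mul_of_nonneg_right hg (Real.exp_pos _).le
      _ = Real.exp (A + C0 * D * t.im ^ 2 + D * C' * t.im ^ 2) := by rw [← Real.exp_add]
      _ ≤ Real.exp (A + 8 * C0 * D * r ^ 2) := by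
          apply Real.exp_le_exp.2
          rw [hsq]
          have : C' * (D * r ^ 2) ≤ C0 * (D * r ^ 2) := mul_le_mul_of_nonneg_right hCC hr2
          nlinarith
  have h3 := three_lines hq hF hD (le_refl (0 : ℝ)) (by positivity : (0 : ℝ) < 2 * r) h1 h2 w t
    (abs_nonneg _) (by linarith)
  have hle : ‖F (w, t)‖ * Real.exp (-(D * q w t)) ≤ Nf q C' D F w t := by
    unfold Nf
    apply le_mul_of_one_le_right
    · positivity
    · apply Real.one_le_exp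
      positivity
  refine hle.trans (h3.trans (Real.exp_le_exp.2 ?_))
  have hy : 0 ≤ |t.im| := abs_nonneg _
  set y := |t.im| with hyd
  have hA2 : 0 ≤ A + 8 * C0 * D * r ^ 2 := by positivity
  rw [sub_zero, sub_zero, div_le_iff₀ (by positivity)]
  have e1 : (2 * r - y) * Λ ≥ r * Λ := mul_le_mul_of_nonneg_right (by linarith) hΛ
  have e2 : y * (A + 8 * C0 * D * r ^ 2) ≤ (2 * r) * (A + 8 * C0 * D * r ^ 2) :=
    mul_le_mul_of_nonneg_right (by linarith) hA2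
  nlinarith

end CZ
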