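import Pool.Agent.H22.CZ.Bl7
import Pool.Agent.H22.CZ.S3
import Pool.Agent.H22.CZ.S4
import Pool.Agent.H22.CZ.L7

/-!
# Row Z1: every combination has a jet that is not too small

PROOF. `C` = the maximum of the constants of `cov_data, q_data, FF_data`; so `QData c.q C C'`, `Cov C c.G` and
`FData c.q C c.G D (C D) (FF ..)` for `D = M^400`. `K1` from `sch`, `K2` from `lower`. Let
`D = M^400, S = M^1408, r = M^2014, Jp = M^404` and suppose `‖J s m F‖ < η := exp(-M^4429)` for all `m ≤ s < S`.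
`sch` (`A = C D`; `K1 D ≤ S` for `M ≥ K1`): for `t.im = 0`:
`‖F‖ e^(-D q) ≤ exp(C M^400 - M^4432/K1) + exp(-M^4429 + K1 M^1408)` (`S^4/D^3 = M^(5632 - 1200)`), which is
`≤ exp(-Λ)`, `Λ = M^4429/2`, for `M` large (each term `≤ (1/2) exp(-Λ)`: e.g. `M ≥ 4 (C + K1 + 1)` makes
`M^4432/K1 ≥ M^4429 + C M^400 + 1`... ). `spread`: for `|t.im| ≤ r`:
`‖F‖ e^(-Dq) ≤ exp(-M^4429/4 + C M^400 + 8 C M^4428)` (`D r^2 = M^(400 + 4028)`).
`lower` (`K2 D log(r+2) ≤ Jp`: `log(M^2014 + 2) ≤ 2014 log M + 2 ≤ 2016 M`, so `K2 M^400 * 2016 M ≤ M^404` for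
`M ≥ 2016 K2`; `K2 D^2 Jp^3 = K2 M^2012 ≤ M^2014`): some point with `|t.im| ≤ r` has
`‖F‖ e^(-Dq) ≥ exp(-K2 M^4428)`. Contradiction when `M > 4 (9 C + K2) + 4`.
ADVICE: prove the numerical facts in the form `c * M^a ≤ M^b` for `a < b`, `c ≤ M` (a small lemma), never
normalise `M^4429` with `norm_num`; use `pow_add`, `pow_mul` with explicit exponents.
-/

set_option autoImplicit false

namespace CZ

open Complex


private theorem Z1_pow {m k : ℝ} {a b : ℕ} (h1 : 1 ≤ m) (hk : k ≤ m) (hab : a < b) :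
    k * m ^ a ≤ m ^ b := by
  have h0 : 0 ≤ m ^ a := by positivity
  calc k * m ^ a ≤ m * m ^ a := mul_le_mul_of_nonneg_right hk h0
    _ = m ^ (a + 1) := (pow_succ' m a).symm
    _ ≤ m ^ b := pow_le_pow_right₀ h1 hab

private theorem Z1_half {L x y : ℝ} (hx : x ≤ -L - 1) (hy : y ≤ -L - 1) :
    Real.exp x + Real.exp y ≤ Real.exp (-L) := by
  have h1 := Real.exp_le_exp.2 hx
  have h2 := Real.exp_le_exp.2 hy
  have h3 : Real.exp (-L - 1) = Real.exp (-L) * Real.exp (-1) := by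
    rw [← Real.exp_add]
    ring_nf
  have h4 : Real.exp (-1) ≤ 1 / 2 := by
    rw [Real.exp_neg, inv_eq_one_div]
    have h5 := Real.add_one_le_exp (1 : ℝ)
    exact one_div_le_one_div_of_le (by norm_num) (by linarith)
  have h6 := Real.exp_pos (-L)
  nlinarith

/-- the numerical inequalities -/
private theorem Z1_num {m C K1 K2 : ℝ} (hC : 1 ≤ C) (hK1 : 1 ≤ K1) (hK2 : 1 ≤ K2)
    (hm : 2016 * (9 * C + K1 + K2) < m) :
    1 ≤ m ∧ K1 * m ^ 400 ≤ m ^ 1408 ∧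
      C * m ^ 400 - (m ^ 1408) ^ 4 / (K1 * (m ^ 400) ^ 3) ≤ -(m ^ 4429 / 2) - 1 ∧
      -m ^ 4429 + K1 * m ^ 1408 ≤ -(m ^ 4429 / 2) - 1 ∧
      K2 * m ^ 400 * Real.log (m ^ 2014 + 2) ≤ m ^ 404 ∧
      K2 * (m ^ 400) ^ 2 * (m ^ 404) ^ 3 ≤ m ^ 2014 ∧
      -(m ^ 4429 / 2) / 2 + C * m ^ 400 + 8 * C * m ^ 400 * (m ^ 2014) ^ 2 <
        -(K2 * m ^ 400 * (m ^ 2014) ^ 2) := by
  have h1 : 1 ≤ m := by linarith
  have h0 : 0 < m := by linarith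
  have hCm : C ≤ m := by linarith
  have hK1m : K1 ≤ m := by linarith
  have hK2m : K2 ≤ m := by linarith
  have h4 : (4 : ℝ) ≤ m := by linarith
  have p1 : (m ^ 1408) ^ 4 = m ^ 4432 * (m ^ 400) ^ 3 := by
    rw [← pow_mul, ← pow_mul, ← pow_add]
  have p2 : m ^ 400 * (m ^ 2014) ^ 2 = m ^ 4428 := by
    rw [← pow_mul, ← pow_add]
  have p3 : (m ^ 400) ^ 2 * (m ^ 404) ^ 3 = m ^ 2012 := by
    rw [← pow_mul, ← pow_mul, ← pow_add]
  have q0 : C * m ^ 400 ≤ m ^ 4429 := Z1_pow h1 hCm (by norm_num)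
  have q1 : (1 : ℝ) ≤ m ^ 4429 := one_le_pow₀ h1
  have q2 : K1 * m ^ 1408 ≤ m ^ 1409 := Z1_pow h1 hK1m (by norm_num)
  have q3 : 4 * m ^ 1409 ≤ m ^ 4429 := Z1_pow h1 h4 (by norm_num)
  have q4 : (1 : ℝ) ≤ m ^ 1409 := one_le_pow₀ h1
  have q5 : 4 * m ^ 4429 ≤ m ^ 4430 := Z1_pow h1 h4 (by norm_num)
  have q6 : K1 * m ^ 4430 ≤ m ^ 4432 := Z1_pow h1 hK1m (by norm_num)
  refine ⟨h1, Z1_pow h1 hK1m (by norm_num), ?_, ?_, ?_, ?_, ?_⟩
  · rw [p1]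
    have h5 : m ^ 4432 * (m ^ 400) ^ 3 / (K1 * (m ^ 400) ^ 3) = m ^ 4432 / K1 := by
      have : (m ^ 400) ^ 3 ≠ 0 := by positivity
      rw [mul_div_mul_right _ _ this]
    rw [h5]
    have h6 : m ^ 4430 ≤ m ^ 4432 / K1 := by
      rw [le_div_iff₀ (by linarith), mul_comm]
      exact q6
    linarith
  · linarith
  · have h5 : m ^ 2014 + 2 ≤ m ^ 2016 := by
      have h6 : (1 : ℝ) ≤ m ^ 2014 := one_le_pow₀ h1
      have h7 : 4 * m ^ 2014 ≤ m ^ 2016 := Z1_pow h1 h4 (by norm_num)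
      linarith
    have h6 : Real.log (m ^ 2014 + 2) ≤ 2016 * m := by
      have h7 : Real.log (m ^ 2014 + 2) ≤ Real.log (m ^ 2016) :=
        Real.log_le_log (by positivity) h5
      rw [Real.log_pow] at h7
      have h8 := Real.log_le_self h0.le
      have h9 : ((2016 : ℕ) : ℝ) * Real.log m ≤ 2016 * m := by
        push_cast
        linarith
      exact h7.trans h9
    have h7 : 0 ≤ K2 * m ^ 400 := by positivity
    have h8 : (2016 * K2) * m ^ 401 ≤ m ^ 404 := Z1_pow h1 (by linarith) (by norm_num)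
    calc K2 * m ^ 400 * Real.log (m ^ 2014 + 2) ≤ K2 * m ^ 400 * (2016 * m) :=
          mul_le_mul_of_nonneg_left h6 h7
      _ = (2016 * K2) * m ^ 401 := by rw [pow_succ m 400]; ring
      _ ≤ m ^ 404 := h8
  · rw [mul_assoc, p3]
    exact Z1_pow h1 hK2m (by norm_num)
  · have h5 : 8 * C * m ^ 400 * (m ^ 2014) ^ 2 = 8 * C * m ^ 4428 := by
      rw [← p2]; ring
    have h6 : K2 * m ^ 400 * (m ^ 2014) ^ 2 = K2 * m ^ 4428 := by
      rw [← p2]; ring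
    have h7 : m ^ 4429 = m * m ^ 4428 := pow_succ' m 4428
    have h8 : 0 < m ^ 4428 := by positivity
    have h9 : C * m ^ 400 ≤ C * m ^ 4428 :=
      mul_le_mul_of_nonneg_left (pow_le_pow_right₀ h1 (by norm_num)) (by linarith)
    rw [h5, h6, h7]
    have h10 : (4 * (9 * C + K2)) * m ^ 4428 < m * m ^ 4428 :=
      mul_lt_mul_of_pos_right (by linarith) h8
    linarith

variable (c : CData) (b : BaseFn c.z)

theorem ze : ∃ M0 : ℕ, ∀ M : ℕ, M0 ≤ M → ∀ k : (Fin 7 → Fin (M ^ 400 + 1)) → ℂ,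
    (∀ l, ‖k l‖ ≤ 1) → (∃ l, ‖k l‖ = 1) →
      ∃ s m : ℕ, m ≤ s ∧ s < M ^ 1408 ∧
        Real.exp (-(M : ℝ) ^ 4429) ≤ ‖J s m (FF c b (M ^ 400) k)‖ := by
  obtain ⟨C1, hC1, hcov⟩ := cov_data c
  obtain ⟨C2, C', hC2, hq⟩ := q_data c
  obtain ⟨C3, hC3, hF⟩ := FF_data c b
  obtain ⟨C, hC, hC1', hC2', hC3'⟩ : ∃ C : ℝ, 1 ≤ C ∧ C1 ≤ C ∧ C2 ≤ C ∧ C3 ≤ C :=
    ⟨C1 + C2 + C3, by linarith, by linarith, by linarith, by linarith⟩
  have hcov' := hcov C hC1'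
  have hq' := hq C hC2'
  have hF' := hF C hC3'
  obtain ⟨K1, hK1, hsch⟩ := sch hq' hcov'
  obtain ⟨K2, hK2, hlow⟩ := lower c b
  refine ⟨⌈2016 * (9 * C + K1 + K2)⌉₊ + 1, fun M hM k hk hk1 => ?_⟩
  have hm : 2016 * (9 * C + K1 + K2) < (M : ℝ) := by
    have h1 := Nat.le_ceil (2016 * (9 * C + K1 + K2))
    have h2 : ((⌈2016 * (9 * C + K1 + K2)⌉₊ + 1 : ℕ) : ℝ) ≤ M := by exact_mod_cast hM
    push_cast at h2
    linarith
  obtain ⟨n1, n2, n3, n4, n5, n6, n7⟩ := Z1_num hC hK1 hK2 hm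
  have hMpos : 1 ≤ M := by exact_mod_cast n1
  by_contra hcon
  push Not at hcon
  have hDr : ((M ^ 400 : ℕ) : ℝ) = (M : ℝ) ^ 400 := Nat.cast_pow M 400
  have hSr : ((M ^ 1408 : ℕ) : ℝ) = (M : ℝ) ^ 1408 := Nat.cast_pow M 1408
  have hJr : ((M ^ 404 : ℕ) : ℝ) = (M : ℝ) ^ 404 := Nat.cast_pow M 404
  have hD1 : 1 ≤ M ^ 400 := Nat.one_le_pow _ _ hMpos
  have hFD := hF' (M ^ 400) k hD1 hk
  have hC0 : 0 ≤ C := by linarith
  rw [hDr] at hFD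
  have hD1r : (1 : ℝ) ≤ (M : ℝ) ^ 400 := one_le_pow₀ n1
  have hA0 : 0 ≤ C * (M : ℝ) ^ 400 := by positivity
  have hreal : ∀ w t : ℂ, t.im = 0 →
      ‖FF c b (M ^ 400) k (w, t)‖ * Real.exp (-((M : ℝ) ^ 400 * c.q w t)) ≤
        Real.exp (-((M : ℝ) ^ 4429 / 2)) := by
    intro w t ht
    have h1 := hsch ((M : ℝ) ^ 400) (C * (M : ℝ) ^ 400) (Real.exp (-(M : ℝ) ^ 4429)) (M ^ 1408)
      (FF c b (M ^ 400) k) hD1r (by rw [hSr]; exact n2) hA0 (Real.exp_pos _).le hFD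
      (fun s m h1 h2 => (hcon s m h1 h2).le) w t (by rw [ht, abs_zero, hSr]; positivity)
    rw [hSr, ← Real.exp_add] at h1
    exact h1.trans (Z1_half n3 n4)
  have hspr := fun w t ht => spread hq' hFD (by positivity) hA0 (Λ := (M : ℝ) ^ 4429 / 2)
    (r := (M : ℝ) ^ 2014) (by positivity) (by positivity) hreal w t ht
  obtain ⟨w, t, ht, hwt⟩ := hlow (M ^ 400) (M ^ 404) ((M : ℝ) ^ 2014) k hD1
    (by rw [hDr, hJr]; exact n5) (by rw [hDr, hJr]; exact n6) hk hk1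
  rw [hDr] at hwt
  have h1 := hwt.trans (hspr w t ht)
  rw [Real.exp_le_exp] at h1
  linarith

end CZ
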